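import Pool.Agent.MP_eabe7c_an.Defs

open MeasureTheory Set Topology Filter

namespace CAR

variable {X : Type*} [MetricSpace X] [CompactSpace X] [MeasurableSpace X] [BorelSpace X]
  {μ : Measure X}

namespace DForm

variable (D : DForm X μ)

theorem add_right {u v w : C(X, ℝ)} (hu : u ∈ D.dom) (hv : v ∈ D.dom) (hw : w ∈ D.dom) :
    D.E u (v + w) = D.E u v + D.E u w := by
  rw [D.symm u hu _ (D.dom.add_mem hv hw), D.add_left v hv w hw u hu, D.symm v hv u hu,
    D.symm w hw u hu]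

theorem smul_right (a : ℝ) {u v : C(X, ℝ)} (hu : u ∈ D.dom) (hv : v ∈ D.dom) :
    D.E u (a • v) = a * D.E u v := by
  rw [D.symm u hu _ (D.dom.smul_mem a hv), D.smul_left a v hv u hu, D.symm v hv u hu]

theorem neg_left {u v : C(X, ℝ)} (hu : u ∈ D.dom) (hv : v ∈ D.dom) :
    D.E (-u) v = -D.E u v := by
  have := D.smul_left (-1) u hu v hv
  rw [neg_one_smul] at this
  rw [this]; ring

theorem neg_right {u v : C(X, ℝ)} (hu : u ∈ D.dom) (hv : v ∈ D.dom) :
    D.E u (-v) = -D.E u v := by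
  have := D.smul_right (-1) hu hv
  rw [neg_one_smul] at this
  rw [this]; ring

theorem sub_left {u v w : C(X, ℝ)} (hu : u ∈ D.dom) (hv : v ∈ D.dom) (hw : w ∈ D.dom) :
    D.E (u - v) w = D.E u w - D.E v w := by
  rw [sub_eq_add_neg, D.add_left u hu _ (D.dom.neg_mem hv) w hw, D.neg_left hv hw]; ring

theorem sub_right {u v w : C(X, ℝ)} (hu : u ∈ D.dom) (hv : v ∈ D.dom) (hw : w ∈ D.dom) :
    D.E u (v - w) = D.E u v - D.E u w := by
  rw [sub_eq_add_neg, D.add_right hu hv (D.dom.neg_mem hw), D.neg_right hu hw]; ring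

theorem zero_left {v : C(X, ℝ)} (hv : v ∈ D.dom) : D.E 0 v = 0 := by
  have := D.smul_left 0 v hv v hv
  rwa [zero_smul, zero_mul] at this

theorem zero_right {v : C(X, ℝ)} (hv : v ∈ D.dom) : D.E v 0 = 0 := by
  rw [D.symm v hv 0 D.dom.zero_mem, D.zero_left hv]

/-- expansion of `E(u + v)` -/
theorem energy_add {u v : C(X, ℝ)} (hu : u ∈ D.dom) (hv : v ∈ D.dom) :
    D.E (u + v) (u + v) = D.E u u + 2 * D.E u v + D.E v v := by
  rw [D.add_left u hu v hv _ (D.dom.add_mem hu hv), D.add_right hu hu hv, D.add_right hv hu hv,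
    D.symm v hv u hu]; ring

theorem energy_sub {u v : C(X, ℝ)} (hu : u ∈ D.dom) (hv : v ∈ D.dom) :
    D.E (u - v) (u - v) = D.E u u - 2 * D.E u v + D.E v v := by
  rw [D.sub_left hu hv (D.dom.sub_mem hu hv), D.sub_right hu hu hv, D.sub_right hv hu hv,
    D.symm v hv u hu]; ring

theorem energy_smul (a : ℝ) {u : C(X, ℝ)} (hu : u ∈ D.dom) :
    D.E (a • u) (a • u) = a ^ 2 * D.E u u := by
  rw [D.smul_left a u hu _ (D.dom.smul_mem a hu), D.smul_right a hu hu]; ring

theorem energy_neg {u : C(X, ℝ)} (hu : u ∈ D.dom) : D.E (-u) (-u) = D.E u u := by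
  rw [D.neg_left hu (D.dom.neg_mem hu), D.neg_right hu hu]; ring

theorem sum_left {ι : Type*} (s : Finset ι) (u : ι → C(X, ℝ)) (hu : ∀ i ∈ s, u i ∈ D.dom)
    {w : C(X, ℝ)} (hw : w ∈ D.dom) :
    D.E (∑ i ∈ s, u i) w = ∑ i ∈ s, D.E (u i) w := by
  classical
  induction s using Finset.induction_on with
  | empty => simpa using D.zero_left hw
  | insert a s ha ih =>
    rw [Finset.sum_insert ha, Finset.sum_insert ha, D.add_left _ (hu a (by simp)) _
      (D.dom.sum_mem fun i hi => hu i (by simp [hi])) _ hw, ih fun i hi => hu i (by simp [hi])]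

theorem sum_right {ι : Type*} (s : Finset ι) (u : ι → C(X, ℝ)) (hu : ∀ i ∈ s, u i ∈ D.dom)
    {w : C(X, ℝ)} (hw : w ∈ D.dom) :
    D.E w (∑ i ∈ s, u i) = ∑ i ∈ s, D.E w (u i) := by
  rw [D.symm w hw _ (D.dom.sum_mem hu), D.sum_left s u hu hw]
  exact Finset.sum_congr rfl fun i hi => D.symm _ (hu i hi) _ hw

/-- Cauchy–Schwarz -/
theorem cauchy_schwarz {u v : C(X, ℝ)} (hu : u ∈ D.dom) (hv : v ∈ D.dom) :
    D.E u v ^ 2 ≤ D.E u u * D.E v v := by
  have h : ∀ t : ℝ, 0 ≤ D.E u u * (t * t) + 2 * D.E u v * t + D.E v v := by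
    intro t
    have h1 := D.nonneg _ (D.dom.add_mem (D.dom.smul_mem t hu) hv)
    rw [D.energy_add (D.dom.smul_mem t hu) hv, D.energy_smul t hu, D.smul_left t u hu v hv] at h1
    linarith
  have := discrim_le_zero h
  unfold discrim at this
  nlinarith

theorem E_eq_zero_of_energy_zero {u v : C(X, ℝ)} (hu : u ∈ D.dom) (hv : v ∈ D.dom)
    (h0 : D.E u u = 0) : D.E u v = 0 := by
  have := D.cauchy_schwarz hu hv
  rw [h0, zero_mul] at this
  exact pow_eq_zero_iff (two_ne_zero) |>.1 (le_antisymm this (sq_nonneg _))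

/-- triangle inequality in the form `E(u+v) ≤ 2E(u) + 2E(v)` -/
theorem energy_add_le {u v : C(X, ℝ)} (hu : u ∈ D.dom) (hv : v ∈ D.dom) :
    D.E (u + v) (u + v) ≤ 2 * D.E u u + 2 * D.E v v := by
  have h1 := D.nonneg _ (D.dom.sub_mem hu hv)
  rw [D.energy_sub hu hv] at h1
  rw [D.energy_add hu hv]; linarith

/-! ### lattice and algebra -/

theorem one_mem : (1 : C(X, ℝ)) ∈ D.dom := by
  obtain ⟨g, hg, hd⟩ := Metric.dense_iff.1 D.dense (ContinuousMap.const X 2) 1 one_pos
  have hg1 : ∀ x, 1 ≤ g x := by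
    intro x
    rw [Metric.mem_ball] at hg
    have h1 := (ContinuousMap.dist_lt_iff one_pos).1 hg x
    simp only [ContinuousMap.const_apply, Real.dist_eq] at h1
    have := (abs_lt.1 h1).1
    linarith
  refine (D.contraction g hd 1 (fun x => ?_) (fun x y => ?_)).1
  · simp only [ContinuousMap.one_apply, abs_one]
    exact (hg1 x).trans (le_abs_self _)
  · simp

theorem const_mem (c : ℝ) : ContinuousMap.const X c ∈ D.dom := by
  have := D.dom.smul_mem c D.one_mem
  convert this using 1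
  ext x; simp

theorem one_left {u : C(X, ℝ)} (hu : u ∈ D.dom) : D.E 1 u = 0 := by
  rw [D.symm _ D.one_mem _ hu]
  exact D.strongLocal u hu 1 D.one_mem ⟨1, univ, isOpen_univ, subset_univ _, fun x _ => rfl⟩

theorem const_left (c : ℝ) {u : C(X, ℝ)} (hu : u ∈ D.dom) :
    D.E (ContinuousMap.const X c) u = 0 := by
  have h : ContinuousMap.const X c = c • (1 : C(X, ℝ)) := by ext x; simp
  rw [h, D.smul_left c 1 D.one_mem u hu, D.one_left hu, mul_zero]

theorem const_right (c : ℝ) {u : C(X, ℝ)} (hu : u ∈ D.dom) :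
    D.E u (ContinuousMap.const X c) = 0 := by
  rw [D.symm u hu _ (D.const_mem c), D.const_left c hu]

theorem energy_sub_const (c : ℝ) {u : C(X, ℝ)} (hu : u ∈ D.dom) :
    D.E (u - ContinuousMap.const X c) (u - ContinuousMap.const X c) = D.E u u := by
  rw [D.energy_sub hu (D.const_mem c), D.const_right c hu, D.const_left c (D.const_mem c)]
  ring

theorem abs_mem {u : C(X, ℝ)} (hu : u ∈ D.dom) : |u| ∈ D.dom ∧ D.E |u| |u| ≤ D.E u u := by
  refine D.contraction u hu |u| (fun x => ?_) (fun x y => ?_)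
  · simp [ContinuousMap.abs_apply]
  · simp only [ContinuousMap.abs_apply]
    exact abs_abs_sub_abs_le_abs_sub _ _

theorem sup_eq (u v : C(X, ℝ)) : u ⊔ v = (1 / 2 : ℝ) • (u + v + |u - v|) := by
  ext x
  simp only [ContinuousMap.sup_apply, ContinuousMap.smul_apply, ContinuousMap.add_apply,
    ContinuousMap.abs_apply, ContinuousMap.sub_apply, smul_eq_mul]
  rcases le_total (u x) (v x) with h | h
  · rw [sup_eq_right.2 h, abs_of_nonpos (by linarith)]; ring
  · rw [sup_eq_left.2 h, abs_of_nonneg (by linarith)]; ring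

theorem inf_eq (u v : C(X, ℝ)) : u ⊓ v = (1 / 2 : ℝ) • (u + v - |u - v|) := by
  ext x
  simp only [ContinuousMap.inf_apply, ContinuousMap.smul_apply, ContinuousMap.add_apply,
    ContinuousMap.abs_apply, ContinuousMap.sub_apply, smul_eq_mul]
  rcases le_total (u x) (v x) with h | h
  · rw [inf_eq_left.2 h, abs_of_nonpos (by linarith)]; ring
  · rw [inf_eq_right.2 h, abs_of_nonneg (by linarith)]; ring

theorem sup_mem {u v : C(X, ℝ)} (hu : u ∈ D.dom) (hv : v ∈ D.dom) : u ⊔ v ∈ D.dom := by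
  rw [sup_eq]
  exact D.dom.smul_mem _ (D.dom.add_mem (D.dom.add_mem hu hv) (D.abs_mem (D.dom.sub_mem hu hv)).1)

theorem inf_mem {u v : C(X, ℝ)} (hu : u ∈ D.dom) (hv : v ∈ D.dom) : u ⊓ v ∈ D.dom := by
  rw [inf_eq]
  exact D.dom.smul_mem _ (D.dom.sub_mem (D.dom.add_mem hu hv) (D.abs_mem (D.dom.sub_mem hu hv)).1)

theorem energy_sup_inf {u v : C(X, ℝ)} (hu : u ∈ D.dom) (hv : v ∈ D.dom) :
    D.E (u ⊔ v) (u ⊔ v) + D.E (u ⊓ v) (u ⊓ v) ≤ D.E u u + D.E v v := by
  have hs := D.dom.add_mem hu hv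
  obtain ⟨ha, hb⟩ := D.abs_mem (D.dom.sub_mem hu hv)
  rw [sup_eq, inf_eq, D.energy_smul _ (D.dom.add_mem hs ha), D.energy_smul _ (D.dom.sub_mem hs ha),
    D.energy_add hs ha, D.energy_sub hs ha, D.energy_add hu hv]
  rw [D.energy_sub hu hv] at hb
  linarith

/-- positive part -/
theorem pos_mem {u : C(X, ℝ)} (hu : u ∈ D.dom) : u ⊔ 0 ∈ D.dom := D.sup_mem hu D.dom.zero_mem

theorem sq_mem {u : C(X, ℝ)} (hu : u ∈ D.dom) : u * u ∈ D.dom := by
  set M : ℝ := 2 * ‖u‖ + 1 with hM
  have hM0 : 0 < M := by positivity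
  refine (D.contraction (M • u) (D.dom.smul_mem M hu) (u * u) (fun x => ?_) (fun x y => ?_)).1
  · simp only [ContinuousMap.mul_apply, ContinuousMap.smul_apply, smul_eq_mul, abs_mul,
      abs_of_pos hM0]
    have h1 : |u x| ≤ ‖u‖ := by
      simpa [Real.norm_eq_abs] using u.norm_coe_le_norm x
    exact mul_le_mul_of_nonneg_right (by linarith [norm_nonneg u]) (abs_nonneg _)
  · simp only [ContinuousMap.mul_apply, ContinuousMap.smul_apply, smul_eq_mul]
    have h1 : |u x| ≤ ‖u‖ := by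
      simpa [Real.norm_eq_abs] using u.norm_coe_le_norm x
    have h2 : |u y| ≤ ‖u‖ := by
      simpa [Real.norm_eq_abs] using u.norm_coe_le_norm y
    have h3 : u x * u x - u y * u y = (u x + u y) * (u x - u y) := by ring
    have h4 : M * u x - M * u y = M * (u x - u y) := by ring
    rw [h3, h4, abs_mul, abs_mul, abs_of_pos hM0]
    refine mul_le_mul_of_nonneg_right ?_ (abs_nonneg _)
    calc |u x + u y| ≤ |u x| + |u y| := abs_add_le _ _
      _ ≤ M := by linarith

theorem mul_mem {u v : C(X, ℝ)} (hu : u ∈ D.dom) (hv : v ∈ D.dom) : u * v ∈ D.dom := by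
  have h : u * v = (1 / 4 : ℝ) • ((u + v) * (u + v) - (u - v) * (u - v)) := by
    ext x
    simp only [ContinuousMap.mul_apply, ContinuousMap.smul_apply, ContinuousMap.add_apply,
      ContinuousMap.sub_apply, smul_eq_mul]
    ring
  rw [h]
  exact D.dom.smul_mem _ (D.dom.sub_mem (D.sq_mem (D.dom.add_mem hu hv))
    (D.sq_mem (D.dom.sub_mem hu hv)))

/-- two functions with disjoint supports -/
theorem local_disjoint {u v : C(X, ℝ)} (hu : u ∈ D.dom) (hv : v ∈ D.dom)
    (h : Disjoint (tsupport u) (tsupport v)) : D.E u v = 0 := by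
  refine D.strongLocal u hu v hv ⟨0, (tsupport v)ᶜ, (isClosed_tsupport v).isOpen_compl, ?_, ?_⟩
  · exact h.subset_compl_right
  · intro x hx
    exact image_eq_zero_of_notMem_tsupport hx

/-- cutoff functions -/
theorem cutoff {K U : Set X} (hK : IsClosed K) (hU : IsOpen U) (hKU : K ⊆ U) :
    ∃ φ ∈ D.dom, (∀ x, 0 ≤ φ x) ∧ (∀ x, φ x ≤ 1) ∧ (∀ x ∈ K, φ x = 1) ∧ tsupport φ ⊆ U := by
  obtain ⟨W, hW, hKW, hWU⟩ := normal_exists_closure_subset hK hU hKU
  obtain ⟨f, hf0, hf1, hf⟩ := exists_continuous_zero_one_of_isClosed hW.isClosed_compl hK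
    (by rw [Set.disjoint_left]; intro x hx hx'; exact hx (hKW hx'))
  -- `4 f - 1` is `-1` off `W` and `3` on `K`
  obtain ⟨g, hg, hgd⟩ := Metric.dense_iff.1 D.dense ((4 : ℝ) • f - 1) (1 / 2) (by norm_num)
  rw [Metric.mem_ball, ContinuousMap.dist_lt_iff (by norm_num)] at hg
  refine ⟨(g ⊔ 0) ⊓ 1, D.inf_mem (D.pos_mem hgd) D.one_mem, ?_, ?_, ?_, ?_⟩
  · intro x
    simp only [ContinuousMap.inf_apply, ContinuousMap.sup_apply, ContinuousMap.zero_apply,
      ContinuousMap.one_apply]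
    exact le_inf le_sup_right zero_le_one
  · intro x
    simp only [ContinuousMap.inf_apply, ContinuousMap.one_apply]
    exact inf_le_right
  · intro x hx
    have h1 := hg x
    have h2 : f x = 1 := hf1 hx
    simp only [ContinuousMap.sub_apply, ContinuousMap.smul_apply, ContinuousMap.one_apply,
      smul_eq_mul, h2, Real.dist_eq] at h1
    have h3 := (abs_lt.1 h1).1
    simp only [ContinuousMap.inf_apply, ContinuousMap.sup_apply, ContinuousMap.zero_apply,
      ContinuousMap.one_apply]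
    rw [inf_eq_right]
    exact le_sup_of_le_left (by linarith)
  · refine (closure_mono ?_).trans hWU
    intro x hx
    by_contra hxW
    apply hx
    have h1 := hg x
    have h2 : f x = 0 := hf0 hxW
    simp only [ContinuousMap.sub_apply, ContinuousMap.smul_apply, ContinuousMap.one_apply,
      smul_eq_mul, h2, Real.dist_eq] at h1
    have h3 := (abs_lt.1 h1).2
    simp only [ContinuousMap.inf_apply, ContinuousMap.sup_apply, ContinuousMap.zero_apply,
      ContinuousMap.one_apply]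
    rw [sup_eq_right.2 (by linarith : g x ≤ 0)]
    norm_num

end DForm

end CAR
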