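import Pool.Agent.MP_eabe7c_an.Dir

open MeasureTheory Set Topology Filter

namespace CAR

variable {X : Type*} [MetricSpace X] [CompactSpace X] [PreconnectedSpace X] [MeasurableSpace X] [BorelSpace X]
  {μ : Measure X}

namespace DForm

/-- [CAR-G] functions harmonic off finite sets are dense among the functions harmonic off `V` -/
theorem approx [IsFiniteMeasure μ] [μ.IsOpenPosMeasure] (D : DForm X μ) {V : Set X}
    (hV : IsClosed V) (hVn : V.Nonempty) {h : C(X, ℝ)} (hh : D.HarmonicOff V h) {ε : ℝ}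
    (hε : 0 < ε) :
    ∃ P : Set X, P.Finite ∧ P.Nonempty ∧ P ⊆ V ∧ ∃ w : C(X, ℝ), D.HarmonicOff P w ∧
      (∀ x ∈ P, w x = h x) ∧ D.E (h - w) (h - w) < ε ∧ ∀ x, |h x - w x| < ε := by
  classical
  obtain ⟨hhd, hharm⟩ := hh
  have : Nonempty V := hVn.to_subtype
  set d : ℕ → V := TopologicalSpace.denseSeq V with hd
  have hdense : DenseRange d := TopologicalSpace.denseRange_denseSeq V
  set P : ℕ → Set X := fun n => (fun k => (d k : X)) '' Set.Iic n with hP
  have hPn : ∀ n, (P n).Nonempty := fun n => ⟨d 0, 0, Nat.zero_le n, rfl⟩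
  have hPmono : ∀ m n, m ≤ n → P m ⊆ P n := by
    rintro m n hmn _ ⟨k, hk, rfl⟩
    exact ⟨k, le_trans hk hmn, rfl⟩
  have hPV : ∀ n, P n ⊆ V := by
    rintro n _ ⟨k, -, rfl⟩
    exact (d k).2
  have hex : ∀ n, ∃ u ∈ D.dom, (∀ y ∈ P n, u y = h y) ∧
      ∀ g ∈ D.dom, (∀ y ∈ P n, g y = 0) → D.E u g = 0 := by
    intro n
    obtain ⟨u, hu, hu1, hu2⟩ := D.dirichlet (hPn n) (ι := Fin 0) (fun i => i.elim0)
      (fun i => i.elim0) (fun i => i.elim0) hhd
    refine ⟨u, hu, hu1, fun g hg hg0 => ?_⟩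
    have := hu2 g hg hg0
    simpa using this
  choose w hwd hwP hwE using hex
  -- energies
  have hdiff : ∀ n m, n ≤ m →
      D.E (w m - w n) (w m - w n) = D.E (w m) (w m) - D.E (w n) (w n) := by
    intro n m hnm
    have h1 : D.E (w n) (w m - w n) = 0 := by
      refine hwE n _ (D.dom.sub_mem (hwd m) (hwd n)) fun y hy => ?_
      rw [ContinuousMap.sub_apply, hwP n y hy, hwP m y (hPmono n m hnm hy), sub_self]
    rw [D.sub_right (hwd n) (hwd m) (hwd n)] at h1
    rw [D.energy_sub (hwd m) (hwd n), D.symm _ (hwd m) _ (hwd n)]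
    linarith
  have hle : ∀ n, D.E (w n) (w n) ≤ D.E h h := by
    intro n
    have h1 : D.E (w n) (h - w n) = 0 := by
      refine hwE n _ (D.dom.sub_mem hhd (hwd n)) fun y hy => ?_
      rw [ContinuousMap.sub_apply, hwP n y hy, sub_self]
    rw [D.sub_right (hwd n) hhd (hwd n)] at h1
    have h2 := D.nonneg _ (D.dom.sub_mem hhd (hwd n))
    rw [D.energy_sub hhd (hwd n), D.symm _ hhd _ (hwd n)] at h2
    linarith
  have hmono : Monotone fun n => D.E (w n) (w n) := by
    intro n m hnm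
    have h1 := hdiff n m hnm
    have h2 := D.nonneg _ (D.dom.sub_mem (hwd m) (hwd n))
    simp only
    linarith
  have hconv : Tendsto (fun n => D.E (w n) (w n)) atTop (𝓝 (⨆ n, D.E (w n) (w n))) := by
    refine tendsto_atTop_ciSup hmono ⟨D.E h h, ?_⟩
    rintro _ ⟨n, rfl⟩
    exact hle n
  have hcauchy : ∀ δ > 0, ∃ N, ∀ m ≥ N, ∀ n ≥ N, D.E (w m - w n) (w m - w n) < δ := by
    intro δ hδ
    obtain ⟨N, hN⟩ := Metric.cauchySeq_iff.1 hconv.cauchySeq δ hδ
    refine ⟨N, fun m hm n hn => ?_⟩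
    have h1 := hN m hm n hn
    rw [Real.dist_eq] at h1
    rcases le_total n m with hnm | hnm
    · rw [hdiff n m hnm]
      exact lt_of_le_of_lt (le_abs_self _) h1
    · have h2 := D.energy_neg (D.dom.sub_mem (hwd m) (hwd n))
      rw [neg_sub] at h2
      rw [← h2, hdiff m n hnm]
      rw [abs_sub_comm] at h1
      exact lt_of_le_of_lt (le_abs_self _) h1
  have h0 : CauchySeq fun n => w n (d 0 : X) := by
    have : (fun n => w n (d 0 : X)) = fun _ => h (d 0 : X) := by
      funext n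
      exact hwP n _ ⟨0, Nat.zero_le n, rfl⟩
    rw [this]
    exact tendsto_const_nhds.cauchySeq
  obtain ⟨v, hvd, hvE, hvt⟩ := D.complete (d 0 : X) w hwd hcauchy h0
  have hpt : ∀ x, Tendsto (fun n => w n x) atTop (𝓝 (v x)) := by
    intro x
    exact ((continuous_eval_const (F := C(X, ℝ)) x).tendsto v).comp hvt
  -- `v = h` on `V`
  have hvV : ∀ x ∈ V, v x = h x := by
    have h1 : (fun x : V => v x) = fun x : V => h x := by
      refine hdense.equalizer (v.continuous.comp continuous_subtype_val)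
        (h.continuous.comp continuous_subtype_val) ?_
      funext k
      refine tendsto_nhds_unique (hpt (d k)) ?_
      refine tendsto_const_nhds.congr' ?_
      filter_upwards [eventually_ge_atTop k] with n hn
      exact (hwP n _ ⟨k, hn, rfl⟩).symm
    intro x hx
    exact congrFun h1 ⟨x, hx⟩
  -- `v` is harmonic off `V`
  have hvH : ∀ g ∈ D.dom, (∀ y ∈ V, g y = 0) → D.E v g = 0 := by
    intro g hg hg0
    have h1 : ∀ n, (D.E v g) ^ 2 ≤ D.E (w n - v) (w n - v) * D.E g g := by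
      intro n
      have h2 := D.cauchy_schwarz (D.dom.sub_mem (hwd n) hvd) hg
      rw [D.sub_left (hwd n) hvd hg, hwE n g hg fun y hy => hg0 y (hPV n hy)] at h2
      simpa using h2
    have h2 : (D.E v g) ^ 2 ≤ 0 := by
      refine ge_of_tendsto' (x := atTop) ?_ h1
      have := hvE.mul_const (D.E g g)
      simpa using this
    exact pow_eq_zero_iff (two_ne_zero) |>.1 (le_antisymm h2 (sq_nonneg _))
  have hvh : v = h := by
    have hud : v - h ∈ D.dom := D.dom.sub_mem hvd hhd
    have hu0 : ∀ y ∈ V, (v - h) y = 0 := by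
      intro y hy
      rw [ContinuousMap.sub_apply, hvV y hy, sub_self]
    have hE0 : D.E (v - h) (v - h) = 0 := by
      rw [D.sub_left hvd hhd hud, hvH _ hud hu0, hharm _ hud hu0, sub_self]
    obtain ⟨c, hc⟩ := D.irreducible _ hud hE0
    obtain ⟨y, hy⟩ := hVn
    have hc0 : c = 0 := by rw [← hc y, hu0 y hy]
    ext x
    have := hc x
    rw [ContinuousMap.sub_apply, hc0] at this
    linarith
  subst hvh
  have hev1 : ∀ᶠ n in atTop, D.E (w n - v) (w n - v) < ε := (tendsto_order.1 hvE).2 ε hε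
  have hev2 : ∀ᶠ n in atTop, dist (w n) v < ε := (Metric.tendsto_nhds.1 hvt) ε hε
  obtain ⟨n, hn1, hn2⟩ := (hev1.and hev2).exists
  refine ⟨P n, (Set.finite_Iic n).image _, hPn n, hPV n, w n, ⟨hwd n, hwE n⟩, hwP n, ?_, ?_⟩
  · have h2 := D.energy_neg (D.dom.sub_mem (hwd n) hhd)
    rw [neg_sub] at h2
    rw [h2]
    exact hn1
  · intro x
    have h3 : dist (w n x) (v x) ≤ dist (w n) v := ContinuousMap.dist_apply_le_dist x
    rw [Real.dist_eq, abs_sub_comm] at h3
    exact lt_of_le_of_lt h3 hn2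

end DForm

end CAR
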