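import Pool.Agent.MP_eabe7c_an.Defs

open Set Topology Filter

namespace CAR

/-! ### gaps -/

/-- the fractional part of `y` is in `(1/3, 2/3)` -/
def G0 (y : ℝ) : Prop := ∃ i : ℤ, (i : ℝ) + 1 / 3 < y ∧ y < i + 2 / 3

theorem G0_add_int (y : ℝ) (k : ℤ) : G0 (y + k) ↔ G0 y := by
  constructor
  · rintro ⟨i, h1, h2⟩
    refine ⟨i - k, ?_, ?_⟩ <;> push_cast <;> linarith
  · rintro ⟨i, h1, h2⟩
    refine ⟨i + k, ?_, ?_⟩ <;> push_cast <;> linarith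

theorem G0_neg (y : ℝ) : G0 (-y) ↔ G0 y := by
  constructor
  · rintro ⟨i, h1, h2⟩
    refine ⟨-i - 1, ?_, ?_⟩ <;> push_cast <;> linarith
  · rintro ⟨i, h1, h2⟩
    refine ⟨-i - 1, ?_, ?_⟩ <;> push_cast <;> linarith

/-- `G0` fails if the distance to an integer from above or below is at most `1/3`. -/
theorem not_G0 (y : ℝ) (k : ℤ) (h1 : (k : ℝ) - 1 / 3 ≤ y) (h2 : y ≤ k + 1 / 3) : ¬ G0 y := by
  rintro ⟨i, h3, h4⟩
  have h5 : (k : ℝ) - 1 / 3 < i + 2 / 3 := lt_of_le_of_lt h1 h4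
  have h6 : (i : ℝ) + 1 / 3 < k + 1 / 3 := lt_of_lt_of_le h3 h2
  have h7 : (k : ℝ) < i + 1 := by linarith
  have h8 : (i : ℝ) < k := by linarith
  have h9 : k < i + 1 := by exact_mod_cast h7
  have h10 : i < k := by exact_mod_cast h8
  omega

theorem not_G0_int (k : ℤ) : ¬ G0 (k : ℝ) := not_G0 k k (by linarith) (by linarith)

theorem mem_gap (n : ℕ) (x : ℝ) (hx : 0 ≤ x) :
    (∃ i : ℕ, x ∈ Ioo ((3 * i + 1 : ℝ) / 3 ^ (n + 1)) ((3 * i + 2 : ℝ) / 3 ^ (n + 1))) ↔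
      G0 (3 ^ n * x) := by
  have h3 : (0 : ℝ) < 3 ^ (n + 1) := by positivity
  have h3' : (0 : ℝ) < 3 ^ n := by positivity
  constructor
  · rintro ⟨i, h1, h2⟩
    rw [div_lt_iff₀ h3, pow_succ] at h1
    rw [lt_div_iff₀ h3, pow_succ] at h2
    refine ⟨i, ?_, ?_⟩
    · push_cast; linarith
    · push_cast; linarith
  · rintro ⟨i, h1, h2⟩
    have h4 : (0 : ℝ) ≤ 3 ^ n * x := by positivity
    have h5 : (-1 : ℝ) < i := by linarith
    have h6 : (-1 : ℤ) < i := by exact_mod_cast h5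
    obtain ⟨j, rfl⟩ := Int.eq_ofNat_of_zero_le (by omega : (0 : ℤ) ≤ i)
    refine ⟨j, ?_, ?_⟩
    · rw [div_lt_iff₀ h3, pow_succ]
      push_cast at h1
      linarith
    · rw [lt_div_iff₀ h3, pow_succ]
      push_cast at h2
      linarith

theorem mem_carpet_iff {p : ℝ × ℝ} : p ∈ carpet ↔ (p.1 ∈ Icc (0 : ℝ) 1 ∧ p.2 ∈ Icc (0 : ℝ) 1) ∧
    ∀ n : ℕ, ¬ (G0 (3 ^ n * p.1) ∧ G0 (3 ^ n * p.2)) := by
  constructor
  · rintro ⟨h, h'⟩
    refine ⟨h, fun n hn => ?_⟩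
    obtain ⟨i, hi⟩ := (mem_gap n p.1 h.1.1).2 hn.1
    obtain ⟨j, hj⟩ := (mem_gap n p.2 h.2.1).2 hn.2
    exact h' n i j ⟨hi, hj⟩
  · rintro ⟨h, h'⟩
    exact ⟨h, fun n i j hn => h' n ⟨(mem_gap n p.1 h.1.1).1 ⟨i, hn.1⟩,
      (mem_gap n p.2 h.2.1).1 ⟨j, hn.2⟩⟩⟩

theorem isClosed_carpet : IsClosed carpet := by
  have h : carpet = (Icc (0 : ℝ) 1 ×ˢ Icc (0 : ℝ) 1) ∩ ⋂ n : ℕ, ⋂ i : ℕ, ⋂ j : ℕ,
      (Ioo ((3 * i + 1 : ℝ) / 3 ^ (n + 1)) ((3 * i + 2 : ℝ) / 3 ^ (n + 1)) ×ˢ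
        Ioo ((3 * j + 1 : ℝ) / 3 ^ (n + 1)) ((3 * j + 2 : ℝ) / 3 ^ (n + 1)))ᶜ := by
    ext p
    simp only [carpet, mem_ofPred_eq, mem_inter_iff, mem_prod, mem_iInter, mem_compl_iff]
  rw [h]
  refine (isClosed_Icc.prod isClosed_Icc).inter ?_
  refine isClosed_iInter fun n => isClosed_iInter fun i => isClosed_iInter fun j => ?_
  exact (isOpen_Ioo.prod isOpen_Ioo).isClosed_compl

theorem isCompact_carpet : IsCompact carpet :=
  (isCompact_Icc.prod isCompact_Icc).of_isClosed_subset isClosed_carpet fun p hp => hp.1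

instance : CompactSpace carpet := isCompact_iff_compactSpace.1 isCompact_carpet

/-- the boundary of the unit square is in the carpet -/
theorem mem_carpet_of_boundary {p : ℝ × ℝ} (h1 : p.1 ∈ Icc (0 : ℝ) 1) (h2 : p.2 ∈ Icc (0 : ℝ) 1)
    (h : p.1 = 0 ∨ p.1 = 1 ∨ p.2 = 0 ∨ p.2 = 1) : p ∈ carpet := by
  have h0 : ∀ n : ℕ, ¬ G0 (3 ^ n * 0) := fun n => by
    have := not_G0_int 0
    rwa [mul_zero, ← Int.cast_zero]
  have h1' : ∀ n : ℕ, ¬ G0 (3 ^ n * 1) := fun n => by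
    have := not_G0_int ((3 : ℤ) ^ n)
    push_cast at this
    rwa [mul_one]
  rw [mem_carpet_iff]
  refine ⟨⟨h1, h2⟩, fun n hn => ?_⟩
  rcases h with h | h | h | h
  · rw [h] at hn; exact h0 n hn.1
  · rw [h] at hn; exact h1' n hn.1
  · rw [h] at hn; exact h0 n hn.2
  · rw [h] at hn; exact h1' n hn.2

theorem swap_mem_carpet {p : ℝ × ℝ} : (p.2, p.1) ∈ carpet ↔ p ∈ carpet := by
  rw [mem_carpet_iff, mem_carpet_iff]
  constructor
  · rintro ⟨⟨h1, h2⟩, h3⟩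
    exact ⟨⟨h2, h1⟩, fun n hn => h3 n ⟨hn.2, hn.1⟩⟩
  · rintro ⟨⟨h1, h2⟩, h3⟩
    exact ⟨⟨h2, h1⟩, fun n hn => h3 n ⟨hn.2, hn.1⟩⟩

theorem G0_flip (n : ℕ) (x : ℝ) : G0 (3 ^ n * (1 - x)) ↔ G0 (3 ^ n * x) := by
  rw [← G0_neg (3 ^ n * x), ← G0_add_int (-(3 ^ n * x)) (3 ^ n)]
  push_cast
  rw [show (3 : ℝ) ^ n * (1 - x) = -(3 ^ n * x) + 3 ^ n by ring]

theorem flip_mem_carpet {p : ℝ × ℝ} : (1 - p.1, p.2) ∈ carpet ↔ p ∈ carpet := by
  rw [mem_carpet_iff, mem_carpet_iff]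
  simp only [G0_flip, mem_Icc]
  refine and_congr_left fun _ => ?_
  constructor
  · rintro ⟨⟨h1, h2⟩, h3⟩
    exact ⟨⟨by linarith, by linarith⟩, h3⟩
  · rintro ⟨⟨h1, h2⟩, h3⟩
    exact ⟨⟨by linarith, by linarith⟩, h3⟩

/-! ### the digit criterion -/

/-- levels `≥ n` -/
theorem G0_high (n m : ℕ) (i : ℕ) (x : ℝ) :
    G0 (3 ^ (n + m) * ((x + i) / 3 ^ n)) ↔ G0 (3 ^ m * x) := by
  have h3 : (3 : ℝ) ^ n ≠ 0 := by positivity
  rw [← G0_add_int (3 ^ m * x) ((3 : ℤ) ^ m * i)]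
  push_cast
  rw [show (3 : ℝ) ^ (n + m) * ((x + i) / 3 ^ n) = 3 ^ m * x + 3 ^ m * i by
    rw [pow_add]; field_simp]

theorem low_eq (k m : ℕ) (i : ℕ) (x : ℝ) :
    (3 : ℝ) ^ m * ((x + i) / 3 ^ (m + (k + 1))) = (x + i) / 3 ^ (k + 1) := by
  have h3 : (3 : ℝ) ^ m ≠ 0 := by positivity
  rw [pow_add]
  field_simp

/-- levels `< n`, one direction -/
theorem digit_of_G0 (k m : ℕ) (i : ℕ) (x : ℝ) (h0 : 0 ≤ x) (h1 : x ≤ 1)
    (h : G0 (3 ^ m * ((x + i) / 3 ^ (m + (k + 1))))) : i / 3 ^ k % 3 = 1 := by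
  rw [low_eq] at h
  obtain ⟨a, h2, h3⟩ := h
  have hp : (0 : ℝ) < 3 ^ k := by positivity
  have hp' : (0 : ℝ) < 3 ^ (k + 1) := by positivity
  rw [lt_div_iff₀ hp', pow_succ] at h2
  rw [div_lt_iff₀ hp', pow_succ] at h3
  have h4 : (3 ^ k * (3 * a + 1) : ℝ) < i + 1 := by linarith
  have h5 : (i : ℝ) < 3 ^ k * (3 * a + 2) := by linarith
  have h6 : (3 ^ k * (3 * a + 1) : ℤ) < i + 1 := by exact_mod_cast h4
  have h7 : (i : ℤ) < 3 ^ k * (3 * a + 2) := by exact_mod_cast h5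
  have h8 : (i : ℤ) / 3 ^ k = 3 * a + 1 := by
    have hpz : (0 : ℤ) < 3 ^ k := by positivity
    apply le_antisymm
    · have : (i : ℤ) / 3 ^ k < 3 * a + 2 := by
        rw [Int.ediv_lt_iff_lt_mul hpz]; linarith
      omega
    · rw [Int.le_ediv_iff_mul_le hpz]; linarith
  have h9 : ((i / 3 ^ k : ℕ) : ℤ) = 3 * a + 1 := by
    push_cast; exact h8
  omega

/-- levels `< n`, other direction -/
theorem G0_of_digit (k m : ℕ) (i : ℕ) (x : ℝ) (h0 : 0 < x) (h1 : x < 1)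
    (h : i / 3 ^ k % 3 = 1) : G0 (3 ^ m * ((x + i) / 3 ^ (m + (k + 1)))) := by
  rw [low_eq]
  obtain ⟨a, ha⟩ : ∃ a, i / 3 ^ k = 3 * a + 1 := ⟨i / 3 ^ k / 3, by omega⟩
  have hpn : 0 < 3 ^ k := by positivity
  have h2 : 3 ^ k * (3 * a + 1) ≤ i := by
    rw [← ha]; exact Nat.mul_div_le i (3 ^ k)
  have h3 : i < 3 ^ k * (3 * a + 2) := by
    have := Nat.lt_mul_div_succ i hpn
    rwa [ha] at this
  have hp : (0 : ℝ) < 3 ^ k := by positivity
  have hp' : (0 : ℝ) < 3 ^ (k + 1) := by positivity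
  have h2' : (3 ^ k * (3 * a + 1) : ℝ) ≤ i := by exact_mod_cast h2
  have h3' : ((i + 1 : ℕ) : ℝ) ≤ 3 ^ k * (3 * a + 2) := by exact_mod_cast h3
  push_cast at h3'
  refine ⟨a, ?_, ?_⟩
  · rw [lt_div_iff₀ hp', pow_succ]
    push_cast
    linarith
  · rw [div_lt_iff₀ hp', pow_succ]
    push_cast
    linarith

theorem third_mem : ((1 / 3 : ℝ), (1 / 3 : ℝ)) ∈ carpet := by
  rw [mem_carpet_iff]
  refine ⟨⟨⟨by norm_num, by norm_num⟩, ⟨by norm_num, by norm_num⟩⟩, fun n hn => ?_⟩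
  rcases n with _ | n
  · exact not_G0 _ 0 (by norm_num) (by norm_num) hn.1
  · refine not_G0_int ((3 : ℤ) ^ n) ?_
    have := hn.1
    push_cast
    rwa [show (3 : ℝ) ^ n = 3 ^ (n + 1) * (1 / 3) by rw [pow_succ]; ring]

/-- the digit criterion -/
theorem isCell_iff {n i j : ℕ} : IsCell n i j ↔ i < 3 ^ n ∧ j < 3 ^ n ∧
    ∀ k < n, ¬ (i / 3 ^ k % 3 = 1 ∧ j / 3 ^ k % 3 = 1) := by
  constructor
  · rintro ⟨hi, hj, h⟩
    refine ⟨hi, hj, fun k hk hd => ?_⟩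
    obtain ⟨m, rfl⟩ : ∃ m, n = m + (k + 1) := ⟨n - (k + 1), by omega⟩
    have h1 := (h ((1 / 3 : ℝ), (1 / 3 : ℝ)) ⟨by norm_num, by norm_num⟩
      ⟨by norm_num, by norm_num⟩).1 third_mem
    rw [mem_carpet_iff] at h1
    exact h1.2 m ⟨G0_of_digit k m i _ (by norm_num) (by norm_num) hd.1,
      G0_of_digit k m j _ (by norm_num) (by norm_num) hd.2⟩
  · rintro ⟨hi, hj, h⟩
    refine ⟨hi, hj, fun p hp1 hp2 => ?_⟩
    rw [mem_carpet_iff, mem_carpet_iff]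
    have h3 : (0 : ℝ) < 3 ^ n := by positivity
    have hb : ∀ (x : ℝ) (i : ℕ), x ∈ Icc (0 : ℝ) 1 → i < 3 ^ n → (x + i) / 3 ^ n ∈ Icc (0 : ℝ) 1 := by
      intro x i hx hi
      have hi' : ((i + 1 : ℕ) : ℝ) ≤ 3 ^ n := by exact_mod_cast hi
      push_cast at hi'
      refine ⟨div_nonneg (by have := hx.1; positivity) h3.le, ?_⟩
      rw [div_le_one h3]
      linarith [hx.2]
    constructor
    · rintro ⟨-, h4⟩
      refine ⟨⟨hb _ _ hp1 hi, hb _ _ hp2 hj⟩, fun l hl => ?_⟩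
      rcases lt_or_ge l n with hln | hln
      · obtain ⟨k, rfl⟩ : ∃ k, n = l + (k + 1) := ⟨n - l - 1, by omega⟩
        exact h k (by omega) ⟨digit_of_G0 k l i _ hp1.1 hp1.2 hl.1,
          digit_of_G0 k l j _ hp2.1 hp2.2 hl.2⟩
      · obtain ⟨m, rfl⟩ : ∃ m, l = n + m := ⟨l - n, by omega⟩
        exact h4 m ⟨(G0_high n m i _).1 hl.1, (G0_high n m j _).1 hl.2⟩
    · rintro ⟨-, h4⟩
      exact ⟨⟨hp1, hp2⟩, fun m hm => h4 (n + m) ⟨(G0_high n m i _).2 hm.1,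
        (G0_high n m j _).2 hm.2⟩⟩

theorem isCell_zero : IsCell 0 0 0 := by
  rw [isCell_iff]
  exact ⟨by norm_num, by norm_num, fun k hk => absurd hk (Nat.not_lt_zero k)⟩

/-- children of cells -/
theorem IsCell.child {n i j : ℕ} (h : IsCell n i j) {a b : ℕ} (ha : a < 3) (hb : b < 3)
    (hab : ¬ (a = 1 ∧ b = 1)) : IsCell (n + 1) (3 * i + a) (3 * j + b) := by
  rw [isCell_iff] at h ⊢
  obtain ⟨h1, h2, h3⟩ := h
  refine ⟨by rw [pow_succ]; omega, by rw [pow_succ]; omega, fun k hk hd => ?_⟩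
  rcases k with _ | k
  · rw [pow_zero, Nat.div_one, Nat.div_one] at hd
    omega
  · rw [pow_succ', ← Nat.div_div_eq_div_mul, ← Nat.div_div_eq_div_mul] at hd
    have e1 : (3 * i + a) / 3 = i := by omega
    have e2 : (3 * j + b) / 3 = j := by omega
    rw [e1, e2] at hd
    exact h3 k (by omega) hd

/-- a cell of positive level has a parent -/
theorem IsCell.parent {n i j : ℕ} (h : IsCell (n + 1) i j) :
    IsCell n (i / 3) (j / 3) ∧ ¬ (i % 3 = 1 ∧ j % 3 = 1) := by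
  rw [isCell_iff] at h
  rw [isCell_iff]
  obtain ⟨h1, h2, h3⟩ := h
  rw [pow_succ] at h1 h2
  refine ⟨⟨by omega, by omega, fun k hk hd => ?_⟩, ?_⟩
  · rw [Nat.div_div_eq_div_mul, Nat.div_div_eq_div_mul, ← pow_succ'] at hd
    exact h3 (k + 1) (by omega) hd
  · have := h3 0 (by omega)
    rwa [pow_zero, Nat.div_one, Nat.div_one] at this

/-- the coordinates of a point of a triadic interval -/
theorem mem_iv {n i : ℕ} {x : ℝ} : x ∈ Icc ((i : ℝ) / 3 ^ n) ((i + 1 : ℝ) / 3 ^ n) ↔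
    (i : ℝ) ≤ 3 ^ n * x ∧ 3 ^ n * x ≤ i + 1 := by
  have h3 : (0 : ℝ) < 3 ^ n := by positivity
  rw [mem_Icc, div_le_iff₀ h3, le_div_iff₀ h3, mul_comm x]

theorem mem_sq {n i j : ℕ} {p : ℝ × ℝ} : p ∈ sq n i j ↔
    ((i : ℝ) ≤ 3 ^ n * p.1 ∧ 3 ^ n * p.1 ≤ i + 1) ∧
      ((j : ℝ) ≤ 3 ^ n * p.2 ∧ 3 ^ n * p.2 ≤ j + 1) := by
  rw [sq, mem_prod, mem_iv, mem_iv]

/-- the part of the carpet in a cell is covered by the children -/
theorem IsCell.cover {n i j : ℕ} (h : IsCell n i j) {p : ℝ × ℝ} (hp : p ∈ sq n i j)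
    (hpc : p ∈ carpet) :
    ∃ a b : ℕ, a < 3 ∧ b < 3 ∧ ¬ (a = 1 ∧ b = 1) ∧ p ∈ sq (n + 1) (3 * i + a) (3 * j + b) := by
  rw [mem_sq] at hp
  obtain ⟨⟨h1, h2⟩, h3, h4⟩ := hp
  have key : ∀ (x : ℝ) (i : ℕ), (i : ℝ) ≤ 3 ^ n * x → 3 ^ n * x ≤ i + 1 →
      ∃ a < 3, ((3 * i + a : ℕ) : ℝ) ≤ 3 ^ (n + 1) * x ∧ 3 ^ (n + 1) * x ≤ (3 * i + a : ℕ) + 1 := by
    intro x i hx hx'
    rw [pow_succ]
    rcases le_total (3 ^ n * 3 * x) (3 * i + 1) with h5 | h5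
    · exact ⟨0, by norm_num, by push_cast; linarith, by push_cast; linarith⟩
    · rcases le_total (3 ^ n * 3 * x) (3 * i + 2) with h6 | h6
      · exact ⟨1, by norm_num, by push_cast; linarith, by push_cast; linarith⟩
      · exact ⟨2, by norm_num, by push_cast; linarith, by push_cast; linarith⟩
  obtain ⟨a, ha, ha1, ha2⟩ := key p.1 i h1 h2
  obtain ⟨b, hb, hb1, hb2⟩ := key p.2 j h3 h4
  by_cases hab : a = 1 ∧ b = 1
  · obtain ⟨rfl, rfl⟩ := hab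
    have h7 := (mem_carpet_iff.1 hpc).2 n
    by_cases c1 : 3 ^ (n + 1) * p.1 ≤ 3 * i + 1
    · refine ⟨0, 1, by norm_num, by norm_num, by norm_num, mem_sq.2 ⟨⟨?_, ?_⟩, hb1, hb2⟩⟩
      · push_cast; rw [pow_succ]; linarith
      · push_cast; linarith
    by_cases c2 : (3 * i + 2 : ℝ) ≤ 3 ^ (n + 1) * p.1
    · refine ⟨2, 1, by norm_num, by norm_num, by norm_num, mem_sq.2 ⟨⟨?_, ?_⟩, hb1, hb2⟩⟩
      · push_cast; linarith
      · push_cast; rw [pow_succ]; linarith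
    by_cases c3 : 3 ^ (n + 1) * p.2 ≤ 3 * j + 1
    · refine ⟨1, 0, by norm_num, by norm_num, by norm_num, mem_sq.2 ⟨⟨ha1, ha2⟩, ?_, ?_⟩⟩
      · push_cast; rw [pow_succ]; linarith
      · push_cast; linarith
    by_cases c4 : (3 * j + 2 : ℝ) ≤ 3 ^ (n + 1) * p.2
    · refine ⟨1, 2, by norm_num, by norm_num, by norm_num, mem_sq.2 ⟨⟨ha1, ha2⟩, ?_, ?_⟩⟩
      · push_cast; linarith
      · push_cast; rw [pow_succ]; linarith
    exfalso
    push Not at c1 c2 c3 c4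
    rw [pow_succ] at c1 c2 c3 c4
    refine h7 ⟨⟨i, ?_, ?_⟩, ⟨j, ?_, ?_⟩⟩ <;> push_cast <;> linarith
  · exact ⟨a, b, ha, hb, hab, mem_sq.2 ⟨⟨ha1, ha2⟩, hb1, hb2⟩⟩

theorem sq_child_subset {n i j a b : ℕ} (ha : a < 3) (hb : b < 3) :
    sq (n + 1) (3 * i + a) (3 * j + b) ⊆ sq n i j := by
  intro p hp
  rw [mem_sq] at hp ⊢
  have ha' : (a : ℝ) ≤ 2 := by exact_mod_cast (by omega : a ≤ 2)
  have hb' : (b : ℝ) ≤ 2 := by exact_mod_cast (by omega : b ≤ 2)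
  have ha0 : (0 : ℝ) ≤ a := by positivity
  have hb0 : (0 : ℝ) ≤ b := by positivity
  push_cast at hp
  rw [pow_succ] at hp
  obtain ⟨⟨h1, h2⟩, h3, h4⟩ := hp
  refine ⟨⟨?_, ?_⟩, ?_, ?_⟩ <;> linarith

theorem IsCell.swap {n i j : ℕ} (h : IsCell n i j) : IsCell n j i := by
  rw [isCell_iff] at h ⊢
  exact ⟨h.2.1, h.1, fun k hk hd => h.2.2 k hk ⟨hd.2, hd.1⟩⟩

theorem IsCell.flip {n i j : ℕ} (h : IsCell n i j) : IsCell n (3 ^ n - 1 - i) j := by
  obtain ⟨hi, hj, h⟩ := h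
  refine ⟨by have : 0 < 3 ^ n := by positivity
             omega, hj, fun p hp1 hp2 => ?_⟩
  have h1 := h (1 - p.1, p.2) ⟨by linarith [hp1.2], by linarith [hp1.1]⟩ hp2
  rw [flip_mem_carpet] at h1
  rw [h1, ← flip_mem_carpet]
  have h3 : (3 : ℝ) ^ n ≠ 0 := by positivity
  have h4 : ((3 ^ n - 1 - i : ℕ) : ℝ) = 3 ^ n - 1 - i := by
    rw [Nat.sub_sub, Nat.cast_sub (by omega)]
    push_cast
    ring
  simp only
  rw [h4, show 1 - (1 - p.1 + (i : ℝ)) / 3 ^ n = (p.1 + (3 ^ n - 1 - i)) / 3 ^ n by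
    field_simp; ring]

theorem exists_cell {p : ℝ × ℝ} (hp : p ∈ carpet) (n : ℕ) : ∃ i j, IsCell n i j ∧ p ∈ sq n i j := by
  induction n with
  | zero =>
    refine ⟨0, 0, isCell_zero, mem_sq.2 ?_⟩
    have h := hp.1
    simp only [pow_zero, one_mul, Nat.cast_zero, zero_add]
    exact h
  | succ n ih =>
    obtain ⟨i, j, h1, h2⟩ := ih
    obtain ⟨a, b, ha, hb, hab, h3⟩ := h1.cover h2 hp
    exact ⟨_, _, h1.child ha hb hab, h3⟩

/-- points of a cell as images of points of the unit square -/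
theorem IsCell.mem_of {n i j : ℕ} (h : IsCell n i j) {q : ℝ × ℝ} (hq : q ∈ sq n i j) :
    q ∈ carpet ↔ (3 ^ n * q.1 - i, 3 ^ n * q.2 - j) ∈ carpet := by
  rw [mem_sq] at hq
  have h3 : (3 : ℝ) ^ n ≠ 0 := by positivity
  rw [h.2.2 (3 ^ n * q.1 - i, 3 ^ n * q.2 - j)
    ⟨by linarith [hq.1.1], by linarith [hq.1.2]⟩ ⟨by linarith [hq.2.1], by linarith [hq.2.2]⟩]
  simp only [sub_add_cancel]
  rw [mul_div_cancel_left₀ _ h3, mul_div_cancel_left₀ _ h3]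

theorem IsCell.frontier_subset {n i j : ℕ} (h : IsCell n i j) : frontier (sq n i j) ⊆ carpet := by
  intro q hq
  have h3 : (0 : ℝ) < 3 ^ n := by positivity
  have hcl : IsClosed (sq n i j) := isClosed_Icc.prod isClosed_Icc
  have hqs : q ∈ sq n i j := hcl.frontier_subset hq
  have hni : q ∉ interior (sq n i j) := by
    rw [hcl.frontier_eq] at hq
    exact hq.2
  rw [sq, interior_prod_eq, interior_Icc, interior_Icc, mem_prod, mem_Ioo, mem_Ioo] at hni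
  rw [h.mem_of hqs]
  rw [mem_sq] at hqs
  obtain ⟨⟨h1, h2⟩, h4, h5⟩ := hqs
  apply mem_carpet_of_boundary
  · exact ⟨by linarith, by linarith⟩
  · exact ⟨by linarith, by linarith⟩
  · by_contra hcon
    push Not at hcon
    apply hni
    simp only at hcon
    obtain ⟨c1, c2, c3, c4⟩ := hcon
    rw [div_lt_iff₀ h3, lt_div_iff₀ h3, div_lt_iff₀ h3, lt_div_iff₀ h3]
    refine ⟨⟨lt_of_le_of_ne (by linarith) fun he => c1 (by linarith),
      lt_of_le_of_ne (by linarith) fun he => c2 (by linarith)⟩,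
      ⟨lt_of_le_of_ne (by linarith) fun he => c3 (by linarith),
      lt_of_le_of_ne (by linarith) fun he => c4 (by linarith)⟩⟩

/-- every nonempty relatively open subset of the carpet contains a cell -/
theorem exists_cell_subset {O : Set (ℝ × ℝ)} (hO : IsOpen O) (hne : (O ∩ carpet).Nonempty) :
    ∃ n i j, IsCell n i j ∧ sq n i j ⊆ O := by
  obtain ⟨q, hqO, hqc⟩ := hne
  obtain ⟨ε, hε, hball⟩ := Metric.isOpen_iff.1 hO q hqO
  obtain ⟨n, hn⟩ := exists_pow_lt_of_lt_one hε (by norm_num : (1 / 3 : ℝ) < 1)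
  obtain ⟨i, j, h1, h2⟩ := exists_cell hqc n
  refine ⟨n, i, j, h1, fun p hp => hball ?_⟩
  rw [mem_sq] at h2 hp
  have h3 : (0 : ℝ) < 3 ^ n := by positivity
  have hd : ∀ x y : ℝ, 3 ^ n * x - 3 ^ n * y ≤ 1 → 3 ^ n * y - 3 ^ n * x ≤ 1 → dist x y < ε := by
    intro x y hx hy
    refine lt_of_le_of_lt ?_ hn
    rw [Real.dist_eq, abs_le, one_div, inv_pow]
    have h4 : (3 : ℝ) ^ n * (3 ^ n)⁻¹ = 1 := mul_inv_cancel₀ h3.ne'
    constructor
    · by_contra hc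
      push Not at hc
      have := mul_lt_mul_of_pos_left hc h3
      rw [mul_neg, h4] at this
      linarith
    · by_contra hc
      push Not at hc
      have := mul_lt_mul_of_pos_left hc h3
      rw [h4] at this
      linarith
  rw [Metric.mem_ball, Prod.dist_eq, max_lt_iff]
  exact ⟨hd _ _ (by linarith [hp.1.2, h2.1.1]) (by linarith [hp.1.1, h2.1.2]),
    hd _ _ (by linarith [hp.2.2, h2.2.1]) (by linarith [hp.2.1, h2.2.2])⟩

/-- a point of a cell one of whose coordinates avoids all gaps -/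
theorem IsCell.line_aux {n i j : ℕ} (h : IsCell n i j) {t : ℝ} (ht : t ∈ Icc (0 : ℝ) 1)
    (hG : ∀ l : ℕ, ¬ G0 (3 ^ l * t)) {x : ℝ}
    (hx : x ∈ Icc ((i : ℝ) / 3 ^ n) ((i + 1 : ℝ) / 3 ^ n)) :
    (x, (j + t : ℝ) / 3 ^ n) ∈ carpet := by
  have h3 : (3 : ℝ) ^ n ≠ 0 := by positivity
  rw [mem_iv] at hx
  have h1 := (h.2.2 (3 ^ n * x - i, t) ⟨by linarith [hx.1], by linarith [hx.2]⟩ ht).1
  simp only [sub_add_cancel] at h1
  rw [mul_div_cancel_left₀ _ h3, add_comm t] at h1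
  apply h1
  rw [mem_carpet_iff]
  exact ⟨⟨⟨by linarith [hx.1], by linarith [hx.2]⟩, ht⟩, fun l hl => hG l hl.2⟩

/-- horizontal lines through a cell at Cantor heights: for `t = 2/3^m + 1/3^(m+k+1)` -/
theorem IsCell.line_h {n i j : ℕ} (h : IsCell n i j) (m k : ℕ) {x : ℝ}
    (hx : x ∈ Icc ((i : ℝ) / 3 ^ n) ((i + 1 : ℝ) / 3 ^ n)) :
    (x, (j + (2 / 3 ^ (m + 1) + 1 / 3 ^ (m + k + 2)) : ℝ) / 3 ^ n) ∈ carpet := by
  have hpow : ∀ r : ℕ, (1 : ℝ) / 3 ^ r ≤ 1 := fun r => by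
    rw [div_le_one (by positivity)]; exact one_le_pow₀ (by norm_num)
  have hpos : ∀ r : ℕ, (0 : ℝ) < 1 / 3 ^ r := fun r => by positivity
  have hsucc : ∀ r : ℕ, (1 : ℝ) / 3 ^ (r + 1) = 1 / 3 ^ r / 3 := fun r => by
    rw [pow_succ]; field_simp
  refine h.line_aux ⟨by positivity, ?_⟩ ?_ hx
  · have e1 : (2 : ℝ) / 3 ^ (m + 1) = 2 * (1 / 3 ^ m / 3) := by rw [← hsucc]; ring
    have e2 : (1 : ℝ) / 3 ^ (m + k + 2) = 1 / 3 ^ (m + k) / 3 / 3 := by rw [hsucc, hsucc]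
    rw [e1, e2]
    linarith [hpow m, hpow (m + k)]
  · intro l
    rcases lt_or_ge m l with hl | hl
    · -- `l > m`
      obtain ⟨s, rfl⟩ : ∃ s, l = m + 1 + s := ⟨l - m - 1, by omega⟩
      have e1 : (3 : ℝ) ^ (m + 1 + s) * (2 / 3 ^ (m + 1) + 1 / 3 ^ (m + k + 2)) =
          3 ^ s * (1 / 3 ^ (k + 1)) + ((2 * 3 ^ s : ℤ) : ℝ) := by
        push_cast
        rw [show m + k + 2 = (m + 1) + (k + 1) by ring, pow_add, pow_add]
        field_simp
        ring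
      rw [e1, G0_add_int]
      rcases le_total (k + 1) s with hs | hs
      · obtain ⟨r, rfl⟩ : ∃ r, s = k + 1 + r := ⟨s - (k + 1), by omega⟩
        have e2 : (3 : ℝ) ^ (k + 1 + r) * (1 / 3 ^ (k + 1)) = ((3 ^ r : ℤ) : ℝ) := by
          push_cast
          rw [pow_add]
          field_simp
        rw [e2]
        exact not_G0_int _
      · rcases Nat.eq_or_lt_of_le hs with hs | hs
        · have e2 : (3 : ℝ) ^ s * (1 / 3 ^ (k + 1)) = ((1 : ℤ) : ℝ) := by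
            rw [hs]; push_cast; field_simp
          rw [e2]
          exact not_G0_int _
        · obtain ⟨r, hr⟩ : ∃ r, k = s + r := ⟨k - s, by omega⟩
          have e2 : (3 : ℝ) ^ s * (1 / 3 ^ (k + 1)) = 1 / 3 ^ r / 3 := by
            rw [hr, show s + r + 1 = s + (r + 1) by ring, pow_add, pow_succ]
            field_simp
          rw [e2]
          refine not_G0 _ 0 ?_ ?_
          · push_cast; linarith [hpos r]
          · push_cast; linarith [hpow r]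
    · rcases Nat.eq_or_lt_of_le hl with rfl | hl
      · have e1 : (3 : ℝ) ^ l * (2 / 3 ^ (l + 1) + 1 / 3 ^ (l + k + 2)) =
            2 / 3 + 1 / 3 ^ k / 3 / 3 := by
          rw [show l + k + 2 = l + k + 1 + 1 by ring, pow_succ, pow_succ, pow_succ, pow_add]
          field_simp
        rw [e1]
        refine not_G0 _ 1 ?_ ?_
        · push_cast; linarith [hpos k]
        · push_cast; linarith [hpow k]
      · obtain ⟨r, rfl⟩ : ∃ r, m = l + 1 + r := ⟨m - l - 1, by omega⟩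
        have e1 : (3 : ℝ) ^ l * (2 / 3 ^ (l + 1 + r + 1) + 1 / 3 ^ (l + 1 + r + k + 2)) =
            (2 / 3) * (1 / 3 ^ r / 3) + 1 / 3 ^ (r + k) / 3 / 3 / 3 := by
          rw [show l + 1 + r + 1 = l + (r + 2) by ring,
            show l + 1 + r + k + 2 = l + (r + k + 3) by ring, pow_add 3 l (r + 2),
            pow_add 3 l (r + k + 3), pow_add 3 r 2, pow_add 3 (r + k) 3]
          field_simp
        rw [e1]
        refine not_G0 _ 0 ?_ ?_
        · push_cast; linarith [hpos r, hpos (r + k)]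
        · push_cast; linarith [hpow r, hpow (r + k)]

/-- vertical lines through a cell near the right side: for `s = 1 - 1/3^k` -/
theorem IsCell.line_v {n i j : ℕ} (h : IsCell n i j) (k : ℕ) {y : ℝ}
    (hy : y ∈ Icc ((j : ℝ) / 3 ^ n) ((j + 1 : ℝ) / 3 ^ n)) :
    ((i + (1 - 1 / 3 ^ k) : ℝ) / 3 ^ n, y) ∈ carpet := by
  have hpow : ∀ r : ℕ, (1 : ℝ) / 3 ^ r ≤ 1 := fun r => by
    rw [div_le_one (by positivity)]; exact one_le_pow₀ (by norm_num)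
  have hpos : ∀ r : ℕ, (0 : ℝ) < 1 / 3 ^ r := fun r => by positivity
  have h1 : (y, (i + (1 - 1 / 3 ^ k) : ℝ) / 3 ^ n) ∈ carpet := by
    refine h.swap.line_aux ⟨by linarith [hpow k], by linarith [hpos k]⟩ ?_ hy
    intro l
    rcases lt_or_ge l k with hl | hl
    · obtain ⟨r, rfl⟩ : ∃ r, k = l + (r + 1) := ⟨k - l - 1, by omega⟩
      have e1 : (3 : ℝ) ^ l * (1 - 1 / 3 ^ (l + (r + 1))) = -(1 / 3 ^ r / 3) + ((3 ^ l : ℤ) : ℝ) := by
        push_cast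
        rw [pow_add, pow_succ]
        field_simp
        ring
      rw [e1, G0_add_int, G0_neg]
      refine not_G0 _ 0 ?_ ?_
      · push_cast; linarith [hpos r]
      · push_cast; linarith [hpow r]
    · obtain ⟨r, rfl⟩ : ∃ r, l = k + r := ⟨l - k, by omega⟩
      have e1 : (3 : ℝ) ^ (k + r) * (1 - 1 / 3 ^ k) = ((3 ^ (k + r) - 3 ^ r : ℤ) : ℝ) := by
        push_cast
        rw [pow_add]
        field_simp
      rw [e1]
      exact not_G0_int _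
  exact swap_mem_carpet.1 h1

/-- the small square near the lower left corner of a cell (at depth `m + 2`) is a cell -/
theorem IsCell.corner {n i j : ℕ} (h : IsCell n i j) (m : ℕ) :
    IsCell (n + (m + 2)) (3 ^ (m + 2) * i + 2) (3 ^ (m + 2) * j + 2) := by
  have h1 : ∀ l : ℕ, IsCell (n + l) (3 ^ l * i) (3 ^ l * j) := by
    intro l
    induction l with
    | zero => simpa using h
    | succ l ih =>
      have := ih.child (a := 0) (b := 0) (by norm_num) (by norm_num) (by norm_num)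
      rw [add_zero, add_zero, ← mul_assoc, ← mul_assoc, ← pow_succ'] at this
      exact this
  have h2 := (h1 (m + 1)).child (a := 2) (b := 2) (by norm_num) (by norm_num) (by norm_num)
  rw [← mul_assoc, ← mul_assoc, ← pow_succ'] at h2
  exact h2

/-- the carpet is self-similar (sanity check, the defining property in the problem) -/
theorem carpet_selfSimilar : carpet = ⋃ d ∈ {d : Fin 3 × Fin 3 | d ≠ (1, 1)},
    (fun p : ℝ × ℝ => (p.1 / 3 + (d.1 : ℕ) / 3, p.2 / 3 + (d.2 : ℕ) / 3)) '' carpet := by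
  have hcell : ∀ d : Fin 3 × Fin 3, d ≠ (1, 1) → IsCell 1 (d.1 : ℕ) (d.2 : ℕ) := by
    intro d hd
    have := isCell_zero.child (a := (d.1 : ℕ)) (b := (d.2 : ℕ)) d.1.2 d.2.2 (by
      rintro ⟨h1, h2⟩
      exact hd (Prod.ext (Fin.ext h1) (Fin.ext h2)))
    simpa using this
  ext p
  simp only [mem_iUnion, mem_ofPred_eq, mem_image, exists_prop]
  constructor
  · intro hp
    have hp0 : p ∈ sq 0 0 0 := by
      rw [mem_sq]
      simp only [pow_zero, one_mul, Nat.cast_zero, zero_add]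
      exact hp.1
    obtain ⟨a, b, ha, hb, hab, h1⟩ := isCell_zero.cover hp0 hp
    have hd : ((⟨a, ha⟩, ⟨b, hb⟩) : Fin 3 × Fin 3) ≠ (1, 1) := by
      intro h
      rw [Prod.mk.injEq, Fin.ext_iff, Fin.ext_iff] at h
      exact hab h
    refine ⟨(⟨a, ha⟩, ⟨b, hb⟩), hd, (3 * p.1 - a, 3 * p.2 - b), ?_, ?_⟩
    · simp only [mul_zero, zero_add] at h1
      have h2 := (hcell _ hd).mem_of (q := p) h1
      rw [pow_one] at h2
      exact h2.1 hp
    · apply Prod.ext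
      · simp only; ring
      · simp only; ring
  · rintro ⟨d, hd, q, hq, rfl⟩
    have h1 := ((hcell d hd).2.2 q hq.1.1 hq.1.2).1 hq
    rw [pow_one, add_div, add_div] at h1
    exact h1

end CAR
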