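import Pool.Agent.MP_eabe7c_an.Curves
import Pool.Agent.MP_eabe7c_an.Cells

open Set Topology Filter

namespace CAR

/-- the left end point of the curves -/
noncomputable def arX (n i m : ℕ) : ℝ := (i + 3 / 3 ^ (m + 2)) / 3 ^ n

/-- the heights of the curves -/
noncomputable def arT (n j m N k : ℕ) : ℝ :=
  (j + (2 / 3 ^ (m + 2) + 1 / 3 ^ (m + 1 + (N - k) + 2))) / 3 ^ n

theorem arT_mono (n j m : ℕ) {N k l : ℕ} (hkl : k < l) (hl : l < N) :
    arT n j m N k < arT n j m N l := by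
  unfold arT
  have h : (1 : ℝ) / 3 ^ (m + 1 + (N - k) + 2) < 1 / 3 ^ (m + 1 + (N - l) + 2) := by
    apply one_div_lt_one_div_of_lt (by positivity)
    exact pow_lt_pow_right₀ (by norm_num) (by omega)
  have h3 : (0 : ℝ) < 3 ^ n := by positivity
  gcongr

theorem arT_lower (n j m N k : ℕ) : (j + 2 / 3 ^ (m + 2)) / 3 ^ n < arT n j m N k := by
  unfold arT
  have h : (0 : ℝ) < 1 / 3 ^ (m + 1 + (N - k) + 2) := by positivity
  have h3 : (0 : ℝ) < 3 ^ n := by positivity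
  apply div_lt_div_of_pos_right _ h3
  linarith

theorem arT_upper (n j m N k : ℕ) : arT n j m N k < (j + 3 / 3 ^ (m + 2)) / 3 ^ n := by
  unfold arT
  have h : (1 : ℝ) / 3 ^ (m + 1 + (N - k) + 2) < 1 / 3 ^ (m + 2) := by
    apply one_div_lt_one_div_of_lt (by positivity)
    exact pow_lt_pow_right₀ (by norm_num) (by omega)
  have h3 : (0 : ℝ) < 3 ^ n := by positivity
  apply div_lt_div_of_pos_right _ h3
  have : (3 : ℝ) / 3 ^ (m + 2) = 2 / 3 ^ (m + 2) + 1 / 3 ^ (m + 2) := by ring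
  linarith

theorem ar_three (m : ℕ) : (3 : ℝ) / 3 ^ (m + 2) ≤ 1 / 3 := by
  have h : (3 : ℝ) ^ (m + 2) = 3 ^ m * 9 := by ring
  rw [h, div_le_div_iff₀ (by positivity) (by norm_num)]
  have : (1 : ℝ) ≤ 3 ^ m := one_le_pow₀ (by norm_num)
  linarith

theorem ar_sq (n i j m : ℕ) :
    sq (n + (m + 2)) (3 ^ (m + 2) * i + 2) (3 ^ (m + 2) * j + 2) =
    Icc (((i : ℝ) + 5 / 2 / 3 ^ (m + 2)) / 3 ^ n - 1 / 2 / 3 ^ (m + 2) / 3 ^ n)
        (((i : ℝ) + 5 / 2 / 3 ^ (m + 2)) / 3 ^ n + 1 / 2 / 3 ^ (m + 2) / 3 ^ n) ×ˢ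
      Icc (((j : ℝ) + 5 / 2 / 3 ^ (m + 2)) / 3 ^ n - 1 / 2 / 3 ^ (m + 2) / 3 ^ n)
        (((j : ℝ) + 5 / 2 / 3 ^ (m + 2)) / 3 ^ n + 1 / 2 / 3 ^ (m + 2) / 3 ^ n) := by
  have h : ∀ a : ℕ, (((3 ^ (m + 2) * a + 2 : ℕ) : ℝ) / 3 ^ (n + (m + 2)) =
      ((a : ℝ) + 5 / 2 / 3 ^ (m + 2)) / 3 ^ n - 1 / 2 / 3 ^ (m + 2) / 3 ^ n) ∧
      ((((3 ^ (m + 2) * a + 2 : ℕ) : ℝ) + 1) / 3 ^ (n + (m + 2)) =
      ((a : ℝ) + 5 / 2 / 3 ^ (m + 2)) / 3 ^ n + 1 / 2 / 3 ^ (m + 2) / 3 ^ n) := by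
    intro a
    have e : (3 : ℝ) ^ (n + (m + 2)) = 3 ^ n * 3 ^ (m + 2) := pow_add _ _ _
    rw [e]
    push_cast
    have h1 : (3 : ℝ) ^ n ≠ 0 := by positivity
    have h2 : (3 : ℝ) ^ (m + 2) ≠ 0 := by positivity
    generalize (3 : ℝ) ^ n = A at *
    generalize (3 : ℝ) ^ (m + 2) = B at *
    constructor
    · field_simp; ring
    · field_simp; ring
  rw [sq, (h i).1, (h i).2, (h j).1, (h j).2]

/-- common part of the two constructions -/
theorem ar_common {n i j : ℕ} (h1 : IsCell n i j) {Z : Set (ℝ × ℝ)} (hZ : IsClosed Z)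
    (hZK : Z ⊆ carpet) (hsub : sq n i j ∩ carpet ⊆ Z) (m N : ℕ)
    (γ : Fin N → ℝ → ℝ × ℝ) (hγc : ∀ k, Continuous (γ k)) (L : Fin N → ℝ) (hL : ∀ k, 0 ≤ L k)
    (hγ0 : ∀ k, γ k 0 = (arX n i m, arT n j m N k))
    (hγ1 : ∀ k, ∀ x ∈ Ioc 0 (L k), arX n i m < (γ k x).1)
    (hγK : ∀ k, ∀ x ∈ Icc 0 (L k), γ k x ∈ carpet)
    (hγS : ∀ k, ∀ x ∈ Icc 0 (L k), (γ k x).1 ∈ Ioo (0 : ℝ) 1 ∧ (γ k x).2 ∈ Ioo (0 : ℝ) 1)
    (hdis : ∀ k l, k ≠ l → ∀ x ∈ Icc 0 (L k), ∀ y ∈ Icc 0 (L l), γ k x ≠ γ l y)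
    (hend : ∀ k, γ k (L k) ∉ Z) : HasArcs Z N := by
  have h3 : (0 : ℝ) < 3 ^ n := by positivity
  have h3' : (0 : ℝ) < 3 ^ (m + 2) := by positivity
  have hm3 := ar_three m
  have hi : (i : ℝ) + 1 ≤ 3 ^ n := by exact_mod_cast h1.1
  have hj : (j : ℝ) + 1 ≤ 3 ^ n := by exact_mod_cast h1.2.1
  have hi0 : (0 : ℝ) ≤ i := Nat.cast_nonneg i
  have hj0 : (0 : ℝ) ≤ j := Nat.cast_nonneg j
  -- end points
  have hlo : ∀ a : ℕ, ((a : ℝ) + 5 / 2 / 3 ^ (m + 2)) / 3 ^ n - 1 / 2 / 3 ^ (m + 2) / 3 ^ n =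
      ((a : ℝ) + 2 / 3 ^ (m + 2)) / 3 ^ n := by intro a; field_simp; ring
  have hhi : ∀ a : ℕ, ((a : ℝ) + 5 / 2 / 3 ^ (m + 2)) / 3 ^ n + 1 / 2 / 3 ^ (m + 2) / 3 ^ n =
      ((a : ℝ) + 3 / 3 ^ (m + 2)) / 3 ^ n := by intro a; field_simp; ring
  have hpos2 : (0 : ℝ) < 2 / 3 ^ (m + 2) := by positivity
  have hpos3 : (0 : ℝ) < 3 / 3 ^ (m + 2) := by positivity
  have hsq := ar_sq n i j m
  have hsqsub : sq (n + (m + 2)) (3 ^ (m + 2) * i + 2) (3 ^ (m + 2) * j + 2) ⊆ sq n i j := by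
    rw [hsq, hlo, hhi, hlo, hhi]
    rintro ⟨u, v⟩ ⟨⟨hu1, hu2⟩, ⟨hv1, hv2⟩⟩
    simp only at hu1 hu2 hv1 hv2
    refine ⟨⟨?_, ?_⟩, ⟨?_, ?_⟩⟩
    · refine le_trans ?_ hu1
      apply div_le_div_of_nonneg_right _ h3.le
      linarith
    · refine hu2.trans ?_
      apply div_le_div_of_nonneg_right _ h3.le
      linarith
    · refine le_trans ?_ hv1
      apply div_le_div_of_nonneg_right _ h3.le
      linarith
    · refine hv2.trans ?_
      apply div_le_div_of_nonneg_right _ h3.le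
      linarith
  have hx01 : ((i : ℝ) + 3 / 3 ^ (m + 2)) / 3 ^ n < 1 := by
    rw [div_lt_one h3]; linarith
  have hy01 : ((j : ℝ) + 3 / 3 ^ (m + 2)) / 3 ^ n < 1 := by
    rw [div_lt_one h3]; linarith
  refine hasArcs_of_curves (p := ((i : ℝ) + 5 / 2 / 3 ^ (m + 2)) / 3 ^ n)
    (q := ((j : ℝ) + 5 / 2 / 3 ^ (m + 2)) / 3 ^ n) (r := 1 / 2 / 3 ^ (m + 2) / 3 ^ n)
    (O := Ioo ((i : ℝ) / 3 ^ n) ((i + 1 : ℝ) / 3 ^ n) ×ˢ Ioo ((j : ℝ) / 3 ^ n) ((j + 1 : ℝ) / 3 ^ n))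
    hZ hZK (by positivity) ?_ ?_ ?_ (isOpen_Ioo.prod isOpen_Ioo) ?_
    (fun k => arT n j m N k) ?_ ?_ ?_ γ hγc L hL ?_ ?_ hγK hγS hdis hend
  · rw [← hsq]
    exact (h1.corner m).frontier_subset
  · rw [← hsq]
    exact fun z hz => hsub ⟨hsqsub hz.1, hz.2⟩
  · rw [hlo, hhi, hlo, hhi]
    rintro ⟨u, v⟩ ⟨⟨hu1, hu2⟩, ⟨hv1, hv2⟩⟩
    simp only at hu1 hu2 hv1 hv2
    refine ⟨⟨lt_of_lt_of_le ?_ hu1, hu2.trans_lt hx01⟩, ⟨lt_of_lt_of_le ?_ hv1, hv2.trans_lt hy01⟩⟩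
    · positivity
    · positivity
  · rintro ⟨u, v⟩ ⟨⟨hu, hv⟩, hc⟩
    exact hsub ⟨⟨Ioo_subset_Icc_self hu, Ioo_subset_Icc_self hv⟩, hc⟩
  · intro k l hkl
    exact arT_mono n j m hkl l.2
  · intro k
    rw [hlo, hhi]
    exact ⟨(arT_lower n j m N k).le, (arT_upper n j m N k).le⟩
  · intro k
    rw [hhi]
    refine ⟨⟨?_, ?_⟩, ⟨?_, ?_⟩⟩
    · apply div_lt_div_of_pos_right _ h3
      linarith
    · apply div_lt_div_of_pos_right _ h3
      linarith
    · refine lt_trans ?_ (arT_lower n j m N k)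
      apply div_lt_div_of_pos_right _ h3
      linarith
    · refine lt_trans (arT_upper n j m N k) ?_
      apply div_lt_div_of_pos_right _ h3
      linarith
  · intro k
    rw [hγ0, hhi]
    rfl
  · intro k x hx hmem
    have h := hmem.1.2
    rw [hhi] at h
    exact absurd h (not_le.2 (hγ1 k x hx))

theorem ar_X_pos (n i m : ℕ) : 0 < arX n i m := by
  unfold arX
  positivity

theorem ar_X_lower (n i m : ℕ) : (i : ℝ) / 3 ^ n < arX n i m := by
  unfold arX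
  apply div_lt_div_of_pos_right _ (by positivity)
  have : (0 : ℝ) < 3 / 3 ^ (m + 2) := by positivity
  linarith

theorem ar_X_upper (n i m : ℕ) : arX n i m < (i + 1 : ℝ) / 3 ^ n := by
  unfold arX
  apply div_lt_div_of_pos_right _ (by positivity)
  have := ar_three m
  linarith

theorem ar_T_pos (n j m N k : ℕ) : (j : ℝ) / 3 ^ n < arT n j m N k := by
  refine lt_trans ?_ (arT_lower n j m N k)
  apply div_lt_div_of_pos_right _ (by positivity)
  have : (0 : ℝ) < 2 / 3 ^ (m + 2) := by positivity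
  linarith

theorem ar_T_lt (n j m N k : ℕ) : arT n j m N k < (j + 1 : ℝ) / 3 ^ n := by
  refine lt_trans (arT_upper n j m N k) ?_
  apply div_lt_div_of_pos_right _ (by positivity)
  have := ar_three m
  linarith

/-- horizontal lines through the two cells -/
theorem ar_line {n i j : ℕ} (h1 : IsCell n i j) (h2 : IsCell n (i + 1) j) (m N k : ℕ) {x : ℝ}
    (hx1 : arX n i m ≤ x) (hx2 : x ≤ (i + 2 : ℝ) / 3 ^ n) : (x, arT n j m N k) ∈ carpet := by
  have e : arT n j m N k =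
      (j + (2 / 3 ^ (m + 1 + 1) + 1 / 3 ^ (m + 1 + (N - k) + 2)) : ℝ) / 3 ^ n := rfl
  rw [e]
  rcases le_total x ((i + 1 : ℝ) / 3 ^ n) with h | h
  · exact h1.line_h (m + 1) (N - k) ⟨(ar_X_lower n i m).le.trans hx1, h⟩
  · refine h2.line_h (m + 1) (N - k) ⟨?_, ?_⟩
    · push_cast; exact h
    · push_cast
      have : ((i : ℝ) + 1 + 1) = i + 2 := by ring
      rw [this]; exact hx2

/-- `3 / 3 ^ (m + 2) / 3 ^ n` is small for large `m` -/
theorem ar_small (n : ℕ) {δ : ℝ} (hδ : 0 < δ) : ∃ m : ℕ, (3 : ℝ) / 3 ^ (m + 2) / 3 ^ n < δ := by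
  obtain ⟨m, hm⟩ := exists_pow_lt_of_lt_one hδ (by norm_num : (1 / 3 : ℝ) < 1)
  refine ⟨m, lt_of_le_of_lt ?_ hm⟩
  have h3 : (1 : ℝ) ≤ 3 ^ n := one_le_pow₀ (by norm_num)
  have h3' : (0 : ℝ) < 3 ^ m := by positivity
  have e : (3 : ℝ) / 3 ^ (m + 2) / 3 ^ n = (1 / 3) ^ m * (1 / 3 / 3 ^ n) := by
    rw [one_div_pow, pow_add]; field_simp
  rw [e]
  have h4 : (1 : ℝ) / 3 / 3 ^ n ≤ 1 := by
    rw [div_le_one (by positivity)]; linarith
  calc (1 / 3 : ℝ) ^ m * (1 / 3 / 3 ^ n) ≤ (1 / 3) ^ m * 1 := by gcongr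
    _ = _ := mul_one _

theorem ar_small' (n : ℕ) {δ : ℝ} (hδ : 0 < δ) : ∃ K : ℕ, ∀ k, K ≤ k → (1 : ℝ) / 3 ^ k / 3 ^ n < δ := by
  obtain ⟨m, hm⟩ := exists_pow_lt_of_lt_one hδ (by norm_num : (1 / 3 : ℝ) < 1)
  refine ⟨m, fun k hk => lt_of_le_of_lt ?_ hm⟩
  have h3 : (1 : ℝ) ≤ 3 ^ n := one_le_pow₀ (by norm_num)
  have h5 : (3 : ℝ) ^ m ≤ 3 ^ k := pow_le_pow_right₀ (by norm_num) hk
  rw [one_div_pow]
  calc (1 : ℝ) / 3 ^ k / 3 ^ n ≤ 1 / 3 ^ k / 1 := by gcongr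
    _ = 1 / 3 ^ k := div_one _
    _ ≤ 1 / 3 ^ m := by gcongr

/-- points near a point outside a closed set are outside -/
theorem ar_nhds {Z : Set (ℝ × ℝ)} (hZ : IsClosed Z) {u v : ℝ} (h : (u, v) ∉ Z) :
    ∃ δ > 0, ∀ u' v', |u' - u| < δ → |v' - v| < δ → (u', v') ∉ Z := by
  have h1 : Zᶜ ∈ 𝓝 (u, v) := hZ.isOpen_compl.mem_nhds h
  obtain ⟨δ, hδ, hball⟩ := Metric.mem_nhds_iff.1 h1
  refine ⟨δ, hδ, fun u' v' hu hv => ?_⟩
  apply hball
  rw [Metric.mem_ball, Prod.dist_eq]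
  exact max_lt (by rwa [Real.dist_eq]) (by rwa [Real.dist_eq])

/-- [CAR-A] case: the exceptional point is on the bottom side of the right neighbour -/
theorem hasArcs_bottom {n i j : ℕ} (h1 : IsCell n i j) (h2 : IsCell n (i + 1) j)
    {Z : Set (ℝ × ℝ)} (hZ : IsClosed Z) (hZK : Z ⊆ carpet) (hsub : sq n i j ∩ carpet ⊆ Z)
    {x : ℝ} (hx : x ∈ Ioc ((i + 1 : ℝ) / 3 ^ n) ((i + 2 : ℝ) / 3 ^ n))
    (hxZ : (x, (j : ℝ) / 3 ^ n) ∉ Z) (N : ℕ) : HasArcs Z N := by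
  have h3 : (0 : ℝ) < 3 ^ n := by positivity
  obtain ⟨δ, hδ, hball⟩ := ar_nhds hZ hxZ
  -- move `x` a little
  obtain ⟨x', hx'1, hx'2, hx'3⟩ : ∃ x', (i + 1 : ℝ) / 3 ^ n < x' ∧ x' < (i + 2 : ℝ) / 3 ^ n ∧
      |x' - x| < δ := by
    refine ⟨max (((i + 1 : ℝ) / 3 ^ n + x) / 2) (x - δ / 2), ?_, ?_, ?_⟩
    · exact lt_of_lt_of_le (by linarith [hx.1]) (le_max_left _ _)
    · apply max_lt
      · linarith [hx.1, hx.2]
      · linarith [hx.2]
    · rw [abs_lt]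
      constructor
      · have := le_max_right (((i + 1 : ℝ) / 3 ^ n + x) / 2) (x - δ / 2)
        linarith
      · have : max (((i + 1 : ℝ) / 3 ^ n + x) / 2) (x - δ / 2) ≤ x := by
          apply max_le <;> linarith [hx.1]
        linarith
  obtain ⟨m, hm⟩ := ar_small n hδ
  have hi2 : (i : ℝ) + 2 ≤ 3 ^ n := by
    have := h2.1
    exact_mod_cast this
  have hj : (j : ℝ) + 1 ≤ 3 ^ n := by exact_mod_cast h1.2.1
  have hXx : arX n i m < x' := (ar_X_upper n i m).trans hx'1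
  refine ar_common h1 hZ hZK hsub m N (fun k s => (arX n i m + s, arT n j m N k)) ?_
    (fun _ => x' - arX n i m) ?_ ?_ ?_ ?_ ?_ ?_ ?_
  · intro k; fun_prop
  · intro k; linarith
  · intro k; simp
  · intro k s hs
    change _ < arX n i m + s
    linarith [hs.1]
  · intro k s hs
    exact ar_line h1 h2 m N k (by linarith [hs.1]) (by linarith [hs.2])
  · intro k s hs
    simp only
    refine ⟨⟨by linarith [hs.1, ar_X_pos n i m], ?_⟩, ⟨?_, ?_⟩⟩
    · have : (i + 2 : ℝ) / 3 ^ n ≤ 1 := by rw [div_le_one h3]; exact hi2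
      linarith [hs.2]
    · exact lt_of_le_of_lt (by positivity) (ar_T_pos n j m N k)
    · refine lt_of_lt_of_le (ar_T_lt n j m N k) ?_
      rw [div_le_one h3]; exact hj
  · intro k l hkl s _ s' _ heq
    have h := (Prod.mk.inj heq).2
    rcases lt_or_gt_of_ne hkl with h' | h'
    · exact (arT_mono n j m h' l.2).ne h
    · exact (arT_mono n j m h' k.2).ne h.symm
  · intro k
    apply hball
    · have : arX n i m + (x' - arX n i m) = x' := by ring
      rw [this]; exact hx'3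
    · have e1 := ar_T_pos n j m N k
      have e2 := arT_upper n j m N k
      have e3 : ((j : ℝ) + 3 / 3 ^ (m + 2)) / 3 ^ n = j / 3 ^ n + 3 / 3 ^ (m + 2) / 3 ^ n := by ring
      rw [abs_lt]
      constructor <;> linarith

/-- [CAR-A] case: the exceptional point is on the right side of the right neighbour -/
theorem hasArcs_rightside {n i j : ℕ} (h1 : IsCell n i j) (h2 : IsCell n (i + 1) j)
    {Z : Set (ℝ × ℝ)} (hZ : IsClosed Z) (hZK : Z ⊆ carpet) (hsub : sq n i j ∩ carpet ⊆ Z)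
    {y : ℝ} (hy : y ∈ Ioo ((j : ℝ) / 3 ^ n) ((j + 1 : ℝ) / 3 ^ n))
    (hyZ : ((i + 2 : ℝ) / 3 ^ n, y) ∉ Z) (N : ℕ) : HasArcs Z N := by
  have h3 : (0 : ℝ) < 3 ^ n := by positivity
  obtain ⟨δ, hδ, hball⟩ := ar_nhds hZ hyZ
  obtain ⟨m, hm⟩ := ar_small n (sub_pos.2 hy.1)
  obtain ⟨K, hK⟩ := ar_small' n hδ
  have hi2 : (i : ℝ) + 2 ≤ 3 ^ n := by
    have := h2.1
    exact_mod_cast this
  have hj : (j : ℝ) + 1 ≤ 3 ^ n := by exact_mod_cast h1.2.1
  have hi1 : (i + 2 : ℝ) / 3 ^ n ≤ 1 := by rw [div_le_one h3]; exact hi2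
  have hj1 : (j + 1 : ℝ) / 3 ^ n ≤ 1 := by rw [div_le_one h3]; exact hj
  -- the vertical parts
  let v : Fin N → ℝ := fun k => (((i + 1 : ℕ) : ℝ) + (1 - 1 / 3 ^ (K + (N - k)))) / 3 ^ n
  have hv : ∀ k, v k = (i + 2 : ℝ) / 3 ^ n - 1 / 3 ^ (K + (N - k)) / 3 ^ n := by
    intro k
    simp only [v]
    push_cast
    ring
  have hv1 : ∀ k, (i + 1 : ℝ) / 3 ^ n < v k := by
    intro k
    simp only [v]
    apply div_lt_div_of_pos_right _ h3
    push_cast
    have : (1 : ℝ) / 3 ^ (K + (N - k)) < 1 := by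
      rw [div_lt_one (by positivity)]
      exact one_lt_pow₀ (by norm_num) (by omega)
    linarith
  have hv2 : ∀ k, v k < (i + 2 : ℝ) / 3 ^ n := by
    intro k
    rw [hv]
    have : (0 : ℝ) < 1 / 3 ^ (K + (N - k)) / 3 ^ n := by positivity
    linarith
  have hvm : ∀ k l : Fin N, k < l → v l < v k := by
    intro k l hkl
    rw [hv, hv]
    have : (1 : ℝ) / 3 ^ (K + (N - k)) / 3 ^ n < 1 / 3 ^ (K + (N - l)) / 3 ^ n := by
      apply div_lt_div_of_pos_right _ h3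
      apply one_div_lt_one_div_of_lt (by positivity)
      have h' : (k : ℕ) < l := hkl
      exact pow_lt_pow_right₀ (by norm_num) (by omega)
    linarith
  have hT : ∀ k : Fin N, arT n j m N k < y := by
    intro k
    have e2 := arT_upper n j m N k
    have e3 : ((j : ℝ) + 3 / 3 ^ (m + 2)) / 3 ^ n = j / 3 ^ n + 3 / 3 ^ (m + 2) / 3 ^ n := by ring
    linarith
  have hXv : ∀ k, arX n i m < v k := fun k => (ar_X_upper n i m).trans (hv1 k)
  refine ar_common h1 hZ hZK hsub m N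
    (fun k s => (arX n i m + min s (v k - arX n i m), arT n j m N k + max 0 (s - (v k - arX n i m))))
    ?_ (fun k => (v k - arX n i m) + (y - arT n j m N k)) ?_ ?_ ?_ ?_ ?_ ?_ ?_
  · intro k; fun_prop
  · intro k; linarith [hXv k, hT k]
  · intro k
    have := hXv k
    rw [min_eq_left (by linarith), max_eq_left (by linarith)]
    simp
  · intro k s hs
    change _ < arX n i m + min s (v k - arX n i m)
    have : 0 < min s (v k - arX n i m) := lt_min hs.1 (by linarith [hXv k])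
    linarith
  · intro k s hs
    rcases le_total s (v k - arX n i m) with h | h
    · rw [min_eq_left h, max_eq_left (by linarith), add_zero]
      exact ar_line h1 h2 m N k (by linarith [hs.1]) (by linarith [hv2 k])
    · rw [min_eq_right h, max_eq_right (by linarith)]
      have e : arX n i m + (v k - arX n i m) = v k := by ring
      rw [e]
      refine h2.line_v (K + (N - k)) ⟨?_, ?_⟩
      · linarith [ar_T_pos n j m N k]
      · linarith [hs.2, hy.2]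
  · intro k s hs
    simp only
    have hb : min s (v k - arX n i m) ≤ v k - arX n i m := min_le_right _ _
    have hb0 : 0 ≤ min s (v k - arX n i m) := le_min hs.1 (by linarith [hXv k])
    have hc : max 0 (s - (v k - arX n i m)) ≤ y - arT n j m N k :=
      max_le (by linarith [hT k]) (by linarith [hs.2])
    have hc0 : 0 ≤ max 0 (s - (v k - arX n i m)) := le_max_left _ _
    refine ⟨⟨by linarith [ar_X_pos n i m], by linarith [hv2 k]⟩, ⟨?_, ?_⟩⟩
    · have : 0 < arT n j m N k := lt_of_le_of_lt (by positivity) (ar_T_pos n j m N k)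
      linarith
    · linarith [hy.2]
  · have key : ∀ k l : Fin N, k < l → ∀ s s' : ℝ,
        (arX n i m + min s (v k - arX n i m),
          arT n j m N k + max 0 (s - (v k - arX n i m))) ≠
        (arX n i m + min s' (v l - arX n i m),
          arT n j m N l + max 0 (s' - (v l - arX n i m))) := by
      intro k l hkl s s' heq
      have e1 := (Prod.mk.inj heq).1
      have e2 := (Prod.mk.inj heq).2
      have hT' := arT_mono n j m (N := N) hkl l.2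
      have hv' := hvm k l hkl
      have hc0 : 0 ≤ max 0 (s' - (v l - arX n i m)) := le_max_left _ _
      have hs : 0 < max 0 (s - (v k - arX n i m)) := by linarith
      have hs' : 0 < s - (v k - arX n i m) := by
        rcases lt_max_iff.1 hs with h | h
        · exact absurd h (lt_irrefl _)
        · exact h
      rw [min_eq_right (by linarith : v k - arX n i m ≤ s)] at e1
      have hb : min s' (v l - arX n i m) ≤ v l - arX n i m := min_le_right _ _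
      linarith
    intro k l hkl s _ s' _
    rcases lt_or_gt_of_ne hkl with h' | h'
    · exact key k l h' s s'
    · exact (key l k h' s' s).symm
  · intro k
    rw [min_eq_right (by linarith [hT k]), max_eq_right (by linarith [hT k])]
    apply hball
    · have e : arX n i m + (v k - arX n i m) - (i + 2 : ℝ) / 3 ^ n =
          - (1 / 3 ^ (K + (N - k)) / 3 ^ n) := by
        rw [hv]; ring
      rw [e, abs_neg, abs_of_nonneg (by positivity)]
      exact hK _ (by omega)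
    · have e : arT n j m N k + (v k - arX n i m + (y - arT n j m N k) - (v k - arX n i m)) - y = 0 := by
        ring
      rw [e, abs_zero]; exact hδ

end CAR
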