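import Pool.Agent.MP_eabe7c_an.Defs

open Set Topology Filter

namespace CAR

/-- the boundary of the unit square in the plane -/
def bd : Set (ℝ × ℝ) :=
  {p | (p.1 ∈ Icc (0 : ℝ) 1 ∧ p.2 ∈ Icc (0 : ℝ) 1) ∧ (p.1 = 0 ∨ p.1 = 1 ∨ p.2 = 0 ∨ p.2 = 1)}

/-- centred coordinates -/
noncomputable def circC (p : ℝ × ℝ) : ℂ := ⟨p.1 - 1 / 2, p.2 - 1 / 2⟩

/-- sup norm -/
noncomputable def circN (z : ℂ) : ℝ := max |z.re| |z.im|

/-- radial projection to the boundary of the square -/
noncomputable def circP (z : ℂ) : ℝ × ℝ :=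
  (1 / 2 + z.re / (2 * circN z), 1 / 2 + z.im / (2 * circN z))

theorem circN_pos {z : ℂ} (h : z ≠ 0) : 0 < circN z := by
  by_contra hn
  push Not at hn
  have h1 : |z.re| ≤ 0 := (le_max_left _ _).trans hn
  have h2 : |z.im| ≤ 0 := (le_max_right _ _).trans hn
  apply h
  apply Complex.ext
  · exact abs_nonpos_iff.1 h1
  · exact abs_nonpos_iff.1 h2

theorem circN_bd {p : ℝ × ℝ} (hp : p ∈ bd) : circN (circC p) = 1 / 2 := by
  obtain ⟨⟨⟨h1, h2⟩, ⟨h3, h4⟩⟩, h⟩ := hp
  unfold circN circC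
  have e1 : |p.1 - 1 / 2| ≤ 1 / 2 := abs_le.2 ⟨by linarith, by linarith⟩
  have e2 : |p.2 - 1 / 2| ≤ 1 / 2 := abs_le.2 ⟨by linarith, by linarith⟩
  apply le_antisymm (max_le e1 e2)
  rcases h with h | h | h | h
  · refine le_trans ?_ (le_max_left _ _)
    show 1 / 2 ≤ |p.1 - 1 / 2|
    rw [h]; norm_num [abs_of_nonneg, abs_of_neg]
  · refine le_trans ?_ (le_max_left _ _)
    show 1 / 2 ≤ |p.1 - 1 / 2|
    rw [h]; norm_num [abs_of_nonneg, abs_of_neg]
  · refine le_trans ?_ (le_max_right _ _)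
    show 1 / 2 ≤ |p.2 - 1 / 2|
    rw [h]; norm_num [abs_of_nonneg, abs_of_neg]
  · refine le_trans ?_ (le_max_right _ _)
    show 1 / 2 ≤ |p.2 - 1 / 2|
    rw [h]; norm_num [abs_of_nonneg, abs_of_neg]

theorem circC_ne {p : ℝ × ℝ} (hp : p ∈ bd) : circC p ≠ 0 := by
  intro h
  have h1 := circN_bd hp
  rw [h] at h1
  unfold circN at h1
  norm_num at h1

theorem circP_mem {z : ℂ} (h : z ≠ 0) : circP z ∈ bd := by
  have hN := circN_pos h
  have h1 : |z.re| ≤ circN z := le_max_left _ _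
  have h2 : |z.im| ≤ circN z := le_max_right _ _
  have h1' := abs_le.1 h1
  have h2' := abs_le.1 h2
  have a1 : -(1 / 2) ≤ z.re / (2 * circN z) := by
    rw [le_div_iff₀ (by positivity)]; linarith
  have a2 : z.re / (2 * circN z) ≤ 1 / 2 := by
    rw [div_le_iff₀ (by positivity)]; linarith
  have a3 : -(1 / 2) ≤ z.im / (2 * circN z) := by
    rw [le_div_iff₀ (by positivity)]; linarith
  have a4 : z.im / (2 * circN z) ≤ 1 / 2 := by
    rw [div_le_iff₀ (by positivity)]; linarith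
  refine ⟨⟨⟨?_, ?_⟩, ⟨?_, ?_⟩⟩, ?_⟩
  · show 0 ≤ 1 / 2 + z.re / (2 * circN z); linarith
  · show 1 / 2 + z.re / (2 * circN z) ≤ 1; linarith
  · show 0 ≤ 1 / 2 + z.im / (2 * circN z); linarith
  · show 1 / 2 + z.im / (2 * circN z) ≤ 1; linarith
  · show 1 / 2 + z.re / (2 * circN z) = 0 ∨ 1 / 2 + z.re / (2 * circN z) = 1 ∨
      1 / 2 + z.im / (2 * circN z) = 0 ∨ 1 / 2 + z.im / (2 * circN z) = 1
    rcases max_choice |z.re| |z.im| with hm | hm
    · have e : circN z = |z.re| := hm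
      rcases abs_choice z.re with hc | hc
      · right; left
        rw [e, hc]
        have : z.re ≠ 0 := by
          intro h0; rw [e, h0, abs_zero] at hN; exact lt_irrefl _ hN
        field_simp
        norm_num
      · left
        rw [e, hc]
        have : z.re ≠ 0 := by
          intro h0; rw [e, h0, abs_zero] at hN; exact lt_irrefl _ hN
        field_simp
        norm_num
    · have e : circN z = |z.im| := hm
      rcases abs_choice z.im with hc | hc
      · right; right; right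
        rw [e, hc]
        have : z.im ≠ 0 := by
          intro h0; rw [e, h0, abs_zero] at hN; exact lt_irrefl _ hN
        field_simp
        norm_num
      · right; right; left
        rw [e, hc]
        have : z.im ≠ 0 := by
          intro h0; rw [e, h0, abs_zero] at hN; exact lt_irrefl _ hN
        field_simp
        norm_num

theorem circP_C {p : ℝ × ℝ} (hp : p ∈ bd) : circP (circC p) = p := by
  unfold circP
  rw [circN_bd hp]
  unfold circC
  ext
  · show 1 / 2 + (p.1 - 1 / 2) / (2 * (1 / 2)) = p.1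
    norm_num
  · show 1 / 2 + (p.2 - 1 / 2) / (2 * (1 / 2)) = p.2
    norm_num

theorem circC_P (z : ℂ) : circC (circP z) = ((1 / (2 * circN z) : ℝ) : ℂ) * z := by
  unfold circC circP
  apply Complex.ext
  · rw [Complex.re_ofReal_mul]
    show 1 / 2 + z.re / (2 * circN z) - 1 / 2 = _
    ring
  · rw [Complex.im_ofReal_mul]
    show 1 / 2 + z.im / (2 * circN z) - 1 / 2 = _
    ring

theorem circN_smul {r : ℝ} (hr : 0 < r) (z : ℂ) : circN ((r : ℂ) * z) = r * circN z := by
  unfold circN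
  rw [Complex.re_ofReal_mul, Complex.im_ofReal_mul, abs_mul, abs_mul, abs_of_pos hr,
    mul_max_of_nonneg _ _ hr.le]

theorem circP_smul {r : ℝ} (hr : 0 < r) (z : ℂ) : circP ((r : ℂ) * z) = circP z := by
  unfold circP
  rw [circN_smul hr, Complex.re_ofReal_mul, Complex.im_ofReal_mul]
  have e : ∀ a : ℝ, r * a / (2 * (r * circN z)) = a / (2 * circN z) := by
    intro a
    rw [show 2 * (r * circN z) = r * (2 * circN z) by ring, mul_div_mul_left _ _ hr.ne']
  rw [e, e]

theorem continuous_circC : Continuous circC := by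
  have h : circC = fun p : ℝ × ℝ => ((p.1 - 1 / 2 : ℝ) : ℂ) + ((p.2 - 1 / 2 : ℝ) : ℂ) * Complex.I := by
    funext p
    apply Complex.ext <;> simp [circC]
  rw [h]
  fun_prop

theorem continuous_circN : Continuous circN :=
  (continuous_abs.comp Complex.continuous_re).max (continuous_abs.comp Complex.continuous_im)

/-- chart at the point `b` -/
noncomputable def circF (b p : ℝ × ℝ) : ℝ := Complex.arg (-circC p / circC b)

/-- inverse of the chart at `b` -/
noncomputable def circG (b : ℝ × ℝ) (θ : ℝ) : ℝ × ℝ :=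
  circP (-circC b * Complex.exp (θ * Complex.I))

theorem circG_arg_ne {b : ℝ × ℝ} (hb : b ∈ bd) (θ : ℝ) :
    -circC b * Complex.exp (θ * Complex.I) ≠ 0 :=
  mul_ne_zero (neg_ne_zero.2 (circC_ne hb)) (Complex.exp_ne_zero _)

theorem circG_mem {b : ℝ × ℝ} (hb : b ∈ bd) (θ : ℝ) : circG b θ ∈ bd :=
  circP_mem (circG_arg_ne hb θ)

theorem continuous_circG {b : ℝ × ℝ} (hb : b ∈ bd) : Continuous (circG b) := by
  have h1 : Continuous fun θ : ℝ => -circC b * Complex.exp (θ * Complex.I) := by fun_prop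
  have h2 : ∀ θ : ℝ, 2 * circN (-circC b * Complex.exp (θ * Complex.I)) ≠ 0 := by
    intro θ
    have := circN_pos (circG_arg_ne hb θ)
    positivity
  unfold circG circP
  refine Continuous.prodMk ?_ ?_
  · exact continuous_const.add ((Complex.continuous_re.comp h1).div
      (continuous_const.mul (continuous_circN.comp h1)) h2)
  · exact continuous_const.add ((Complex.continuous_im.comp h1).div
      (continuous_const.mul (continuous_circN.comp h1)) h2)

theorem circG_F {b p : ℝ × ℝ} (hb : b ∈ bd) (hp : p ∈ bd) : circG b (circF b p) = p := by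
  unfold circG circF
  set w : ℂ := -circC p / circC b with hw
  have hb0 := circC_ne hb
  have hp0 := circC_ne hp
  have hw0 : w ≠ 0 := div_ne_zero (neg_ne_zero.2 hp0) hb0
  have h1 : Complex.exp (Complex.arg w * Complex.I) = w / ‖w‖ := by
    have := Complex.norm_mul_exp_arg_mul_I w
    have hn : (‖w‖ : ℂ) ≠ 0 := by
      exact_mod_cast norm_ne_zero_iff.2 hw0
    field_simp
    rw [mul_comm]
    exact this
  have h2 : -circC b * (w / ‖w‖) = ((1 / ‖w‖ : ℝ) : ℂ) * circC p := by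
    rw [hw]
    push_cast
    field_simp
  rw [h1, h2, circP_smul (by positivity), circP_C hp]

theorem circF_G {b : ℝ × ℝ} (hb : b ∈ bd) {θ : ℝ} (h1 : -Real.pi < θ) (h2 : θ ≤ Real.pi) :
    circF b (circG b θ) = θ := by
  unfold circF circG
  rw [circC_P]
  have hb0 := circC_ne hb
  have hN := circN_pos (circG_arg_ne hb θ)
  set r : ℝ := 1 / (2 * circN (-circC b * Complex.exp (θ * Complex.I))) with hr
  have hr0 : 0 < r := by rw [hr]; positivity
  have e : -((r : ℂ) * (-circC b * Complex.exp (θ * Complex.I))) / circC b =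
      (r : ℂ) * Complex.exp (θ * Complex.I) := by
    field_simp
  rw [e, Complex.arg_real_mul _ hr0, Complex.exp_mul_I]
  exact Complex.arg_cos_add_sin_mul_I ⟨h1, h2⟩

theorem circF_slit {b p : ℝ × ℝ} (hb : b ∈ bd) (hp : p ∈ bd) (hne : p ≠ b) :
    -circC p / circC b ∈ Complex.slitPlane := by
  rw [Complex.mem_slitPlane_iff_not_le_zero]
  intro hle
  have hb0 := circC_ne hb
  have hp0 := circC_ne hp
  have hle' := Complex.le_def.1 hle
  set w : ℂ := -circC p / circC b with hw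
  have hw0 : w ≠ 0 := div_ne_zero (neg_ne_zero.2 hp0) hb0
  have him : w.im = 0 := hle'.2
  have hre : w.re ≤ 0 := hle'.1
  have hre' : w.re < 0 := by
    refine lt_of_le_of_ne hre ?_
    intro h0
    exact hw0 (Complex.ext h0 him)
  have h1 : circC p = ((-w.re : ℝ) : ℂ) * circC b := by
    have h2 : w = ((w.re : ℝ) : ℂ) := Complex.ext rfl (by simpa using him)
    have h3 : circC p = -w * circC b := by
      rw [hw]
      field_simp
    rw [h3, h2]
    push_cast
    simp
  apply hne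
  have h4 := circP_C hp
  rw [h1, circP_smul (by linarith), circP_C hb] at h4
  exact h4.symm

theorem circF_lt {b p : ℝ × ℝ} (hb : b ∈ bd) (hp : p ∈ bd) (hne : p ≠ b) :
    -Real.pi < circF b p ∧ circF b p < Real.pi := by
  have h1 := circF_slit hb hp hne
  refine ⟨Complex.neg_pi_lt_arg _, ?_⟩
  refine lt_of_le_of_ne (Complex.arg_le_pi _) ?_
  exact (Complex.mem_slitPlane_iff_arg.1 h1).1

theorem circF_cont {b : ℝ × ℝ} (hb : b ∈ bd) {A : Set (ℝ × ℝ)} (hA : A ⊆ bd) (hbA : b ∉ A) :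
    ContinuousOn (circF b) A := by
  intro p hp
  have hne : p ≠ b := fun h => hbA (h ▸ hp)
  have h1 : ContinuousAt (fun q : ℝ × ℝ => -circC q / circC b) p := by
    have : Continuous fun q : ℝ × ℝ => -circC q / circC b :=
      (continuous_circC.neg).div_const _
    exact this.continuousAt
  have h2 : ContinuousAt Complex.arg (-circC p / circC b) :=
    Complex.continuousAt_arg (circF_slit hb (hA hp) hne)
  exact (ContinuousAt.comp (g := Complex.arg) (f := fun q : ℝ × ℝ => -circC q / circC b)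
    h2 h1).continuousWithinAt

theorem circG_pi {b : ℝ × ℝ} : circG b (-Real.pi) = circG b Real.pi := by
  unfold circG
  congr 2
  rw [Complex.exp_pi_mul_I]
  push_cast
  rw [neg_mul, Complex.exp_neg, Complex.exp_pi_mul_I]
  norm_num

/-- the arc between two points of a preconnected set missing a point of the circle -/
theorem circ_arc {A : Set (ℝ × ℝ)} (hA : A ⊆ bd) (hAc : IsPreconnected A) {b a1 a2 : ℝ × ℝ}
    (hb : b ∈ bd) (hbA : b ∉ A) (ha1 : a1 ∈ A) (ha2 : a2 ∈ A) :
    ∃ A' R : Set (ℝ × ℝ), A' ⊆ A ∧ IsPathConnected A' ∧ a1 ∈ A' ∧ a2 ∈ A' ∧ IsClosed A' ∧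
      IsClosed R ∧ bd ⊆ A' ∪ R ∧ A' ∩ R ⊆ {a1, a2} := by
  have hG := continuous_circG hb
  have hpre : (circF b '' A).OrdConnected :=
    (hAc.image _ (circF_cont hb hA hbA)).ordConnected
  have hsub : uIcc (circF b a1) (circF b a2) ⊆ circF b '' A :=
    hpre.uIcc_subset ⟨a1, ha1, rfl⟩ ⟨a2, ha2, rfl⟩
  have hne1 : a1 ≠ b := fun h => hbA (h ▸ ha1)
  have hne2 : a2 ≠ b := fun h => hbA (h ▸ ha2)
  have hl1 := circF_lt hb (hA ha1) hne1
  have hl2 := circF_lt hb (hA ha2) hne2
  set l := min (circF b a1) (circF b a2) with hl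
  set h := max (circF b a1) (circF b a2) with hh
  have hlh : l ≤ h := min_le_max
  have hlpi : -Real.pi < l := lt_min hl1.1 hl2.1
  have hhpi : h < Real.pi := max_lt hl1.2 hl2.2
  have hGl : circG b l ∈ ({a1, a2} : Set (ℝ × ℝ)) := by
    rcases min_choice (circF b a1) (circF b a2) with hc | hc
    · left; rw [hl, hc]; exact circG_F hb (hA ha1)
    · right; rw [hl, hc]; exact circG_F hb (hA ha2)
  have hGh : circG b h ∈ ({a1, a2} : Set (ℝ × ℝ)) := by
    rcases max_choice (circF b a1) (circF b a2) with hc | hc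
    · left; rw [hh, hc]; exact circG_F hb (hA ha1)
    · right; rw [hh, hc]; exact circG_F hb (hA ha2)
  refine ⟨circG b '' uIcc (circF b a1) (circF b a2),
    circG b '' (Icc (-Real.pi) l ∪ Icc h Real.pi), ?_, ?_, ?_, ?_, ?_, ?_, ?_, ?_⟩
  · rintro _ ⟨θ, hθ, rfl⟩
    obtain ⟨p, hp, hpθ⟩ := hsub hθ
    rw [← hpθ, circG_F hb (hA hp)]
    exact hp
  · have h1 : IsPathConnected (uIcc (circF b a1) (circF b a2)) :=
      (convex_uIcc _ _).isPathConnected ⟨_, left_mem_uIcc⟩
    exact h1.image hG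
  · exact ⟨_, left_mem_uIcc, circG_F hb (hA ha1)⟩
  · exact ⟨_, right_mem_uIcc, circG_F hb (hA ha2)⟩
  · exact (isCompact_uIcc.image hG).isClosed
  · exact ((isCompact_Icc.union isCompact_Icc).image hG).isClosed
  · intro p hp
    have h1 := circG_F hb hp
    have h2 : -Real.pi < circF b p := Complex.neg_pi_lt_arg _
    have h3 : circF b p ≤ Real.pi := Complex.arg_le_pi _
    by_cases c1 : circF b p ≤ l
    · right
      exact ⟨_, Or.inl ⟨h2.le, c1⟩, h1⟩
    · by_cases c2 : h ≤ circF b p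
      · right
        exact ⟨_, Or.inr ⟨c2, h3⟩, h1⟩
      · left
        push Not at c1 c2
        exact ⟨_, ⟨c1.le, c2.le⟩, h1⟩
  · rintro _ ⟨⟨θ, hθ, rfl⟩, ⟨θ', hθ', he⟩⟩
    have hθl : l ≤ θ := hθ.1
    have hθh : θ ≤ h := hθ.2
    have e1 := circF_G hb (lt_of_lt_of_le hlpi hθl) (hθh.trans hhpi.le)
    by_cases hcase : θ' = -Real.pi
    · exfalso
      rw [hcase, circG_pi] at he
      have e2 := circF_G hb (neg_lt_self Real.pi_pos) (le_refl Real.pi)
      rw [he, e1] at e2
      linarith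
    · have hlt : -Real.pi < θ' := by
        rcases hθ' with h1 | h1
        · exact lt_of_le_of_ne h1.1 (Ne.symm hcase)
        · exact lt_of_lt_of_le (lt_of_lt_of_le hlpi hlh) h1.1
      have hle : θ' ≤ Real.pi := by
        rcases hθ' with h1 | h1
        · exact h1.2.trans (hlh.trans hhpi.le)
        · exact h1.2
      have e2 := circF_G hb hlt hle
      rw [he, e1] at e2
      rcases hθ' with h1 | h1
      · have : θ = l := le_antisymm (e2 ▸ h1.2) hθl
        rw [this]; exact hGl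
      · have : θ = h := le_antisymm hθh (e2 ▸ h1.1)
        rw [this]; exact hGh

/-- [CAR-I] unlinked pairs of points on the boundary of the square can be joined disjointly -/
theorem circ_join {A B : Set (ℝ × ℝ)} (hA : A ⊆ bd) (hB : B ⊆ bd) (hAc : IsPreconnected A)
    (hBc : IsPreconnected B) {a1 a2 b1 b2 : ℝ × ℝ} (ha1 : a1 ∈ A) (ha2 : a2 ∈ A)
    (ha1' : a1 ∉ B) (ha2' : a2 ∉ B) (hb1 : b1 ∈ B) (hb2 : b2 ∈ B) (hb1' : b1 ∉ A)
    (hb2' : b2 ∉ A) :
    ∃ A' B' : Set (ℝ × ℝ), A' ⊆ A ∧ B' ⊆ B ∧ IsPathConnected A' ∧ IsPathConnected B' ∧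
      a1 ∈ A' ∧ a2 ∈ A' ∧ b1 ∈ B' ∧ b2 ∈ B' ∧ Disjoint A' B' := by
  obtain ⟨A', R, hA'A, hA'p, ha1A, ha2A, hA'c, hRc, hcov, hint⟩ :=
    circ_arc hA hAc (hB hb1) hb1' ha1 ha2
  obtain ⟨B', -, hB'B, hB'p, hb1B, hb2B, -, -, -, -⟩ :=
    circ_arc hB hBc (hA ha1) ha1' hb1 hb2
  refine ⟨A', B', hA'A, hB'B, hA'p, hB'p, ha1A, ha2A, hb1B, hb2B, ?_⟩
  rw [Set.disjoint_left]
  intro p hpA hpB
  have hpre : IsPreconnected B' := hB'p.isConnected.isPreconnected
  have hnot : ∀ q ∈ B', q ∉ ({a1, a2} : Set (ℝ × ℝ)) := by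
    rintro q hq (rfl | rfl)
    · exact ha1' (hB'B hq)
    · exact ha2' (hB'B hq)
  have h1 := hpre A'ᶜ Rᶜ hA'c.isOpen_compl hRc.isOpen_compl
    (by
      intro q hq
      by_cases hqA : q ∈ A'
      · right
        intro hqR
        exact hnot q hq (hint ⟨hqA, hqR⟩)
      · left
        exact hqA)
    ⟨b1, hb1B, fun h => hb1' (hA'A h)⟩
    ⟨p, hpB, fun h => hnot p hpB (hint ⟨hpA, h⟩)⟩
  obtain ⟨q, hqB, hq1, hq2⟩ := h1
  rcases hcov (hB (hB'B hqB)) with h | h
  · exact hq1 h
  · exact hq2 h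

end CAR
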