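import Pool.Agent.MP_eabe7c_an.Cells

open Set Topology Filter

namespace CAR

/-- the frontier of a triadic square -/
theorem frontier_sq (n i j : ℕ) : frontier (sq n i j) =
    {p | p ∈ sq n i j ∧ (p.1 = (i : ℝ) / 3 ^ n ∨ p.1 = (i + 1 : ℝ) / 3 ^ n ∨
      p.2 = (j : ℝ) / 3 ^ n ∨ p.2 = (j + 1 : ℝ) / 3 ^ n)} := by
  have hc : IsClosed (sq n i j) := isClosed_Icc.prod isClosed_Icc
  rw [hc.frontier_eq]
  have e : interior (sq n i j) = Ioo ((i : ℝ) / 3 ^ n) ((i + 1 : ℝ) / 3 ^ n) ×ˢ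
      Ioo ((j : ℝ) / 3 ^ n) ((j + 1 : ℝ) / 3 ^ n) := by
    unfold sq
    rw [interior_prod_eq, interior_Icc, interior_Icc]
  rw [e]
  ext p
  constructor
  · rintro ⟨hp, hn⟩
    refine ⟨hp, ?_⟩
    by_contra hno
    push Not at hno
    obtain ⟨h1, h2, h3, h4⟩ := hno
    exact hn ⟨⟨lt_of_le_of_ne hp.1.1 (Ne.symm h1), lt_of_le_of_ne hp.1.2 h2⟩,
      ⟨lt_of_le_of_ne hp.2.1 (Ne.symm h3), lt_of_le_of_ne hp.2.2 h4⟩⟩
  · rintro ⟨hp, h⟩
    refine ⟨hp, fun hn => ?_⟩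
    rcases h with h | h | h | h
    · exact absurd h (ne_of_gt hn.1.1)
    · exact absurd h (ne_of_lt hn.1.2)
    · exact absurd h (ne_of_gt hn.2.1)
    · exact absurd h (ne_of_lt hn.2.2)

theorem isPreconnected_frontier_sq (n i j : ℕ) : IsPreconnected (frontier (sq n i j)) := by
  have h3 : (0 : ℝ) < 3 ^ n := by positivity
  set a : ℝ := (i : ℝ) / 3 ^ n with ha
  set b : ℝ := (i + 1 : ℝ) / 3 ^ n with hb
  set c : ℝ := (j : ℝ) / 3 ^ n with hc
  set d : ℝ := (j + 1 : ℝ) / 3 ^ n with hd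
  have hab : a ≤ b := by
    rw [ha, hb]
    exact div_le_div_of_nonneg_right (by linarith) h3.le
  have hcd : c ≤ d := by
    rw [hc, hd]
    exact div_le_div_of_nonneg_right (by linarith) h3.le
  have e : frontier (sq n i j) = ((({a} : Set ℝ) ×ˢ Icc c d ∪ Icc a b ×ˢ ({c} : Set ℝ)) ∪
      ({b} : Set ℝ) ×ˢ Icc c d) ∪ Icc a b ×ˢ ({d} : Set ℝ) := by
    rw [frontier_sq]
    ext p
    simp only [mem_union, mem_prod, mem_singleton_iff]
    constructor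
    · rintro ⟨⟨h1, h2⟩, h | h | h | h⟩
      · exact Or.inl (Or.inl (Or.inl ⟨h, h2⟩))
      · exact Or.inl (Or.inr ⟨h, h2⟩)
      · exact Or.inl (Or.inl (Or.inr ⟨h1, h⟩))
      · exact Or.inr ⟨h1, h⟩
    · rintro (((⟨h1, h2⟩ | ⟨h1, h2⟩) | ⟨h1, h2⟩) | ⟨h1, h2⟩)
      · exact ⟨⟨h1 ▸ left_mem_Icc.2 hab, h2⟩, Or.inl h1⟩
      · exact ⟨⟨h1, h2 ▸ left_mem_Icc.2 hcd⟩, Or.inr (Or.inr (Or.inl h2))⟩
      · exact ⟨⟨h1 ▸ right_mem_Icc.2 hab, h2⟩, Or.inr (Or.inl h1)⟩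
      · exact ⟨⟨h1, h2 ▸ right_mem_Icc.2 hcd⟩, Or.inr (Or.inr (Or.inr h2))⟩
  rw [e]
  have p1 : IsPreconnected (({a} : Set ℝ) ×ˢ Icc c d) :=
    isPreconnected_singleton.prod isPreconnected_Icc
  have p2 : IsPreconnected (Icc a b ×ˢ ({c} : Set ℝ)) :=
    isPreconnected_Icc.prod isPreconnected_singleton
  have p3 : IsPreconnected (({b} : Set ℝ) ×ˢ Icc c d) :=
    isPreconnected_singleton.prod isPreconnected_Icc
  have p4 : IsPreconnected (Icc a b ×ˢ ({d} : Set ℝ)) :=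
    isPreconnected_Icc.prod isPreconnected_singleton
  refine IsPreconnected.union (a, d) ?_ ?_ (IsPreconnected.union (b, c) ?_ ?_
    (IsPreconnected.union (a, c) ?_ ?_ p1 p2) p3) p4
  · exact Or.inl (Or.inl ⟨rfl, right_mem_Icc.2 hcd⟩)
  · exact ⟨left_mem_Icc.2 hab, rfl⟩
  · exact Or.inr ⟨right_mem_Icc.2 hab, rfl⟩
  · exact ⟨rfl, left_mem_Icc.2 hcd⟩
  · exact ⟨rfl, left_mem_Icc.2 hcd⟩
  · exact ⟨left_mem_Icc.2 hab, rfl⟩

/-- the frontier of a cell meets the frontier of its parent -/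
theorem frontier_inter_parent {n i j : ℕ} (h : ¬ (i % 3 = 1 ∧ j % 3 = 1)) :
    (frontier (sq (n + 1) i j) ∩ frontier (sq n (i / 3) (j / 3))).Nonempty := by
  have h3 : (0 : ℝ) < 3 ^ n := by positivity
  have hi := Nat.div_add_mod i 3
  have hj := Nat.div_add_mod j 3
  have hi3 := Nat.mod_lt i (by norm_num : 0 < 3)
  have hj3 := Nat.mod_lt j (by norm_num : 0 < 3)
  set a := i / 3
  set b := j / 3
  set e := i % 3
  set f := j % 3
  have hiR : (i : ℝ) = 3 * a + e := by exact_mod_cast hi.symm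
  have hjR : (j : ℝ) = 3 * b + f := by exact_mod_cast hj.symm
  have eI : ∀ x : ℝ, x / 3 ^ (n + 1) = (x / 3) / 3 ^ n := by
    intro x; rw [pow_succ]; field_simp
  have hle : ∀ x y : ℝ, x ≤ y → x / 3 ^ n ≤ y / 3 ^ n := fun x y hxy =>
    div_le_div_of_nonneg_right hxy h3.le
  have he2 : (e : ℝ) ≤ 2 := by exact_mod_cast Nat.le_of_lt_succ hi3
  have hf2 : (f : ℝ) ≤ 2 := by exact_mod_cast Nat.le_of_lt_succ hj3
  have he0 : (0 : ℝ) ≤ e := by positivity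
  have hf0 : (0 : ℝ) ≤ f := by positivity
  -- corners of the small square
  have key : ∀ u v : ℝ, (u = 0 ∨ u = 1) → (v = 0 ∨ v = 1) →
      ((e : ℝ) + u = 0 ∨ (e : ℝ) + u = 3 ∨ (f : ℝ) + v = 0 ∨ (f : ℝ) + v = 3) →
      (((i + u) / 3 ^ (n + 1), (j + v) / 3 ^ (n + 1)) : ℝ × ℝ) ∈
        frontier (sq (n + 1) i j) ∩ frontier (sq n a b) := by
    intro u v hu hv hor
    have hu0 : 0 ≤ u := by rcases hu with h | h <;> rw [h] <;> norm_num
    have hu1 : u ≤ 1 := by rcases hu with h | h <;> rw [h] <;> norm_num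
    have hv0 : 0 ≤ v := by rcases hv with h | h <;> rw [h] <;> norm_num
    have hv1 : v ≤ 1 := by rcases hv with h | h <;> rw [h] <;> norm_num
    rw [frontier_sq, frontier_sq]
    refine ⟨⟨⟨⟨?_, ?_⟩, ⟨?_, ?_⟩⟩, ?_⟩, ⟨⟨⟨?_, ?_⟩, ⟨?_, ?_⟩⟩, ?_⟩⟩
    · show (i : ℝ) / 3 ^ (n + 1) ≤ (i + u) / 3 ^ (n + 1)
      rw [eI, eI]; exact hle _ _ (by linarith)
    · show ((i : ℝ) + u) / 3 ^ (n + 1) ≤ (i + 1) / 3 ^ (n + 1)
      rw [eI, eI]; exact hle _ _ (by linarith)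
    · show (j : ℝ) / 3 ^ (n + 1) ≤ (j + v) / 3 ^ (n + 1)
      rw [eI, eI]; exact hle _ _ (by linarith)
    · show ((j : ℝ) + v) / 3 ^ (n + 1) ≤ (j + 1) / 3 ^ (n + 1)
      rw [eI, eI]; exact hle _ _ (by linarith)
    · rcases hu with h | h
      · left; show ((i : ℝ) + u) / 3 ^ (n + 1) = i / 3 ^ (n + 1); rw [h, add_zero]
      · right; left; show ((i : ℝ) + u) / 3 ^ (n + 1) = (i + 1) / 3 ^ (n + 1); rw [h]
    · show (a : ℝ) / 3 ^ n ≤ ((i : ℝ) + u) / 3 ^ (n + 1)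
      rw [eI]; exact hle _ _ (by rw [hiR]; linarith)
    · show ((i : ℝ) + u) / 3 ^ (n + 1) ≤ (a + 1) / 3 ^ n
      rw [eI]; exact hle _ _ (by rw [hiR]; linarith)
    · show (b : ℝ) / 3 ^ n ≤ ((j : ℝ) + v) / 3 ^ (n + 1)
      rw [eI]; exact hle _ _ (by rw [hjR]; linarith)
    · show ((j : ℝ) + v) / 3 ^ (n + 1) ≤ (b + 1) / 3 ^ n
      rw [eI]; exact hle _ _ (by rw [hjR]; linarith)
    · rcases hor with h | h | h | h
      · left
        show ((i : ℝ) + u) / 3 ^ (n + 1) = a / 3 ^ n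
        rw [eI, hiR]; congr 1; linarith
      · right; left
        show ((i : ℝ) + u) / 3 ^ (n + 1) = (a + 1) / 3 ^ n
        rw [eI, hiR]; congr 1; linarith
      · right; right; left
        show ((j : ℝ) + v) / 3 ^ (n + 1) = b / 3 ^ n
        rw [eI, hjR]; congr 1; linarith
      · right; right; right
        show ((j : ℝ) + v) / 3 ^ (n + 1) = (b + 1) / 3 ^ n
        rw [eI, hjR]; congr 1; linarith
  have hcase : e = 0 ∨ e = 2 ∨ f = 0 ∨ f = 2 := by omega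
  rcases hcase with h1 | h1 | h1 | h1
  · exact ⟨_, key 0 0 (Or.inl rfl) (Or.inl rfl) (Or.inl (by rw [h1]; norm_num))⟩
  · exact ⟨_, key 1 0 (Or.inr rfl) (Or.inl rfl) (Or.inr (Or.inl (by rw [h1]; norm_num)))⟩
  · exact ⟨_, key 0 0 (Or.inl rfl) (Or.inl rfl) (Or.inr (Or.inr (Or.inl (by rw [h1]; norm_num))))⟩
  · exact ⟨_, key 0 1 (Or.inl rfl) (Or.inr rfl)
      (Or.inr (Or.inr (Or.inr (by rw [h1]; norm_num))))⟩

/-- the carpet is connected -/
instance : PreconnectedSpace carpet := by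
  rw [preconnectedSpace_iff_clopen]
  intro A hA
  -- the origin
  have h0c : ((0 : ℝ), (0 : ℝ)) ∈ carpet :=
    mem_carpet_of_boundary ⟨le_refl _, zero_le_one⟩ ⟨le_refl _, zero_le_one⟩ (Or.inl rfl)
  have main : ∀ B : Set carpet, IsClopen B → (⟨((0 : ℝ), (0 : ℝ)), h0c⟩ : carpet) ∈ B →
      B = univ := by
    intro B hB h0
    have hfr : ∀ n i j, IsCell n i j → (Subtype.val ⁻¹' (frontier (sq n i j)) : Set carpet) ⊆ B := by
      intro n
      have hpre : ∀ n i j, IsCell n i j →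
          IsPreconnected (Subtype.val ⁻¹' (frontier (sq n i j)) : Set carpet) := by
        intro n i j hc
        rw [← Topology.IsInducing.subtypeVal.isPreconnected_image, Subtype.image_preimage_coe,
          inter_eq_right.2 hc.frontier_subset]
        exact isPreconnected_frontier_sq n i j
      induction n with
      | zero =>
        intro i j hc
        refine (hpre 0 i j hc).subset_isClopen hB ⟨_, ?_, h0⟩
        have hi : i = 0 := by have := hc.1; simpa using this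
        have hj : j = 0 := by have := hc.2.1; simpa using this
        subst hi; subst hj
        show ((0 : ℝ), (0 : ℝ)) ∈ frontier (sq 0 0 0)
        rw [frontier_sq]
        refine ⟨⟨⟨by simp, by simp⟩, ⟨by simp, by simp⟩⟩, Or.inl (by simp)⟩
      | succ n ih =>
        intro i j hc
        obtain ⟨hp, hn⟩ := hc.parent
        obtain ⟨p, hp1, hp2⟩ := frontier_inter_parent (n := n) hn
        have hpc : p ∈ carpet := hc.frontier_subset hp1
        exact (hpre (n + 1) i j hc).subset_isClopen hB ⟨⟨p, hpc⟩, hp1, ih _ _ hp hp2⟩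
    rw [eq_univ_iff_forall]
    intro x
    rw [← hB.1.closure_eq, Metric.mem_closure_iff]
    intro ε hε
    obtain ⟨n, hn⟩ := exists_pow_lt_of_lt_one hε (by norm_num : (1 / 3 : ℝ) < 1)
    obtain ⟨i, j, hc, hx⟩ := exists_cell x.2 n
    have h3 : (0 : ℝ) < 3 ^ n := by positivity
    have hq : (((i : ℝ) / 3 ^ n, (j : ℝ) / 3 ^ n) : ℝ × ℝ) ∈ frontier (sq n i j) := by
      rw [frontier_sq]
      refine ⟨⟨⟨le_refl _, ?_⟩, ⟨le_refl _, ?_⟩⟩, Or.inl rfl⟩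
      · exact div_le_div_of_nonneg_right (by simp) h3.le
      · exact div_le_div_of_nonneg_right (by simp) h3.le
    refine ⟨⟨_, hc.frontier_subset hq⟩, hfr n i j hc hq, ?_⟩
    have h1 := hx.1
    have h2 := hx.2
    have e1 : ((i : ℝ) + 1) / 3 ^ n = i / 3 ^ n + (1 / 3) ^ n := by
      rw [add_div, one_div_pow]
    have e2 : ((j : ℝ) + 1) / 3 ^ n = j / 3 ^ n + (1 / 3) ^ n := by
      rw [add_div, one_div_pow]
    rw [e1] at h1
    rw [e2] at h2
    rw [Subtype.dist_eq, Prod.dist_eq, max_lt_iff, Real.dist_eq, Real.dist_eq, abs_lt, abs_lt]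
    refine ⟨⟨?_, ?_⟩, ⟨?_, ?_⟩⟩
    · have := h1.1; show -ε < x.1.1 - (i : ℝ) / 3 ^ n; linarith
    · have := h1.2; show x.1.1 - (i : ℝ) / 3 ^ n < ε; linarith
    · have := h2.1; show -ε < x.1.2 - (j : ℝ) / 3 ^ n; linarith
    · have := h2.2; show x.1.2 - (j : ℝ) / 3 ^ n < ε; linarith
  by_cases h0 : (⟨((0 : ℝ), (0 : ℝ)), h0c⟩ : carpet) ∈ A
  · exact Or.inr (main A hA h0)
  · left
    have := main Aᶜ hA.compl h0
    rwa [compl_univ_iff] at this

end CAR
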