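import Pool.Agent.MP_eabe7c_an.Cut

open MeasureTheory Set Topology Filter

namespace CAR

variable {X : Type*} [MetricSpace X] [CompactSpace X] [PreconnectedSpace X] [MeasurableSpace X] [BorelSpace X]
  {μ : Measure X}

namespace DForm

/-- [CAR-S] local strong minimum principle for superharmonic functions -/
theorem smp [IsFiniteMeasure μ] [μ.IsOpenPosMeasure] (D : DForm X μ) {h : C(X, ℝ)}
    (hh : h ∈ D.dom) {U : Set X} (hU : IsOpen U) (h0 : ∀ x ∈ U, 0 ≤ h x)
    (hsup : ∀ f ∈ D.dom, (∀ x, 0 ≤ f x) → tsupport f ⊆ U → 0 ≤ D.E h f)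
    {x₀ : X} (hx : x₀ ∈ U) (hz : h x₀ = 0) : ∀ᶠ x in 𝓝 x₀, h x = 0 := by
  obtain ⟨r, hr, hrU⟩ := Metric.nhds_basis_closedBall.mem_iff.1 (hU.mem_nhds hx)
  obtain ⟨φ, hφ, hφ0, hφ1, hφK, hφU⟩ := D.cutoff (Metric.isClosed_closedBall (x := x₀) (ε := r))
    hU hrU
  have hp : h ⊔ 0 ∈ D.dom := D.pos_mem hh
  set w : ℕ → C(X, ℝ) := fun n => φ ⊓ ((n : ℝ) • (h ⊔ 0)) with hw
  have hwn : ∀ n, w n ∈ D.dom := fun n => D.inf_mem hφ (D.dom.smul_mem _ hp)
  have hwx : ∀ n x, w n x = min (φ x) (n * max (h x) 0) := by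
    intro n x
    simp [hw, ContinuousMap.inf_apply, ContinuousMap.sup_apply]
  have hθ : ∀ n, φ - w n ∈ D.dom := fun n => D.dom.sub_mem hφ (hwn n)
  have hθ0 : ∀ n x, 0 ≤ (φ - w n) x := by
    intro n x
    rw [ContinuousMap.sub_apply, hwx]
    linarith [min_le_left (φ x) ((n : ℝ) * max (h x) 0)]
  have hθs : ∀ n, tsupport (φ - w n) ⊆ U := by
    intro n
    refine (closure_mono ?_).trans hφU
    intro x hx'
    rw [Function.mem_support] at hx' ⊢
    intro h1
    apply hx'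
    rw [ContinuousMap.sub_apply, hwx, h1]
    have h2 : 0 ≤ (n : ℝ) * max (h x) 0 := by positivity
    rw [min_eq_left h2, sub_zero]
  have hE1 : ∀ n, 0 ≤ D.E (w n) (φ - w n) := by
    intro n
    have h1 : D.E (φ - w n) (h ⊔ 0 - h) = 0 := by
      refine D.strongLocal _ (hθ n) _ (D.dom.sub_mem hp hh) ⟨0, U, hU, hθs n, ?_⟩
      intro x hx'
      have := h0 x hx'
      simp [ContinuousMap.sup_apply, this]
    have h2 : D.E (h ⊔ 0) (φ - w n) = D.E h (φ - w n) := by
      rw [D.symm _ (hθ n) _ (D.dom.sub_mem hp hh), D.sub_left hp hh (hθ n)] at h1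
      linarith
    have h3 : 0 ≤ D.E (h ⊔ 0) (φ - w n) := by
      rw [h2]; exact hsup _ (hθ n) (hθ0 n) (hθs n)
    have h4 : D.E (w n - (n : ℝ) • (h ⊔ 0)) (φ - w n) = 0 := by
      refine D.E_eq_zero_of_mul (D.dom.sub_mem (hwn n) (D.dom.smul_mem _ hp)) (hθ n) ?_
      intro x
      rw [ContinuousMap.sub_apply, ContinuousMap.sub_apply, hwx, ContinuousMap.smul_apply,
        ContinuousMap.sup_apply, ContinuousMap.zero_apply, smul_eq_mul]
      rcases le_total (φ x) ((n : ℝ) * max (h x) 0) with h5 | h5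
      · rw [min_eq_left h5]; simp
      · rw [min_eq_right h5]; simp
    rw [D.sub_left (hwn n) (D.dom.smul_mem _ hp) (hθ n), D.smul_left _ _ hp _ (hθ n)] at h4
    have h5 : 0 ≤ (n : ℝ) * D.E (h ⊔ 0) (φ - w n) := by positivity
    linarith
  have hE2 : ∀ n, D.E (w n) (w n) ≤ D.E φ φ := by
    intro n
    have h1 : φ = w n + (φ - w n) := by abel
    have h2 := D.energy_add (hwn n) (hθ n)
    rw [← h1] at h2
    have h3 := D.nonneg _ (hθ n)
    have h4 := hE1 n
    linarith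
  have hM : ∀ n x, |w n x| ≤ 1 := by
    intro n x
    rw [hwx, abs_le]
    have h2 : 0 ≤ (n : ℝ) * max (h x) 0 := by positivity
    constructor
    · have : 0 ≤ min (φ x) ((n : ℝ) * max (h x) 0) := le_min (hφ0 x) h2
      linarith
    · exact (min_le_left _ _).trans (hφ1 x)
  have hlim : ∀ x, Tendsto (fun n => w n x) atTop (𝓝 (if 0 < h x then φ x else 0)) := by
    intro x
    by_cases hx' : 0 < h x
    · rw [if_pos hx']
      refine tendsto_const_nhds.congr' ?_
      obtain ⟨N, hN⟩ := exists_nat_ge (φ x / h x)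
      filter_upwards [eventually_ge_atTop N] with n hn
      rw [hwx, min_eq_left]
      rw [max_eq_left hx'.le]
      have h1 : φ x / h x ≤ n := hN.trans (by exact_mod_cast hn)
      rwa [div_le_iff₀ hx'] at h1
    · rw [if_neg hx']
      refine tendsto_const_nhds.congr ?_
      intro n
      rw [hwx, max_eq_right (not_lt.1 hx'), mul_zero, min_eq_right (hφ0 x)]
  obtain ⟨v, hv, hvx, -, -⟩ := D.limit w hwn hE2 hM _ hlim
  have hv0 : v x₀ < 1 := by
    rw [hvx, hz]
    simp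
  have h1 : ∀ᶠ x in 𝓝 x₀, v x < 1 := v.continuous.continuousAt.eventually_lt
    continuousAt_const hv0
  filter_upwards [h1, Metric.closedBall_mem_nhds x₀ hr] with x hx1 hx2
  have h2 : ¬ 0 < h x := by
    intro h3
    rw [hvx, if_pos h3, hφK x hx2] at hx1
    exact lt_irrefl _ hx1
  exact le_antisymm (not_lt.1 h2) (h0 x (hrU hx2))

/-- [CAR-S] -/
theorem neg_near [IsFiniteMeasure μ] [μ.IsOpenPosMeasure] (D : DForm X μ) {V : Set X}
    (hV : IsClosed V) {h : C(X, ℝ)} (hh : D.HarmonicOff V h) {s : X} (hsV : s ∉ V)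
    (hs0 : h s = 0) (hs : s ∉ interior {x | h x = 0}) {W : Set X} (hW : W ∈ 𝓝 s) :
    ∃ x ∈ W, h x < 0 := by
  by_contra hcon
  push Not at hcon
  apply hs
  rw [mem_interior_iff_mem_nhds]
  have hU : IsOpen (interior W ∩ Vᶜ) := isOpen_interior.inter hV.isOpen_compl
  have hsU : s ∈ interior W ∩ Vᶜ := ⟨mem_interior_iff_mem_nhds.2 hW, hsV⟩
  refine D.smp hh.1 hU (fun x hx => hcon x (interior_subset hx.1)) ?_ hsU hs0
  intro f hf hf0 hfs
  rw [hh.2 f hf]
  intro x hx
  by_contra hne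
  exact (hfs (subset_tsupport f (Function.mem_support.2 hne))).2 hx

/-- [CAR-S] if `Γ(h,h)` vanishes on `U` then `h` is locally constant on `U \ V` -/
theorem locally_const [IsFiniteMeasure μ] [μ.IsOpenPosMeasure] (D : DForm X μ) {V : Set X}
    (hV : IsClosed V) {h : C(X, ℝ)} (hh : D.HarmonicOff V h) {U : Set X} (hU : IsOpen U)
    (hle : ∀ f ∈ D.dom, (∀ x, 0 ≤ f x) → tsupport f ⊆ U → D.energy h f ≤ 0)
    {x₀ : X} (hx : x₀ ∈ U) (hxV : x₀ ∉ V) : ∀ᶠ x in 𝓝 x₀, h x = h x₀ := by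
  set c : ℝ := h x₀ with hc
  have hhd := hh.1
  have hh2 : h * h ∈ D.dom := D.mul_mem hhd hhd
  have hH1 : h * h - (2 * c) • h ∈ D.dom := D.dom.sub_mem hh2 (D.dom.smul_mem _ hhd)
  set H : C(X, ℝ) := h * h - (2 * c) • h + ContinuousMap.const X (c ^ 2) with hHdef
  have hH : H ∈ D.dom := D.dom.add_mem hH1 (D.const_mem _)
  have hHx : ∀ x, H x = (h x - c) ^ 2 := by
    intro x
    simp only [hHdef, ContinuousMap.add_apply, ContinuousMap.sub_apply, ContinuousMap.mul_apply,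
      ContinuousMap.smul_apply, smul_eq_mul, ContinuousMap.const_apply]
    ring
  have hU' : IsOpen (U ∩ Vᶜ) := hU.inter hV.isOpen_compl
  have key : ∀ᶠ x in 𝓝 x₀, H x = 0 := by
    refine D.smp hH hU' (fun x _ => by rw [hHx]; positivity) ?_ ⟨hx, hxV⟩
      (by rw [hHx, hc]; simp)
    intro f hf hf0 hfs
    have hfV : ∀ x ∈ V, f x = 0 := by
      intro x hx'
      by_contra hne
      exact (hfs (subset_tsupport f (Function.mem_support.2 hne))).2 hx'
    have h1 : D.E h f = 0 := hh.2 f hf hfV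
    have h2 : D.E h (h * f) = 0 := hh.2 _ (D.mul_mem hhd hf) (by
      intro x hx'
      rw [ContinuousMap.mul_apply, hfV x hx', mul_zero])
    have h3 : D.energy h f ≤ 0 := hle f hf hf0 (hfs.trans inter_subset_left)
    rw [DForm.energy, D.symm _ (D.mul_mem hhd hf) _ hhd, h2] at h3
    rw [hHdef, D.add_left _ hH1 _ (D.const_mem _) _ hf, D.const_left _ hf,
      D.sub_left hh2 (D.dom.smul_mem _ hhd) hf, D.smul_left _ _ hhd _ hf, h1]
    linarith
  filter_upwards [key] with x hx'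
  rw [hHx] at hx'
  have := pow_eq_zero_iff (two_ne_zero) |>.1 hx'
  linarith

/-- [CAR-S] -/
theorem fullSupport_of [IsFiniteMeasure μ] [μ.IsOpenPosMeasure] (D : DForm X μ) {V : Set X}
    (hV : IsClosed V) (hVi : interior V = ∅) {h : C(X, ℝ)} (hh : D.HarmonicOff V h)
    (hc : ∀ c : ℝ, interior {x | h x = c} = ∅) : D.FullSupport h := by
  have key : ∀ U : Set X, IsOpen U → U.Nonempty →
      ∃ f ∈ D.dom, (∀ x, 0 ≤ f x) ∧ tsupport f ⊆ U ∧ 0 < D.energy h f := by
    intro U hU hne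
    by_contra hcon
    push Not at hcon
    have h1 : ¬ U ⊆ V := by
      intro h2
      have h3 : U ⊆ interior V := interior_maximal h2 hU
      rw [hVi] at h3
      obtain ⟨x, hx⟩ := hne
      exact h3 hx
    obtain ⟨x₀, hx₀, hx₀V⟩ := Set.not_subset.1 h1
    have h2 := D.locally_const hV hh hU hcon hx₀ hx₀V
    have h3 : x₀ ∈ interior {x | h x = h x₀} := mem_interior_iff_mem_nhds.2 h2
    rw [hc] at h3
    exact h3
  refine ⟨key, ?_⟩
  intro Γ hΓ U hU hne
  rw [pos_iff_ne_zero]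
  intro hU0
  obtain ⟨f, hf, hf0, hfs, hpos⟩ := key U hU hne
  have h1 : f =ᵐ[Γ] 0 := by
    rw [Filter.EventuallyEq, ae_iff]
    refine measure_mono_null ?_ hU0
    intro x hx
    by_contra hxU
    apply hx
    exact image_eq_zero_of_notMem_tsupport (fun h2 => hxU (hfs h2))
  have h2 := hΓ f hf
  rw [integral_congr_ae h1] at h2
  simp at h2
  linarith

end DForm

end CAR
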