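import Pool.Agent.MP_eabe7c_an.Morrey

open MeasureTheory Set Topology Filter

namespace CAR

variable {X : Type*} [MetricSpace X] [CompactSpace X] [PreconnectedSpace X] [MeasurableSpace X] [BorelSpace X]
  {μ : Measure X}

namespace DForm

/-- energy of a finite sum of terms with geometrically decreasing energies -/
theorem energy_sum_geom (D : DForm X μ) (a : ℕ → C(X, ℝ)) (ha : ∀ k, a k ∈ D.dom)
    (hE : ∀ k, D.E (a k) (a k) ≤ (1 / 8 : ℝ) ^ k) (j : ℕ) : ∀ n : ℕ,
    D.E (∑ k ∈ Finset.range j, a (n + k)) (∑ k ∈ Finset.range j, a (n + k)) ≤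
      4 * (1 / 8 : ℝ) ^ n := by
  induction j with
  | zero =>
    intro n
    rw [Finset.sum_range_zero, D.zero_left D.dom.zero_mem]
    positivity
  | succ j ih =>
    intro n
    rw [Finset.sum_range_succ']
    have h1 : ∑ k ∈ Finset.range j, a (n + (k + 1)) = ∑ k ∈ Finset.range j, a (n + 1 + k) :=
      Finset.sum_congr rfl fun k _ => by rw [add_assoc, add_comm 1 k]
    rw [h1, add_zero]
    have h2 := D.energy_add_le (D.dom.sum_mem fun k (_ : k ∈ Finset.range j) => ha (n + 1 + k))
      (ha n)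
    have h3 := ih (n + 1)
    have h4 := hE n
    rw [pow_succ] at h3
    have h5 : (0 : ℝ) ≤ (1 / 8 : ℝ) ^ n := by positivity
    linarith

/-- [CAR-Z] every closed set is the zero set of a nonnegative function of the domain -/
theorem exists_zero_set [IsFiniteMeasure μ] [μ.IsOpenPosMeasure] (D : DForm X μ)
    {B : Set X} (hB : IsClosed B) :
    ∃ f ∈ D.dom, (∀ x, 0 ≤ f x) ∧ ∀ x, f x = 0 ↔ x ∈ B := by
  rcases isEmpty_or_nonempty X with hX | ⟨⟨x₀⟩⟩
  · exact ⟨0, D.dom.zero_mem, fun x => hX.elim x, fun x => hX.elim x⟩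
  obtain ⟨K, hKc, hKU, hKun, _⟩ := hB.isOpen_compl.exists_iUnion_isClosed
  choose ζ hζd hζ0 hζ1 hζK hζs using fun n => D.cutoff (hKc n) hB.isOpen_compl (hKU n)
  let c : ℕ → ℝ := fun k => (1 / 8 : ℝ) ^ k / (1 + D.E (ζ k) (ζ k))
  have hEn : ∀ k, 0 ≤ D.E (ζ k) (ζ k) := fun k => D.nonneg _ (hζd k)
  have hc0 : ∀ k, 0 < c k := fun k => by
    have := hEn k
    positivity
  have hc1 : ∀ k, c k ≤ (1 / 8 : ℝ) ^ k := fun k => by
    have := hEn k
    apply div_le_self (by positivity)
    linarith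
  let a : ℕ → C(X, ℝ) := fun k => c k • ζ k
  have had : ∀ k, a k ∈ D.dom := fun k => D.dom.smul_mem _ (hζd k)
  have ha_apply : ∀ k x, a k x = c k * ζ k x := fun k x => rfl
  have ha0 : ∀ k x, 0 ≤ a k x := fun k x => by
    rw [ha_apply]
    exact mul_nonneg (hc0 k).le (hζ0 k x)
  have ha1 : ∀ k x, a k x ≤ (1 / 8 : ℝ) ^ k := fun k x => by
    rw [ha_apply]
    calc c k * ζ k x ≤ c k * 1 := mul_le_mul_of_nonneg_left (hζ1 k x) (hc0 k).le
      _ ≤ _ := by rw [mul_one]; exact hc1 k
  have haE : ∀ k, D.E (a k) (a k) ≤ (1 / 8 : ℝ) ^ k := fun k => by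
    have h0 := hEn k
    have h1 : D.E (a k) (a k) = c k ^ 2 * D.E (ζ k) (ζ k) := D.energy_smul _ (hζd k)
    have h2 : c k * (1 + D.E (ζ k) (ζ k)) = (1 / 8 : ℝ) ^ k :=
      div_mul_cancel₀ _ (by positivity)
    have h3 : c k ≤ 1 := (hc1 k).trans (pow_le_one₀ (by norm_num) (by norm_num))
    rw [h1]
    calc c k ^ 2 * D.E (ζ k) (ζ k) = c k * (c k * D.E (ζ k) (ζ k)) := by ring
      _ ≤ 1 * (c k * (1 + D.E (ζ k) (ζ k))) := by
        apply mul_le_mul h3 _ (mul_nonneg (hc0 k).le h0) zero_le_one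
        apply mul_le_mul_of_nonneg_left _ (hc0 k).le
        linarith
      _ = (1 / 8 : ℝ) ^ k := by rw [one_mul, h2]
  let S : ℕ → C(X, ℝ) := fun n => ∑ k ∈ Finset.range n, a k
  have hSd : ∀ n, S n ∈ D.dom := fun n => D.dom.sum_mem fun k _ => had k
  have hSsub : ∀ n j, S (n + j) - S n = ∑ k ∈ Finset.range j, a (n + k) := fun n j => by
    change (∑ k ∈ Finset.range (n + j), a k) - ∑ k ∈ Finset.range n, a k = _
    rw [Finset.sum_range_add, add_sub_cancel_left]
  have hgeom : Tendsto (fun n : ℕ => 4 * (1 / 8 : ℝ) ^ n) atTop (𝓝 0) := by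
    have := (tendsto_pow_atTop_nhds_zero_of_lt_one (r := (1 / 8 : ℝ)) (by norm_num)
      (by norm_num)).const_mul 4
    rwa [mul_zero] at this
  have hES : ∀ n m, n ≤ m → D.E (S m - S n) (S m - S n) ≤ 4 * (1 / 8 : ℝ) ^ n := by
    intro n m hnm
    obtain ⟨j, rfl⟩ := Nat.exists_eq_add_of_le hnm
    rw [hSsub]
    exact D.energy_sum_geom a had haE j n
  have hmono : ∀ n m, n ≤ m → (1 / 8 : ℝ) ^ m ≤ (1 / 8 : ℝ) ^ n := fun n m h =>
    pow_le_pow_of_le_one (by norm_num) (by norm_num) h
  have hS_apply : ∀ n x, S n x = ∑ k ∈ Finset.range n, a k x := fun n x => by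
    change (∑ k ∈ Finset.range n, a k) x = _
    rw [ContinuousMap.sum_apply]
  obtain ⟨v, hvd, -, hv⟩ := D.complete x₀ S hSd
    (by
      intro ε hε
      obtain ⟨N, hN⟩ := (hgeom.eventually (gt_mem_nhds hε)).exists
      refine ⟨N, fun m hm n hn => ?_⟩
      rcases le_total n m with h | h
      · refine lt_of_le_of_lt (hES n m h) (lt_of_le_of_lt ?_ hN)
        have := hmono N n hn
        linarith
      · have h1 : D.E (S m - S n) (S m - S n) = D.E (S n - S m) (S n - S m) := by
          rw [← neg_sub (S n) (S m), D.energy_neg (D.dom.sub_mem (hSd n) (hSd m))]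
        rw [h1]
        refine lt_of_le_of_lt (hES m n h) (lt_of_le_of_lt ?_ hN)
        have := hmono N m hm
        linarith)
    (by
      have hsum : Summable fun k => a k x₀ :=
        Summable.of_nonneg_of_le (fun k => ha0 k x₀) (fun k => ha1 k x₀)
          (summable_geometric_of_lt_one (by norm_num) (by norm_num))
      have h1 := hsum.hasSum.tendsto_sum_nat.cauchySeq
      have h2 : (fun n => S n x₀) = fun n => ∑ k ∈ Finset.range n, a k x₀ := by
        funext n
        exact hS_apply n x₀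
      rw [h2]
      exact h1)
  have hvx : ∀ x, Tendsto (fun n => S n x) atTop (𝓝 (v x)) := fun x =>
    ((continuous_eval_const (F := C(X, ℝ)) x).tendsto v).comp hv
  refine ⟨v, hvd, ?_, ?_⟩
  · intro x
    apply ge_of_tendsto' (hvx x)
    intro n
    rw [hS_apply]
    exact Finset.sum_nonneg fun k _ => ha0 k x
  · intro x
    constructor
    · intro h0
      by_contra hxB
      have hx : x ∈ ⋃ n, K n := by rw [hKun]; exact hxB
      obtain ⟨k, hk⟩ := mem_iUnion.1 hx
      have h1 : a k x = c k := by rw [ha_apply, hζK k x hk, mul_one]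
      have h2 : a k x ≤ v x := by
        apply ge_of_tendsto (hvx x)
        filter_upwards [eventually_gt_atTop k] with n hn
        rw [hS_apply]
        exact Finset.single_le_sum (f := fun k => a k x) (fun i _ => ha0 i x)
          (Finset.mem_range.2 hn)
      have h3 := hc0 k
      linarith
    · intro hxB
      have h1 : ∀ n, S n x = 0 := by
        intro n
        rw [hS_apply]
        apply Finset.sum_eq_zero
        intro k _
        rw [ha_apply, image_eq_zero_of_notMem_tsupport (fun h => hζs k h hxB), mul_zero]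
      have h2 := hvx x
      simp only [h1] at h2
      exact (tendsto_nhds_unique h2 tendsto_const_nhds)

end DForm

end CAR
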