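import Pool.Agent.MP_eabe7c_an.Dir
import Pool.Agent.MP_eabe7c_an.Zero
import Pool.Agent.MP_eabe7c_an.Smp

open MeasureTheory Set Topology Filter

namespace CAR

variable {X : Type*} [MetricSpace X] [CompactSpace X] [PreconnectedSpace X] [MeasurableSpace X] [BorelSpace X]
  {μ : Measure X}

namespace DForm

/-- the functions `g k` -/
theorem core_g [IsFiniteMeasure μ] [μ.IsOpenPosMeasure] (D : DForm X μ) {V Q : Set X}
    (hV : IsClosed V) (hVn : V.Nonempty) (hQ : IsClosed Q) {N : ℕ} {T : Fin N → Set X}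
    {s : Fin N → X} (hTd : ∀ k l, k ≠ l → Disjoint (T k) (T l))
    (hTQ : ∀ k, Disjoint (T k) Q) (hTV : ∀ k, Disjoint (T k) V)
    (hTcl : ∀ k, IsClosed (Q ∪ T k)) (hs : ∀ k, s k ∈ T k) :
    ∃ g : Fin N → C(X, ℝ), (∀ k, g k ∈ D.dom) ∧ (∀ k, ∀ x ∈ V, g k x = 0) ∧
      (∀ k, ∀ x ∈ Q, g k x = 0) ∧ (∀ k j, j ≠ k → ∀ x ∈ T j, g k x = 0) ∧
      (∀ k, ∀ x ∈ T k, 0 < g k x) ∧ (∀ k, g k (s k) = 1) ∧
      ∀ k, ∀ f ∈ D.dom, (∀ y ∈ V ∪ Q ∪ ⋃ k, T k, f y = 0) → D.E (g k) f = 0 := by
  have key : ∀ k, ∃ g ∈ D.dom, (∀ x ∈ V, g x = 0) ∧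
      (∀ x ∈ Q, g x = 0) ∧ (∀ j, j ≠ k → ∀ x ∈ T j, g x = 0) ∧
      (∀ x ∈ T k, 0 < g x) ∧ (g (s k) = 1) ∧
      ∀ f ∈ D.dom, (∀ y ∈ V ∪ Q ∪ ⋃ k, T k, f y = 0) → D.E g f = 0 := by
    intro k
    set B : Set X := V ∪ Q ∪ ⋃ j : {j : Fin N // j ≠ k}, (Q ∪ T j) with hB
    have hBc : IsClosed B := by
      refine (hV.union hQ).union ?_
      exact isClosed_iUnion_of_finite fun j => hTcl j
    obtain ⟨f, hf, hf0, hfB⟩ := D.exists_zero_set hBc
    have hTB : ∀ x ∈ T k, x ∉ B := by
      intro x hx hxB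
      rcases hxB with (hxV | hxQ) | hxT
      · exact Set.disjoint_left.1 (hTV k) hx hxV
      · exact Set.disjoint_left.1 (hTQ k) hx hxQ
      · rw [Set.mem_iUnion] at hxT
        obtain ⟨⟨j, hj⟩, hxj⟩ := hxT
        rcases hxj with hxQ | hxj
        · exact Set.disjoint_left.1 (hTQ k) hx hxQ
        · exact Set.disjoint_left.1 (hTd k j (Ne.symm hj)) hx hxj
    have hpos : ∀ x ∈ T k, 0 < f x := by
      intro x hx
      exact lt_of_le_of_ne (hf0 x) (fun h => hTB x hx ((hfB x).1 h.symm))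
    have hc : 0 < f (s k) := hpos _ (hs k)
    have hφ : (f (s k))⁻¹ • f ∈ D.dom := D.dom.smul_mem _ hf
    obtain ⟨g, hg, hgA, hgE⟩ := D.dirichlet (A := V ∪ Q ∪ ⋃ k, T k)
      (hVn.mono (by intro x hx; exact Or.inl (Or.inl hx))) (ι := Fin 0) (fun i => i.elim0)
      (fun i => i.elim0) (fun i => i.elim0) hφ
    have hval : ∀ y ∈ V ∪ Q ∪ ⋃ k, T k, g y = (f (s k))⁻¹ * f y := by
      intro y hy
      rw [hgA y hy]; simp
    refine ⟨g, hg, ?_, ?_, ?_, ?_, ?_, ?_⟩
    · intro x hx
      rw [hval x (Or.inl (Or.inl hx)), (hfB x).2 (Or.inl (Or.inl hx)), mul_zero]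
    · intro x hx
      rw [hval x (Or.inl (Or.inr hx)), (hfB x).2 (Or.inl (Or.inr hx)), mul_zero]
    · intro j hj x hx
      rw [hval x (Or.inr (Set.mem_iUnion.2 ⟨j, hx⟩)), (hfB x).2, mul_zero]
      exact Or.inr (Set.mem_iUnion.2 ⟨⟨j, hj⟩, Or.inr hx⟩)
    · intro x hx
      rw [hval x (Or.inr (Set.mem_iUnion.2 ⟨k, hx⟩))]
      exact mul_pos (inv_pos.2 hc) (hpos x hx)
    · rw [hval _ (Or.inr (Set.mem_iUnion.2 ⟨k, hs k⟩))]
      exact inv_mul_cancel₀ hc.ne'
    · intro f' hf' hf'0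
      have := hgE f' hf' hf'0
      simpa using this
  choose g h1 h2 h3 h4 h5 h6 h7 using key
  exact ⟨g, h1, h2, h3, h4, h5, h6, h7⟩

/-- the points `x j` -/
theorem core_x [IsFiniteMeasure μ] [μ.IsOpenPosMeasure] (D : DForm X μ) {V : Set X}
    (hV : IsClosed V) {h : C(X, ℝ)}
    (hh : D.HarmonicOff V h) {N : ℕ} {s : Fin N → X}
    (hs0 : ∀ k, h (s k) = 0) (hsV : ∀ k, s k ∉ V)
    (hs' : ∀ k, s k ∉ interior {x | h x = 0})
    (σ : Fin N → ℝ) (hσ : ∀ k, σ k = 1 ∨ σ k = -1) (g : Fin N → C(X, ℝ)) (δ : ℝ) (hδ : 0 < δ) :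
    ∃ x : Fin N → X, ∀ j, σ j * h (x j) < 0 ∧ ∀ k, |g k (x j) - g k (s j)| < δ := by
  have key : ∀ j, ∃ x : X, σ j * h x < 0 ∧ ∀ k, |g k x - g k (s j)| < δ := by
    intro j
    have hσ0 : σ j ≠ 0 := by rcases hσ j with h | h <;> rw [h] <;> norm_num
    have hh' : D.HarmonicOff V (σ j • h) := by
      refine ⟨D.dom.smul_mem _ hh.1, ?_⟩
      intro f hf hf0
      rw [D.smul_left _ h hh.1 f hf, hh.2 f hf hf0, mul_zero]
    have hset : {x | (σ j • h) x = 0} = {x | h x = 0} := by
      ext x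
      simp [hσ0]
    have hW : {x | ∀ k, |g k x - g k (s j)| < δ} ∈ 𝓝 (s j) := by
      rw [← Filter.eventually_iff, Filter.eventually_all]
      intro k
      have hc : ContinuousAt (fun x => |g k x - g k (s j)|) (s j) := by
        have := (g k).continuous
        fun_prop
      have : ∀ᶠ y in 𝓝 (|g k (s j) - g k (s j)|), y < δ := by
        rw [sub_self, abs_zero]
        exact gt_mem_nhds hδ
      exact hc.eventually this
    obtain ⟨x, hx, hneg⟩ := D.neg_near hV hh' (hsV j) (by simp [hs0 j])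
      (by rw [hset]; exact hs' j) hW
    refine ⟨x, ?_, hx⟩
    simpa using hneg
  choose x hx using key
  exact ⟨x, hx⟩

/-- the constants -/
theorem core_num {N : ℕ} (m : Fin N → ℝ) (hm : ∀ j, 0 < m j) (C M F e : ℝ) (hC : 0 < C)
    (hM : 0 < M) (hF : 0 ≤ F) (he : 0 ≤ e) :
    ∃ m₀ τ η : ℝ, 0 < m₀ ∧ (∀ j, m₀ ≤ m j) ∧ 0 < τ ∧ 0 < η ∧ η ≤ 1 ∧
      C * (∑ j, τ / m j) * M ≤ m₀ / 8 ∧ η * F ≤ m₀ / 8 ∧ η * e < τ / 4 := by
  set S : ℝ := ∑ j, 1 / m j with hS
  have hS0 : 0 ≤ S := Finset.sum_nonneg fun j _ => (by have := hm j; positivity)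
  set m₀ : ℝ := (1 + S)⁻¹ with hm0
  have hm0p : 0 < m₀ := by positivity
  have hm0le : ∀ j, m₀ ≤ m j := by
    intro j
    have h1 : 1 / m j ≤ S :=
      Finset.single_le_sum (f := fun j => 1 / m j) (fun i _ => (by have := hm i; positivity))
        (Finset.mem_univ j)
    have h2 : m₀ ≤ (1 / m j)⁻¹ := by
      apply inv_anti₀ (by have := hm j; positivity)
      linarith
    simpa using h2
  set τ : ℝ := m₀ / (8 * C * M * (S + 1)) with hτ
  have hτp : 0 < τ := by positivity
  set η : ℝ := (1 + 8 * F / m₀ + 4 * e / τ)⁻¹ with hη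
  have hηp : 0 < η := by positivity
  have hden : 0 < 1 + 8 * F / m₀ + 4 * e / τ := by positivity
  have hηi : η * (1 + 8 * F / m₀ + 4 * e / τ) = 1 := inv_mul_cancel₀ hden.ne'
  have q1 : 0 ≤ η * (8 * F / m₀) := by positivity
  have q2 : 0 ≤ η * (4 * e / τ) := by positivity
  refine ⟨m₀, τ, η, hm0p, hm0le, hτp, hηp, ?_, ?_, ?_, ?_⟩
  · nlinarith
  · have h1 : ∑ j, τ / m j = τ * S := by
      rw [hS, Finset.mul_sum]
      apply Finset.sum_congr rfl
      intro j _; ring
    rw [h1]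
    have h2 : C * (τ * S) * M ≤ C * (τ * (S + 1)) * M := by
      have : 0 ≤ C * τ * M := by positivity
      nlinarith
    refine h2.trans (le_of_eq ?_)
    rw [hτ]
    field_simp
  · have h1 : η * (8 * F / m₀) ≤ 1 := by nlinarith
    have h2 : η * (8 * F / m₀) * (m₀ / 8) ≤ 1 * (m₀ / 8) :=
      mul_le_mul_of_nonneg_right h1 (by positivity)
    calc η * F = η * (8 * F / m₀) * (m₀ / 8) := by field_simp
      _ ≤ m₀ / 8 := by linarith
  · have h1 : η * (4 * e / τ) < 1 := by nlinarith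
    have h2 : η * (4 * e / τ) * (τ / 4) < 1 * (τ / 4) :=
      mul_lt_mul_of_pos_right h1 (by positivity)
    calc η * e = η * (4 * e / τ) * (τ / 4) := by field_simp
      _ < τ / 4 := by linarith

/-- the function `u` with the sign information at the level of the form with killing -/
theorem core_u [IsFiniteMeasure μ] [μ.IsOpenPosMeasure] (D : DForm X μ) {V A : Set X}
    (hVn : V.Nonempty) (hVA : V ⊆ A) {h : C(X, ℝ)}
    (hh : D.HarmonicOff V h) {N : ℕ} {s : Fin N → X}
    (σ : Fin N → ℝ) (hσ : ∀ k, σ k = 1 ∨ σ k = -1) (g : Fin N → C(X, ℝ))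
    (hg : ∀ k, g k ∈ D.dom) (hgV : ∀ k, ∀ x ∈ V, g k x = 0)
    (hgs : ∀ k, g k (s k) = 1) (hgs0 : ∀ k j, j ≠ k → g k (s j) = 0)
    (hgE : ∀ k, ∀ f ∈ D.dom, (∀ y ∈ A, f y = 0) → D.E (g k) f = 0)
    (x : Fin N → X) (hx : ∀ j, σ j * h (x j) < 0 ∧
      ∀ k, |g k (x j) - g k (s j)| < 1 / (4 * (N + 1))) :
    ∃ u ∈ D.dom, ∃ η : ℝ, ∃ α : Fin N → ℝ, 0 < η ∧ (∀ j, 0 ≤ α j) ∧
      (∀ y ∈ A, u y = h y + η * ∑ k, σ k * g k y) ∧
      (∀ f ∈ D.dom, (∀ y ∈ A, f y = 0) → D.E u f + ∑ j, α j * (u (x j) * f (x j)) = 0) ∧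
      ∀ k, σ k * (D.E u (g k) + ∑ j, α j * (u (x j) * g k (x j))) < 0 := by
  set F : C(X, ℝ) := ∑ k, σ k • g k with hF
  have hFd : F ∈ D.dom := D.dom.sum_mem fun k _ => D.dom.smul_mem _ (hg k)
  have hFx : ∀ y, F y = ∑ k, σ k * g k y := by
    intro y
    rw [hF]
    simp [ContinuousMap.sum_apply]
  have hσabs : ∀ k, |σ k| = 1 := by intro k; rcases hσ k with h | h <;> rw [h] <;> norm_num
  have hσsq : ∀ k, σ k * σ k = 1 := by intro k; rcases hσ k with h | h <;> rw [h] <;> norm_num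
  obtain ⟨C, hC, hmor⟩ := D.morrey
  set m : Fin N → ℝ := fun j => |h (x j)| with hm
  have hm' : ∀ j, m j = -(σ j * h (x j)) := by
    intro j
    have h1 : |σ j * h (x j)| = |h (x j)| := by rw [abs_mul, hσabs, one_mul]
    rw [hm]; simp only
    rw [← h1, abs_of_neg (hx j).1]
  have hmp : ∀ j, 0 < m j := by
    intro j; rw [hm' j]; linarith [(hx j).1]
  set M : ℝ := ‖h‖ + ‖F‖ + 1 with hM
  have hMp : 0 < M := by positivity
  obtain ⟨m₀, τ, η, hm0, hm0le, hτ, hη, hη1, n1, n2, n3⟩ := core_num m hmp C M ‖F‖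
    (∑ k, |D.E F (g k)|) hC hMp (norm_nonneg _) (Finset.sum_nonneg fun _ _ => abs_nonneg _)
  set α : Fin N → ℝ := fun j => τ / m j with hα
  have hα0 : ∀ j, 0 ≤ α j := fun j => by have := hmp j; positivity
  have hfd : h + η • F ∈ D.dom := D.dom.add_mem hh.1 (D.dom.smul_mem _ hFd)
  obtain ⟨u, hu, huA, huE⟩ := D.dirichlet (A := A) (hVn.mono hVA) x α hα0 hfd
  set v : C(X, ℝ) := u - (h + η • F) with hv
  have hvd : v ∈ D.dom := D.dom.sub_mem hu hfd
  have hvA : ∀ y ∈ A, v y = 0 := by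
    intro y hy
    rw [hv, ContinuousMap.sub_apply, huA y hy, sub_self]
  have huv : ∀ y, u y = h y + η * F y + v y := by
    intro y; rw [hv]; simp
  have hhv : D.E h v = 0 := hh.2 v hvd fun y hy => hvA y (hVA hy)
  have hgv : ∀ k, D.E (g k) v = 0 := fun k => hgE k v hvd hvA
  have hFv : D.E F v = 0 := by
    rw [hF, D.sum_left _ _ (fun k _ => D.dom.smul_mem _ (hg k)) hvd]
    apply Finset.sum_eq_zero
    intro k _
    rw [D.smul_left _ _ (hg k) _ hvd, hgv k, mul_zero]
  have hηF : η • F ∈ D.dom := D.dom.smul_mem _ hFd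
  have hfv : D.E (h + η • F) v = 0 := by
    rw [D.add_left _ hh.1 _ hηF _ hvd, D.smul_left _ _ hFd _ hvd, hhv, hFv]; ring
  have hvv : D.E v v = D.E u v := by
    conv_lhs => rw [hv]
    rw [← hv, D.sub_left hu hfd hvd, hfv, sub_zero]
  have huEv := huE v hvd hvA
  -- the sup bound for `v`
  set b : ℝ := Real.sqrt (C * D.E v v) with hb
  have hvv0 : 0 ≤ D.E v v := D.nonneg v hvd
  have hbv : ∀ y, |v y| ≤ b := by
    intro y
    obtain ⟨y0, hy0⟩ := hVn
    have h1 := hmor v hvd y y0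
    rw [hvA y0 (hVA hy0), sub_zero] at h1
    exact Real.abs_le_sqrt h1
  have hFn : ∀ y, |F y| ≤ ‖F‖ := fun y => by simpa using F.norm_coe_le_norm y
  have hhn : ∀ y, |h y| ≤ ‖h‖ := fun y => by simpa using h.norm_coe_le_norm y
  have hb0 : 0 ≤ b := Real.sqrt_nonneg _
  have hEle : D.E v v ≤ (∑ j, α j) * M * b := by
    rw [hvv]
    have h1 : D.E u v = ∑ j, -(α j * (u (x j) * v (x j))) := by
      rw [Finset.sum_neg_distrib]; linarith
    rw [h1, Finset.sum_mul, Finset.sum_mul]
    apply Finset.sum_le_sum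
    intro j _
    have h2 : -(u (x j) * v (x j)) ≤ M * b := by
      rw [huv (x j)]
      have h3 : |h (x j) + η * F (x j)| ≤ M := by
        calc |h (x j) + η * F (x j)| ≤ |h (x j)| + |η * F (x j)| := abs_add_le _ _
          _ ≤ ‖h‖ + ‖F‖ := by
            apply add_le_add (hhn _)
            rw [abs_mul, abs_of_pos hη]
            calc η * |F (x j)| ≤ 1 * ‖F‖ :=
                  mul_le_mul hη1 (hFn _) (abs_nonneg _) zero_le_one
              _ = ‖F‖ := one_mul _
          _ ≤ M := by rw [hM]; linarith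
      have h4 : |(h (x j) + η * F (x j)) * v (x j)| ≤ M * b := by
        rw [abs_mul]; exact mul_le_mul h3 (hbv _) (abs_nonneg _) hMp.le
      have h5 := (abs_le.1 h4).1
      nlinarith [sq_nonneg (v (x j))]
    have h6 := mul_le_mul_of_nonneg_left h2 (hα0 j)
    calc -(α j * (u (x j) * v (x j))) = α j * (-(u (x j) * v (x j))) := by ring
      _ ≤ α j * (M * b) := h6
      _ = α j * M * b := by ring
  have hbsq : b * b = C * D.E v v := Real.mul_self_sqrt (by positivity)
  have hble : b ≤ m₀ / 8 := by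
    by_contra hcon
    have hbpos : 0 < b := lt_trans (by positivity) (not_le.1 hcon)
    have h1 : b * b ≤ (C * (∑ j, α j) * M) * b := by
      rw [hbsq]
      calc C * D.E v v ≤ C * ((∑ j, α j) * M * b) := mul_le_mul_of_nonneg_left hEle hC.le
        _ = (C * (∑ j, α j) * M) * b := by ring
    have h2 : b ≤ C * (∑ j, α j) * M := le_of_mul_le_mul_right h1 hbpos
    exact hcon (h2.trans n1)
  have hclose : ∀ j, |u (x j) - h (x j)| ≤ m j / 4 := by
    intro j
    have h1 : u (x j) - h (x j) = η * F (x j) + v (x j) := by rw [huv]; ring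
    rw [h1]
    calc |η * F (x j) + v (x j)| ≤ |η * F (x j)| + |v (x j)| := abs_add_le _ _
      _ ≤ m₀ / 8 + m₀ / 8 := by
        apply add_le_add _ ((hbv _).trans hble)
        rw [abs_mul, abs_of_pos hη]
        exact (mul_le_mul_of_nonneg_left (hFn _) hη.le).trans n2
      _ ≤ m j / 4 := by linarith [hm0le j]
  refine ⟨u, hu, η, α, hη, hα0, ?_, huE, ?_⟩
  · intro y hy
    rw [huA y hy, ← hFx y]; simp
  · intro k
    have hδ : (1 : ℝ) / (4 * (N + 1)) ≤ 1 / 4 := by
      rw [div_le_div_iff₀ (by positivity) (by norm_num)]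
      have : (0:ℝ) ≤ N := Nat.cast_nonneg N
      linarith
    have e1 : D.E u (g k) = η * D.E F (g k) := by
      have h1 : u = (h + η • F) + v := by rw [hv]; abel
      have h2 : D.E h (g k) = 0 := hh.2 _ (hg k) (hgV k)
      have h3 : D.E v (g k) = 0 := by rw [D.symm _ hvd _ (hg k)]; exact hgv k
      calc D.E u (g k) = D.E ((h + η • F) + v) (g k) := by rw [← h1]
        _ = η * D.E F (g k) := by
          rw [D.add_left _ hfd _ hvd _ (hg k), D.add_left _ hh.1 _ hηF _ (hg k),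
            D.smul_left _ _ hFd _ (hg k), h2, h3]; ring
    have e2 : σ k * D.E u (g k) < τ / 4 := by
      rw [e1]
      have h1 : |D.E F (g k)| ≤ ∑ k, |D.E F (g k)| :=
        Finset.single_le_sum (f := fun k => |D.E F (g k)|) (fun _ _ => abs_nonneg _)
          (Finset.mem_univ k)
      have h2 : |σ k * (η * D.E F (g k))| < τ / 4 := by
        rw [abs_mul, abs_mul, hσabs, one_mul, abs_of_pos hη]
        exact lt_of_le_of_lt (mul_le_mul_of_nonneg_left h1 hη.le) n3
      exact (abs_lt.1 h2).2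
    have e3 : σ k * ∑ j, α j * (u (x j) * g k (x j)) ≤ -(τ / 4) := by
      rw [Finset.mul_sum, ← Finset.add_sum_erase _ _ (Finset.mem_univ k)]
      have t1 : σ k * (α k * (u (x k) * g k (x k))) ≤ -(9 * τ / 16) := by
        have h1 : g k (x k) ≥ 3 / 4 := by
          have := (abs_lt.1 ((hx k).2 k)).1
          rw [hgs k] at this
          linarith
        have h2 : σ k * u (x k) ≤ -(3 / 4 * m k) := by
          have h3 : |σ k * (u (x k) - h (x k))| ≤ m k / 4 := by
            rw [abs_mul, hσabs, one_mul]; exact hclose k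
          have h4 := (abs_le.1 h3).2
          have h5 := hm' k
          nlinarith
        have h6 : α k * (σ k * u (x k)) ≤ -(3 / 4 * τ) := by
          have h7 := mul_le_mul_of_nonneg_left h2 (hα0 k)
          have h8 : α k * m k = τ := div_mul_cancel₀ τ (hmp k).ne'
          nlinarith
        calc σ k * (α k * (u (x k) * g k (x k))) = (α k * (σ k * u (x k))) * g k (x k) := by ring
          _ ≤ (-(3 / 4 * τ)) * g k (x k) := mul_le_mul_of_nonneg_right h6 (by linarith)
          _ ≤ -(9 * τ / 16) := by nlinarith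
      have t2 : ∑ j ∈ Finset.univ.erase k, σ k * (α j * (u (x j) * g k (x j))) ≤
          5 * τ / 16 := by
        have h1 : ∀ j ∈ Finset.univ.erase k, σ k * (α j * (u (x j) * g k (x j))) ≤
            5 / 4 * τ * (1 / (4 * (N + 1))) := by
          intro j hj
          have hjk : j ≠ k := Finset.ne_of_mem_erase hj
          have h2 : |g k (x j)| ≤ 1 / (4 * (N + 1)) := by
            have := (hx j).2 k
            rw [hgs0 k j hjk, sub_zero] at this
            exact this.le
          have h3 : |u (x j)| ≤ 5 / 4 * m j := by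
            have h4 : |u (x j)| ≤ |u (x j) - h (x j)| + |h (x j)| := by
              have := abs_add_le (u (x j) - h (x j)) (h (x j))
              simpa using this
            have h5 : |h (x j)| = m j := rfl
            linarith [hclose j]
          have h6 : α j * |u (x j)| ≤ 5 / 4 * τ := by
            have h7 := mul_le_mul_of_nonneg_left h3 (hα0 j)
            have h8 : α j * m j = τ := div_mul_cancel₀ τ (hmp j).ne'
            nlinarith
          calc σ k * (α j * (u (x j) * g k (x j))) ≤ |σ k * (α j * (u (x j) * g k (x j)))| :=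
                le_abs_self _
            _ = (α j * |u (x j)|) * |g k (x j)| := by
                rw [abs_mul, abs_mul, abs_mul, hσabs, one_mul, abs_of_nonneg (hα0 j)]; ring
            _ ≤ 5 / 4 * τ * (1 / (4 * (N + 1))) :=
                mul_le_mul h6 h2 (abs_nonneg _) (by positivity)
        refine (Finset.sum_le_card_nsmul _ _ _ h1).trans ?_
        rw [nsmul_eq_mul]
        have hcard : ((Finset.univ.erase k).card : ℝ) ≤ N + 1 := by
          have : (Finset.univ.erase k).card ≤ N := by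
            refine (Finset.card_erase_le).trans ?_
            simp
          have h9 : ((Finset.univ.erase k).card : ℝ) ≤ N := by exact_mod_cast this
          linarith
        calc ((Finset.univ.erase k).card : ℝ) * (5 / 4 * τ * (1 / (4 * (N + 1)))) ≤
              (N + 1) * (5 / 4 * τ * (1 / (4 * (N + 1)))) :=
              mul_le_mul_of_nonneg_right hcard (by positivity)
          _ = 5 * τ / 16 := by field_simp; ring
      linarith
    rw [mul_add]
    linarith

/-- [CAR-K] the core lemma: alternating arms -/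
theorem core [IsFiniteMeasure μ] [μ.IsOpenPosMeasure] (D : DForm X μ) {V Q : Set X}
    (hV : IsClosed V) (hVn : V.Nonempty) (hQ : IsClosed Q) {h : C(X, ℝ)}
    (hh : D.HarmonicOff V h) {N : ℕ} {T : Fin N → Set X} {s : Fin N → X}
    (hQ0 : ∀ x ∈ Q, h x = 0) (hT0 : ∀ k, ∀ x ∈ T k, h x = 0)
    (hTc : ∀ k, IsPreconnected (T k)) (hTd : ∀ k l, k ≠ l → Disjoint (T k) (T l))
    (hTQ : ∀ k, Disjoint (T k) Q) (hTV : ∀ k, Disjoint (T k) V)
    (hTcl : ∀ k, IsClosed (Q ∪ T k)) (hs : ∀ k, s k ∈ T k)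
    (hs' : ∀ k, s k ∉ interior {x | h x = 0})
    (σ : Fin N → ℝ) (hσ : ∀ k, σ k = 1 ∨ σ k = -1) :
    ∃ u ∈ D.dom, (∀ x ∈ V, u x = h x) ∧ (∀ x ∈ Q, u x = 0) ∧
      (∀ k, ∀ x ∈ T k, 0 < σ k * u x) ∧
      ∀ k, ∀ Y : Set X, IsOpen Y → IsOpen ({x | 0 < σ k * u x} \ Y) →
        Y ⊆ {x | 0 < σ k * u x} → s k ∈ Y → (Y ∩ V).Nonempty := by
  classical
  obtain ⟨g, hg, hgV, hgQ, hgT0, hgT, hgs, hgE⟩ :=
    D.core_g hV hVn hQ hTd hTQ hTV hTcl hs
  set A : Set X := V ∪ Q ∪ ⋃ k, T k with hA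
  have hσsq : ∀ k, σ k * σ k = 1 := by intro k; rcases hσ k with h | h <;> rw [h] <;> norm_num
  obtain ⟨x, hx⟩ := D.core_x hV hh (s := s) (fun k => hT0 k _ (hs k))
    (fun k => Set.disjoint_left.1 (hTV k) (hs k)) hs' σ hσ g (1 / (4 * (N + 1))) (by positivity)
  obtain ⟨u, hu, η, α, hη, hα, huA, huE, hneg⟩ := D.core_u (A := A) hVn
    (by intro y hy; exact Or.inl (Or.inl hy)) hh σ hσ g hg hgV hgs
    (fun k j hj => hgT0 k j hj _ (hs j)) hgE x hx
  have uV : ∀ y ∈ V, u y = h y := by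
    intro y hy
    rw [huA y (Or.inl (Or.inl hy)), Finset.sum_eq_zero, mul_zero, add_zero]
    intro k _
    rw [hgV k y hy, mul_zero]
  have uQ : ∀ y ∈ Q, u y = 0 := by
    intro y hy
    rw [huA y (Or.inl (Or.inr hy)), Finset.sum_eq_zero, mul_zero, add_zero, hQ0 y hy]
    intro k _
    rw [hgQ k y hy, mul_zero]
  have uT : ∀ k, ∀ y ∈ T k, σ k * u y = η * g k y := by
    intro k y hy
    rw [huA y (Or.inr (Set.mem_iUnion.2 ⟨k, hy⟩)), hT0 k y hy,
      Finset.sum_eq_single k]
    · have := hσsq k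
      calc σ k * (0 + η * (σ k * g k y)) = (σ k * σ k) * (η * g k y) := by ring
        _ = η * g k y := by rw [this, one_mul]
    · intro j _ hj
      rw [hgT0 j k (Ne.symm hj) y hy, mul_zero]
    · intro hk; exact absurd (Finset.mem_univ k) hk
  have uTpos : ∀ k, ∀ y ∈ T k, 0 < σ k * u y := by
    intro k y hy
    rw [uT k y hy]
    exact mul_pos hη (hgT k y hy)
  refine ⟨u, hu, uV, uQ, uTpos, ?_⟩
  intro k Y hY hY' hYsub hsY
  by_contra hcon
  rw [Set.not_nonempty_iff_eq_empty] at hcon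
  have hYV : ∀ y ∈ V, y ∉ Y := by
    intro y hy hyY
    have : y ∈ Y ∩ V := ⟨hyY, hy⟩
    rw [hcon] at this
    exact this
  set Y' : Set X := {x | 0 < σ k * u x} \ Y with hY'def
  set w : C(X, ℝ) := (σ k • u) ⊔ 0 with hw
  have hsu : σ k • u ∈ D.dom := D.dom.smul_mem _ hu
  have hwd : w ∈ D.dom := D.pos_mem hsu
  have hwx : ∀ y, w y = max (σ k * u y) 0 := by
    intro y; rw [hw]; simp [ContinuousMap.sup_apply]
  have hw0 : ∀ y, 0 ≤ w y := by intro y; rw [hwx]; exact le_max_right _ _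
  have hwpos : {y | 0 < w y} = {y | 0 < σ k * u y} := by
    ext y
    simp only [Set.mem_setOf_eq, hwx, lt_max_iff, lt_irrefl, or_false]
  have hdis : Disjoint Y Y' := Set.disjoint_sdiff_right
  have hunion : Y ∪ Y' = {y | 0 < w y} := by
    rw [hwpos]; exact Set.union_diff_cancel hYsub
  obtain ⟨a, ha, b, hb, haY, haY0, hbY, hbY0, hab⟩ := D.cut hwd hw0 hY hY' hdis hunion
  have hwab : w = a + b := by
    ext y
    rw [ContinuousMap.add_apply]
    by_cases h1 : y ∈ Y
    · have h2 : y ∉ Y' := fun h => h.2 h1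
      rw [haY y h1, hbY0 y h2, add_zero]
    · by_cases h2 : y ∈ Y'
      · rw [haY0 y h1, hbY y h2, zero_add]
      · rw [haY0 y h1, hbY0 y h2, add_zero]
        have h3 : y ∉ {y | 0 < w y} := by
          rw [← hunion]; rintro (h | h); exact h1 h; exact h2 h
        simp only [Set.mem_setOf_eq, not_lt] at h3
        exact le_antisymm h3 (hw0 y)
  -- a connected set inside the positivity set
  have hconn : ∀ i, (∀ y ∈ T i, 0 < σ k * u y) → (∃ y ∈ T i, y ∈ Y) → T i ⊆ Y := by
    intro i hi hex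
    have hsub : T i ⊆ Y ∪ Y' := by
      intro y hy
      rw [hunion, hwpos]; exact hi y hy
    obtain ⟨y, hyT, hyY⟩ := hex
    exact (hTc i).subset_left_of_subset_union hY hY' hdis hsub ⟨y, hyT, hyY⟩
  set J : Finset (Fin N) := Finset.univ.filter (fun j => σ j = σ k ∧ T j ⊆ Y) with hJ
  have hkJ : k ∈ J := by
    rw [hJ, Finset.mem_filter]
    exact ⟨Finset.mem_univ k, rfl, hconn k (uTpos k) ⟨s k, hs k, hsY⟩⟩
  set G : C(X, ℝ) := ∑ j ∈ J, g j with hG
  have hGd : G ∈ D.dom := D.dom.sum_mem fun j _ => hg j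
  have hGx : ∀ y, G y = ∑ j ∈ J, g j y := by
    intro y; rw [hG]; simp [ContinuousMap.sum_apply]
  have haA : ∀ y ∈ A, (a - η • G) y = 0 := by
    intro y hy
    rw [ContinuousMap.sub_apply, ContinuousMap.smul_apply, smul_eq_mul, hGx]
    rcases hy with (hyV | hyQ) | hyT
    · rw [haY0 y (hYV y hyV), Finset.sum_eq_zero (fun j _ => hgV j y hyV)]; ring
    · have h1 : y ∉ Y := by
        intro h1
        have h2 := hYsub h1
        simp only [Set.mem_setOf_eq, uQ y hyQ, mul_zero, lt_irrefl] at h2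
      rw [haY0 y h1, Finset.sum_eq_zero (fun j _ => hgQ j y hyQ)]; ring
    · rw [Set.mem_iUnion] at hyT
      obtain ⟨i, hyi⟩ := hyT
      by_cases hiJ : i ∈ J
      · have hi := (Finset.mem_filter.1 hiJ).2
        rw [haY y (hi.2 hyi), hwx, Finset.sum_eq_single i]
        · have h1 := uTpos i y hyi
          have h2 := uT i y hyi
          rw [← hi.1, max_eq_left h1.le, h2]; ring
        · intro j _ hj
          exact hgT0 j i (Ne.symm hj) y hyi
        · intro h; exact absurd hiJ h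
      · have h1 : ∑ j ∈ J, g j y = 0 := by
          apply Finset.sum_eq_zero
          intro j hj
          have hne : i ≠ j := by rintro rfl; exact hiJ hj
          exact hgT0 j i hne y hyi
        have h2 : y ∉ Y := by
          intro hyY
          by_cases hsig : σ i = σ k
          · apply hiJ
            rw [hJ, Finset.mem_filter]
            refine ⟨Finset.mem_univ i, hsig, hconn i ?_ ⟨y, hyi, hyY⟩⟩
            intro z hz
            rw [← hsig]; exact uTpos i z hz
          · have h3 : σ k = -σ i := by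
              rcases hσ i with h | h <;> rcases hσ k with h' | h' <;> rw [h, h'] at hsig ⊢ <;>
                first | exact absurd rfl hsig | norm_num
            have h4 := uTpos i y hyi
            have h5 := hYsub hyY
            simp only [Set.mem_setOf_eq] at h5
            rw [h3] at h5
            linarith
        rw [haY0 y h2, h1]; ring
  have hηG : η • G ∈ D.dom := D.dom.smul_mem _ hGd
  have hzero := huE (a - η • G) (D.dom.sub_mem ha hηG) haA
  -- the sum is negative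
  have hlt : σ k * (D.E u (η • G) + ∑ j, α j * (u (x j) * (η • G) (x j))) < 0 := by
    have e1 : D.E u (η • G) = η * ∑ i ∈ J, D.E u (g i) := by
      rw [D.smul_right _ hu hGd, hG, D.sum_right _ _ (fun i _ => hg i) hu]
    have e2 : ∑ j, α j * (u (x j) * (η • G) (x j)) =
        η * ∑ i ∈ J, ∑ j, α j * (u (x j) * g i (x j)) := by
      rw [Finset.sum_comm, Finset.mul_sum]
      apply Finset.sum_congr rfl
      intro j _
      rw [ContinuousMap.smul_apply, smul_eq_mul, hGx, ← Finset.mul_sum, ← Finset.mul_sum]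
      ring
    rw [e1, e2, ← mul_add, ← Finset.sum_add_distrib]
    have e3 : σ k * (η * ∑ i ∈ J, (D.E u (g i) + ∑ j, α j * (u (x j) * g i (x j)))) =
        η * ∑ i ∈ J, σ i * (D.E u (g i) + ∑ j, α j * (u (x j) * g i (x j))) := by
      have : ∑ i ∈ J, σ i * (D.E u (g i) + ∑ j, α j * (u (x j) * g i (x j))) =
          ∑ i ∈ J, σ k * (D.E u (g i) + ∑ j, α j * (u (x j) * g i (x j))) := by
        apply Finset.sum_congr rfl
        intro i hi
        rw [(Finset.mem_filter.1 hi).2.1]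
      rw [this, ← Finset.mul_sum]; ring
    rw [e3]
    apply mul_neg_of_pos_of_neg hη
    exact Finset.sum_neg (fun i _ => hneg i) ⟨k, hkJ⟩
  -- and nonnegative
  have hE1 : D.E (σ k • u) a = D.E a a := by
    set w' : C(X, ℝ) := (-(σ k • u)) ⊔ 0 with hw'
    have hw'd : w' ∈ D.dom := D.pos_mem (D.dom.neg_mem hsu)
    have e1 : σ k • u = w - w' := by
      ext y
      rw [ContinuousMap.sub_apply, hwx, hw']
      simp only [ContinuousMap.smul_apply, ContinuousMap.sup_apply, ContinuousMap.neg_apply,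
        ContinuousMap.zero_apply, smul_eq_mul]
      rcases le_total (σ k * u y) 0 with h1 | h1
      · rw [max_eq_right h1, sup_eq_left.2 (by linarith)]; ring
      · rw [max_eq_left h1, sup_eq_right.2 (by linarith)]; ring
    have e2 : D.E w' a = 0 := by
      apply D.E_eq_zero_of_mul hw'd ha
      intro y
      by_cases hy : y ∈ Y
      · have h1 := hYsub hy
        simp only [Set.mem_setOf_eq] at h1
        have h2 : w' y = 0 := by
          rw [hw']
          simp only [ContinuousMap.smul_apply, ContinuousMap.sup_apply, ContinuousMap.neg_apply,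
            ContinuousMap.zero_apply, smul_eq_mul]
          exact sup_eq_right.2 (by linarith)
        rw [h2, zero_mul]
      · rw [haY0 y hy, mul_zero]
    have e3 : D.E w a = D.E a a := by
      rw [hwab, D.add_left _ ha _ hb _ ha, D.symm _ hb _ ha, hab, add_zero]
    rw [e1, D.sub_left hwd hw'd ha, e2, e3, sub_zero]
  have hge : 0 ≤ σ k * (D.E u a + ∑ j, α j * (u (x j) * a (x j))) := by
    rw [mul_add, ← D.smul_left _ u hu _ ha, hE1, Finset.mul_sum]
    apply add_nonneg (D.nonneg _ ha)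
    apply Finset.sum_nonneg
    intro j _
    have h1 : 0 ≤ (σ k * u (x j)) * a (x j) := by
      by_cases hy : x j ∈ Y
      · have h2 := hYsub hy
        simp only [Set.mem_setOf_eq] at h2
        rw [haY _ hy, hwx, max_eq_left h2.le]
        positivity
      · rw [haY0 _ hy, mul_zero]
    calc 0 ≤ α j * ((σ k * u (x j)) * a (x j)) := mul_nonneg (hα j) h1
      _ = σ k * (α j * (u (x j) * a (x j))) := by ring
  have heq : D.E u a + ∑ j, α j * (u (x j) * a (x j)) =
      D.E u (η • G) + ∑ j, α j * (u (x j) * (η • G) (x j)) := by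
    rw [D.sub_right hu ha hηG] at hzero
    have e1 : ∑ j, α j * (u (x j) * (a - η • G) (x j)) =
        ∑ j, α j * (u (x j) * a (x j)) - ∑ j, α j * (u (x j) * (η • G) (x j)) := by
      rw [← Finset.sum_sub_distrib]
      apply Finset.sum_congr rfl
      intro j _
      rw [ContinuousMap.sub_apply]; ring
    rw [e1] at hzero
    linarith
  rw [heq] at hge
  linarith

end DForm

end CAR
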