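import Pool.Agent.MP_eabe7c_an.Ext

open Set Topology Filter

namespace CAR

/-- [CAR-V] from disjoint curves starting on the right side of a square to `HasArcs` -/
theorem hasArcs_of_curves {Z : Set (ℝ × ℝ)} (hZ : IsClosed Z) (hZK : Z ⊆ carpet) {p q r : ℝ}
    (hr : 0 < r) (hfr : frontier (Icc (p - r) (p + r) ×ˢ Icc (q - r) (q + r)) ⊆ carpet)
    (hQZ : (Icc (p - r) (p + r) ×ˢ Icc (q - r) (q + r)) ∩ carpet ⊆ Z)
    (hQS : ∀ z ∈ Icc (p - r) (p + r) ×ˢ Icc (q - r) (q + r),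
      z.1 ∈ Ioo (0 : ℝ) 1 ∧ z.2 ∈ Ioo (0 : ℝ) 1)
    {O : Set (ℝ × ℝ)} (hO : IsOpen O) (hOZ : O ∩ carpet ⊆ Z) {N : ℕ} (t : Fin N → ℝ)
    (ht : StrictMono t) (htI : ∀ k, t k ∈ Icc (q - r) (q + r)) (hst : ∀ k, (p + r, t k) ∈ O)
    (γ : Fin N → ℝ → ℝ × ℝ) (hγc : ∀ k, Continuous (γ k)) (L : Fin N → ℝ) (hL : ∀ k, 0 ≤ L k)
    (hγ0 : ∀ k, γ k 0 = (p + r, t k))
    (hγ1 : ∀ k, ∀ x ∈ Ioc 0 (L k), γ k x ∉ Icc (p - r) (p + r) ×ˢ Icc (q - r) (q + r))
    (hγK : ∀ k, ∀ x ∈ Icc 0 (L k), γ k x ∈ carpet)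
    (hγS : ∀ k, ∀ x ∈ Icc 0 (L k), (γ k x).1 ∈ Ioo (0 : ℝ) 1 ∧ (γ k x).2 ∈ Ioo (0 : ℝ) 1)
    (hdis : ∀ k l, k ≠ l → ∀ x ∈ Icc 0 (L k), ∀ y ∈ Icc 0 (L l), γ k x ≠ γ l y)
    (hend : ∀ k, γ k (L k) ∉ Z) : HasArcs Z N := by
  have hF : ∀ k, ∃ lam, IsLeast {x | x ∈ Icc 0 (L k) ∧ γ k x ∈ closure (carpet \ Z)} lam := by
    intro k
    have hcomp : IsCompact (Icc 0 (L k) ∩ γ k ⁻¹' (closure (carpet \ Z))) :=
      isCompact_Icc.inter_right (isClosed_closure.preimage (hγc k))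
    have hne : (Icc 0 (L k) ∩ γ k ⁻¹' (closure (carpet \ Z))).Nonempty :=
      ⟨L k, right_mem_Icc.2 (hL k),
        subset_closure ⟨hγK k _ (right_mem_Icc.2 (hL k)), hend k⟩⟩
    obtain ⟨lam, hlam⟩ := hcomp.exists_isLeast hne
    exact ⟨lam, hlam⟩
  choose lam hlam using hF
  have hlam1 : ∀ k, lam k ∈ Icc 0 (L k) := fun k => (hlam k).1.1
  have hlam2 : ∀ k, γ k (lam k) ∈ closure (carpet \ Z) := fun k => (hlam k).1.2
  have hlampos : ∀ k, 0 < lam k := by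
    intro k
    rcases (hlam1 k).1.lt_or_eq with h | h
    · exact h
    · exfalso
      have h2 := hlam2 k
      rw [← h, hγ0] at h2
      rw [mem_closure_iff] at h2
      obtain ⟨z, hz1, hz2, hz3⟩ := h2 O hO (hst k)
      exact hz3 (hOZ ⟨hz1, hz2⟩)
  have hZ1 : ∀ k, ∀ x ∈ Ico 0 (lam k), γ k x ∈ Z := by
    intro k x hx
    by_contra hc
    have hx2 : x ∈ Icc 0 (L k) := ⟨hx.1, hx.2.le.trans (hlam1 k).2⟩
    have h3 := (hlam k).2 ⟨hx2, subset_closure ⟨hγK k x hx2, hc⟩⟩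
    exact absurd hx.2 (not_lt.2 h3)
  have hZ2 : ∀ k, ∀ x ∈ Icc 0 (lam k), γ k x ∈ Z := by
    intro k x hx
    have h1 : closure (Ico 0 (lam k)) ⊆ γ k ⁻¹' Z :=
      closure_minimal (hZ1 k) (hZ.preimage (hγc k))
    rw [closure_Ico (hlampos k).ne] at h1
    exact h1 hx
  have hsub : ∀ k, Ioc 0 (lam k) ⊆ Icc 0 (L k) := fun k x hx =>
    ⟨hx.1.le, hx.2.trans (hlam1 k).2⟩
  have h0Q : ∀ k, γ k 0 ∈ Icc (p - r) (p + r) ×ˢ Icc (q - r) (q + r) := by
    intro k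
    rw [hγ0]
    exact ⟨⟨by linarith, le_refl _⟩, htI k⟩
  have hsT : ∀ k, γ k (lam k) ∈ γ k '' Ioc 0 (lam k) := fun k =>
    mem_image_of_mem _ (right_mem_Ioc.2 (hlampos k))
  refine ⟨Icc (p - r) (p + r) ×ˢ Icc (q - r) (q + r), fun k => γ k '' Ioc 0 (lam k),
    fun k => γ k (lam k), isClosed_Icc.prod isClosed_Icc, hfr, hQZ, hQS, ?_, ?_, ?_, ?_, ?_, ?_,
    hsT, hlam2, ?_⟩
  · rintro k _ ⟨x, hx, rfl⟩
    exact hZ2 k x ⟨hx.1.le, hx.2⟩
  · rintro k _ ⟨x, hx, rfl⟩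
    exact hγS k x (hsub k hx)
  · intro k
    exact isPreconnected_Ioc.image _ (hγc k).continuousOn
  · intro k l hkl
    rw [disjoint_left]
    rintro _ ⟨x, hx, rfl⟩ ⟨y, hy, hxy⟩
    exact hdis k l hkl x (hsub k hx) y (hsub l hy) hxy.symm
  · intro k
    rw [disjoint_left]
    rintro _ ⟨x, hx, rfl⟩ hQ
    exact hγ1 k x ⟨hx.1, hx.2.trans (hlam1 k).2⟩ hQ
  · intro k
    have h1 : Icc (p - r) (p + r) ×ˢ Icc (q - r) (q + r) ∪ γ k '' Ioc 0 (lam k)
        = Icc (p - r) (p + r) ×ˢ Icc (q - r) (q + r) ∪ γ k '' Icc 0 (lam k) := by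
      apply Subset.antisymm
      · exact union_subset_union_right _ (image_mono Ioc_subset_Icc_self)
      · rintro z (hz | ⟨x, hx, rfl⟩)
        · exact Or.inl hz
        · rcases hx.1.lt_or_eq with h | h
          · exact Or.inr ⟨x, ⟨h, hx.2⟩, rfl⟩
          · rw [← h]
            exact Or.inl (h0Q k)
    rw [h1]
    exact (isClosed_Icc.prod isClosed_Icc).union
      ((isCompact_Icc.image (hγc k)).isClosed)
  · intro i j k l hij hjk hkl P P' hP hP' hPP hPQ hPQ' hi hk hj hl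
    have key : ∀ (W : Set (ℝ × ℝ)) (a b : Fin N), IsPathConnected W →
        γ a '' Ioc 0 (lam a) ⊆ W → γ b '' Ioc 0 (lam b) ⊆ W →
        JoinedIn (W ∪ {γ a 0, γ b 0}) (p + r, t a) (p + r, t b) := by
      intro W a b hW ha hb
      have hseg : ∀ c, γ c '' Ioc 0 (lam c) ⊆ W → γ c 0 ∈ ({γ a 0, γ b 0} : Set (ℝ × ℝ)) →
          JoinedIn (W ∪ {γ a 0, γ b 0}) (γ c 0) (γ c (lam c)) := by
        intro c hc hc0
        have h1 : IsPathConnected (γ c '' Icc 0 (lam c)) :=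
          ((convex_Icc 0 (lam c)).isPathConnected (nonempty_Icc.2 (hlampos c).le)).image (hγc c)
        have h2 : JoinedIn (γ c '' Icc 0 (lam c)) (γ c 0) (γ c (lam c)) :=
          h1.joinedIn _ (mem_image_of_mem _ (left_mem_Icc.2 (hlampos c).le)) _
            (mem_image_of_mem _ (right_mem_Icc.2 (hlampos c).le))
        apply h2.mono
        rintro _ ⟨x, hx, rfl⟩
        rcases hx.1.lt_or_eq with h | h
        · exact Or.inl (hc ⟨x, ⟨h, hx.2⟩, rfl⟩)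
        · rw [← h]
          exact Or.inr hc0
      have h3 : JoinedIn (W ∪ {γ a 0, γ b 0}) (γ a (lam a)) (γ b (lam b)) :=
        (hW.joinedIn _ (ha (hsT a)) _ (hb (hsT b))).mono subset_union_left
      have h4 := hseg a ha (Or.inl rfl)
      have h5 := hseg b hb (Or.inr rfl)
      rw [← hγ0, ← hγ0]
      exact (h4.trans h3).trans h5.symm
    have hopen : Ioo (p - r) (p + r) ×ˢ Ioo (q - r) (q + r) ⊆
        Icc (p - r) (p + r) ×ˢ Icc (q - r) (q + r) :=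
      prod_mono Ioo_subset_Icc_self Ioo_subset_Icc_self
    have hdisQ : ∀ (W : Set (ℝ × ℝ)) (a b : Fin N),
        Disjoint W (Icc (p - r) (p + r) ×ˢ Icc (q - r) (q + r)) →
        Disjoint (W ∪ {γ a 0, γ b 0}) (Ioo (p - r) (p + r) ×ˢ Ioo (q - r) (q + r)) := by
      intro W a b hW
      rw [disjoint_left]
      rintro z (hz | hz) hz2
      · exact (disjoint_left.1 hW hz) (hopen hz2)
      · have h6 : z.1 = p + r := by
          rcases hz with h | h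
          · rw [h, hγ0]
          · rw [mem_singleton_iff.1 h, hγ0]
        have h7 := hz2.1.2
        rw [h6] at h7
        exact lt_irrefl _ h7
    have hne : ∀ a b : Fin N, a ≠ b → γ a 0 ≠ γ b 0 := fun a b hab =>
      hdis a b hab 0 (left_mem_Icc.2 (hL a)) 0 (left_mem_Icc.2 (hL b))
    refine ext_crossing (p := p) (q := q) (r := r) hr (ht hij) (ht hjk) (ht hkl) (htI i).1
      (htI l).2 (key P i k hP hi hk) (key P' j l hP' hj hl) ?_ (hdisQ P i k hPQ)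
      (hdisQ P' j l hPQ')
    rw [disjoint_left]
    rintro z (hz | hz) (hz2 | hz2)
    · exact disjoint_left.1 hPP hz hz2
    · rcases hz2 with h | h
      · rw [h] at hz
        exact disjoint_left.1 hPQ hz (h0Q j)
      · rw [mem_singleton_iff.1 h] at hz
        exact disjoint_left.1 hPQ hz (h0Q l)
    · rcases hz with h | h
      · rw [h] at hz2
        exact disjoint_left.1 hPQ' hz2 (h0Q i)
      · rw [mem_singleton_iff.1 h] at hz2
        exact disjoint_left.1 hPQ' hz2 (h0Q k)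
    · have hik := hij.trans hjk
      have hjl := hjk.trans hkl
      rcases hz with h | h <;> rcases hz2 with h' | h'
      · exact hne i j hij.ne (h.symm.trans h')
      · exact hne i l (hij.trans hjl).ne (h.symm.trans (mem_singleton_iff.1 h'))
      · exact hne j k hjk.ne (h'.symm.trans (mem_singleton_iff.1 h))
      · exact hne k l hkl.ne ((mem_singleton_iff.1 h).symm.trans (mem_singleton_iff.1 h'))

end CAR
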