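import Pool.Agent.MP_eabe7c_an.Hil

open MeasureTheory Set Topology Filter

namespace CAR

variable {X : Type*} [MetricSpace X] [CompactSpace X] [MeasurableSpace X] [BorelSpace X]
  {μ : Measure X}

namespace DForm

theorem sup_bound [IsFiniteMeasure μ] [μ.IsOpenPosMeasure] (D : DForm X μ) :
    ∃ B : ℝ, 0 < B ∧ ∀ u ∈ D.dom, ∀ x, (u x) ^ 2 ≤ B * (D.E u u + ∫ y, u y * u y ∂μ) := by
  obtain ⟨H, i1, i2, i3, J, k, hin, hk⟩ := D.exists_hilbert
  obtain ⟨C, hC⟩ := banach_steinhaus (g := fun x : X => innerSL ℝ (k x)) (by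
    intro a
    refine ⟨‖(J a : C(X, ℝ))‖, fun x => ?_⟩
    rw [innerSL_apply_apply, hk]
    exact ContinuousMap.norm_coe_le_norm _ x)
  have hC' : ∀ x, ‖k x‖ ≤ C := by
    intro x
    have := hC x
    rwa [innerSL_apply_norm] at this
  refine ⟨C ^ 2 + 1, by positivity, fun u hu x => ?_⟩
  set a : H := J.symm ⟨u, hu⟩ with ha
  have hJ : (J a : C(X, ℝ)) = u := by rw [ha, LinearEquiv.apply_symm_apply]
  have h1 : u x = inner ℝ (k x) a := by rw [hk, hJ]
  have h2 : ‖a‖ ^ 2 = D.E u u + ∫ y, u y * u y ∂μ := by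
    rw [← real_inner_self_eq_norm_sq, hin, hJ]
  rw [← h2, h1]
  have h3 : |inner ℝ (k x) a| ≤ ‖k x‖ * ‖a‖ := abs_real_inner_le_norm _ _
  have h4 : ‖k x‖ * ‖a‖ ≤ C * ‖a‖ := mul_le_mul_of_nonneg_right (hC' x) (norm_nonneg _)
  have h5 : (inner ℝ (k x) a) ^ 2 ≤ (C * ‖a‖) ^ 2 := by
    rw [← sq_abs]
    exact pow_le_pow_left₀ (abs_nonneg _) (h3.trans h4) 2
  nlinarith [sq_nonneg ‖a‖]

/-- On a connected space, only constants have energy zero. -/
theorem irreducible [IsFiniteMeasure μ] [μ.IsOpenPosMeasure] [PreconnectedSpace X]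
    (D : DForm X μ) (u : C(X, ℝ)) (hu : u ∈ D.dom) (h0 : D.E u u = 0) :
    ∃ c : ℝ, ∀ x, u x = c := by
  obtain ⟨B, hB, hbound⟩ := D.sup_bound
  rcases isEmpty_or_nonempty X with hX | ⟨⟨x₀⟩⟩
  · exact ⟨0, fun x => hX.elim x⟩
  by_contra hno
  push Not at hno
  -- two values
  obtain ⟨x, y, hxy⟩ : ∃ x y, u x < u y := by
    obtain ⟨y, hy⟩ := hno (u x₀)
    rcases lt_or_gt_of_ne hy with h | h
    · exact ⟨y, x₀, h⟩
    · exact ⟨x₀, y, h⟩
  have hIVT : Icc (u x) (u y) ⊆ range u := intermediate_value_univ x y u.continuous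
  -- number of tents
  obtain ⟨n, hn⟩ := exists_nat_gt (B * μ.real univ)
  have hn0 : (0 : ℝ) < n := lt_of_le_of_lt (by positivity) hn
  set r : ℝ := (u y - u x) / (2 * n) with hr
  have hr0 : 0 < r := by
    have : 0 < u y - u x := sub_pos.2 hxy
    positivity
  have hrn : 2 * n * r = u y - u x := by
    rw [hr]; field_simp
  let c : ℕ → ℝ := fun i => u x + (2 * i + 1) * r
  let f : ℕ → C(X, ℝ) := fun i =>
    (ContinuousMap.const X r - |u - ContinuousMap.const X (c i)|) ⊔ 0
  have hfx : ∀ i z, f i z = max (r - |u z - c i|) 0 := fun i z => rfl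
  have hfd : ∀ i, f i ∈ D.dom ∧ D.E (f i) (f i) = 0 := by
    intro i
    have e0 := D.dom.sub_mem hu (D.const_mem (c i))
    have e1 := D.abs_mem e0
    rw [D.energy_sub_const (c i) hu, h0] at e1
    have e2 : D.E |u - ContinuousMap.const X (c i)| |u - ContinuousMap.const X (c i)| = 0 :=
      le_antisymm e1.2 (D.nonneg _ e1.1)
    have e3 := D.dom.sub_mem (D.const_mem r) e1.1
    have e4 : D.E (ContinuousMap.const X r - |u - ContinuousMap.const X (c i)|)
        (ContinuousMap.const X r - |u - ContinuousMap.const X (c i)|) = 0 := by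
      rw [D.energy_sub (D.const_mem r) e1.1, D.const_left r (D.const_mem r),
        D.const_left r e1.1, e2]
      ring
    have e5 := D.contraction _ e3 (f i) (fun z => by
      rw [hfx]
      simp only [ContinuousMap.sub_apply, ContinuousMap.const_apply, ContinuousMap.abs_apply]
      rcases le_total (r - |u z - c i|) 0 with h | h
      · rw [max_eq_right h, abs_zero]; exact abs_nonneg _
      · rw [max_eq_left h]) (fun z w => by
      rw [hfx, hfx]
      simp only [ContinuousMap.sub_apply, ContinuousMap.const_apply, ContinuousMap.abs_apply]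
      exact abs_max_sub_max_le_abs _ _ _)
    exact ⟨e5.1, le_antisymm (e5.2.trans_eq e4) (D.nonneg _ e5.1)⟩
  -- each tent is high
  have hpeak : ∀ i < n, r ^ 2 ≤ B * ∫ z, f i z * f i z ∂μ := by
    intro i hi
    have hi' : (i : ℝ) + 1 ≤ n := by exact_mod_cast hi
    have hci : c i ∈ Icc (u x) (u y) := by
      constructor
      · show u x ≤ u x + (2 * i + 1) * r
        have : 0 ≤ (2 * (i : ℝ) + 1) * r := by positivity
        linarith
      · show u x + (2 * i + 1) * r ≤ u y
        have : (2 * (i : ℝ) + 1) * r ≤ 2 * n * r := by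
          apply mul_le_mul_of_nonneg_right _ hr0.le
          linarith
        linarith
    obtain ⟨z, hz⟩ := hIVT hci
    have h1 := hbound (f i) (hfd i).1 z
    rw [(hfd i).2, zero_add, hfx, hz, sub_self, abs_zero, sub_zero, max_eq_left hr0.le] at h1
    exact h1
  -- at most one tent at a point
  have hsum : ∀ z, ∑ i ∈ Finset.range n, f i z * f i z ≤ r ^ 2 := by
    intro z
    by_cases hz : ∃ i ∈ Finset.range n, f i z ≠ 0
    · obtain ⟨i, hi, hiz⟩ := hz
      rw [Finset.sum_eq_single_of_mem i hi]
      · have h1 : 0 ≤ f i z := by rw [hfx]; exact le_max_right _ _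
        have h2 : f i z ≤ r := by
          rw [hfx]
          exact max_le (by linarith [abs_nonneg (u z - c i)]) hr0.le
        nlinarith
      · intro j _ hji
        have h1 : |u z - c i| < r := by
          by_contra h
          apply hiz
          rw [hfx, max_eq_right]
          linarith
        have h2 : f j z = 0 := by
          rw [hfx, max_eq_right]
          have h3 : 2 * r ≤ |c i - c j| := by
            have h4 : c i - c j = 2 * ((i : ℝ) - j) * r := by
              show u x + (2 * i + 1) * r - (u x + (2 * j + 1) * r) = _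
              ring
            rw [h4, abs_mul, abs_mul, abs_of_pos hr0, abs_two]
            have h5 : (1 : ℝ) ≤ |(i : ℝ) - j| := by
              have h6 : (i : ℤ) - j ≠ 0 := by
                intro h
                exact hji (by omega)
              have h7 : (1 : ℤ) ≤ |(i : ℤ) - j| := Int.one_le_abs h6
              exact_mod_cast h7
            nlinarith
          have h8 : |c i - c j| ≤ |u z - c i| + |u z - c j| := by
            have h9 : c i - c j = -(u z - c i) + (u z - c j) := by ring
            rw [h9]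
            exact (abs_add_le _ _).trans_eq (by rw [abs_neg])
          linarith
        rw [h2, mul_zero]
    · push Not at hz
      rw [Finset.sum_eq_zero fun i hi => by rw [hz i hi, mul_zero]]
      positivity
  have hint : ∀ i, Integrable (fun z => f i z * f i z) μ := fun i =>
    ((f i * f i).continuous).integrable_of_hasCompactSupport
      (HasCompactSupport.of_compactSpace _)
  have h1 : ∑ i ∈ Finset.range n, ∫ z, f i z * f i z ∂μ ≤ r ^ 2 * μ.real univ := by
    rw [← integral_finsetSum _ fun i _ => hint i]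
    calc ∫ z, ∑ i ∈ Finset.range n, f i z * f i z ∂μ ≤ ∫ _z, r ^ 2 ∂μ :=
          integral_mono (integrable_finsetSum _ fun i _ => hint i) (integrable_const _) hsum
      _ = r ^ 2 * μ.real univ := by rw [integral_const, smul_eq_mul, mul_comm]
  have h2 : (n : ℝ) * r ^ 2 ≤ B * ∑ i ∈ Finset.range n, ∫ z, f i z * f i z ∂μ := by
    rw [Finset.mul_sum]
    calc (n : ℝ) * r ^ 2 = ∑ i ∈ Finset.range n, r ^ 2 := by simp
      _ ≤ _ := Finset.sum_le_sum fun i hi => hpeak i (Finset.mem_range.1 hi)
  have h3 : (n : ℝ) * r ^ 2 ≤ B * (r ^ 2 * μ.real univ) :=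
    h2.trans (mul_le_mul_of_nonneg_left h1 hB.le)
  have h4 : 0 < r ^ 2 := by positivity
  nlinarith

end DForm

end CAR
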