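import Pool.Agent.MP_eabe7c_an.Lim
import Pool.Agent.MP_eabe7c_an.Irr

open MeasureTheory Set Topology Filter

namespace CAR

variable {X : Type*} [MetricSpace X] [CompactSpace X] [PreconnectedSpace X] [MeasurableSpace X] [BorelSpace X]
  {μ : Measure X}

namespace DForm

/-- the truncated component -/
theorem cutA (D : DForm X μ) {w : C(X, ℝ)}
    (hw : w ∈ D.dom) {Y Y' : Set X} (hY : IsOpen Y) (hY' : IsOpen Y')
    (hd : Disjoint Y Y') (hU : Y ∪ Y' = {x | 0 < w x}) {ε : ℝ} (hε : 0 < ε) :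
    ∃ a ∈ D.dom, (∀ x ∈ Y, a x = max (w x - ε) 0) ∧ (∀ x, x ∉ Y → a x = 0) ∧ tsupport a ⊆ Y := by
  have hK1 : IsClosed ({x | ε ≤ w x} ∩ Y) := by
    have : {x | ε ≤ w x} ∩ Y = {x | ε ≤ w x} ∩ Y'ᶜ := by
      ext x
      constructor
      · rintro ⟨h1, h2⟩
        exact ⟨h1, fun h3 => Set.disjoint_left.1 hd h2 h3⟩
      · rintro ⟨h1, h2⟩
        have h3 : x ∈ Y ∪ Y' := by
          rw [hU]
          exact lt_of_lt_of_le hε h1
        rcases h3 with h3 | h3
        · exact ⟨h1, h3⟩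
        · exact absurd h3 h2
    rw [this]
    exact (isClosed_le continuous_const w.continuous).inter hY'.isClosed_compl
  have hK2 : IsClosed ({x | ε ≤ w x} ∩ Y') := by
    have : {x | ε ≤ w x} ∩ Y' = {x | ε ≤ w x} ∩ Yᶜ := by
      ext x
      constructor
      · rintro ⟨h1, h2⟩
        exact ⟨h1, fun h3 => Set.disjoint_left.1 hd h3 h2⟩
      · rintro ⟨h1, h2⟩
        have h3 : x ∈ Y ∪ Y' := by
          rw [hU]
          exact lt_of_lt_of_le hε h1
        rcases h3 with h3 | h3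
        · exact absurd h3 h2
        · exact ⟨h1, h3⟩
    rw [this]
    exact (isClosed_le continuous_const w.continuous).inter hY.isClosed_compl
  obtain ⟨ζ, hζ, hζ0, hζ1, hζK, hζs⟩ := D.cutoff hK1 hK2.isOpen_compl (by
    rintro x ⟨_, h2⟩ ⟨_, h4⟩
    exact Set.disjoint_left.1 hd h2 h4)
  have hwM : ∀ x, w x ≤ ‖w‖ := fun x => (le_abs_self _).trans (w.norm_coe_le_norm x)
  set a : C(X, ℝ) := ((w - ContinuousMap.const X ε) ⊔ 0) ⊓ (‖w‖ • ζ) with ha
  have haval : ∀ x, a x = min (max (w x - ε) 0) (‖w‖ * ζ x) := by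
    intro x
    simp [ha]
  have h1 : ∀ x ∈ Y, a x = max (w x - ε) 0 := by
    intro x hx
    rw [haval]
    apply min_eq_left
    by_cases hc : ε ≤ w x
    · rw [hζK x ⟨hc, hx⟩, mul_one]
      exact max_le (by linarith [hwM x]) (norm_nonneg _)
    · rw [max_eq_right (by linarith [not_le.1 hc])]
      exact mul_nonneg (norm_nonneg _) (hζ0 x)
  have h2 : ∀ x, x ∉ Y → a x = 0 := by
    intro x hx
    rw [haval]
    by_cases hc : ε ≤ w x
    · have h3 : x ∈ Y ∪ Y' := by
        rw [hU]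
        exact lt_of_lt_of_le hε hc
      have h4 : x ∈ Y' := h3.resolve_left hx
      have h5 : ζ x = 0 := image_eq_zero_of_notMem_tsupport (fun h6 => hζs h6 ⟨hc, h4⟩)
      rw [h5, mul_zero]
      exact min_eq_right (le_max_right _ _)
    · rw [max_eq_right (by linarith [not_le.1 hc])]
      exact min_eq_left (mul_nonneg (norm_nonneg _) (hζ0 x))
  refine ⟨a, D.inf_mem (D.pos_mem (D.dom.sub_mem hw (D.const_mem ε))) (D.dom.smul_mem _ hζ),
    h1, h2, ?_⟩
  refine (closure_minimal ?_ hK1).trans inter_subset_right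
  intro x hx
  have hxY : x ∈ Y := by
    by_contra hc
    exact hx (h2 x hc)
  refine ⟨?_, hxY⟩
  by_contra hc
  apply hx
  rw [h1 x hxY]
  have hc' : ¬ ε ≤ w x := hc
  exact max_eq_right (by linarith [not_le.1 hc'])

/-- [CAR-C] component cut -/
theorem cut [IsFiniteMeasure μ] [μ.IsOpenPosMeasure] (D : DForm X μ) {w : C(X, ℝ)}
    (hw : w ∈ D.dom) (hw0 : ∀ x, 0 ≤ w x) {Y Y' : Set X} (hY : IsOpen Y) (hY' : IsOpen Y')
    (hd : Disjoint Y Y') (hU : Y ∪ Y' = {x | 0 < w x}) :
    ∃ a ∈ D.dom, ∃ b ∈ D.dom, (∀ x ∈ Y, a x = w x) ∧ (∀ x, x ∉ Y → a x = 0) ∧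
      (∀ x ∈ Y', b x = w x) ∧ (∀ x, x ∉ Y' → b x = 0) ∧ D.E a b = 0 := by
  classical
  have hpos : ∀ n : ℕ, (0 : ℝ) < 1 / ((n : ℝ) + 1) := fun n => by positivity
  choose a ha ha1 ha2 ha3 using fun n : ℕ => D.cutA hw hY hY' hd hU (hpos n)
  choose b hb hb1 hb2 hb3 using fun n : ℕ =>
    D.cutA hw hY' hY hd.symm (by rw [union_comm]; exact hU) (hpos n)
  have hab : ∀ n m, D.E (a n) (b m) = 0 := fun n m =>
    D.strongLocal _ (ha n) _ (hb m) ⟨0, Y, hY, ha3 n, fun x hx =>
      hb2 m x (fun h => Set.disjoint_left.1 hd hx h)⟩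
  have hsum : ∀ n, a n + b n = (w - ContinuousMap.const X (1 / ((n : ℝ) + 1))) ⊔ 0 := by
    intro n
    ext x
    simp only [ContinuousMap.add_apply, ContinuousMap.sup_apply, ContinuousMap.sub_apply,
      ContinuousMap.const_apply, ContinuousMap.zero_apply]
    by_cases hx : x ∈ Y
    · rw [ha1 n x hx, hb2 n x (fun h => Set.disjoint_left.1 hd hx h), add_zero]
    · by_cases hx' : x ∈ Y'
      · rw [ha2 n x hx, hb1 n x hx', zero_add]
      · rw [ha2 n x hx, hb2 n x hx', add_zero]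
        have h3 : ¬ 0 < w x := by
          intro h4
          have h5 : x ∈ Y ∪ Y' := by rw [hU]; exact h4
          rcases h5 with h5 | h5
          · exact hx h5
          · exact hx' h5
        have h6 := hpos n
        exact (max_eq_right (by linarith [not_lt.1 h3])).symm
  have henergy : ∀ n, D.E (a n) (a n) + D.E (b n) (b n) ≤ D.E w w := by
    intro n
    have h1 : D.E (a n + b n) (a n + b n) = D.E (a n) (a n) + D.E (b n) (b n) := by
      rw [D.energy_add (ha n) (hb n), hab]; ring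
    rw [← h1, hsum]
    refine (D.contraction w hw _ (fun x => ?_) (fun x y => ?_)).2
    · simp only [ContinuousMap.sup_apply, ContinuousMap.sub_apply,
        ContinuousMap.const_apply, ContinuousMap.zero_apply]
      rw [abs_of_nonneg (le_max_right _ _), abs_of_nonneg (hw0 x)]
      have hn := hpos n
      exact max_le (by linarith) (hw0 x)
    · simp only [ContinuousMap.sup_apply, ContinuousMap.sub_apply,
        ContinuousMap.const_apply, ContinuousMap.zero_apply]
      have := abs_max_sub_max_le_abs (w x - 1 / ((n : ℝ) + 1)) (w y - 1 / ((n : ℝ) + 1)) 0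
      simpa using this
  have hbda : ∀ n, D.E (a n) (a n) ≤ D.E w w := fun n => by
    linarith [henergy n, D.nonneg _ (hb n)]
  have hbdb : ∀ n, D.E (b n) (b n) ≤ D.E w w := fun n => by
    linarith [henergy n, D.nonneg _ (ha n)]
  have hwM : ∀ x, w x ≤ ‖w‖ := fun x => (le_abs_self _).trans (w.norm_coe_le_norm x)
  have hmaxM : ∀ (n : ℕ) x, |max (w x - 1 / ((n : ℝ) + 1)) 0| ≤ ‖w‖ := by
    intro n x
    rw [abs_of_nonneg (le_max_right _ _)]
    exact max_le (by linarith [hpos n, hwM x]) (norm_nonneg _)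
  have hlim : ∀ x, Tendsto (fun n : ℕ => max (w x - 1 / ((n : ℝ) + 1)) 0) atTop (𝓝 (w x)) := by
    intro x
    have h1 : Tendsto (fun n : ℕ => w x - 1 / ((n : ℝ) + 1)) atTop (𝓝 (w x - 0)) :=
      tendsto_const_nhds.sub tendsto_one_div_add_atTop_nhds_zero_nat
    have h2 := h1.max (tendsto_const_nhds (x := (0 : ℝ)))
    rwa [sub_zero, max_eq_left (hw0 x)] at h2
  obtain ⟨va, hva, hva1, -, hva2⟩ := D.limit a ha hbda (M := ‖w‖) (by
    intro n x
    by_cases hx : x ∈ Y
    · rw [ha1 n x hx]; exact hmaxM n x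
    · rw [ha2 n x hx, abs_zero]; exact norm_nonneg _)
    (fun x => if x ∈ Y then w x else 0) (by
      intro x
      by_cases hx : x ∈ Y
      · rw [if_pos hx]
        simp only [ha1 _ x hx]
        exact hlim x
      · rw [if_neg hx]
        simp only [ha2 _ x hx]
        exact tendsto_const_nhds)
  obtain ⟨vb, hvb, hvb1, -, hvb2⟩ := D.limit b hb hbdb (M := ‖w‖) (by
    intro n x
    by_cases hx : x ∈ Y'
    · rw [hb1 n x hx]; exact hmaxM n x
    · rw [hb2 n x hx, abs_zero]; exact norm_nonneg _)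
    (fun x => if x ∈ Y' then w x else 0) (by
      intro x
      by_cases hx : x ∈ Y'
      · rw [if_pos hx]
        simp only [hb1 _ x hx]
        exact hlim x
      · rw [if_neg hx]
        simp only [hb2 _ x hx]
        exact tendsto_const_nhds)
  refine ⟨va, hva, vb, hvb, fun x hx => by rw [hva1, if_pos hx], fun x hx => by
    rw [hva1, if_neg hx], fun x hx => by rw [hvb1, if_pos hx], fun x hx => by
    rw [hvb1, if_neg hx], ?_⟩
  have h1 : ∀ n, D.E (a n) vb = 0 := by
    intro n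
    have h2 := hvb2 (a n) (ha n)
    have h3 : (fun m => D.E (b m) (a n)) = fun _ => 0 := by
      funext m
      rw [D.symm _ (hb m) _ (ha n), hab]
    rw [h3] at h2
    rw [D.symm _ (ha n) _ hvb]
    exact tendsto_nhds_unique h2 tendsto_const_nhds
  have h4 := hva2 vb hvb
  simp only [h1] at h4
  exact tendsto_nhds_unique h4 tendsto_const_nhds

theorem E_eq_zero_of_mul_nonneg [IsFiniteMeasure μ] [μ.IsOpenPosMeasure] (D : DForm X μ)
    {p q : C(X, ℝ)} (hp : p ∈ D.dom) (hq : q ∈ D.dom) (hp0 : ∀ x, 0 ≤ p x) (hq0 : ∀ x, 0 ≤ q x)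
    (h : ∀ x, p x * q x = 0) : D.E p q = 0 := by
  obtain ⟨a, ha, b, hb, h1, h2, h3, h4, h5⟩ := D.cut (D.dom.add_mem hp hq)
    (fun x => add_nonneg (hp0 x) (hq0 x)) (Y := {x | 0 < p x}) (Y' := {x | 0 < q x})
    (isOpen_lt continuous_const p.continuous) (isOpen_lt continuous_const q.continuous)
    (by
      rw [Set.disjoint_left]
      intro x hx hx'
      exact (mul_pos hx hx').ne' (h x))
    (by
      ext x
      constructor
      · rintro (hx | hx)
        · exact add_pos_of_pos_of_nonneg hx (hq0 x)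
        · exact add_pos_of_nonneg_of_pos (hp0 x) hx
      · intro hx
        by_contra hc
        have h6 : ¬ 0 < p x := fun h7 => hc (Or.inl h7)
        have h8 : ¬ 0 < q x := fun h7 => hc (Or.inr h7)
        have h9 : 0 < p x + q x := hx
        linarith)
  have hap : a = p := by
    ext x
    by_cases hx : 0 < p x
    · rw [h1 x hx, ContinuousMap.add_apply]
      have := h x
      rcases mul_eq_zero.1 this with h6 | h6
      · exact absurd h6 hx.ne'
      · rw [h6, add_zero]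
    · rw [h2 x hx]
      exact le_antisymm (hp0 x) (not_lt.1 hx)
  have hbq : b = q := by
    ext x
    by_cases hx : 0 < q x
    · rw [h3 x hx, ContinuousMap.add_apply]
      have := h x
      rcases mul_eq_zero.1 this with h6 | h6
      · rw [h6, zero_add]
      · exact absurd h6 hx.ne'
    · rw [h4 x hx]
      exact le_antisymm (hq0 x) (not_lt.1 hx)
  rw [← hap, ← hbq]
  exact h5

omit [CompactSpace X] [MeasurableSpace X] [BorelSpace X] in
theorem pos_sub_neg (u : C(X, ℝ)) : (u ⊔ 0) - ((-u) ⊔ 0) = u := by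
  ext x
  simp only [ContinuousMap.sub_apply, ContinuousMap.sup_apply, ContinuousMap.neg_apply,
    ContinuousMap.zero_apply]
  rcases le_total (u x) 0 with h | h
  · rw [max_eq_right h, max_eq_left (by linarith)]; ring
  · rw [max_eq_left h, max_eq_right (by linarith)]; ring

/-- [CAR-C] -/
theorem E_eq_zero_of_mul [IsFiniteMeasure μ] [μ.IsOpenPosMeasure] (D : DForm X μ)
    {a b : C(X, ℝ)} (ha : a ∈ D.dom) (hb : b ∈ D.dom) (h : ∀ x, a x * b x = 0) :
    D.E a b = 0 := by
  have hap := D.pos_mem ha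
  have han := D.pos_mem (D.dom.neg_mem ha)
  have hbp := D.pos_mem hb
  have hbn := D.pos_mem (D.dom.neg_mem hb)
  have hnn : ∀ (u : C(X, ℝ)) x, 0 ≤ (u ⊔ 0) x := fun u x => le_max_right _ _
  have hz : ∀ x, a x = 0 ∨ b x = 0 := fun x => mul_eq_zero.1 (h x)
  have e1 : D.E (a ⊔ 0) (b ⊔ 0) = 0 := by
    refine D.E_eq_zero_of_mul_nonneg hap hbp (hnn _) (hnn _) (fun x => ?_)
    rcases hz x with h1 | h1 <;> simp [h1]
  have e2 : D.E (a ⊔ 0) ((-b) ⊔ 0) = 0 := by
    refine D.E_eq_zero_of_mul_nonneg hap hbn (hnn _) (hnn _) (fun x => ?_)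
    rcases hz x with h1 | h1 <;> simp [h1]
  have e3 : D.E ((-a) ⊔ 0) (b ⊔ 0) = 0 := by
    refine D.E_eq_zero_of_mul_nonneg han hbp (hnn _) (hnn _) (fun x => ?_)
    rcases hz x with h1 | h1 <;> simp [h1]
  have e4 : D.E ((-a) ⊔ 0) ((-b) ⊔ 0) = 0 := by
    refine D.E_eq_zero_of_mul_nonneg han hbn (hnn _) (hnn _) (fun x => ?_)
    rcases hz x with h1 | h1 <;> simp [h1]
  have h5 : D.E ((a ⊔ 0) - ((-a) ⊔ 0)) ((b ⊔ 0) - ((-b) ⊔ 0)) = 0 := by
    rw [D.sub_left hap han (D.dom.sub_mem hbp hbn), D.sub_right hap hbp hbn,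
      D.sub_right han hbp hbn, e1, e2, e3, e4]
    ring
  rwa [pos_sub_neg, pos_sub_neg] at h5

/-- [CAR-C] -/
theorem E_pos_neg [IsFiniteMeasure μ] [μ.IsOpenPosMeasure] (D : DForm X μ)
    {u : C(X, ℝ)} (hu : u ∈ D.dom) : D.E (u ⊔ 0) ((-u) ⊔ 0) = 0 := by
  refine D.E_eq_zero_of_mul (D.pos_mem hu) (D.pos_mem (D.dom.neg_mem hu)) (fun x => ?_)
  simp only [ContinuousMap.sup_apply, ContinuousMap.neg_apply, ContinuousMap.zero_apply]
  rcases le_total (u x) 0 with h | h
  · rw [max_eq_right h, zero_mul]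
  · rw [max_eq_right (by linarith : -u x ≤ 0), mul_zero]

theorem restrict_pos [IsFiniteMeasure μ] [μ.IsOpenPosMeasure] (D : DForm X μ)
    {O : Set X} (hO : IsOpen O) {h : C(X, ℝ)} (hh : h ∈ D.dom)
    (hfr : ∀ x ∈ frontier O, h x = 0) :
    ∃ a ∈ D.dom, (∀ x ∈ O, a x = max (h x) 0) ∧ ∀ x, x ∉ O → a x = 0 := by
  obtain ⟨a, ha, b, hb, h1, h2, h3, h4, h5⟩ := D.cut (D.pos_mem hh) (fun x => le_max_right _ _)
    (Y := {x | 0 < h x} ∩ O) (Y' := {x | 0 < h x} ∩ (closure O)ᶜ)
    ((isOpen_lt continuous_const h.continuous).inter hO)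
    ((isOpen_lt continuous_const h.continuous).inter isClosed_closure.isOpen_compl)
    (by
      rw [Set.disjoint_left]
      rintro x ⟨_, hx⟩ ⟨_, hx'⟩
      exact hx' (subset_closure hx))
    (by
      ext x
      simp only [ContinuousMap.sup_apply, ContinuousMap.zero_apply]
      constructor
      · rintro (⟨hx, _⟩ | ⟨hx, _⟩)
        · have hx' : 0 < h x := hx
          exact lt_of_lt_of_le hx' (le_max_left _ _)
        · have hx' : 0 < h x := hx
          exact lt_of_lt_of_le hx' (le_max_left _ _)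
      · intro hx0
        have hx : 0 < max (h x) 0 := hx0
        have hx1 : 0 < h x := by
          rcases lt_max_iff.1 hx with h6 | h6
          · exact h6
          · exact absurd h6 (lt_irrefl _)
        by_cases hc : x ∈ O
        · exact Or.inl ⟨hx1, hc⟩
        · refine Or.inr ⟨hx1, fun h7 => ?_⟩
          have h8 : x ∈ frontier O := by
            rw [frontier, hO.interior_eq]
            exact ⟨h7, hc⟩
          exact hx1.ne' (hfr x h8))
  refine ⟨a, ha, fun x hx => ?_, fun x hx => h2 x (fun h6 => hx h6.2)⟩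
  by_cases hc : 0 < h x
  · rw [h1 x ⟨hc, hx⟩]; rfl
  · rw [h2 x (fun h6 => hc h6.1), max_eq_right (not_lt.1 hc)]

/-- [CAR-C] -/
theorem max_principle [IsFiniteMeasure μ] [μ.IsOpenPosMeasure] (D : DForm X μ)
    {V O : Set X} (hO : IsOpen O) (hOV : Disjoint O V) (hne : O ≠ univ) {h : C(X, ℝ)}
    (hh : D.HarmonicOff V h) (hfr : ∀ x ∈ frontier O, h x = 0) : ∀ x ∈ O, h x = 0 := by
  obtain ⟨a, ha, ha1, ha2⟩ := D.restrict_pos hO hh.1 hfr
  obtain ⟨b, hb, hb1, hb2⟩ := D.restrict_pos hO (D.dom.neg_mem hh.1) (h := -h) (fun x hx => by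
    rw [ContinuousMap.neg_apply, hfr x hx, neg_zero])
  have hw : a - b ∈ D.dom := D.dom.sub_mem ha hb
  have hw1 : ∀ x ∈ O, (a - b) x = h x := by
    intro x hx
    rw [ContinuousMap.sub_apply, ha1 x hx, hb1 x hx, ContinuousMap.neg_apply]
    rcases le_total (h x) 0 with h1 | h1
    · rw [max_eq_right h1, max_eq_left (by linarith)]; ring
    · rw [max_eq_left h1, max_eq_right (by linarith)]; ring
  have hw2 : ∀ x, x ∉ O → (a - b) x = 0 := by
    intro x hx
    rw [ContinuousMap.sub_apply, ha2 x hx, hb2 x hx, sub_zero]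
  have h0 : D.E h (a - b) = 0 := hh.2 _ hw (fun x hx =>
    hw2 x (fun h1 => Set.disjoint_left.1 hOV h1 hx))
  have h1 : D.E (h - (a - b)) (a - b) = 0 := by
    refine D.E_eq_zero_of_mul (D.dom.sub_mem hh.1 hw) hw (fun x => ?_)
    by_cases hx : x ∈ O
    · rw [ContinuousMap.sub_apply, hw1 x hx, sub_self, zero_mul]
    · rw [hw2 x hx, mul_zero]
  rw [D.sub_left hh.1 hw hw, h0, zero_sub, neg_eq_zero] at h1
  obtain ⟨c, hc⟩ := D.irreducible _ hw h1
  obtain ⟨y, hy⟩ := (Set.ne_univ_iff_exists_notMem O).1 hne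
  have hc0 : c = 0 := by rw [← hc y, hw2 y hy]
  intro x hx
  rw [← hw1 x hx, hc x, hc0]

end DForm

end CAR
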