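import Mathlib

/-!
Definitions for MP_eabe7c_an: the Sierpinski carpet, Dirichlet forms whose domain consists of
continuous functions, harmonic functions and full support of energy measures.
-/

open MeasureTheory Set Topology Filter

namespace CAR

/-- The standard Sierpinski carpet: the closed unit square minus all open triadic squares
`((3i+1)/3^(n+1), (3i+2)/3^(n+1)) × ((3j+1)/3^(n+1), (3j+2)/3^(n+1))`. -/
def carpet : Set (ℝ × ℝ) :=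
  {p | (p.1 ∈ Icc (0 : ℝ) 1 ∧ p.2 ∈ Icc (0 : ℝ) 1) ∧
    ∀ n i j : ℕ, ¬ (p.1 ∈ Ioo ((3 * i + 1 : ℝ) / 3 ^ (n + 1)) ((3 * i + 2 : ℝ) / 3 ^ (n + 1)) ∧
      p.2 ∈ Ioo ((3 * j + 1 : ℝ) / 3 ^ (n + 1)) ((3 * j + 2 : ℝ) / 3 ^ (n + 1)))}

/-- The boundary of the unit square, as a subset of the carpet. -/
def V0 : Set carpet := {x | x.1.1 = 0 ∨ x.1.1 = 1 ∨ x.1.2 = 0 ∨ x.1.2 = 1}

/-- A strongly local regular symmetric Dirichlet form on `L²(X, μ)` (`X` compact), with domain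
consisting of continuous functions. -/
structure DForm (X : Type*) [MetricSpace X] [CompactSpace X] [MeasurableSpace X] [BorelSpace X]
    (μ : Measure X) where
  /-- the domain -/
  dom : Submodule ℝ C(X, ℝ)
  /-- the form; only its values on `dom` matter -/
  E : C(X, ℝ) → C(X, ℝ) → ℝ
  add_left : ∀ u ∈ dom, ∀ v ∈ dom, ∀ w ∈ dom, E (u + v) w = E u w + E v w
  smul_left : ∀ a : ℝ, ∀ u ∈ dom, ∀ v ∈ dom, E (a • u) v = a * E u v
  symm : ∀ u ∈ dom, ∀ v ∈ dom, E u v = E v u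
  nonneg : ∀ u ∈ dom, 0 ≤ E u u
  /-- `dom` is complete for the norm `(E(u,u) + ∫ u² dμ)^(1/2)` -/
  closed : ∀ u : ℕ → C(X, ℝ), (∀ n, u n ∈ dom) →
    (∀ ε > 0, ∃ N, ∀ m ≥ N, ∀ n ≥ N,
      E (u m - u n) (u m - u n) + ∫ x, (u m x - u n x) ^ 2 ∂μ < ε) →
    ∃ v ∈ dom, Tendsto (fun n => E (u n - v) (u n - v) + ∫ x, (u n x - v x) ^ 2 ∂μ)
      atTop (𝓝 0)
  /-- every normal contraction operates -/
  contraction : ∀ u ∈ dom, ∀ v : C(X, ℝ), (∀ x, |v x| ≤ |u x|) →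
    (∀ x y, |v x - v y| ≤ |u x - u y|) → v ∈ dom ∧ E v v ≤ E u u
  /-- regularity -/
  dense : Dense (dom : Set C(X, ℝ))
  /-- strong locality -/
  strongLocal : ∀ u ∈ dom, ∀ v ∈ dom,
    (∃ c : ℝ, ∃ U : Set X, IsOpen U ∧ tsupport u ⊆ U ∧ ∀ x ∈ U, v x = c) → E u v = 0

variable {X : Type*} [MetricSpace X] [CompactSpace X] [MeasurableSpace X] [BorelSpace X]
  {μ : Measure X}

/-- `h` is harmonic on `X \ V`. -/
def DForm.HarmonicOff (D : DForm X μ) (V : Set X) (h : C(X, ℝ)) : Prop :=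
  h ∈ D.dom ∧ ∀ f ∈ D.dom, (∀ x ∈ V, f x = 0) → D.E h f = 0

/-- the functional `f ↦ ∫ f dΓ(h,h)` -/
def DForm.energy (D : DForm X μ) (h f : C(X, ℝ)) : ℝ := 2 * D.E (h * f) h - D.E (h * h) f

/-- The energy measure of `h` has full support. The first part says it without measures; the
second one is for every measure which satisfies the identity defining `Γ(h,h)`. -/
def DForm.FullSupport (D : DForm X μ) (h : C(X, ℝ)) : Prop :=
  (∀ U : Set X, IsOpen U → U.Nonempty →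
    ∃ f ∈ D.dom, (∀ x, 0 ≤ f x) ∧ tsupport f ⊆ U ∧ 0 < D.energy h f) ∧
  ∀ Γ : Measure X, (∀ f ∈ D.dom, ∫ x, f x ∂Γ = D.energy h f) →
    ∀ U : Set X, IsOpen U → U.Nonempty → 0 < Γ U

/-- On `V`, the function `h - c` has finitely many sign changes: the points of `V` where
`h ≠ c` are covered by finitely many connected subsets of `V` on each of which `h ≥ c` or
`h ≤ c`. -/
def FinSignChanges (V : Set X) (h : C(X, ℝ)) (c : ℝ) : Prop :=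
  ∃ 𝒜 : Set (Set X), 𝒜.Finite ∧
    (∀ A ∈ 𝒜, A ⊆ V ∧ IsPreconnected A ∧ ((∀ x ∈ A, c ≤ h x) ∨ ∀ x ∈ A, h x ≤ c)) ∧
    ∀ x ∈ V, h x ≠ c → ∃ A ∈ 𝒜, x ∈ A

/-! ### planar notions -/

/-- closed triadic square -/
def sq (n i j : ℕ) : Set (ℝ × ℝ) :=
  Icc ((i : ℝ) / 3 ^ n) ((i + 1 : ℝ) / 3 ^ n) ×ˢ Icc ((j : ℝ) / 3 ^ n) ((j + 1 : ℝ) / 3 ^ n)

/-- the triadic square `(n,i,j)` is a cell of the carpet -/
def IsCell (n i j : ℕ) : Prop :=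
  i < 3 ^ n ∧ j < 3 ^ n ∧ ∀ p : ℝ × ℝ, p.1 ∈ Icc (0 : ℝ) 1 → p.2 ∈ Icc (0 : ℝ) 1 →
    (p ∈ carpet ↔ ((p.1 + i) / 3 ^ n, (p.2 + j) / 3 ^ n) ∈ carpet)

/-- there are `N` disjoint arcs in `Z`, starting at a closed square `Q`, inside the open unit
square, whose end points are in the closure of `carpet \ Z`, and which are ordered so that
interlaced pairs of arcs cannot be joined disjointly outside `Q`. -/
def HasArcs (Z : Set (ℝ × ℝ)) (N : ℕ) : Prop :=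
  ∃ (Q : Set (ℝ × ℝ)) (T : Fin N → Set (ℝ × ℝ)) (s : Fin N → ℝ × ℝ),
    IsClosed Q ∧ frontier Q ⊆ carpet ∧ Q ∩ carpet ⊆ Z ∧
    (∀ p ∈ Q, p.1 ∈ Ioo (0 : ℝ) 1 ∧ p.2 ∈ Ioo (0 : ℝ) 1) ∧
    (∀ k, T k ⊆ Z) ∧
    (∀ k, ∀ p ∈ T k, p.1 ∈ Ioo (0 : ℝ) 1 ∧ p.2 ∈ Ioo (0 : ℝ) 1) ∧
    (∀ k, IsPreconnected (T k)) ∧
    (∀ k l, k ≠ l → Disjoint (T k) (T l)) ∧
    (∀ k, Disjoint (T k) Q) ∧ (∀ k, IsClosed (Q ∪ T k)) ∧
    (∀ k, s k ∈ T k) ∧ (∀ k, s k ∈ closure (carpet \ Z)) ∧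
    ∀ i j k l : Fin N, i < j → j < k → k < l → ∀ P P' : Set (ℝ × ℝ),
      IsPathConnected P → IsPathConnected P' → Disjoint P P' → Disjoint P Q → Disjoint P' Q →
      T i ⊆ P → T k ⊆ P → T j ⊆ P' → T l ⊆ P' → False

end CAR
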