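import Pool.Agent.MP_eabe7c_an.Morrey

open MeasureTheory Set Topology Filter

namespace CAR

variable {X : Type*} [MetricSpace X] [CompactSpace X] [PreconnectedSpace X] [MeasurableSpace X] [BorelSpace X]
  {μ : Measure X}

namespace DForm

/-- the killed energy -/
private noncomputable def Qk (D : DForm X μ) {ι : Type*} [Fintype ι] (x : ι → X) (α : ι → ℝ)
    (u v : C(X, ℝ)) : ℝ := D.E u v + ∑ i, α i * (u (x i) * v (x i))

/-- [CAR-D] Dirichlet problem with a finite killing measure. -/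
theorem dirichlet [IsFiniteMeasure μ] [μ.IsOpenPosMeasure] (D : DForm X μ)
    {A : Set X} (hA : A.Nonempty) {ι : Type*} [Fintype ι] (x : ι → X) (α : ι → ℝ)
    (hα : ∀ i, 0 ≤ α i) {f : C(X, ℝ)} (hf : f ∈ D.dom) :
    ∃ u ∈ D.dom, (∀ y ∈ A, u y = f y) ∧
      ∀ g ∈ D.dom, (∀ y ∈ A, g y = 0) → D.E u g + ∑ i, α i * (u (x i) * g (x i)) = 0 := by
  classical
  set Q : C(X, ℝ) → C(X, ℝ) → ℝ := D.Qk x α with hQ
  have hQdef : ∀ u v, Q u v = D.E u v + ∑ i, α i * (u (x i) * v (x i)) := fun u v => rfl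
  have hEQ : ∀ u, D.E u u ≤ Q u u := by
    intro u
    rw [hQdef]
    have : 0 ≤ ∑ i, α i * (u (x i) * u (x i)) :=
      Finset.sum_nonneg fun i _ => mul_nonneg (hα i) (mul_self_nonneg _)
    linarith
  have hQ0 : ∀ u ∈ D.dom, 0 ≤ Q u u := fun u hu => (D.nonneg u hu).trans (hEQ u)
  -- expansion
  have hadd : ∀ u ∈ D.dom, ∀ v ∈ D.dom, ∀ t : ℝ,
      Q (u + t • v) (u + t • v) = Q u u + 2 * t * Q u v + t ^ 2 * Q v v := by
    intro u hu v hv t
    rw [hQdef, hQdef, hQdef, hQdef, D.energy_add hu (D.dom.smul_mem t hv), D.energy_smul t hv,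
      D.smul_right t hu hv]
    have : ∑ i, α i * ((u + t • v) (x i) * (u + t • v) (x i)) =
        ∑ i, α i * (u (x i) * u (x i)) + 2 * t * ∑ i, α i * (u (x i) * v (x i)) +
          t ^ 2 * ∑ i, α i * (v (x i) * v (x i)) := by
      rw [Finset.mul_sum, Finset.mul_sum, ← Finset.sum_add_distrib, ← Finset.sum_add_distrib]
      refine Finset.sum_congr rfl fun i _ => ?_
      simp only [ContinuousMap.add_apply, ContinuousMap.smul_apply, smul_eq_mul]
      ring
    rw [this]
    ring
  set S : Set C(X, ℝ) := {u | u ∈ D.dom ∧ ∀ y ∈ A, u y = f y} with hS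
  have hfS : f ∈ S := ⟨hf, fun y _ => rfl⟩
  set R : Set ℝ := (fun u => Q u u) '' S with hR
  have hRne : R.Nonempty := ⟨_, f, hfS, rfl⟩
  have hRbd : BddBelow R := ⟨0, by rintro _ ⟨u, hu, rfl⟩; exact hQ0 u hu.1⟩
  set I : ℝ := sInf R with hI
  have hIle : ∀ u ∈ S, I ≤ Q u u := fun u hu => csInf_le hRbd ⟨u, hu, rfl⟩
  -- a minimising sequence
  have hmin : ∀ n : ℕ, ∃ u ∈ S, Q u u < I + 1 / ((n : ℝ) + 1) := by
    intro n
    have h1 : I < I + 1 / ((n : ℝ) + 1) := by
      have : (0 : ℝ) < 1 / ((n : ℝ) + 1) := by positivity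
      linarith
    obtain ⟨_, ⟨u, hu, rfl⟩, h2⟩ := exists_lt_of_csInf_lt hRne h1
    exact ⟨u, hu, h2⟩
  choose u huS huQ using hmin
  have hud : ∀ n, u n ∈ D.dom := fun n => (huS n).1
  -- almost orthogonality
  have horth : ∀ n, ∀ g ∈ D.dom, (∀ y ∈ A, g y = 0) →
      Q (u n) g ^ 2 ≤ Q g g * (1 / ((n : ℝ) + 1)) := by
    intro n g hg hgA
    have h : ∀ t : ℝ, 0 ≤ Q g g * (t * t) + 2 * Q (u n) g * t + 1 / ((n : ℝ) + 1) := by
      intro t
      have h1 : u n + t • g ∈ S := by
        refine ⟨D.dom.add_mem (hud n) (D.dom.smul_mem t hg), fun y hy => ?_⟩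
        simp only [ContinuousMap.add_apply, ContinuousMap.smul_apply, smul_eq_mul, hgA y hy,
          mul_zero, add_zero]
        exact (huS n).2 y hy
      have h2 := hIle _ h1
      rw [hadd _ (hud n) _ hg] at h2
      have h3 := huQ n
      nlinarith
    have := discrim_le_zero h
    unfold discrim at this
    nlinarith
  -- parallelogram law
  have hpar : ∀ m n, D.E (u m - u n) (u m - u n) ≤
      4 * (1 / ((m : ℝ) + 1)) + 4 * (1 / ((n : ℝ) + 1)) := by
    intro m n
    have h1 : u m + (1 / 2 : ℝ) • (u n - u m) ∈ S := by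
      refine ⟨D.dom.add_mem (hud m) (D.dom.smul_mem _ (D.dom.sub_mem (hud n) (hud m))),
        fun y hy => ?_⟩
      simp only [ContinuousMap.add_apply, ContinuousMap.smul_apply, ContinuousMap.sub_apply,
        smul_eq_mul, (huS n).2 y hy, (huS m).2 y hy, sub_self, mul_zero, add_zero]
    have h2 := hIle _ h1
    rw [hadd _ (hud m) _ (D.dom.sub_mem (hud n) (hud m))] at h2
    have h3 := hadd _ (hud m) _ (D.dom.sub_mem (hud n) (hud m)) 1
    have h4 : u m + (1 : ℝ) • (u n - u m) = u n := by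
      rw [one_smul]; abel
    rw [h4] at h3
    have h5 := hEQ (u n - u m)
    have h6 : D.E (u m - u n) (u m - u n) = D.E (u n - u m) (u n - u m) := by
      rw [← D.energy_neg (D.dom.sub_mem (hud n) (hud m)), neg_sub]
    have h7 := huQ m
    have h8 := huQ n
    have h9 : (0 : ℝ) < 1 / ((m : ℝ) + 1) := by positivity
    have h10 : (0 : ℝ) < 1 / ((n : ℝ) + 1) := by positivity
    rw [h6]
    nlinarith
  have hE : ∀ ε > 0, ∃ N, ∀ m ≥ N, ∀ n ≥ N, D.E (u m - u n) (u m - u n) < ε := by
    intro ε hε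
    obtain ⟨N, hN⟩ := exists_nat_one_div_lt (show (0 : ℝ) < ε / 8 by linarith)
    have hle : ∀ m : ℕ, N ≤ m → 1 / ((m : ℝ) + 1) < ε / 8 := by
      intro m hm
      refine lt_of_le_of_lt ?_ hN
      apply one_div_le_one_div_of_le
      · positivity
      · have : (N : ℝ) ≤ (m : ℝ) := by exact_mod_cast hm
        linarith
    refine ⟨N, fun m hm n hn => ?_⟩
    have h1 := hpar m n
    have h2 := hle m hm
    have h3 := hle n hn
    linarith
  obtain ⟨x₀, hx₀⟩ := hA
  have hc : CauchySeq fun n => u n x₀ := by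
    have : (fun n => u n x₀) = fun _ => f x₀ := by
      funext n
      exact (huS n).2 x₀ hx₀
    rw [this]
    exact cauchySeq_const _
  obtain ⟨v, hv, hvE, hvu⟩ := D.complete x₀ u hud hE hc
  have hpt : ∀ y, Tendsto (fun n => u n y) atTop (𝓝 (v y)) := fun y =>
    ((continuous_eval_const (F := C(X, ℝ)) y).tendsto v).comp hvu
  refine ⟨v, hv, fun y hy => ?_, fun g hg hgA => ?_⟩
  · refine tendsto_nhds_unique (hpt y) ?_
    have : (fun n => u n y) = fun _ => f y := by
      funext n
      exact (huS n).2 y hy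
    rw [this]
    exact tendsto_const_nhds
  · -- `Q (u n) g → Q v g`
    have h1 : Tendsto (fun n => D.E (u n - v) g) atTop (𝓝 0) := by
      have h2 : Tendsto (fun n => Real.sqrt (D.E (u n - v) (u n - v) * D.E g g)) atTop (𝓝 0) := by
        have h3 := (hvE.mul_const (D.E g g))
        rw [zero_mul] at h3
        have h4 := (Real.continuous_sqrt.tendsto 0).comp h3
        rw [Real.sqrt_zero] at h4
        exact h4
      refine squeeze_zero_norm (fun n => ?_) h2
      rw [Real.norm_eq_abs]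
      exact Real.abs_le_sqrt (D.cauchy_schwarz (D.dom.sub_mem (hud n) hv) hg)
    have h5 : Tendsto (fun n => Q (u n) g) atTop (𝓝 (Q v g)) := by
      have h6 : Tendsto (fun n => D.E (u n) g) atTop (𝓝 (D.E v g)) := by
        have h7 := h1.add_const (D.E v g)
        rw [zero_add] at h7
        refine h7.congr fun n => ?_
        rw [D.sub_left (hud n) hv hg]
        ring
      have h8 : Tendsto (fun n => ∑ i, α i * (u n (x i) * g (x i))) atTop
          (𝓝 (∑ i, α i * (v (x i) * g (x i)))) :=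
        tendsto_finsetSum _ fun i _ => ((hpt (x i)).mul_const _).const_mul _
      exact h6.add h8
    have h9 : Tendsto (fun n => Q (u n) g) atTop (𝓝 0) := by
      have h10 : Tendsto (fun n : ℕ => Real.sqrt (Q g g * (1 / ((n : ℝ) + 1)))) atTop (𝓝 0) := by
        have h11 := (tendsto_one_div_add_atTop_nhds_zero_nat (𝕜 := ℝ)).const_mul (Q g g)
        rw [mul_zero] at h11
        have h12 := (Real.continuous_sqrt.tendsto 0).comp h11
        rw [Real.sqrt_zero] at h12
        exact h12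
      refine squeeze_zero_norm (fun n => ?_) h10
      rw [Real.norm_eq_abs]
      exact Real.abs_le_sqrt (horth n g hg hgA)
    exact tendsto_nhds_unique h5 h9

end DForm

end CAR
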