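import Pool.Agent.MP_eabe7c_an.Rect

open Set Topology Filter

namespace CAR

/-- inversion in the sup norm -/
noncomputable def extInv (c : ℝ × ℝ) (r : ℝ) (z : ℝ × ℝ) : ℝ × ℝ :=
  c + (r ^ 2 / ‖z - c‖ ^ 2) • (z - c)

theorem extInv_norm {c : ℝ × ℝ} {r : ℝ} (hr : 0 < r) {z : ℝ × ℝ} (hz : r ≤ ‖z - c‖) :
    ‖extInv c r z - c‖ = r ^ 2 / ‖z - c‖ := by
  have h0 : 0 < ‖z - c‖ := lt_of_lt_of_le hr hz
  unfold extInv
  rw [add_sub_cancel_left, norm_smul, Real.norm_eq_abs, abs_of_nonneg (by positivity)]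
  field_simp

theorem extInv_norm_le {c : ℝ × ℝ} {r : ℝ} (hr : 0 < r) {z : ℝ × ℝ} (hz : r ≤ ‖z - c‖) :
    ‖extInv c r z - c‖ ≤ r := by
  have h0 : 0 < ‖z - c‖ := lt_of_lt_of_le hr hz
  rw [extInv_norm hr hz, div_le_iff₀ h0]
  nlinarith

theorem extInv_eq_self {c : ℝ × ℝ} {r : ℝ} (hr : 0 < r) {z : ℝ × ℝ} (hz : ‖z - c‖ = r) :
    extInv c r z = z := by
  unfold extInv
  rw [hz, div_self (by positivity), one_smul]
  abel

theorem extInv_fix {c : ℝ × ℝ} {r : ℝ} (hr : 0 < r) {z : ℝ × ℝ} (hz : r ≤ ‖z - c‖)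
    (h : ‖extInv c r z - c‖ = r) : extInv c r z = z := by
  have h0 : 0 < ‖z - c‖ := lt_of_lt_of_le hr hz
  apply extInv_eq_self hr
  rw [extInv_norm hr hz, div_eq_iff h0.ne'] at h
  have : r * (‖z - c‖ - r) = 0 := by linarith
  rcases mul_eq_zero.1 this with h1 | h1
  · exact absurd h1 hr.ne'
  · linarith

theorem extInv_inj {c : ℝ × ℝ} {r : ℝ} (hr : 0 < r) {z w : ℝ × ℝ} (hz : r ≤ ‖z - c‖)
    (hw : r ≤ ‖w - c‖) (h : extInv c r z = extInv c r w) : z = w := by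
  have h0 : 0 < ‖z - c‖ := lt_of_lt_of_le hr hz
  have h1 : 0 < ‖w - c‖ := lt_of_lt_of_le hr hw
  have h2 : r ^ 2 / ‖z - c‖ = r ^ 2 / ‖w - c‖ := by
    rw [← extInv_norm hr hz, ← extInv_norm hr hw, h]
  have h3 : ‖z - c‖ = ‖w - c‖ := by
    rw [div_eq_div_iff h0.ne' h1.ne'] at h2
    exact (mul_left_cancel₀ (by positivity) h2).symm
  unfold extInv at h
  rw [h3, add_right_inj] at h
  have h4 : z - c = w - c := by
    have : r ^ 2 / ‖w - c‖ ^ 2 ≠ 0 := by positivity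
    exact smul_right_injective _ this h
  exact sub_left_injective h4

theorem extInv_cont {c : ℝ × ℝ} {r : ℝ} (hr : 0 < r) {S : Set (ℝ × ℝ)}
    (hS : ∀ z ∈ S, r ≤ ‖z - c‖) : ContinuousOn (extInv c r) S := by
  have hdiv : ContinuousOn (fun z : ℝ × ℝ => r ^ 2 / ‖z - c‖ ^ 2) S := by
    refine ContinuousOn.div continuousOn_const (by fun_prop) ?_
    intro z hz
    have h0 : 0 < ‖z - c‖ := lt_of_lt_of_le hr (hS z hz)
    positivity
  have hsub : ContinuousOn (fun z : ℝ × ℝ => z - c) S := by fun_prop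
  exact continuousOn_const.add (hdiv.smul hsub)

theorem ext_out {p q r : ℝ} {S : Set (ℝ × ℝ)}
    (hSQ : Disjoint S (Ioo (p - r) (p + r) ×ˢ Ioo (q - r) (q + r))) {z : ℝ × ℝ} (hz : z ∈ S) :
    r ≤ ‖z - (p, q)‖ := by
  by_contra h
  push Not at h
  rw [Prod.norm_def, max_lt_iff] at h
  obtain ⟨h1, h2⟩ := h
  rw [Real.norm_eq_abs, abs_lt] at h1 h2
  simp only [Prod.fst_sub, Prod.snd_sub] at h1 h2
  refine Set.disjoint_left.1 hSQ hz ⟨⟨?_, ?_⟩, ⟨?_, ?_⟩⟩ <;> linarith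

theorem ext_box {p q r : ℝ} {w : ℝ × ℝ} (h : ‖w - (p, q)‖ ≤ r) :
    p - r ≤ w.1 ∧ w.1 ≤ p + r ∧ q - r ≤ w.2 ∧ w.2 ≤ q + r := by
  rw [Prod.norm_def, max_le_iff] at h
  obtain ⟨h1, h2⟩ := h
  rw [Real.norm_eq_abs, abs_le] at h1 h2
  simp only [Prod.fst_sub, Prod.snd_sub] at h1 h2
  refine ⟨?_, ?_, ?_, ?_⟩ <;> linarith

theorem ext_bd {p q r y : ℝ} (hr : 0 < r) (h1 : q - r ≤ y) (h2 : y ≤ q + r) :
    ‖((p + r, y) : ℝ × ℝ) - (p, q)‖ = r := by
  rw [Prod.norm_def]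
  simp only [Prod.mk_sub_mk, add_sub_cancel_left, Real.norm_eq_abs, abs_of_pos hr]
  apply max_eq_left
  rw [abs_le]
  constructor <;> linarith

/-- horizontal segment -/
def hseg (a b y : ℝ) : Set (ℝ × ℝ) := Icc a b ×ˢ {y}

/-- vertical segment -/
def vseg (x a b : ℝ) : Set (ℝ × ℝ) := {x} ×ˢ Icc a b

theorem hseg_joined {a b y : ℝ} (h : a ≤ b) : JoinedIn (hseg a b y) (a, y) (b, y) := by
  apply JoinedIn.of_segment_subset
  refine ((convex_Icc a b).prod (convex_singleton y)).segment_subset ?_ ?_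
  · exact ⟨⟨le_refl _, h⟩, rfl⟩
  · exact ⟨⟨h, le_refl _⟩, rfl⟩

theorem vseg_joined {x a b : ℝ} (h : a ≤ b) : JoinedIn (vseg x a b) (x, a) (x, b) := by
  apply JoinedIn.of_segment_subset
  refine ((convex_singleton x).prod (convex_Icc a b)).segment_subset ?_ ?_
  · exact ⟨rfl, ⟨le_refl _, h⟩⟩
  · exact ⟨rfl, ⟨h, le_refl _⟩⟩

theorem mem_hseg {a b y : ℝ} {z : ℝ × ℝ} (h : z ∈ hseg a b y) :
    a ≤ z.1 ∧ z.1 ≤ b ∧ z.2 = y := ⟨h.1.1, h.1.2, h.2⟩

theorem mem_vseg {x a b : ℝ} {z : ℝ × ℝ} (h : z ∈ vseg x a b) :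
    z.1 = x ∧ a ≤ z.2 ∧ z.2 ≤ b := ⟨h.1, h.2.1, h.2.2⟩

/-- [CAR-X] Exterior crossing lemma: four points `y1 < y2 < y3 < y4` on the right side of a square;
one cannot join 1–3 and 2–4 by disjoint paths outside the open square. -/
theorem ext_crossing {p q r : ℝ} (hr : 0 < r) {y1 y2 y3 y4 : ℝ} (h12 : y1 < y2) (h23 : y2 < y3)
    (h34 : y3 < y4) (h1 : q - r ≤ y1) (h4 : y4 ≤ q + r) {S S' : Set (ℝ × ℝ)}
    (hS : JoinedIn S (p + r, y1) (p + r, y3)) (hS' : JoinedIn S' (p + r, y2) (p + r, y4))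
    (hd : Disjoint S S') (hSQ : Disjoint S (Ioo (p - r) (p + r) ×ˢ Ioo (q - r) (q + r)))
    (hSQ' : Disjoint S' (Ioo (p - r) (p + r) ×ˢ Ioo (q - r) (q + r))) : False := by
  have hout : ∀ z ∈ S, r ≤ ‖z - (p, q)‖ := fun z hz => ext_out hSQ hz
  have hout' : ∀ z ∈ S', r ≤ ‖z - (p, q)‖ := fun z hz => ext_out hSQ' hz
  have hne : ∀ z ∈ S, z ∉ S' := fun z hz hz' => Set.disjoint_left.1 hd hz hz'
  have m1 := hS.source_mem
  have m3 := hS.target_mem
  have m2 := hS'.source_mem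
  have m4 := hS'.target_mem
  have e1 : extInv (p, q) r (p + r, y1) = (p + r, y1) :=
    extInv_eq_self hr (ext_bd hr (by linarith) (by linarith))
  have e2 : extInv (p, q) r (p + r, y2) = (p + r, y2) :=
    extInv_eq_self hr (ext_bd hr (by linarith) (by linarith))
  have e3 : extInv (p, q) r (p + r, y3) = (p + r, y3) :=
    extInv_eq_self hr (ext_bd hr (by linarith) (by linarith))
  have e4 : extInv (p, q) r (p + r, y4) = (p + r, y4) :=
    extInv_eq_self hr (ext_bd hr (by linarith) (by linarith))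
  have J := hS.map_continuousOn (extInv_cont hr hout)
  have J' := hS'.map_continuousOn (extInv_cont hr hout')
  rw [e1, e3] at J
  rw [e2, e4] at J'
  -- points of the image on the right side of the square
  have key : ∀ {T : Set (ℝ × ℝ)}, (∀ z ∈ T, r ≤ ‖z - (p, q)‖) → ∀ {w : ℝ × ℝ},
      w ∈ extInv (p, q) r '' T → p + r ≤ w.1 → w ∈ T ∧ w.1 = p + r := by
    intro T hT w hw hw1
    obtain ⟨z, hz, rfl⟩ := hw
    have hb := extInv_norm_le hr (hT z hz)
    have hbox := ext_box hb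
    have heq : (extInv (p, q) r z).1 = p + r := le_antisymm hbox.2.1 hw1
    have hn : ‖extInv (p, q) r z - (p, q)‖ = r := by
      have : extInv (p, q) r z = (p + r, (extInv (p, q) r z).2) := by
        rw [← heq]
      rw [this]
      exact ext_bd hr hbox.2.2.1 hbox.2.2.2
    have := extInv_fix hr (hT z hz) hn
    exact ⟨by rw [this]; exact hz, heq⟩
  have kbox : ∀ {T : Set (ℝ × ℝ)}, (∀ z ∈ T, r ≤ ‖z - (p, q)‖) → ∀ {w : ℝ × ℝ},
      w ∈ extInv (p, q) r '' T → p - r ≤ w.1 ∧ w.1 ≤ p + r ∧ q - r ≤ w.2 ∧ w.2 ≤ q + r := by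
    intro T hT w hw
    obtain ⟨z, hz, rfl⟩ := hw
    exact ext_box (extInv_norm_le hr (hT z hz))
  set U : Set (ℝ × ℝ) := vseg (p + r + 1) (q - r - 1) y1 ∪ (hseg (p + r) (p + r + 1) y1 ∪
    (extInv (p, q) r '' S ∪ (hseg (p + r) (p + r + 3) y3 ∪ vseg (p + r + 3) y3 (q + r + 2))))
    with hU
  set U' : Set (ℝ × ℝ) := hseg (p - r - 1) (p + r + 2) (q + r + 1) ∪
    (vseg (p + r + 2) y4 (q + r + 1) ∪ (hseg (p + r) (p + r + 2) y4 ∪
    (extInv (p, q) r '' S' ∪ hseg (p + r) (p + r + 4) y2))) with hU'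
  have jU : JoinedIn U (p + r + 1, q - r - 1) (p + r + 3, q + r + 2) := by
    have a1 : JoinedIn U (p + r + 1, q - r - 1) (p + r + 1, y1) :=
      (vseg_joined (by linarith)).mono (by rw [hU]; intro z hz; left; exact hz)
    have a2 : JoinedIn U (p + r + 1, y1) (p + r, y1) :=
      ((hseg_joined (by linarith)).mono (by rw [hU]; intro z hz; right; left; exact hz)).symm
    have a3 : JoinedIn U (p + r, y1) (p + r, y3) :=
      J.mono (by rw [hU]; intro z hz; right; right; left; exact hz)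
    have a4 : JoinedIn U (p + r, y3) (p + r + 3, y3) :=
      (hseg_joined (by linarith)).mono (by rw [hU]; intro z hz; right; right; right; left; exact hz)
    have a5 : JoinedIn U (p + r + 3, y3) (p + r + 3, q + r + 2) :=
      (vseg_joined (by linarith)).mono
        (by rw [hU]; intro z hz; right; right; right; right; exact hz)
    exact (((a1.trans a2).trans a3).trans a4).trans a5
  have jU' : JoinedIn U' (p - r - 1, q + r + 1) (p + r + 4, y2) := by
    have a1 : JoinedIn U' (p - r - 1, q + r + 1) (p + r + 2, q + r + 1) :=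
      (hseg_joined (by linarith)).mono (by rw [hU']; intro z hz; left; exact hz)
    have a2 : JoinedIn U' (p + r + 2, q + r + 1) (p + r + 2, y4) :=
      ((vseg_joined (by linarith)).mono (by rw [hU']; intro z hz; right; left; exact hz)).symm
    have a3 : JoinedIn U' (p + r + 2, y4) (p + r, y4) :=
      ((hseg_joined (by linarith)).mono
        (by rw [hU']; intro z hz; right; right; left; exact hz)).symm
    have a4 : JoinedIn U' (p + r, y4) (p + r, y2) :=
      (J'.mono (by rw [hU']; intro z hz; right; right; right; left; exact hz)).symm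
    have a5 : JoinedIn U' (p + r, y2) (p + r + 4, y2) :=
      (hseg_joined (by linarith)).mono
        (by rw [hU']; intro z hz; right; right; right; right; exact hz)
    exact (((a1.trans a2).trans a3).trans a4).trans a5
  have sU : U ⊆ Icc (p - r - 1) (p + r + 4) ×ˢ Icc (q - r - 1) (q + r + 2) := by
    intro z hz
    rcases hz with hz | hz | hz | hz | hz
    · obtain ⟨b1, b2, b3⟩ := mem_vseg hz
      exact ⟨⟨by linarith, by linarith⟩, ⟨by linarith, by linarith⟩⟩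
    · obtain ⟨b1, b2, b3⟩ := mem_hseg hz
      exact ⟨⟨by linarith, by linarith⟩, ⟨by linarith, by linarith⟩⟩
    · obtain ⟨b1, b2, b3, b4⟩ := kbox hout hz
      exact ⟨⟨by linarith, by linarith⟩, ⟨by linarith, by linarith⟩⟩
    · obtain ⟨b1, b2, b3⟩ := mem_hseg hz
      exact ⟨⟨by linarith, by linarith⟩, ⟨by linarith, by linarith⟩⟩
    · obtain ⟨b1, b2, b3⟩ := mem_vseg hz
      exact ⟨⟨by linarith, by linarith⟩, ⟨by linarith, by linarith⟩⟩
  have sU' : U' ⊆ Icc (p - r - 1) (p + r + 4) ×ˢ Icc (q - r - 1) (q + r + 2) := by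
    intro z hz
    rcases hz with hz | hz | hz | hz | hz
    · obtain ⟨b1, b2, b3⟩ := mem_hseg hz
      exact ⟨⟨by linarith, by linarith⟩, ⟨by linarith, by linarith⟩⟩
    · obtain ⟨b1, b2, b3⟩ := mem_vseg hz
      exact ⟨⟨by linarith, by linarith⟩, ⟨by linarith, by linarith⟩⟩
    · obtain ⟨b1, b2, b3⟩ := mem_hseg hz
      exact ⟨⟨by linarith, by linarith⟩, ⟨by linarith, by linarith⟩⟩
    · obtain ⟨b1, b2, b3, b4⟩ := kbox hout' hz
      exact ⟨⟨by linarith, by linarith⟩, ⟨by linarith, by linarith⟩⟩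
    · obtain ⟨b1, b2, b3⟩ := mem_hseg hz
      exact ⟨⟨by linarith, by linarith⟩, ⟨by linarith, by linarith⟩⟩
  obtain ⟨z, hz, hz'⟩ := rect_crossing sU sU' jU rfl rfl jU' rfl rfl
  rcases hz with hz | hz | hz | hz | hz
  · obtain ⟨b1, b2, b3⟩ := mem_vseg hz
    rcases hz' with hz' | hz' | hz' | hz' | hz'
    · obtain ⟨c1, c2, c3⟩ := mem_hseg hz'
      linarith
    · obtain ⟨c1, c2, c3⟩ := mem_vseg hz'
      linarith
    · obtain ⟨c1, c2, c3⟩ := mem_hseg hz'
      linarith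
    · obtain ⟨c1, c2, c3, c4⟩ := kbox hout' hz'
      linarith
    · obtain ⟨c1, c2, c3⟩ := mem_hseg hz'
      linarith
  · obtain ⟨b1, b2, b3⟩ := mem_hseg hz
    rcases hz' with hz' | hz' | hz' | hz' | hz'
    · obtain ⟨c1, c2, c3⟩ := mem_hseg hz'
      linarith
    · obtain ⟨c1, c2, c3⟩ := mem_vseg hz'
      linarith
    · obtain ⟨c1, c2, c3⟩ := mem_hseg hz'
      linarith
    · obtain ⟨k1, k2⟩ := key hout' hz' b1
      have : z = (p + r, y1) := Prod.ext k2 b3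
      rw [this] at k1
      exact hne _ m1 k1
    · obtain ⟨c1, c2, c3⟩ := mem_hseg hz'
      linarith
  · have bb := kbox hout hz
    rcases hz' with hz' | hz' | hz' | hz' | hz'
    · obtain ⟨c1, c2, c3⟩ := mem_hseg hz'
      linarith [bb.2.2.2]
    · obtain ⟨c1, c2, c3⟩ := mem_vseg hz'
      linarith [bb.2.1]
    · obtain ⟨c1, c2, c3⟩ := mem_hseg hz'
      obtain ⟨k1, k2⟩ := key hout hz c1
      have : z = (p + r, y4) := Prod.ext k2 c3
      rw [this] at k1
      exact hne _ k1 m4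
    · obtain ⟨u, hu, rfl⟩ := hz
      obtain ⟨v, hv, huv⟩ := hz'
      have := extInv_inj hr (hout' v hv) (hout u hu) huv
      rw [this] at hv
      exact hne _ hu hv
    · obtain ⟨c1, c2, c3⟩ := mem_hseg hz'
      obtain ⟨k1, k2⟩ := key hout hz c1
      have : z = (p + r, y2) := Prod.ext k2 c3
      rw [this] at k1
      exact hne _ k1 m2
  · obtain ⟨b1, b2, b3⟩ := mem_hseg hz
    rcases hz' with hz' | hz' | hz' | hz' | hz'
    · obtain ⟨c1, c2, c3⟩ := mem_hseg hz'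
      linarith
    · obtain ⟨c1, c2, c3⟩ := mem_vseg hz'
      linarith
    · obtain ⟨c1, c2, c3⟩ := mem_hseg hz'
      linarith
    · obtain ⟨k1, k2⟩ := key hout' hz' b1
      have : z = (p + r, y3) := Prod.ext k2 b3
      rw [this] at k1
      exact hne _ m3 k1
    · obtain ⟨c1, c2, c3⟩ := mem_hseg hz'
      linarith
  · obtain ⟨b1, b2, b3⟩ := mem_vseg hz
    rcases hz' with hz' | hz' | hz' | hz' | hz'
    · obtain ⟨c1, c2, c3⟩ := mem_hseg hz'
      linarith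
    · obtain ⟨c1, c2, c3⟩ := mem_vseg hz'
      linarith
    · obtain ⟨c1, c2, c3⟩ := mem_hseg hz'
      linarith
    · obtain ⟨c1, c2, c3, c4⟩ := kbox hout' hz'
      linarith
    · obtain ⟨c1, c2, c3⟩ := mem_hseg hz'
      linarith

end CAR
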