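import Pool.Agent.MP_eabe7c_an.Main
import Pool.Agent.MP_eabe7c_an.Approx

open MeasureTheory Set Topology Filter

namespace CAR

theorem isClosed_V0 : IsClosed V0 := by
  have h1 : Continuous fun x : carpet => x.1.1 := continuous_fst.comp continuous_subtype_val
  have h2 : Continuous fun x : carpet => x.1.2 := continuous_snd.comp continuous_subtype_val
  have e : V0 = ({x | x.1.1 = 0} ∪ {x | x.1.1 = 1}) ∪ ({x | x.1.2 = 0} ∪ {x | x.1.2 = 1}) := by
    ext x
    simp only [V0, mem_union, mem_ofPred_eq]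
    tauto
  rw [e]
  exact ((isClosed_eq h1 continuous_const).union (isClosed_eq h1 continuous_const)).union
    ((isClosed_eq h2 continuous_const).union (isClosed_eq h2 continuous_const))

/-- the boundary of the square has empty interior in the carpet -/
theorem interior_V0 : interior V0 = ∅ := by
  by_contra hne
  rw [← ne_eq, ← nonempty_iff_ne_empty] at hne
  obtain ⟨x, hx⟩ := hne
  obtain ⟨W, hWo, hW⟩ := isOpen_induced_iff.1 (isOpen_interior (s := V0))
  have hxW : x.1 ∈ W := by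
    have : x ∈ Subtype.val ⁻¹' W := hW ▸ hx
    exact this
  obtain ⟨n, i, j, hc, hsub⟩ := exists_cell_subset hWo ⟨x.1, hxW, x.2⟩
  have h3 : (0 : ℝ) < 3 ^ n := by positivity
  -- a child corner inside: use the small cell near the lower left corner
  have hcc := hc.corner 0
  have h9 : (0 : ℝ) < 3 ^ (n + 2) := by positivity
  set p : ℝ × ℝ := (((3 ^ (0 + 2) * i + 2 : ℕ) : ℝ) / 3 ^ (n + (0 + 2)),
    ((3 ^ (0 + 2) * j + 2 : ℕ) : ℝ) / 3 ^ (n + (0 + 2))) with hp
  have e1 : p.1 = (i : ℝ) / 3 ^ n + 2 / 9 / 3 ^ n := by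
    rw [hp]
    show ((3 ^ (0 + 2) * i + 2 : ℕ) : ℝ) / 3 ^ (n + (0 + 2)) = _
    rw [pow_add]; push_cast; field_simp; ring
  have e2 : p.2 = (j : ℝ) / 3 ^ n + 2 / 9 / 3 ^ n := by
    rw [hp]
    show ((3 ^ (0 + 2) * j + 2 : ℕ) : ℝ) / 3 ^ (n + (0 + 2)) = _
    rw [pow_add]; push_cast; field_simp; ring
  have hpc : p ∈ carpet := by
    apply hcc.frontier_subset
    rw [frontier_sq]
    refine ⟨⟨⟨le_refl _, ?_⟩, ⟨le_refl _, ?_⟩⟩, Or.inl rfl⟩
    · exact div_le_div_of_nonneg_right (by simp) (by positivity)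
    · exact div_le_div_of_nonneg_right (by simp) (by positivity)
  have hpos : 0 < 2 / 9 / (3 : ℝ) ^ n := by positivity
  have hlt : 2 / 9 / (3 : ℝ) ^ n < 1 / 3 ^ n := by
    rw [div_lt_div_iff_of_pos_right h3]; norm_num
  have hsq : p ∈ sq n i j := by
    refine ⟨⟨?_, ?_⟩, ⟨?_, ?_⟩⟩
    · rw [e1]; linarith
    · rw [e1, add_div]; linarith
    · rw [e2]; linarith
    · rw [e2, add_div]; linarith
  have hpV : (⟨p, hpc⟩ : carpet) ∈ V0 := by
    have : (⟨p, hpc⟩ : carpet) ∈ interior V0 := hW ▸ hsub hsq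
    exact interior_subset this
  have hi0 : (0 : ℝ) ≤ (i : ℝ) / 3 ^ n := by positivity
  have hj0 : (0 : ℝ) ≤ (j : ℝ) / 3 ^ n := by positivity
  have hi1 : (i : ℝ) / 3 ^ n + 1 / 3 ^ n ≤ 1 := by
    rw [← add_div, div_le_one h3]; exact_mod_cast hc.1
  have hj1 : (j : ℝ) / 3 ^ n + 1 / 3 ^ n ≤ 1 := by
    rw [← add_div, div_le_one h3]; exact_mod_cast hc.2.1
  rcases hpV with h | h | h | h
  · have : p.1 = 0 := h
    rw [e1] at this; linarith
  · have : p.1 = 1 := h
    rw [e1] at this; linarith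
  · have : p.2 = 0 := h
    rw [e2] at this; linarith
  · have : p.2 = 1 := h
    rw [e2] at this; linarith

section

variable {μ : Measure carpet}

theorem DForm.HarmonicOff.sub_const {D : DForm carpet μ} {V : Set carpet} {h : C(carpet, ℝ)}
    (hh : D.HarmonicOff V h) (c : ℝ) : D.HarmonicOff V (h - ContinuousMap.const carpet c) := by
  refine ⟨D.dom.sub_mem hh.1 (D.const_mem c), fun f hf hf0 => ?_⟩
  rw [D.sub_left hh.1 (D.const_mem c) hf, hh.2 f hf hf0, D.const_left c hf, sub_zero]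

theorem HarmonicOff_mono {D : DForm carpet μ} {V V' : Set carpet} (hVV : V ⊆ V') {h : C(carpet, ℝ)}
    (hh : D.HarmonicOff V h) : D.HarmonicOff V' h :=
  ⟨hh.1, fun f hf hf0 => hh.2 f hf fun x hx => hf0 x (hVV hx)⟩

end

variable {μ : Measure carpet} [IsFiniteMeasure μ] [μ.IsOpenPosMeasure]

theorem nonempty_of_harmonicOff {D : DForm carpet μ} {V : Set carpet} {h : C(carpet, ℝ)}
    (hh : D.HarmonicOff V h) (hne : ∃ x y, h x ≠ h y) : V.Nonempty := by
  by_contra hV
  rw [not_nonempty_iff_eq_empty] at hV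
  have h0 : D.E h h = 0 := hh.2 h hh.1 (fun x hx => by rw [hV] at hx; exact absurd hx (notMem_empty x))
  obtain ⟨c, hc⟩ := D.irreducible h hh.1 h0
  obtain ⟨x, y, hxy⟩ := hne
  exact hxy (by rw [hc x, hc y])

theorem level_interior_eq_empty (D : DForm carpet μ) {V : Set carpet} (hV : IsClosed V)
    (hV0 : V ⊆ V0) {h : C(carpet, ℝ)} (hh : D.HarmonicOff V h) (hne : ∃ x y, h x ≠ h y) {c : ℝ}
    (hc : FinSignChanges V h c) : interior {x | h x = c} = ∅ := by
  have hVn := nonempty_of_harmonicOff hh hne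
  have e : {x | h x = c} = {x | (h - ContinuousMap.const carpet c) x = 0} := by
    ext x
    simp only [mem_ofPred_eq, ContinuousMap.sub_apply, ContinuousMap.const_apply, sub_eq_zero]
  rw [e]
  refine interior_eq_empty D hV hVn hV0 (hh.sub_const c) ?_ ?_
  · obtain ⟨x, y, hxy⟩ := hne
    by_cases hx : h x = c
    · refine ⟨y, ?_⟩
      simp only [ContinuousMap.sub_apply, ContinuousMap.const_apply]
      intro h0
      exact hxy (by rw [hx, sub_eq_zero.1 h0])
    · refine ⟨x, ?_⟩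
      simp only [ContinuousMap.sub_apply, ContinuousMap.const_apply]
      exact fun h0 => hx (sub_eq_zero.1 h0)
  · obtain ⟨𝒜, h1, h2, h3⟩ := hc
    refine ⟨𝒜, h1, fun A hA => ⟨(h2 A hA).1, (h2 A hA).2.1, ?_⟩, fun x hx hx0 => h3 x hx ?_⟩
    · rcases (h2 A hA).2.2 with h | h
      · left
        intro x hx
        simp only [ContinuousMap.sub_apply, ContinuousMap.const_apply]
        linarith [h x hx]
      · right
        intro x hx
        simp only [ContinuousMap.sub_apply, ContinuousMap.const_apply]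
        linarith [h x hx]
    · simp only [ContinuousMap.sub_apply, ContinuousMap.const_apply, ne_eq, sub_eq_zero] at hx0
      exact hx0

/-- the dichotomy -/
theorem dichotomy (D : DForm carpet μ) {V : Set carpet} (hV : IsClosed V)
    (hV0 : V ⊆ V0) {h : C(carpet, ℝ)} (hh : D.HarmonicOff V h) (hne : ∃ x y, h x ≠ h y) :
    D.FullSupport h ∨
      ∃ c : ℝ, (interior {x | h x = c}).Nonempty ∧ ¬ FinSignChanges V h c := by
  by_cases hc : ∀ c : ℝ, interior {x | h x = c} = ∅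
  · left
    refine D.fullSupport_of hV ?_ hh hc
    exact subset_empty_iff.1 ((interior_mono hV0).trans_eq interior_V0)
  · right
    push Not at hc
    obtain ⟨c, hc⟩ := hc
    exact ⟨c, nonempty_iff_ne_empty.2 (nonempty_iff_ne_empty.1 hc),
      fun hf => (nonempty_iff_ne_empty.1 hc) (level_interior_eq_empty D hV hV0 hh hne hf)⟩

/-- finite sets -/
theorem fullSupport_finite (D : DForm carpet μ) {P : Set carpet} (hP : P.Finite)
    (hP0 : P ⊆ V0) {w : C(carpet, ℝ)} (hw : D.HarmonicOff P w) (hne : ∃ x y, w x ≠ w y) :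
    D.FullSupport w := by
  rcases dichotomy D hP.isClosed hP0 hw hne with h | ⟨c, -, h⟩
  · exact h
  · exfalso
    apply h
    refine ⟨(fun x => ({x} : Set carpet)) '' P, hP.image _, ?_, ?_⟩
    · rintro _ ⟨x, hx, rfl⟩
      refine ⟨singleton_subset_iff.2 hx, isPreconnected_singleton, ?_⟩
      rcases le_total c (w x) with h | h
      · left
        intro y hy
        rw [mem_singleton_iff.1 hy]; exact h
      · right
        intro y hy
        rw [mem_singleton_iff.1 hy]; exact h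
    · intro x hx _
      exact ⟨{x}, ⟨x, hx, rfl⟩, mem_singleton x⟩

/-- the functions which are harmonic off a finite subset of `V0` -/
def finHarm (D : DForm carpet μ) : Submodule ℝ C(carpet, ℝ) where
  carrier := {w | ∃ P : Set carpet, P.Finite ∧ P ⊆ V0 ∧ D.HarmonicOff P w}
  add_mem' := by
    rintro a b ⟨P, hP, hP0, ha⟩ ⟨P', hP', hP0', hb⟩
    have ha' := HarmonicOff_mono (subset_union_left (s := P) (t := P')) ha
    have hb' := HarmonicOff_mono (subset_union_right (s := P) (t := P')) hb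
    refine ⟨P ∪ P', hP.union hP', union_subset hP0 hP0', D.dom.add_mem ha.1 hb.1,
      fun f hf hf0 => ?_⟩
    rw [D.add_left _ ha.1 _ hb.1 _ hf, ha'.2 f hf hf0, hb'.2 f hf hf0, add_zero]
  zero_mem' := ⟨∅, finite_empty, empty_subset _, D.dom.zero_mem, fun f hf _ => D.zero_left hf⟩
  smul_mem' := by
    rintro r a ⟨P, hP, hP0, ha⟩
    refine ⟨P, hP, hP0, D.dom.smul_mem r ha.1, fun f hf hf0 => ?_⟩
    rw [D.smul_left r _ ha.1 _ hf, ha.2 f hf hf0, mul_zero]

/-- there is a nonconstant one -/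
theorem exists_nonconst (D : DForm carpet μ) : ∃ w ∈ finHarm D, ∃ x y, w x ≠ w y := by
  have h0c : ((0 : ℝ), (0 : ℝ)) ∈ carpet :=
    mem_carpet_of_boundary ⟨le_refl _, zero_le_one⟩ ⟨le_refl _, zero_le_one⟩ (Or.inl rfl)
  have h1c : ((1 : ℝ), (0 : ℝ)) ∈ carpet :=
    mem_carpet_of_boundary ⟨zero_le_one, le_refl _⟩ ⟨le_refl _, zero_le_one⟩
      (Or.inr (Or.inl rfl))
  set p : carpet := ⟨_, h0c⟩ with hp
  set q : carpet := ⟨_, h1c⟩ with hq
  have hpq : p ≠ q := by
    intro h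
    have h1 : p.1.1 = q.1.1 := by rw [h]
    have h2 : (0 : ℝ) = 1 := h1
    norm_num at h2
  obtain ⟨φ, hφ, -, -, hφ1, hφs⟩ := D.cutoff (K := {q}) (U := {p}ᶜ) isClosed_singleton
    isClosed_singleton.isOpen_compl (by
      rw [singleton_subset_iff]
      exact fun h => hpq (mem_singleton_iff.1 h).symm)
  obtain ⟨u, hu, huA, hue⟩ := D.dirichlet (A := {p, q}) ⟨p, Or.inl rfl⟩ (ι := Empty)
    (fun i => i.elim) (fun i => i.elim) (fun i => i.elim) hφ
  refine ⟨u, ⟨{p, q}, (finite_singleton q).insert p, ?_, hu, fun f hf hf0 => ?_⟩, p, q, ?_⟩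
  · rintro x (rfl | hx)
    · exact Or.inl rfl
    · rw [mem_singleton_iff.1 hx]
      exact Or.inr (Or.inl rfl)
  · have := hue f hf hf0
    simpa using this
  · rw [huA p (Or.inl rfl), huA q (Or.inr rfl), hφ1 q rfl,
      image_eq_zero_of_notMem_tsupport fun h => hφs h rfl]
    norm_num

/-- density with nonconstant functions -/
theorem dense_finHarm (D : DForm carpet μ) {h : C(carpet, ℝ)} (hh : D.HarmonicOff V0 h) {ε : ℝ}
    (hε : 0 < ε) : ∃ w ∈ finHarm D, (∃ x y, w x ≠ w y) ∧ D.E (h - w) (h - w) < ε ∧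
      ∀ x, |h x - w x| < ε := by
  have hVn : V0.Nonempty := by
    have h0c : ((0 : ℝ), (0 : ℝ)) ∈ carpet :=
      mem_carpet_of_boundary ⟨le_refl _, zero_le_one⟩ ⟨le_refl _, zero_le_one⟩ (Or.inl rfl)
    exact ⟨⟨_, h0c⟩, Or.inl rfl⟩
  obtain ⟨P, hPf, hPn, hPV, w, hw, -, hwE, hws⟩ := D.approx isClosed_V0 hVn hh
    (ε := ε / 4) (by linarith)
  by_cases hc : ∃ x y, w x ≠ w y
  · exact ⟨w, ⟨P, hPf, hPV, hw⟩, hc, by linarith, fun x => (hws x).trans (by linarith)⟩
  · push Not at hc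
    obtain ⟨w₀, hw₀, x₀, y₀, hxy⟩ := exists_nonconst D
    have hw₀d : w₀ ∈ D.dom := by
      obtain ⟨P', -, -, h'⟩ := hw₀
      exact h'.1
    set M : ℝ := ‖w₀‖ + D.E w₀ w₀ + 1 with hM
    have hE0 := D.nonneg _ hw₀d
    have hM1 : 1 ≤ M := by rw [hM]; linarith [norm_nonneg w₀]
    have hM0 : 0 < M := by linarith
    set δ : ℝ := min 1 (ε / (8 * M)) with hδ
    have hδ0 : 0 < δ := lt_min one_pos (by positivity)
    have hδ1 : δ ≤ 1 := min_le_left _ _
    have hδM : δ * M ≤ ε / 8 := by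
      calc δ * M ≤ ε / (8 * M) * M := mul_le_mul_of_nonneg_right (min_le_right _ _) hM0.le
        _ = ε / 8 := by field_simp
    refine ⟨w + δ • w₀, (finHarm D).add_mem ⟨P, hPf, hPV, hw⟩ ((finHarm D).smul_mem δ hw₀),
      ⟨x₀, y₀, ?_⟩, ?_, fun x => ?_⟩
    · simp only [ContinuousMap.add_apply, ContinuousMap.smul_apply, smul_eq_mul, hc x₀ y₀]
      intro h1
      have h2 : δ * w₀ x₀ = δ * w₀ y₀ := by linarith
      exact hxy (mul_left_cancel₀ hδ0.ne' h2)
    · have e1 : h - (w + δ • w₀) = (h - w) + (-(δ • w₀)) := by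
        ext x; simp; ring
      have m1 := D.dom.sub_mem hh.1 hw.1
      have m2 := D.dom.smul_mem δ hw₀d
      rw [e1]
      have h1 := D.energy_add_le m1 (D.dom.neg_mem m2)
      rw [D.energy_neg m2, D.energy_smul δ hw₀d] at h1
      have h2 : δ ^ 2 * D.E w₀ w₀ ≤ δ * M := by
        have h3 : D.E w₀ w₀ ≤ M := by rw [hM]; linarith [norm_nonneg w₀]
        have h4 : δ ^ 2 ≤ δ := by nlinarith
        calc δ ^ 2 * D.E w₀ w₀ ≤ δ * D.E w₀ w₀ := mul_le_mul_of_nonneg_right h4 hE0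
          _ ≤ δ * M := mul_le_mul_of_nonneg_left h3 hδ0.le
      linarith
    · have h1 := hws x
      have h2 : |w₀ x| ≤ ‖w₀‖ := by simpa [Real.norm_eq_abs] using w₀.norm_coe_le_norm x
      have h3 : h x - (w + δ • w₀) x = (h x - w x) + (-(δ * w₀ x)) := by
        simp only [ContinuousMap.add_apply, ContinuousMap.smul_apply, smul_eq_mul]; ring
      rw [h3]
      have h4 : |δ * w₀ x| ≤ δ * M := by
        rw [abs_mul, abs_of_pos hδ0]
        apply mul_le_mul_of_nonneg_left _ hδ0.le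
        rw [hM]; linarith
      calc |(h x - w x) + (-(δ * w₀ x))| ≤ |h x - w x| + |-(δ * w₀ x)| := abs_add_le _ _
        _ < ε := by rw [abs_neg]; linarith

/-- a function with full support is nonconstant on every nonempty open set -/
theorem nonconst_of_fullSupport (D : DForm carpet μ) {h : C(carpet, ℝ)} (hh : h ∈ D.dom)
    (hf : D.FullSupport h) {U : Set carpet} (hU : IsOpen U) (hUn : U.Nonempty) :
    ∃ x ∈ U, ∃ y ∈ U, h x ≠ h y := by
  by_contra hno
  push Not at hno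
  obtain ⟨x₀, hx₀⟩ := hUn
  obtain ⟨f, hfd, hf0, hfs, hfE⟩ := hf.1 U hU ⟨x₀, hx₀⟩
  have hconst : ∀ x ∈ U, h x = h x₀ := fun x hx => hno x hx x₀ hx₀
  have h1 : D.E (h * f) h = 0 := by
    refine D.strongLocal _ (D.mul_mem hh hfd) h hh ⟨h x₀, U, hU, ?_, hconst⟩
    exact (tsupport_mul_subset_right).trans hfs
  have h2 : D.E (h * h) f = 0 := by
    rw [D.symm _ (D.mul_mem hh hh) _ hfd]
    refine D.strongLocal _ hfd _ (D.mul_mem hh hh) ⟨h x₀ * h x₀, U, hU, hfs, fun x hx => ?_⟩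
    rw [ContinuousMap.mul_apply, hconst x hx]
  unfold DForm.energy at hfE
  rw [h1, h2] at hfE
  norm_num at hfE

/-- dense Gδ -/
theorem generic (D : DForm carpet μ) :
    ∃ W : Submodule ℝ C(carpet, ℝ),
      (∀ w ∈ W, D.HarmonicOff V0 w ∧ ((∃ x y, w x ≠ w y) → D.FullSupport w)) ∧
      (∀ h, D.HarmonicOff V0 h → ∀ ε > 0, ∃ w ∈ W, (∃ x y, w x ≠ w y) ∧
        D.E (h - w) (h - w) < ε ∧ ∀ x, |h x - w x| < ε) ∧
      ∃ O : ℕ → Set C(carpet, ℝ), (∀ n, IsOpen (O n)) ∧
        ∀ h, D.HarmonicOff V0 h → (D.FullSupport h ↔ ∀ n, h ∈ O n) := by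
  refine ⟨finHarm D, ?_, fun h hh ε hε => dense_finHarm D hh hε, ?_⟩
  · rintro w ⟨P, hP, hP0, hw⟩
    exact ⟨HarmonicOff_mono hP0 hw, fun hne => fullSupport_finite D hP hP0 hw hne⟩
  · obtain ⟨B, hBc, hBe, hB⟩ := TopologicalSpace.exists_countable_basis carpet
    have hBne : B.Nonempty := by
      by_contra hBn
      rw [not_nonempty_iff_eq_empty] at hBn
      have h0c : ((0 : ℝ), (0 : ℝ)) ∈ carpet :=
        mem_carpet_of_boundary ⟨le_refl _, zero_le_one⟩ ⟨le_refl _, zero_le_one⟩ (Or.inl rfl)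
      obtain ⟨U, hU, -, -⟩ := hB.exists_subset_of_mem_open (mem_univ (⟨_, h0c⟩ : carpet))
        isOpen_univ
      rw [hBn] at hU
      exact hU
    obtain ⟨b, hb⟩ := hBc.exists_eq_range hBne
    refine ⟨fun n => {h | ∃ x ∈ b n, ∃ y ∈ b n, h x ≠ h y}, fun n => ?_, fun h hh => ⟨?_, ?_⟩⟩
    · have e : {h : C(carpet, ℝ) | ∃ x ∈ b n, ∃ y ∈ b n, h x ≠ h y} =
          ⋃ x ∈ b n, ⋃ y ∈ b n, {h : C(carpet, ℝ) | h x ≠ h y} := by
        ext h
        simp only [mem_ofPred_eq, mem_iUnion, exists_prop]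
      show IsOpen {h : C(carpet, ℝ) | ∃ x ∈ b n, ∃ y ∈ b n, h x ≠ h y}
      rw [e]
      refine isOpen_biUnion fun x _ => isOpen_biUnion fun y _ => ?_
      exact isOpen_ne_fun (continuous_eval_const x)
        (continuous_eval_const y)
    · intro hf n
      have hbn : b n ∈ B := hb ▸ mem_range_self n
      refine nonconst_of_fullSupport D hh.1 hf (hB.isOpen hbn) ?_
      rw [nonempty_iff_ne_empty]
      intro h0
      rw [h0] at hbn
      exact hBe hbn
    · intro hn
      refine D.fullSupport_of isClosed_V0 interior_V0 hh fun c => ?_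
      by_contra hne
      rw [← ne_eq, ← nonempty_iff_ne_empty] at hne
      obtain ⟨x, hx⟩ := hne
      obtain ⟨U, hU, -, hUs⟩ := hB.exists_subset_of_mem_open hx isOpen_interior
      obtain ⟨n, rfl⟩ : ∃ n, b n = U := by
        rw [hb] at hU
        exact hU
      obtain ⟨y, hy, z, hz, hyz⟩ := hn n
      exact hyz (by rw [interior_subset (hUs hy), interior_subset (hUs hz)])

end CAR
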