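import Pool.Agent.MP_eabe7c_an.Sym

open Set Topology Filter

namespace CAR

/-- arcs inside the triadic square `(n,i,j)`; `HasArcs` is the case of the unit square -/
def HasArcsIn (n i j : ℕ) (Z : Set (ℝ × ℝ)) (N : ℕ) : Prop :=
  ∃ (Q : Set (ℝ × ℝ)) (T : Fin N → Set (ℝ × ℝ)) (s : Fin N → ℝ × ℝ),
    IsClosed Q ∧ frontier Q ⊆ carpet ∧ Q ∩ carpet ⊆ Z ∧
    Q ⊆ interior (sq n i j) ∧
    (∀ k, T k ⊆ Z) ∧
    (∀ k, T k ⊆ interior (sq n i j)) ∧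
    (∀ k, IsPreconnected (T k)) ∧
    (∀ k l, k ≠ l → Disjoint (T k) (T l)) ∧
    (∀ k, Disjoint (T k) Q) ∧ (∀ k, IsClosed (Q ∪ T k)) ∧
    (∀ k, s k ∈ T k) ∧ (∀ k, s k ∈ closure (carpet \ Z)) ∧
    ∀ i j k l : Fin N, i < j → j < k → k < l → ∀ P P' : Set (ℝ × ℝ),
      IsPathConnected P → IsPathConnected P' → Disjoint P P' → Disjoint P Q → Disjoint P' Q →
      T i ⊆ P → T k ⊆ P → T j ⊆ P' → T l ⊆ P' → False

/-- the similarity `p ↦ ((p.1 + i)/3^n, (p.2 + j)/3^n)` -/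
noncomputable def laSim (n i j : ℕ) : (ℝ × ℝ) ≃ₜ (ℝ × ℝ) where
  toFun p := ((p.1 + i) / 3 ^ n, (p.2 + j) / 3 ^ n)
  invFun p := (p.1 * 3 ^ n - i, p.2 * 3 ^ n - j)
  left_inv p := by
    have h3 : (3 : ℝ) ^ n ≠ 0 := by positivity
    ext <;> simp [div_mul_cancel₀ _ h3]
  right_inv p := by
    have h3 : (3 : ℝ) ^ n ≠ 0 := by positivity
    ext <;> simp [mul_div_cancel_right₀ _ h3]
  continuous_toFun := by fun_prop
  continuous_invFun := by fun_prop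

theorem laSim_apply (n i j : ℕ) (p : ℝ × ℝ) :
    laSim n i j p = ((p.1 + i) / 3 ^ n, (p.2 + j) / 3 ^ n) := rfl

theorem la_mem_Icc (n i : ℕ) (x : ℝ) :
    (x + i) / 3 ^ n ∈ Icc ((i : ℝ) / 3 ^ n) ((i + 1 : ℝ) / 3 ^ n) ↔ x ∈ Icc (0 : ℝ) 1 := by
  have h3 : (0 : ℝ) < 3 ^ n := by positivity
  rw [mem_Icc, mem_Icc, div_le_div_iff_of_pos_right h3, div_le_div_iff_of_pos_right h3]
  constructor
  · rintro ⟨h1, h2⟩
    exact ⟨by linarith, by linarith⟩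
  · rintro ⟨h1, h2⟩
    exact ⟨by linarith, by linarith⟩

theorem la_mem_Ioo (n i : ℕ) (x : ℝ) :
    (x + i) / 3 ^ n ∈ Ioo ((i : ℝ) / 3 ^ n) ((i + 1 : ℝ) / 3 ^ n) ↔ x ∈ Ioo (0 : ℝ) 1 := by
  have h3 : (0 : ℝ) < 3 ^ n := by positivity
  rw [mem_Ioo, mem_Ioo, div_lt_div_iff_of_pos_right h3, div_lt_div_iff_of_pos_right h3]
  constructor
  · rintro ⟨h1, h2⟩
    exact ⟨by linarith, by linarith⟩
  · rintro ⟨h1, h2⟩
    exact ⟨by linarith, by linarith⟩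

theorem la_mem_sq (n i j : ℕ) (p : ℝ × ℝ) :
    laSim n i j p ∈ sq n i j ↔ p.1 ∈ Icc (0 : ℝ) 1 ∧ p.2 ∈ Icc (0 : ℝ) 1 := by
  rw [laSim_apply]
  unfold sq
  rw [mem_prod]
  exact and_congr (la_mem_Icc n i p.1) (la_mem_Icc n j p.2)

theorem la_interior_sq (n i j : ℕ) : interior (sq n i j) =
    Ioo ((i : ℝ) / 3 ^ n) ((i + 1 : ℝ) / 3 ^ n) ×ˢ Ioo ((j : ℝ) / 3 ^ n) ((j + 1 : ℝ) / 3 ^ n) := by
  unfold sq
  rw [interior_prod_eq, interior_Icc, interior_Icc]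

theorem la_mem_interior (n i j : ℕ) (p : ℝ × ℝ) :
    laSim n i j p ∈ interior (sq n i j) ↔ p.1 ∈ Ioo (0 : ℝ) 1 ∧ p.2 ∈ Ioo (0 : ℝ) 1 := by
  rw [la_interior_sq, laSim_apply, mem_prod]
  exact and_congr (la_mem_Ioo n i p.1) (la_mem_Ioo n j p.2)

theorem la_carpet {n i j : ℕ} (hc : IsCell n i j) {p : ℝ × ℝ}
    (hp : p.1 ∈ Icc (0 : ℝ) 1 ∧ p.2 ∈ Icc (0 : ℝ) 1) :
    laSim n i j p ∈ carpet ↔ p ∈ carpet := (hc.2.2 p hp.1 hp.2).symm

/-- composition of cells -/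
theorem la_comp {n i j m i' j' : ℕ} (hc : IsCell n i j) (hc' : IsCell m i' j') :
    IsCell (n + m) (3 ^ m * i + i') (3 ^ m * j + j') := by
  have key : ∀ a b : ℕ, a < 3 ^ n → b < 3 ^ m → 3 ^ m * a + b < 3 ^ (n + m) := by
    intro a b ha hb
    calc 3 ^ m * a + b < 3 ^ m * a + 3 ^ m := by omega
      _ = 3 ^ m * (a + 1) := by ring
      _ ≤ 3 ^ m * 3 ^ n := Nat.mul_le_mul_left _ ha
      _ = 3 ^ (n + m) := by ring
  refine ⟨key _ _ hc.1 hc'.1, key _ _ hc.2.1 hc'.2.1, ?_⟩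
  intro p hp1 hp2
  rw [hc'.2.2 p hp1 hp2]
  have hm : (0 : ℝ) < 3 ^ m := by positivity
  have key2 : ∀ (x : ℝ) (b : ℕ), x ∈ Icc (0 : ℝ) 1 → b < 3 ^ m →
      (x + b) / 3 ^ m ∈ Icc (0 : ℝ) 1 := by
    intro x b hx hb
    have hb' : (b : ℝ) + 1 ≤ 3 ^ m := by exact_mod_cast hb
    have hb0 : (0 : ℝ) ≤ b := Nat.cast_nonneg b
    refine ⟨div_nonneg (by linarith [hx.1]) hm.le, ?_⟩
    rw [div_le_one hm]
    linarith [hx.2]
  rw [hc.2.2 _ (key2 _ _ hp1 hc'.1) (key2 _ _ hp2 hc'.2.1)]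
  have e : ∀ (x : ℝ) (a b : ℕ), ((x + b) / 3 ^ m + a) / 3 ^ n =
      (x + ((3 ^ m * a + b : ℕ) : ℝ)) / 3 ^ (n + m) := by
    intro x a b
    push_cast
    rw [pow_add]
    field_simp
    ring
  simp only [e]

theorem la_sq_comp (n i j m i' j' : ℕ) :
    (laSim n i j) ⁻¹' (sq (n + m) (3 ^ m * i + i') (3 ^ m * j + j')) = sq m i' j' := by
  ext p
  rw [mem_preimage, laSim_apply]
  unfold sq
  rw [mem_prod, mem_prod]
  have hn : (0 : ℝ) < 3 ^ n := by positivity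
  have hm : (0 : ℝ) < 3 ^ m := by positivity
  have key : ∀ (x : ℝ) (a b : ℕ), (x + a) / 3 ^ n ∈
      Icc (((3 ^ m * a + b : ℕ) : ℝ) / 3 ^ (n + m)) ((((3 ^ m * a + b : ℕ) : ℝ) + 1) / 3 ^ (n + m)) ↔
      x ∈ Icc ((b : ℝ) / 3 ^ m) ((b + 1 : ℝ) / 3 ^ m) := by
    intro x a b
    have e1 : (((3 ^ m * a + b : ℕ) : ℝ) / 3 ^ (n + m)) = ((b : ℝ) / 3 ^ m + a) / 3 ^ n := by
      push_cast
      rw [pow_add]
      field_simp
      ring
    have e2 : ((((3 ^ m * a + b : ℕ) : ℝ) + 1) / 3 ^ (n + m)) =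
        ((b + 1 : ℝ) / 3 ^ m + a) / 3 ^ n := by
      push_cast
      rw [pow_add]
      field_simp
      ring
    rw [e1, e2, mem_Icc, mem_Icc, div_le_div_iff_of_pos_right hn, div_le_div_iff_of_pos_right hn]
    constructor
    · rintro ⟨h1, h2⟩
      exact ⟨by linarith, by linarith⟩
    · rintro ⟨h1, h2⟩
      exact ⟨by linarith, by linarith⟩
  exact and_congr (key p.1 i i') (key p.2 j j')

/-- [CAR-LA] transport of arcs by the similarity `p ↦ ((p.1 + i)/3^n, (p.2 + j)/3^n)` -/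
theorem hasArcsIn_of {n i j : ℕ} (hc : IsCell n i j) {Z : Set (ℝ × ℝ)} {N : ℕ}
    (h : HasArcs {p : ℝ × ℝ | p ∈ carpet ∧ ((p.1 + i) / 3 ^ n, (p.2 + j) / 3 ^ n) ∈ Z} N) :
    HasArcsIn n i j Z N := by
  obtain ⟨e, he⟩ : ∃ e : (ℝ × ℝ) ≃ₜ (ℝ × ℝ), e = laSim n i j := ⟨_, rfl⟩
  have hW : {p : ℝ × ℝ | p ∈ carpet ∧ ((p.1 + i) / 3 ^ n, (p.2 + j) / 3 ^ n) ∈ Z} =
      {p : ℝ × ℝ | p ∈ carpet ∧ e p ∈ Z} := by rw [he]; rfl
  rw [hW] at h
  have hcar : ∀ p : ℝ × ℝ, p.1 ∈ Icc (0 : ℝ) 1 ∧ p.2 ∈ Icc (0 : ℝ) 1 →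
      (e p ∈ carpet ↔ p ∈ carpet) := fun p hp => by rw [he]; exact la_carpet hc hp
  have hint : ∀ p : ℝ × ℝ, p.1 ∈ Ioo (0 : ℝ) 1 ∧ p.2 ∈ Ioo (0 : ℝ) 1 →
      e p ∈ interior (sq n i j) := fun p hp => by rw [he]; exact (la_mem_interior n i j p).2 hp
  have hIcc : ∀ p : ℝ × ℝ, p ∈ carpet → p.1 ∈ Icc (0 : ℝ) 1 ∧ p.2 ∈ Icc (0 : ℝ) 1 :=
    fun p hp => hp.1
  have hIoo : ∀ p : ℝ × ℝ, p.1 ∈ Ioo (0 : ℝ) 1 ∧ p.2 ∈ Ioo (0 : ℝ) 1 →
      p.1 ∈ Icc (0 : ℝ) 1 ∧ p.2 ∈ Icc (0 : ℝ) 1 :=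
    fun p hp => ⟨Ioo_subset_Icc_self hp.1, Ioo_subset_Icc_self hp.2⟩
  clear hW he
  obtain ⟨Q, T, s, h1, h2, h3, h4, h5, h6, h7, h8, h9, h10, h11, h12, h13⟩ := h
  refine ⟨e.symm ⁻¹' Q, fun k => e.symm ⁻¹' (T k), fun k => e (s k),
    h1.preimage e.symm.continuous, ?_, ?_, ?_, ?_, ?_, ?_, ?_, ?_, ?_, ?_, ?_, ?_⟩
  · intro p hp
    rw [← e.symm.preimage_frontier] at hp
    have hq := h2 hp
    have := (hcar _ (hIcc _ hq)).2 hq
    rwa [e.apply_symm_apply] at this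
  · rintro p ⟨hp, hpc⟩
    have hq : e.symm p ∈ carpet := by
      rw [← hcar _ (hIoo _ (h4 _ hp)), e.apply_symm_apply]
      exact hpc
    have := (h3 ⟨hp, hq⟩).2
    rwa [e.apply_symm_apply] at this
  · intro p hp
    have := hint _ (h4 _ hp)
    rwa [e.apply_symm_apply] at this
  · intro k p hp
    have := (h5 k hp).2
    rwa [e.apply_symm_apply] at this
  · intro k p hp
    have := hint _ (h6 k _ hp)
    rwa [e.apply_symm_apply] at this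
  · intro k
    change IsPreconnected (e.symm ⁻¹' (T k))
    rw [← e.image_eq_preimage_symm]
    exact (h7 k).image e e.continuous.continuousOn
  · intro k l hkl
    exact (h8 k l hkl).preimage _
  · intro k
    exact (h9 k).preimage _
  · intro k
    rw [← preimage_union]
    exact (h10 k).preimage e.symm.continuous
  · intro k
    rw [mem_preimage, e.symm_apply_apply]
    exact h11 k
  · intro k
    have h := h12 k
    have himg : e '' (carpet \ {p : ℝ × ℝ | p ∈ carpet ∧ e p ∈ Z}) ⊆ carpet \ Z := by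
      rintro _ ⟨p, ⟨hp, hpZ⟩, rfl⟩
      exact ⟨(hcar p (hIcc p hp)).2 hp, fun hZ => hpZ ⟨hp, hZ⟩⟩
    have : e (s k) ∈ e '' closure (carpet \ {p : ℝ × ℝ | p ∈ carpet ∧ e p ∈ Z}) :=
      mem_image_of_mem e h
    rw [e.image_closure] at this
    exact closure_mono himg this
  · intro i j k l hij hjk hkl P P' hP hP' hPP hPQ hPQ' hi hk hj hl
    have key : ∀ A B : Set (ℝ × ℝ), Disjoint A (e.symm ⁻¹' B) → Disjoint (e ⁻¹' A) B := by
      intro A B hAB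
      rw [Set.disjoint_left] at hAB ⊢
      intro x hx hxB
      exact hAB hx (by rw [mem_preimage, e.symm_apply_apply]; exact hxB)
    have key2 : ∀ A B : Set (ℝ × ℝ), e.symm ⁻¹' A ⊆ B → A ⊆ e ⁻¹' B := by
      intro A B hAB x hx
      exact hAB (by rw [mem_preimage, e.symm_apply_apply]; exact hx)
    have key3 : ∀ A : Set (ℝ × ℝ), IsPathConnected A → IsPathConnected (e ⁻¹' A) := by
      intro A hA
      have : e ⁻¹' A = e.symm '' A := by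
        rw [e.symm.image_eq_preimage_symm]
        rfl
      rw [this]
      exact hA.image e.symm.continuous
    exact h13 i j k l hij hjk hkl (e ⁻¹' P) (e ⁻¹' P') (key3 P hP) (key3 P' hP')
      (hPP.preimage _) (key _ _ hPQ) (key _ _ hPQ') (key2 _ _ hi) (key2 _ _ hk) (key2 _ _ hj)
      (key2 _ _ hl)

/-- [CAR-LA] arcs in a cell -/
theorem hasArcsIn {n i j : ℕ} (hc : IsCell n i j) {Z : Set (ℝ × ℝ)} (hZ : IsClosed Z)
    (hZK : Z ⊆ carpet)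
    (hint : ∃ O : Set (ℝ × ℝ), IsOpen O ∧ O ⊆ interior (sq n i j) ∧ (O ∩ carpet).Nonempty ∧
      O ∩ carpet ⊆ Z)
    (hne : ∃ p ∈ carpet, p ∈ sq n i j ∧ p ∉ Z)
    (hMP : ∀ m i' j', IsCell m i' j' → frontier (sq m i' j') ⊆ Z → sq m i' j' ∩ carpet ⊆ Z)
    (N : ℕ) : HasArcsIn n i j Z N := by
  apply hasArcsIn_of hc
  change HasArcs {p : ℝ × ℝ | p ∈ carpet ∧ laSim n i j p ∈ Z} N
  have hIcc : ∀ p : ℝ × ℝ, p ∈ carpet → p.1 ∈ Icc (0 : ℝ) 1 ∧ p.2 ∈ Icc (0 : ℝ) 1 :=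
    fun p hp => hp.1
  have hback : ∀ q : ℝ × ℝ, q ∈ carpet → q ∈ sq n i j →
      (laSim n i j).symm q ∈ carpet := by
    intro q hq hqs
    rw [← (laSim n i j).apply_symm_apply q, la_mem_sq] at hqs
    rw [← la_carpet hc hqs, (laSim n i j).apply_symm_apply]
    exact hq
  refine hasArcs ?_ (fun p hp => hp.1) ?_ ?_ ?_ N
  · exact isClosed_carpet.inter (hZ.preimage (laSim n i j).continuous)
  · obtain ⟨O, hO, hOs, ⟨q, hqO, hqc⟩, hOZ⟩ := hint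
    refine ⟨laSim n i j ⁻¹' O, hO.preimage (laSim n i j).continuous,
      ⟨(laSim n i j).symm q, ?_, hback q hqc (interior_subset (hOs hqO))⟩, ?_⟩
    · rw [mem_preimage, (laSim n i j).apply_symm_apply]
      exact hqO
    · rintro p ⟨hp, hpc⟩
      exact ⟨hpc, hOZ ⟨hp, (la_carpet hc (hIcc p hpc)).2 hpc⟩⟩
  · obtain ⟨q, hqc, hqs, hqZ⟩ := hne
    refine ⟨(laSim n i j).symm q, hback q hqc hqs, fun h => hqZ ?_⟩
    have := h.2
    rwa [(laSim n i j).apply_symm_apply] at this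
  · intro m i' j' hc' hf
    have h1 := hMP (n + m) (3 ^ m * i + i') (3 ^ m * j + j') (la_comp hc hc') (by
      intro q hq
      have h2 : (laSim n i j).symm q ∈ frontier (sq m i' j') := by
        rw [← la_sq_comp n i j m i' j', ← (laSim n i j).preimage_frontier, mem_preimage,
          (laSim n i j).apply_symm_apply]
        exact hq
      have := (hf h2).2
      rwa [(laSim n i j).apply_symm_apply] at this)
    rintro p ⟨hp, hpc⟩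
    refine ⟨hpc, h1 ⟨?_, (la_carpet hc (hIcc p hpc)).2 hpc⟩⟩
    rw [← la_sq_comp n i j m i' j'] at hp
    exact hp

end CAR
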