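import Pool.Agent.MP_eabe7c_an.Circ
import Pool.Agent.MP_eabe7c_an.Conn

open Set Topology Filter

namespace CAR

/-- [CAR-LC] `circ_join` on the boundary of a triadic square (from `circ_join` by the similarity
`p ↦ ((p.1 + i)/3^n, (p.2 + j)/3^n)`, which maps `bd` onto `frontier (sq n i j)`,
see `frontier_sq` in Conn.lean) -/
theorem circ_join_sq {n i j : ℕ} {A B : Set (ℝ × ℝ)} (hA : A ⊆ frontier (sq n i j))
    (hB : B ⊆ frontier (sq n i j)) (hAc : IsPreconnected A)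
    (hBc : IsPreconnected B) {a1 a2 b1 b2 : ℝ × ℝ} (ha1 : a1 ∈ A) (ha2 : a2 ∈ A)
    (ha1' : a1 ∉ B) (ha2' : a2 ∉ B) (hb1 : b1 ∈ B) (hb2 : b2 ∈ B) (hb1' : b1 ∉ A)
    (hb2' : b2 ∉ A) :
    ∃ A' B' : Set (ℝ × ℝ), A' ⊆ A ∧ B' ⊆ B ∧ IsPathConnected A' ∧ IsPathConnected B' ∧
      a1 ∈ A' ∧ a2 ∈ A' ∧ b1 ∈ B' ∧ b2 ∈ B' ∧ Disjoint A' B' := by
  have h3 : (0 : ℝ) < 3 ^ n := by positivity
  set f : ℝ × ℝ → ℝ × ℝ := fun p => ((p.1 + i) / 3 ^ n, (p.2 + j) / 3 ^ n) with hf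
  set g : ℝ × ℝ → ℝ × ℝ := fun p => (p.1 * 3 ^ n - i, p.2 * 3 ^ n - j) with hg
  have hfc : Continuous f := by fun_prop
  have hgc : Continuous g := by fun_prop
  have hfg : ∀ p, f (g p) = p := by
    intro p
    apply Prod.ext
    · show (p.1 * 3 ^ n - i + i) / 3 ^ n = p.1
      field_simp; ring
    · show (p.2 * 3 ^ n - j + j) / 3 ^ n = p.2
      field_simp; ring
  have hgf : ∀ p, g (f p) = p := by
    intro p
    apply Prod.ext
    · show (p.1 + i) / 3 ^ n * 3 ^ n - i = p.1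
      field_simp; ring
    · show (p.2 + j) / 3 ^ n * 3 ^ n - j = p.2
      field_simp; ring
  have hbd : ∀ p ∈ frontier (sq n i j), g p ∈ bd := by
    intro p hp
    rw [frontier_sq] at hp
    obtain ⟨⟨⟨h1, h2⟩, ⟨h3', h4⟩⟩, h⟩ := hp
    rw [div_le_iff₀ h3] at h1 h3'
    rw [le_div_iff₀ h3] at h2 h4
    refine ⟨⟨⟨?_, ?_⟩, ⟨?_, ?_⟩⟩, ?_⟩
    · show 0 ≤ p.1 * 3 ^ n - i
      linarith
    · show p.1 * 3 ^ n - i ≤ 1
      linarith
    · show 0 ≤ p.2 * 3 ^ n - j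
      linarith
    · show p.2 * 3 ^ n - j ≤ 1
      linarith
    · show p.1 * 3 ^ n - i = 0 ∨ p.1 * 3 ^ n - i = 1 ∨ p.2 * 3 ^ n - j = 0 ∨ p.2 * 3 ^ n - j = 1
      rcases h with h | h | h | h
      · left; rw [h]; field_simp; ring
      · right; left; rw [h]; field_simp; ring
      · right; right; left; rw [h]; field_simp; ring
      · right; right; right; rw [h]; field_simp; ring
  have hgi : ∀ {S : Set (ℝ × ℝ)} {p : ℝ × ℝ}, p ∉ S → g p ∉ g '' S := by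
    rintro S p hp ⟨q, hq, hqp⟩
    apply hp
    rw [← hfg p, ← hqp, hfg q]
    exact hq
  obtain ⟨A', B', hA', hB', pA, pB, m1, m2, m3, m4, hdis⟩ := circ_join (A := g '' A) (B := g '' B)
    (by rintro _ ⟨p, hp, rfl⟩; exact hbd p (hA hp)) (by rintro _ ⟨p, hp, rfl⟩; exact hbd p (hB hp))
    (hAc.image g hgc.continuousOn) (hBc.image g hgc.continuousOn) (mem_image_of_mem g ha1)
    (mem_image_of_mem g ha2) (hgi ha1') (hgi ha2') (mem_image_of_mem g hb1)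
    (mem_image_of_mem g hb2) (hgi hb1') (hgi hb2')
  refine ⟨f '' A', f '' B', ?_, ?_, pA.image hfc, pB.image hfc, ⟨_, m1, hfg _⟩, ⟨_, m2, hfg _⟩,
    ⟨_, m3, hfg _⟩, ⟨_, m4, hfg _⟩, ?_⟩
  · rintro _ ⟨p, hp, rfl⟩
    obtain ⟨q, hq, rfl⟩ := hA' hp
    rw [hfg]; exact hq
  · rintro _ ⟨p, hp, rfl⟩
    obtain ⟨q, hq, rfl⟩ := hB' hp
    rw [hfg]; exact hq
  · rw [Set.disjoint_left]
    rintro _ ⟨p, hp, rfl⟩ ⟨q, hq, hqp⟩
    have h5 : q = p := by rw [← hgf q, hqp, hgf p]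
    subst h5
    exact Set.disjoint_left.1 hdis hp hq

end CAR
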