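import Pool.Agent.MP_eabe7c_an.Main
import Pool.Agent.MP_eabe7c_an.LocArcs
import Pool.Agent.MP_eabe7c_an.LocCirc

open MeasureTheory Set Topology Filter

namespace CAR

/-- **Main theorem**, local form: zero sets in a cell. -/
theorem interior_inter_eq_empty {μ : Measure carpet} [IsFiniteMeasure μ] [μ.IsOpenPosMeasure]
    (D : DForm carpet μ) {n₀ i₀ j₀ : ℕ} (hcell : IsCell n₀ i₀ j₀) {V : Set carpet}
    (hV : IsClosed V) (hVn : V.Nonempty)
    (hVint : ∀ x ∈ V, x.1 ∉ interior (sq n₀ i₀ j₀))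
    (hVfr : (∀ x ∈ V, x.1 ∈ frontier (sq n₀ i₀ j₀)) ∨
      ∀ x : carpet, x.1 ∈ frontier (sq n₀ i₀ j₀) → x ∈ V)
    {g : C(carpet, ℝ)} (hg : D.HarmonicOff V g)
    (hMP : ∀ n i j, IsCell n i j →
      frontier (sq n i j) ⊆ (Subtype.val : carpet → ℝ × ℝ) '' {x | g x = 0} →
      sq n i j ∩ carpet ⊆ (Subtype.val : carpet → ℝ × ℝ) '' {x | g x = 0})
    (hne : ∃ x : carpet, x.1 ∈ sq n₀ i₀ j₀ ∧ g x ≠ 0)
    (hc : FinSignChanges {x | x ∈ V ∧ x.1 ∈ frontier (sq n₀ i₀ j₀)} g 0) :
    interior {x | g x = 0} ∩ {x | x.1 ∈ interior (sq n₀ i₀ j₀)} = ∅ := by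
  classical
  by_contra hint
  rw [← ne_eq, ← nonempty_iff_ne_empty] at hint
  set Z : Set (ℝ × ℝ) := (Subtype.val : carpet → ℝ × ℝ) '' {x | g x = 0} with hZdef
  have hZ : IsClosed Z := isClosed_zeroSet g
  have hZK : Z ⊆ carpet := by
    rintro _ ⟨x, -, rfl⟩
    exact x.2
  obtain ⟨𝒜, h𝒜f, h𝒜, hcov⟩ := hc
  let _ : Fintype 𝒜 := h𝒜f.fintype
  obtain ⟨Q, T, s, hQc, hQfr, hQZ, hQS, hTZ, hTS, hTc, hTd, hTQ, hTcl, hsT, hsc, hcross⟩ :=
    hasArcsIn (n := n₀) (i := i₀) (j := j₀) hcell (Z := Z) hZ hZK (by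
      obtain ⟨x, hx, hxS⟩ := hint
      obtain ⟨W, hWo, hW⟩ := isOpen_induced_iff.1 (isOpen_interior (s := {x : carpet | g x = 0}))
      refine ⟨W ∩ interior (sq n₀ i₀ j₀), hWo.inter isOpen_interior, inter_subset_right,
        ⟨x.1, ⟨?_, hxS⟩, x.2⟩, ?_⟩
      · have : x ∈ Subtype.val ⁻¹' W := hW ▸ hx
        exact this
      · rintro p ⟨⟨hpW, -⟩, hpc⟩
        refine ⟨⟨p, hpc⟩, ?_, rfl⟩
        have : (⟨p, hpc⟩ : carpet) ∈ interior {x : carpet | g x = 0} := hW ▸ hpW
        exact interior_subset this) (by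
      obtain ⟨x, hxS, hx⟩ := hne
      refine ⟨x.1, x.2, hxS, ?_⟩
      rintro ⟨y, hy, hyx⟩
      rw [Subtype.val_injective hyx] at hy
      exact hx hy) hMP (2 * (Fintype.card 𝒜 ^ 2 + 1))
  -- the sets in the carpet
  set Q' : Set carpet := Subtype.val ⁻¹' Q with hQ'
  set T' : Fin (2 * (Fintype.card 𝒜 ^ 2 + 1)) → Set carpet := fun k => Subtype.val ⁻¹' (T k) with hT'
  have hsK : ∀ k, s k ∈ carpet := fun k => hZK (hTZ k (hsT k))
  set s' : Fin (2 * (Fintype.card 𝒜 ^ 2 + 1)) → carpet := fun k => ⟨s k, hsK k⟩ with hs'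
  set σ : Fin (2 * (Fintype.card 𝒜 ^ 2 + 1)) → ℝ := fun k => if Even k.1 then 1 else -1 with hσ
  have hσ1 : ∀ k, σ k = 1 ∨ σ k = -1 := by
    intro k
    by_cases h : Even k.1
    · left; simp [hσ, h]
    · right; simp [hσ, h]
  have hzero : ∀ x : carpet, x.1 ∈ Z → g x = 0 := by
    rintro x ⟨y, hy, hyx⟩
    rw [← Subtype.val_injective hyx]; exact hy
  have hTimg : ∀ k, (Subtype.val : carpet → ℝ × ℝ) '' T' k = T k := by
    intro k
    rw [hT']
    simp only [Subtype.image_preimage_coe]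
    exact inter_eq_right.2 ((hTZ k).trans hZK)
  have hT'pre : ∀ k, IsPreconnected (T' k) := by
    intro k
    rw [← Topology.IsInducing.subtypeVal.isPreconnected_image, hTimg k]
    exact hTc k
  obtain ⟨u, hu, huV, huQ, huT, huY⟩ := D.core (V := V) (Q := Q') hV hVn
    (hQc.preimage continuous_subtype_val) hg (T := T') (s := s')
    (fun x hx => hzero x (hQZ ⟨hx, x.2⟩)) (fun k x hx => hzero x (hTZ k hx)) hT'pre
    (fun k l hkl => by
      rw [Set.disjoint_left]
      intro x hx hx'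
      exact (Set.disjoint_left.1 (hTd k l hkl)) hx hx')
    (fun k => by
      rw [Set.disjoint_left]
      intro x hx hx'
      exact (Set.disjoint_left.1 (hTQ k)) hx hx')
    (fun k => by
      rw [Set.disjoint_left]
      intro x hx hxV
      exact hVint x hxV (hTS k hx))
    (fun k => (hTcl k).preimage continuous_subtype_val) (fun k => hsT k)
    (fun k hk => by
      have h1 := hsc k
      obtain ⟨W, hWo, hW⟩ := isOpen_induced_iff.1 (isOpen_interior (s := {x : carpet | g x = 0}))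
      have h2 : s k ∈ W := by
        have : s' k ∈ Subtype.val ⁻¹' W := hW ▸ hk
        exact this
      obtain ⟨p, hpW, hpc, hpZ⟩ := mem_closure_iff.1 h1 W hWo h2
      apply hpZ
      refine ⟨⟨p, hpc⟩, ?_, rfl⟩
      have : (⟨p, hpc⟩ : carpet) ∈ interior {x : carpet | g x = 0} := hW ▸ hpW
      exact interior_subset this) σ hσ1
  -- planar open sets
  set U : Fin (2 * (Fintype.card 𝒜 ^ 2 + 1)) → Set (ℝ × ℝ) :=
    fun k => Subtype.val '' {x : carpet | 0 < σ k * u x} with hU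
  have hUo : ∀ k, IsOpen {x : carpet | 0 < σ k * u x} := fun k =>
    isOpen_lt continuous_const (continuous_const.mul u.continuous)
  have hUK : ∀ k, U k ⊆ carpet := by
    rintro k _ ⟨x, -, rfl⟩
    exact x.2
  have hUcl : ∀ k, IsClosed (carpet \ U k) := fun k => isClosed_diff_image (hUo k)
  have hmemU : ∀ k (x : carpet), x.1 ∈ U k ↔ 0 < σ k * u x := by
    intro k x
    constructor
    · rintro ⟨y, hy, hyx⟩
      rw [← Subtype.val_injective hyx]; exact hy
    · intro h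
      exact ⟨x, h, rfl⟩
  set G : Fin (2 * (Fintype.card 𝒜 ^ 2 + 1)) → Set (ℝ × ℝ) := fun k => nb carpet (U k) with hG
  have hGo : ∀ k, IsOpen (G k) := fun k => isOpen_nb _ _
  set W : Fin (2 * (Fintype.card 𝒜 ^ 2 + 1)) → Set (ℝ × ℝ) :=
    fun k => connectedComponentIn (G k) (s k) with hW
  have hsU : ∀ k, s k ∈ U k := fun k => ⟨s' k, huT k (s' k) (hsT k), rfl⟩
  have hsG : ∀ k, s k ∈ G k := fun k => mem_nb_of_mem (hUcl k) (hsU k)
  have hWpc : ∀ k, IsPathConnected (W k) := fun k => isPathConnected_component (hGo k) (hsG k)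
  have hGQ : ∀ k, Disjoint (G k) Q := by
    intro k
    have hUQ : Disjoint (U k) Q := by
      rw [Set.disjoint_left]
      rintro _ ⟨x, hx, rfl⟩ hxQ
      have := huQ x hxQ
      have hx0 : 0 < σ k * u x := hx
      rw [this, mul_zero] at hx0
      exact lt_irrefl _ hx0
    refine disjoint_nb_of_frontier hQc ?_ hUQ
    intro p hp
    refine ⟨hQfr hp, fun hpU => (Set.disjoint_left.1 hUQ) hpU ?_⟩
    exact hQc.frontier_subset hp
  have hWG : ∀ k, W k ⊆ G k := fun k => connectedComponentIn_subset _ _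
  have hTW : ∀ k, T k ⊆ W k := by
    intro k
    refine (hTc k).subset_connectedComponentIn (hsT k) ?_
    intro p hp
    have hpK : p ∈ carpet := hZK (hTZ k hp)
    exact mem_nb_of_mem (hUcl k) ⟨⟨p, hpK⟩, huT k ⟨p, hpK⟩ hp, rfl⟩
  have hsqc : IsClosed (sq n₀ i₀ j₀) := isClosed_Icc.prod isClosed_Icc
  -- the end points
  have hend : ∀ k, ∃ x : carpet, x.1 ∈ W k ∧ x ∈ V ∧ x.1 ∈ frontier (sq n₀ i₀ j₀) ∧
      0 < σ k * g x := by
    intro k
    obtain ⟨x, hxY, hxV⟩ := huY k (Subtype.val ⁻¹' (W k))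
      ((hGo k).connectedComponentIn.preimage continuous_subtype_val) (by
        have : ({x : carpet | 0 < σ k * u x} \ (Subtype.val ⁻¹' (W k))) =
            Subtype.val ⁻¹' (G k \ W k) := by
          ext x
          constructor
          · rintro ⟨h1, h2⟩
            exact ⟨mem_nb_of_mem (hUcl k) ((hmemU k x).2 h1), h2⟩
          · rintro ⟨h1, h2⟩
            exact ⟨(hmemU k x).1 (mem_of_mem_nb h1 x.2), h2⟩
        rw [this]
        exact (isOpen_diff_component (hGo k) _).preimage continuous_subtype_val)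
      (fun x hx => (hmemU k x).1 (mem_of_mem_nb (hWG k hx) x.2))
      (mem_connectedComponentIn (hsG k))
    -- a point of `W k ∩ V` on the frontier
    obtain ⟨y, hyW, hyV, hyF⟩ : ∃ y : carpet, y.1 ∈ W k ∧ y ∈ V ∧
        y.1 ∈ frontier (sq n₀ i₀ j₀) := by
      by_cases hxF : x.1 ∈ frontier (sq n₀ i₀ j₀)
      · exact ⟨x, hxY, hxV, hxF⟩
      · have hall : ∀ x : carpet, x.1 ∈ frontier (sq n₀ i₀ j₀) → x ∈ V := by
          rcases hVfr with h | h
          · exact absurd (h x hxV) hxF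
          · exact h
        have hsI : s k ∈ interior (sq n₀ i₀ j₀) := hTS k (hsT k)
        have hxC : x.1 ∈ (sq n₀ i₀ j₀)ᶜ := by
          intro hx
          apply hxF
          rw [hsqc.frontier_eq]
          exact ⟨hx, hVint x hxV⟩
        have hWpre : IsPreconnected (W k) := (hWpc k).isConnected.isPreconnected
        by_contra hno
        push Not at hno
        have hcov : W k ⊆ interior (sq n₀ i₀ j₀) ∪ (sq n₀ i₀ j₀)ᶜ := by
          intro p hp
          by_contra hn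
          rw [mem_union, not_or] at hn
          have hpf : p ∈ frontier (sq n₀ i₀ j₀) := by
            rw [hsqc.frontier_eq]
            exact ⟨not_not.1 hn.2, hn.1⟩
          have hpc : p ∈ carpet := hcell.frontier_subset hpf
          exact hno ⟨p, hpc⟩ hp (hall ⟨p, hpc⟩ hpf) hpf
        obtain ⟨p, -, hp1, hp2⟩ := hWpre _ _ isOpen_interior hsqc.isOpen_compl hcov
          ⟨s k, mem_connectedComponentIn (hsG k), hsI⟩ ⟨x.1, hxY, hxC⟩
        exact hp2 (interior_subset hp1)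
    refine ⟨y, hyW, hyV, hyF, ?_⟩
    have h1 := (hmemU k y).1 (mem_of_mem_nb (hWG k hyW) y.2)
    rwa [huV y hyV] at h1
  choose e heW heV heF heg using hend
  have hgne : ∀ k, g (e k) ≠ 0 := by
    intro k h0
    have := heg k
    rw [h0, mul_zero] at this
    exact lt_irrefl _ this
  choose A hA using fun k => hcov (e k) ⟨heV k, heF k⟩ (hgne k)
  obtain ⟨i, j, k, l, hij, hjk, hkl, ei, ej, ek, el, haik, hajl⟩ :=
    exists_quadruple (fun k => (⟨A k, (hA k).1⟩ : 𝒜))
  have hAik : A i = A k := congrArg Subtype.val haik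
  have hAjl : A j = A l := congrArg Subtype.val hajl
  have si : σ i = 1 := by simp [hσ, ei]
  have sk : σ k = 1 := by simp [hσ, ek]
  have sj : σ j = -1 := by simp [hσ, ej]
  have sl : σ l = -1 := by simp [hσ, el]
  have gi : 0 < g (e i) := by have := heg i; rwa [si, one_mul] at this
  have gk : 0 < g (e k) := by have := heg k; rwa [sk, one_mul] at this
  have gj : g (e j) < 0 := by have := heg j; rw [sj] at this; linarith
  have gl : g (e l) < 0 := by have := heg l; rw [sl] at this; linarith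
  -- the boundary pieces
  have hAi : ∀ x ∈ A i, 0 ≤ g x := by
    rcases (h𝒜 _ (hA i).1).2.2 with h | h
    · exact h
    · exact absurd (h _ (hA i).2) (not_le.2 gi)
  have hAj : ∀ x ∈ A j, g x ≤ 0 := by
    rcases (h𝒜 _ (hA j).1).2.2 with h | h
    · exact absurd (h _ (hA j).2) (not_le.2 gj)
    · exact h
  have hbd : ∀ k, (Subtype.val : carpet → ℝ × ℝ) '' A k ⊆ frontier (sq n₀ i₀ j₀) := by
    rintro k _ ⟨x, hx, rfl⟩
    exact ((h𝒜 _ (hA k).1).1 hx).2
  have hAV : ∀ k, ∀ x ∈ A k, x ∈ V := fun k x hx => ((h𝒜 _ (hA k).1).1 hx).1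
  have hpre : ∀ k, IsPreconnected ((Subtype.val : carpet → ℝ × ℝ) '' A k) := fun k =>
    (h𝒜 _ (hA k).1).2.1.image _ continuous_subtype_val.continuousOn
  have hmemA : ∀ (B : Set carpet) (x : carpet), x.1 ∈ (Subtype.val : carpet → ℝ × ℝ) '' B ↔ x ∈ B := by
    intro B x
    constructor
    · rintro ⟨y, hy, hyx⟩
      rw [← Subtype.val_injective hyx]; exact hy
    · intro h
      exact ⟨x, h, rfl⟩
  obtain ⟨A', B', hA'A, hB'B, hA'pc, hB'pc, hi', hk', hj', hl', hA'B'⟩ :=
    circ_join_sq (hbd i) (hbd j) (hpre i) (hpre j) (a1 := (e i).1) (a2 := (e k).1)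
      (b1 := (e j).1) (b2 := (e l).1) ((hmemA _ _).2 (hA i).2)
      ((hmemA _ _).2 (hAik ▸ (hA k).2))
      (fun h => absurd (hAj _ ((hmemA _ _).1 h)) (not_le.2 gi))
      (fun h => absurd (hAj _ ((hmemA _ _).1 h)) (not_le.2 gk))
      ((hmemA _ _).2 (hA j).2) ((hmemA _ _).2 (hAjl ▸ (hA l).2))
      (fun h => absurd (hAi _ ((hmemA _ _).1 h)) (not_le.2 gj))
      (fun h => absurd (hAi _ ((hmemA _ _).1 h)) (not_le.2 gl))
  -- the two path connected sets
  have hGd : ∀ a b, σ a = 1 → σ b = -1 → Disjoint (G a) (G b) := by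
    intro a b ha hb
    refine disjoint_nb (hUK a) (hUK b) ?_
    rw [Set.disjoint_left]
    rintro _ ⟨x, hx, rfl⟩ hx'
    have h1 : 0 < σ a * u x := hx
    have h2 := (hmemU b x).1 hx'
    rw [ha] at h1
    rw [hb] at h2
    linarith
  have hAG : ∀ b, σ b = -1 → Disjoint A' (G b) := by
    intro b hb
    rw [Set.disjoint_left]
    intro p hp hpG
    obtain ⟨x, hx, rfl⟩ := hA'A hp
    have h1 := (hmemU b x).1 (mem_of_mem_nb hpG x.2)
    rw [huV x (hAV i x hx), hb] at h1
    have := hAi x hx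
    linarith
  have hBG : ∀ b, σ b = 1 → Disjoint B' (G b) := by
    intro b hb
    rw [Set.disjoint_left]
    intro p hp hpG
    obtain ⟨x, hx, rfl⟩ := hB'B hp
    have h1 := (hmemU b x).1 (mem_of_mem_nb hpG x.2)
    rw [huV x (hAV j x hx), hb] at h1
    have := hAj x hx
    linarith
  have hbdQ : ∀ p ∈ frontier (sq n₀ i₀ j₀), p ∉ Q := by
    intro p hp hpQ
    rw [hsqc.frontier_eq] at hp
    exact hp.2 (hQS hpQ)
  have hP : IsPathConnected ((W i ∪ A') ∪ W k) :=
    ((hWpc i).union hA'pc ⟨_, heW i, hi'⟩).union (hWpc k) ⟨_, Or.inr hk', heW k⟩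
  have hP' : IsPathConnected ((W j ∪ B') ∪ W l) :=
    ((hWpc j).union hB'pc ⟨_, heW j, hj'⟩).union (hWpc l) ⟨_, Or.inr hl', heW l⟩
  refine hcross i j k l hij hjk hkl _ _ hP hP' ?_ ?_ ?_ ?_ ?_ ?_ ?_
  · simp only [Set.disjoint_union_left, Set.disjoint_union_right]
    refine ⟨⟨⟨⟨?_, ?_⟩, ?_⟩, ⟨?_, ?_⟩, ?_⟩, ⟨?_, ?_⟩, ?_⟩
    all_goals first
      | exact (hGd i j si sj).mono (hWG i) (hWG j)
      | exact (hGd i l si sl).mono (hWG i) (hWG l)
      | exact (hGd k j sk sj).mono (hWG k) (hWG j)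
      | exact (hGd k l sk sl).mono (hWG k) (hWG l)
      | exact (hAG j sj).mono_right (hWG j)
      | exact (hAG l sl).mono_right (hWG l)
      | exact ((hBG i si).mono_right (hWG i)).symm
      | exact ((hBG k sk).mono_right (hWG k)).symm
      | exact hA'B'
  · simp only [Set.disjoint_union_left]
    refine ⟨⟨(hGQ i).mono_left (hWG i), ?_⟩, (hGQ k).mono_left (hWG k)⟩
    rw [Set.disjoint_left]
    exact fun p hp => hbdQ p (hbd i (hA'A hp))
  · simp only [Set.disjoint_union_left]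
    refine ⟨⟨(hGQ j).mono_left (hWG j), ?_⟩, (hGQ l).mono_left (hWG l)⟩
    rw [Set.disjoint_left]
    exact fun p hp => hbdQ p (hbd j (hB'B hp))
  · exact (hTW i).trans (subset_union_left.trans subset_union_left)
  · exact (hTW k).trans subset_union_right
  · exact (hTW j).trans (subset_union_left.trans subset_union_left)
  · exact (hTW l).trans subset_union_right

end CAR
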