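import Pool.Agent.MP_eabe7c_an.Final
import Pool.Agent.MP_eabe7c_an.MainLoc

open MeasureTheory Set Topology Filter

namespace CAR

variable {μ : Measure carpet} [IsFiniteMeasure μ] [μ.IsOpenPosMeasure]

theorem V0_nonempty : V0.Nonempty := by
  have h0c : ((0 : ℝ), (0 : ℝ)) ∈ carpet :=
    mem_carpet_of_boundary ⟨le_refl _, zero_le_one⟩ ⟨le_refl _, zero_le_one⟩ (Or.inl rfl)
  exact ⟨⟨_, h0c⟩, Or.inl rfl⟩

theorem interior_sq {n i j : ℕ} : interior (sq n i j) =
    Ioo ((i : ℝ) / 3 ^ n) ((i + 1 : ℝ) / 3 ^ n) ×ˢ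
      Ioo ((j : ℝ) / 3 ^ n) ((j + 1 : ℝ) / 3 ^ n) := by
  unfold sq
  rw [interior_prod_eq, interior_Icc, interior_Icc]

theorem not_mem_V0_of_interior {n i j : ℕ} (hc : IsCell n i j) {x : carpet}
    (hx : x.1 ∈ interior (sq n i j)) : x ∉ V0 := by
  have h3 : (0 : ℝ) < 3 ^ n := by positivity
  rw [interior_sq] at hx
  have hi : (i : ℝ) + 1 ≤ 3 ^ n := by exact_mod_cast hc.1
  have hj : (j : ℝ) + 1 ≤ 3 ^ n := by exact_mod_cast hc.2.1
  have hi1 : (i + 1 : ℝ) / 3 ^ n ≤ 1 := (div_le_one h3).2 hi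
  have hj1 : (j + 1 : ℝ) / 3 ^ n ≤ 1 := (div_le_one h3).2 hj
  have hi0 : (0 : ℝ) ≤ (i : ℝ) / 3 ^ n := by positivity
  have hj0 : (0 : ℝ) ≤ (j : ℝ) / 3 ^ n := by positivity
  have h1 := hx.1.1
  have h2 := hx.1.2
  have h4 := hx.2.1
  have h5 := hx.2.2
  intro hV
  rcases hV with h | h | h | h <;> linarith

/-- local version for levels: on every cell -/
theorem cell_level (D : DForm carpet μ) {h : C(carpet, ℝ)} (hh : D.HarmonicOff V0 h) {c : ℝ}
    {n i j : ℕ} (hcell : IsCell n i j)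
    (hint : ∃ x ∈ interior {x : carpet | h x = c}, x.1 ∈ interior (sq n i j))
    (hne : ∃ x : carpet, x.1 ∈ sq n i j ∧ h x ≠ c) :
    ¬ FinSignChanges {x : carpet | x.1 ∈ frontier (sq n i j)} h c := by
  intro hfin
  set g : C(carpet, ℝ) := h - ContinuousMap.const carpet c with hg
  have hgx : ∀ x, g x = h x - c := fun x => rfl
  have hg0 : D.HarmonicOff V0 g := hh.sub_const c
  set V : Set carpet := {x | x.1 ∉ interior (sq n i j)} with hVdef
  have hVc : IsClosed V :=
    (isOpen_interior.preimage continuous_subtype_val).isClosed_compl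
  have hV0V : V0 ⊆ V := fun x hx hxi => not_mem_V0_of_interior hcell hxi hx
  have hgV : D.HarmonicOff V g := HarmonicOff_mono hV0V hg0
  have hmain := interior_inter_eq_empty D hcell hVc (V0_nonempty.mono hV0V) (fun x hx => hx)
    (Or.inr fun x hx hxi => by
      have hc : IsClosed (sq n i j) := isClosed_Icc.prod isClosed_Icc
      rw [hc.frontier_eq] at hx
      exact hx.2 hxi) hgV
    (fun n i j h1 h2 => cell_max_principle D V0_nonempty subset_rfl hg0 n i j h1 h2) (by
      obtain ⟨x, hx, hxc⟩ := hne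
      exact ⟨x, hx, by rw [hgx]; exact sub_ne_zero.2 hxc⟩) (by
      obtain ⟨𝒜, h1, h2, h3⟩ := hfin
      refine ⟨𝒜, h1, fun A hA => ⟨fun x hx => ⟨?_, (h2 A hA).1 hx⟩, (h2 A hA).2.1, ?_⟩,
        fun x hx hx0 => h3 x hx.2 ?_⟩
      · have hxf := (h2 A hA).1 hx
        have hc : IsClosed (sq n i j) := isClosed_Icc.prod isClosed_Icc
        have hxf' : x.1 ∈ frontier (sq n i j) := hxf
        rw [hc.frontier_eq] at hxf'
        exact hxf'.2
      · rcases (h2 A hA).2.2 with h | h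
        · left
          intro x hx
          rw [hgx]; linarith [h x hx]
        · right
          intro x hx
          rw [hgx]; linarith [h x hx]
      · rw [hgx, ne_eq, sub_eq_zero] at hx0
        exact hx0)
  obtain ⟨x, hx, hxi⟩ := hint
  have e : {x : carpet | g x = 0} = {x | h x = c} := by
    ext y
    simp only [mem_ofPred_eq, hgx, sub_eq_zero]
  rw [e] at hmain
  have : x ∈ interior {x : carpet | h x = c} ∩ {x | x.1 ∈ interior (sq n i j)} := ⟨hx, hxi⟩
  rw [hmain] at this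
  exact this

/-- the dichotomy, with the local information -/
theorem dichotomy2 (D : DForm carpet μ) {V : Set carpet} (hV : IsClosed V)
    (hV0 : V ⊆ V0) {h : C(carpet, ℝ)} (hh : D.HarmonicOff V h) (hne : ∃ x y, h x ≠ h y) :
    D.FullSupport h ∨
      ∃ c : ℝ, (interior {x | h x = c}).Nonempty ∧ ¬ FinSignChanges V h c ∧
        ∀ n i j, IsCell n i j →
          (∃ x ∈ interior {x : carpet | h x = c}, x.1 ∈ interior (sq n i j)) →
          (∃ x : carpet, x.1 ∈ sq n i j ∧ h x ≠ c) →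
          ¬ FinSignChanges {x : carpet | x.1 ∈ frontier (sq n i j)} h c := by
  rcases dichotomy D hV hV0 hh hne with h | ⟨c, h1, h2⟩
  · exact Or.inl h
  · exact Or.inr ⟨c, h1, h2, fun n i j hc hi hn => cell_level D (HarmonicOff_mono hV0 hh) hc hi hn⟩

end CAR
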