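import Pool.Agent.MP_eabe7c_an.Alg

open MeasureTheory Set Topology Filter

namespace CAR

universe u

variable {X : Type u} [MetricSpace X] [CompactSpace X] [MeasurableSpace X] [BorelSpace X]
  {μ : Measure X}

namespace DForm

/-- The domain of the form, as a type without topology. -/
def Hil (D : DForm X μ) : Type u := D.dom

namespace Hil

variable (D : DForm X μ)

instance : AddCommGroup (Hil D) := inferInstanceAs (AddCommGroup D.dom)

instance : Module ℝ (Hil D) := inferInstanceAs (Module ℝ D.dom)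

/-- The identity map. -/
def J : Hil D ≃ₗ[ℝ] D.dom := LinearEquiv.refl ℝ D.dom

/-- The element of the domain. -/
def fn {D : DForm X μ} (a : Hil D) : C(X, ℝ) := (J D a : C(X, ℝ))

theorem fn_mem {D : DForm X μ} (a : Hil D) : fn a ∈ D.dom := (J D a).2

theorem fn_add {D : DForm X μ} (a b : Hil D) : fn (a + b) = fn a + fn b := by
  unfold fn; rw [map_add]; rfl

theorem fn_sub {D : DForm X μ} (a b : Hil D) : fn (a - b) = fn a - fn b := by
  unfold fn; rw [map_sub]; rfl

theorem fn_smul {D : DForm X μ} (r : ℝ) (a : Hil D) : fn (r • a) = r • fn a := by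
  unfold fn; rw [map_smul]; rfl

theorem fn_inj {D : DForm X μ} {a : Hil D} (h : fn a = 0) : a = 0 := by
  apply (J D).injective
  rw [map_zero]
  exact Subtype.ext h

theorem integrable_cont [IsFiniteMeasure μ] (f : C(X, ℝ)) : Integrable (fun x => f x) μ :=
  f.continuous.integrable_of_hasCompactSupport (HasCompactSupport.of_compactSpace _)

theorem integrable_mul [IsFiniteMeasure μ] (f g : C(X, ℝ)) :
    Integrable (fun x => f x * g x) μ := integrable_cont (f * g)

theorem eq_zero_of_int [IsFiniteMeasure μ] [μ.IsOpenPosMeasure] {f : C(X, ℝ)}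
    (h : ∫ x, f x * f x ∂μ = 0) : f = 0 := by
  have h1 := (integral_eq_zero_iff_of_nonneg (fun x => mul_self_nonneg (f x))
    (integrable_mul f f)).1 h
  have h2 : (fun x => f x) =ᵐ[μ] fun _ => (0 : ℝ) := by
    filter_upwards [h1] with x hx
    exact mul_self_eq_zero.1 hx
  have h3 := (Continuous.ae_eq_iff_eq μ f.continuous continuous_const).1 h2
  exact ContinuousMap.ext fun x => congrFun h3 x

/-- The inner product. -/
@[instance_reducible]
noncomputable def core [IsFiniteMeasure μ] [μ.IsOpenPosMeasure] :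
    InnerProductSpace.Core ℝ (Hil D) where
  inner a b := D.E (fn a) (fn b) + ∫ x, fn a x * fn b x ∂μ
  conj_inner_symm a b := by
    simp only [conj_trivial]
    rw [D.symm _ (fn_mem a) _ (fn_mem b)]
    simp only [mul_comm]
  re_inner_nonneg a := by
    simp only [RCLike.re_to_real]
    exact add_nonneg (D.nonneg _ (fn_mem a)) (integral_nonneg fun x => mul_self_nonneg _)
  add_left a b c := by
    simp only [fn_add]
    rw [D.add_left _ (fn_mem a) _ (fn_mem b) _ (fn_mem c)]
    have : (∫ x, (fn a + fn b) x * fn c x ∂μ) =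
        (∫ x, fn a x * fn c x ∂μ) + ∫ x, fn b x * fn c x ∂μ := by
      rw [← integral_add (integrable_mul _ _) (integrable_mul _ _)]
      congr 1
      ext x
      simp only [ContinuousMap.add_apply]
      ring
    rw [this]
    ring
  smul_left a b r := by
    simp only [fn_smul, conj_trivial]
    rw [D.smul_left _ _ (fn_mem a) _ (fn_mem b)]
    have : (∫ x, (r • fn a) x * fn b x ∂μ) = r * ∫ x, fn a x * fn b x ∂μ := by
      rw [← integral_const_mul]
      congr 1
      ext x
      simp only [ContinuousMap.smul_apply, smul_eq_mul]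
      ring
    rw [this]
    ring
  definite a h := by
    have h1 := D.nonneg _ (fn_mem a)
    have h2 : 0 ≤ ∫ x, fn a x * fn a x ∂μ := integral_nonneg fun x => mul_self_nonneg _
    change D.E (fn a) (fn a) + ∫ x, fn a x * fn a x ∂μ = 0 at h
    exact fn_inj (eq_zero_of_int (by linarith))

noncomputable instance [IsFiniteMeasure μ] [μ.IsOpenPosMeasure] :
    NormedAddCommGroup (Hil D) := (core D).toNormedAddCommGroup

noncomputable instance [IsFiniteMeasure μ] [μ.IsOpenPosMeasure] :
    InnerProductSpace ℝ (Hil D) := InnerProductSpace.ofCore (core D).toCore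

variable {D} [IsFiniteMeasure μ] [μ.IsOpenPosMeasure]

theorem inner_eq (a b : Hil D) :
    inner ℝ a b = D.E (fn a) (fn b) + ∫ x, fn a x * fn b x ∂μ := rfl

theorem norm_sq_eq (a : Hil D) :
    ‖a‖ ^ 2 = D.E (fn a) (fn a) + ∫ x, fn a x ^ 2 ∂μ := by
  rw [← real_inner_self_eq_norm_sq, inner_eq]
  simp only [pow_two]

theorem norm_sub_sq_eq (a b : Hil D) :
    ‖a - b‖ ^ 2 = D.E (fn a - fn b) (fn a - fn b) + ∫ x, (fn a x - fn b x) ^ 2 ∂μ := by
  rw [norm_sq_eq, fn_sub]
  rfl

/-- The vector of a function in the domain. -/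
def mk (v : C(X, ℝ)) (hv : v ∈ D.dom) : Hil D := (J D).symm ⟨v, hv⟩

omit [IsFiniteMeasure μ] [μ.IsOpenPosMeasure] in
theorem fn_mk (v : C(X, ℝ)) (hv : v ∈ D.dom) : fn (mk (D := D) v hv) = v := by
  unfold fn mk
  rw [LinearEquiv.apply_symm_apply]

instance : CompleteSpace (Hil D) := by
  apply Metric.complete_of_cauchySeq_tendsto
  intro u hu
  obtain ⟨v, hv, hlim⟩ := D.closed (fun n => fn (u n)) (fun n => fn_mem _) (by
    intro ε hε
    obtain ⟨N, hN⟩ := Metric.cauchySeq_iff.1 hu (Real.sqrt ε) (Real.sqrt_pos.2 hε)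
    refine ⟨N, fun m hm n hn => ?_⟩
    have h1 := hN m hm n hn
    rw [dist_eq_norm] at h1
    have h2 := norm_sub_sq_eq (u m) (u n)
    rw [← h2]
    calc ‖u m - u n‖ ^ 2 < Real.sqrt ε ^ 2 := by
          exact pow_lt_pow_left₀ h1 (norm_nonneg _) two_ne_zero
      _ = ε := Real.sq_sqrt hε.le)
  refine ⟨mk v hv, ?_⟩
  rw [tendsto_iff_norm_sub_tendsto_zero]
  have h1 : Tendsto (fun n => ‖u n - mk v hv‖ ^ 2) atTop (𝓝 0) := by
    refine hlim.congr fun n => ?_
    rw [norm_sub_sq_eq, fn_mk]
  have h2 := (Real.continuous_sqrt.tendsto 0).comp h1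
  rw [Real.sqrt_zero] at h2
  refine h2.congr fun n => ?_
  simp only [Function.comp]
  exact Real.sqrt_sq (norm_nonneg _)

/-- The inclusion into the continuous functions. -/
def incl : Hil D →ₗ[ℝ] C(X, ℝ) := D.dom.subtype.comp (J D).toLinearMap

omit [IsFiniteMeasure μ] [μ.IsOpenPosMeasure] in
theorem incl_apply (a : Hil D) : incl a = fn a := rfl

omit [μ.IsOpenPosMeasure] in
theorem tendsto_int {u : ℕ → C(X, ℝ)} {v : C(X, ℝ)} (h : Tendsto u atTop (𝓝 v)) :
    Tendsto (fun n => ∫ x, (u n x - v x) ^ 2 ∂μ) atTop (𝓝 0) := by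
  rw [tendsto_iff_norm_sub_tendsto_zero] at h
  have h1 : Tendsto (fun n => ‖u n - v‖ ^ 2 * μ.real univ) atTop (𝓝 0) := by
    have := (h.pow 2).mul_const (μ.real univ)
    simpa using this
  refine squeeze_zero (fun n => integral_nonneg fun x => sq_nonneg _) (fun n => ?_) h1
  calc ∫ x, (u n x - v x) ^ 2 ∂μ ≤ ∫ _, ‖u n - v‖ ^ 2 ∂μ := by
        refine integral_mono (f := fun x => (u n x - v x) ^ 2)
          (integrable_cont (μ := μ) ((u n - v) ^ 2)) (integrable_const _) fun x => ?_
        · have := (u n - v).norm_coe_le_norm x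
          simp only [ContinuousMap.sub_apply, Real.norm_eq_abs] at this
          calc (u n x - v x) ^ 2 = |u n x - v x| ^ 2 := (sq_abs _).symm
            _ ≤ ‖u n - v‖ ^ 2 := by gcongr
    _ = ‖u n - v‖ ^ 2 * μ.real univ := by
        rw [integral_const, smul_eq_mul, mul_comm]

theorem incl_continuous : Continuous (incl (D := D)) := by
  apply LinearMap.continuous_of_seq_closed_graph
  intro u a v hu hv
  have h1 : Tendsto (fun n => ∫ x, (fn (u n) x - v x) ^ 2 ∂μ) atTop (𝓝 0) := tendsto_int hv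
  have h2 : Tendsto (fun n => ∫ x, (fn (u n) x - fn a x) ^ 2 ∂μ) atTop (𝓝 0) := by
    rw [tendsto_iff_norm_sub_tendsto_zero] at hu
    have h3 : Tendsto (fun n => ‖u n - a‖ ^ 2) atTop (𝓝 0) := by simpa using hu.pow 2
    refine squeeze_zero (fun n => integral_nonneg fun x => sq_nonneg _) (fun n => ?_) h3
    rw [norm_sub_sq_eq]
    have := D.nonneg _ (D.dom.sub_mem (fn_mem (u n)) (fn_mem a))
    linarith
  have h3 : ∫ x, (v - fn a) x * (v - fn a) x ∂μ = 0 := by
    have h4 : ∀ n, ∫ x, (v - fn a) x * (v - fn a) x ∂μ ≤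
        2 * (∫ x, (fn (u n) x - v x) ^ 2 ∂μ) + 2 * ∫ x, (fn (u n) x - fn a x) ^ 2 ∂μ := by
      intro n
      rw [← integral_const_mul, ← integral_const_mul, ← integral_add]
      · refine integral_mono (f := fun x => (v - fn a) x * (v - fn a) x)
          (integrable_mul (μ := μ) (v - fn a) (v - fn a))
          (((integrable_cont (μ := μ) ((fn (u n) - v) ^ 2)).const_mul 2).add
            ((integrable_cont (μ := μ) ((fn (u n) - fn a) ^ 2)).const_mul 2)) fun x => ?_
        · simp only [ContinuousMap.sub_apply]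
          nlinarith [sq_nonneg ((fn (u n) x - v x) + (fn (u n) x - fn a x))]
      · exact (integrable_cont (μ := μ) ((fn (u n) - v) ^ 2)).const_mul 2
      · exact (integrable_cont (μ := μ) ((fn (u n) - fn a) ^ 2)).const_mul 2
    have h5 := (h1.const_mul 2).add (h2.const_mul 2)
    simp only [mul_zero, add_zero] at h5
    exact le_antisymm (ge_of_tendsto' h5 h4) (integral_nonneg fun x => mul_self_nonneg _)
  have h4 := eq_zero_of_int h3
  rw [incl_apply]
  exact sub_eq_zero.1 h4

end Hil

/-- [CAR-H1] The domain is a Hilbert space for `E(u,v) + ∫ u v dμ`, with continuous evaluations. -/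
theorem exists_hilbert [IsFiniteMeasure μ] [μ.IsOpenPosMeasure] (D : DForm X μ) :
    ∃ (H : Type u) (_ : NormedAddCommGroup H) (_ : InnerProductSpace ℝ H) (_ : CompleteSpace H)
      (J : H ≃ₗ[ℝ] D.dom) (k : X → H),
      (∀ a b : H, inner ℝ a b =
        D.E (J a : C(X, ℝ)) (J b : C(X, ℝ)) + ∫ x, (J a : C(X, ℝ)) x * (J b : C(X, ℝ)) x ∂μ) ∧
      ∀ (x : X) (a : H), inner ℝ (k x) a = (J a : C(X, ℝ)) x := by
  let ev : X → (Hil D →L[ℝ] ℝ) := fun x =>
    (ContinuousMap.evalCLM ℝ x).comp ⟨Hil.incl, Hil.incl_continuous⟩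
  refine ⟨Hil D, inferInstance, inferInstance, inferInstance, Hil.J D,
    fun x => (InnerProductSpace.toDual ℝ (Hil D)).symm (ev x), ?_, ?_⟩
  · intro a b
    exact Hil.inner_eq a b
  · intro x a
    rw [InnerProductSpace.toDual_symm_apply]
    rfl

end DForm

end CAR
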