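import Pool.Agent.MP_eabe7c_an.Hil

open MeasureTheory Set Topology Filter

namespace CAR

variable {X : Type*} [MetricSpace X] [CompactSpace X] [MeasurableSpace X] [BorelSpace X]
  {μ : Measure X}

/-- weak convergence of a bounded sequence in a Hilbert space, tested on a total family -/
theorem lim_weak {H : Type*} [NormedAddCommGroup H] [InnerProductSpace ℝ H] [CompleteSpace H]
    {ι : Type*} (k : ι → H) (htot : ∀ a : H, (∀ x, inner ℝ (k x) a = 0) → a = 0)
    (a : ℕ → H) (R : ℝ) (hR : ∀ n, ‖a n‖ ≤ R)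
    (hk : ∀ x, ∃ l : ℝ, Tendsto (fun n => (inner ℝ (k x) (a n) : ℝ)) atTop (𝓝 l)) :
    ∃ v : H, ∀ g : H, Tendsto (fun n => (inner ℝ g (a n) : ℝ)) atTop (𝓝 (inner ℝ g v)) := by
  have hR0 : 0 ≤ R := (norm_nonneg _).trans (hR 0)
  -- the submodule of good test vectors
  let S : Submodule ℝ H :=
    { carrier := {g | ∃ l : ℝ, Tendsto (fun n => (inner ℝ g (a n) : ℝ)) atTop (𝓝 l)}
      zero_mem' := ⟨0, by simp⟩
      add_mem' := by
        rintro g g' ⟨l, hl⟩ ⟨l', hl'⟩
        refine ⟨l + l', ?_⟩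
        simpa [inner_add_left] using hl.add hl'
      smul_mem' := by
        rintro c g ⟨l, hl⟩
        refine ⟨c * l, ?_⟩
        simpa [inner_smul_left] using hl.const_mul c }
  have hspan : Submodule.span ℝ (range k) ≤ S := by
    rw [Submodule.span_le]
    rintro _ ⟨x, rfl⟩
    exact hk x
  have horth : (Submodule.span ℝ (range k))ᗮ = ⊥ := by
    rw [eq_bot_iff]
    intro y hy
    rw [Submodule.mem_bot]
    apply htot
    intro x
    rw [Submodule.mem_orthogonal] at hy
    exact hy (k x) (Submodule.subset_span ⟨x, rfl⟩)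
  have hdense : (Submodule.span ℝ (range k)).topologicalClosure = ⊤ :=
    (Submodule.topologicalClosure_eq_top_iff).2 horth
  have hall : ∀ g : H, ∃ l : ℝ, Tendsto (fun n => (inner ℝ g (a n) : ℝ)) atTop (𝓝 l) := by
    intro g
    apply cauchySeq_tendsto_of_complete
    rw [Metric.cauchySeq_iff]
    intro ε hε
    have hg : g ∈ closure ((Submodule.span ℝ (range k) : Submodule ℝ H) : Set H) := by
      have : g ∈ (Submodule.span ℝ (range k)).topologicalClosure := by rw [hdense]; trivial
      exact this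
    obtain ⟨g', hg', hd⟩ := Metric.mem_closure_iff.1 hg (ε / (4 * (R + 1))) (by positivity)
    obtain ⟨l, hl⟩ := hspan hg'
    obtain ⟨N, hN⟩ := Metric.cauchySeq_iff.1 hl.cauchySeq (ε / 2) (by positivity)
    refine ⟨N, fun m hm n hn => ?_⟩
    have h1 := hN m hm n hn
    rw [Real.dist_eq] at h1 ⊢
    have h2 : ∀ j, |(inner ℝ g (a j) : ℝ) - inner ℝ g' (a j)| ≤ ε / 4 := by
      intro j
      rw [← inner_sub_left]
      calc |(inner ℝ (g - g') (a j) : ℝ)| ≤ ‖g - g'‖ * ‖a j‖ := abs_real_inner_le_norm _ _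
        _ ≤ (ε / (4 * (R + 1))) * R := by
            apply mul_le_mul _ (hR j) (norm_nonneg _) (by positivity)
            rw [← dist_eq_norm]; exact hd.le
        _ ≤ ε / 4 := by
            rw [div_mul_eq_mul_div, div_le_div_iff₀ (by positivity) (by norm_num)]
            nlinarith
    have h3 := h2 m
    have h4 := h2 n
    rw [abs_le] at h3 h4
    rw [abs_lt] at h1 ⊢
    constructor <;> linarith [h3.1, h3.2, h4.1, h4.2, h1.1, h1.2]
  choose L hL using hall
  let Lf : H →ₗ[ℝ] ℝ :=
    { toFun := L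
      map_add' := fun g g' => by
        refine tendsto_nhds_unique (hL (g + g')) ?_
        simpa [inner_add_left] using (hL g).add (hL g')
      map_smul' := fun c g => by
        refine tendsto_nhds_unique (hL (c • g)) ?_
        simpa [inner_smul_left] using (hL g).const_mul c }
  have hb : ∀ g, ‖Lf g‖ ≤ R * ‖g‖ := by
    intro g
    have h1 : Tendsto (fun n => |(inner ℝ g (a n) : ℝ)|) atTop (𝓝 |L g|) := (hL g).abs
    refine le_of_tendsto h1 (Eventually.of_forall fun n => ?_)
    calc |(inner ℝ g (a n) : ℝ)| ≤ ‖g‖ * ‖a n‖ := abs_real_inner_le_norm _ _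
      _ ≤ ‖g‖ * R := by gcongr; exact hR n
      _ = R * ‖g‖ := mul_comm _ _
  let Lc : H →L[ℝ] ℝ := Lf.mkContinuous R hb
  refine ⟨(InnerProductSpace.toDual ℝ H).symm Lc, fun g => ?_⟩
  have h1 : (inner ℝ g ((InnerProductSpace.toDual ℝ H).symm Lc) : ℝ) = L g := by
    rw [real_inner_comm, InnerProductSpace.toDual_symm_apply]
    rfl
  rw [h1]
  exact hL g

namespace DForm

/-- [CAR-L] bounded energy and pointwise convergence: the limit is in the domain (in particular
it is continuous), and convergence is weak. -/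
theorem limit [IsFiniteMeasure μ] [μ.IsOpenPosMeasure] (D : DForm X μ)
    (u : ℕ → C(X, ℝ)) (hu : ∀ n, u n ∈ D.dom) {B M : ℝ} (hB : ∀ n, D.E (u n) (u n) ≤ B)
    (hM : ∀ n x, |u n x| ≤ M)
    (w : X → ℝ) (hw : ∀ x, Tendsto (fun n => u n x) atTop (𝓝 (w x))) :
    ∃ v ∈ D.dom, (∀ x, v x = w x) ∧ D.E v v ≤ B ∧
      ∀ g ∈ D.dom, Tendsto (fun n => D.E (u n) g) atTop (𝓝 (D.E v g)) := by
  obtain ⟨H, _, _, _, J, k, hin, hk⟩ := D.exists_hilbert
  have hB0 : 0 ≤ B := (D.nonneg _ (hu 0)).trans (hB 0)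
  let a : ℕ → H := fun n => J.symm ⟨u n, hu n⟩
  have hJa : ∀ n, (J (a n) : C(X, ℝ)) = u n := by
    intro n
    simp [a]
  have hcint : ∀ f : C(X, ℝ), Integrable (fun x => f x) μ := fun f =>
    f.continuous.integrable_of_hasCompactSupport (HasCompactSupport.of_compactSpace _)
  set R : ℝ := Real.sqrt (B + M ^ 2 * μ.real univ) with hR
  have hnorm : ∀ n, ‖a n‖ ≤ R := by
    intro n
    rw [hR]
    apply Real.le_sqrt_of_sq_le
    rw [← real_inner_self_eq_norm_sq, hin, hJa]
    have h1 : ∫ x, u n x * u n x ∂μ ≤ ∫ _x, M ^ 2 ∂μ := by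
      apply integral_mono
      · exact hcint (u n * u n)
      · exact integrable_const _
      · intro x
        have := hM n x
        have h2 : 0 ≤ |u n x| := abs_nonneg _
        have h3 : |u n x| ^ 2 ≤ M ^ 2 := by gcongr
        rw [sq_abs, pow_two] at h3
        exact h3
    rw [integral_const, smul_eq_mul] at h1
    linarith [hB n, mul_comm (M ^ 2) (μ.real univ)]
  obtain ⟨v, hv⟩ := lim_weak k (fun b hb => by
      have h1 : (J b : C(X, ℝ)) = 0 := by
        ext x
        rw [← hk x b, hb x]; rfl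
      have h2 : J b = 0 := Subtype.ext h1
      simpa using h2) a R hnorm (fun x => ⟨w x, by
        have : (fun n => (inner ℝ (k x) (a n) : ℝ)) = fun n => u n x := by
          funext n
          rw [hk x (a n), hJa]
        rw [this]; exact hw x⟩)
  have hvw : ∀ x, (J v : C(X, ℝ)) x = w x := by
    intro x
    have h1 := hv (k x)
    have h2 : (fun n => (inner ℝ (k x) (a n) : ℝ)) = fun n => u n x := by
      funext n
      rw [hk x (a n), hJa]
    rw [h2, hk x v] at h1
    exact tendsto_nhds_unique h1 (hw x)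
  have hconv : ∀ g ∈ D.dom, Tendsto (fun n => D.E (u n) g) atTop (𝓝 (D.E (J v : C(X, ℝ)) g)) := by
    intro g hg
    let b : H := J.symm ⟨g, hg⟩
    have hJb : (J b : C(X, ℝ)) = g := by simp [b]
    have h1 := hv b
    have h2 : ∀ n, (inner ℝ b (a n) : ℝ) = D.E g (u n) + ∫ x, g x * u n x ∂μ := by
      intro n
      rw [hin, hJb, hJa]
    have h3 : (inner ℝ b v : ℝ) = D.E g (J v : C(X, ℝ)) + ∫ x, g x * (J v : C(X, ℝ)) x ∂μ := by
      rw [hin, hJb]
    have h4 : Tendsto (fun n => ∫ x, g x * u n x ∂μ) atTop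
        (𝓝 (∫ x, g x * (J v : C(X, ℝ)) x ∂μ)) := by
      refine tendsto_integral_of_dominated_convergence (fun _ => ‖g‖ * |M|) ?_ ?_ ?_ ?_
      · intro n
        exact (hcint (g * u n)).aestronglyMeasurable
      · exact integrable_const _
      · intro n
        refine Eventually.of_forall fun x => ?_
        rw [norm_mul, Real.norm_eq_abs (u n x)]
        exact mul_le_mul (g.norm_coe_le_norm x) ((hM n x).trans (le_abs_self M)) (abs_nonneg _)
          (norm_nonneg _)
      · refine Eventually.of_forall fun x => ?_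
        rw [hvw x]
        exact (hw x).const_mul (g x)
    have h5 : Tendsto (fun n => D.E g (u n)) atTop (𝓝 (D.E g (J v : C(X, ℝ)))) := by
      have h6 := h1.sub h4
      rw [h3] at h6
      have h7 : (fun n => (inner ℝ b (a n) : ℝ) - ∫ x, g x * u n x ∂μ) = fun n => D.E g (u n) := by
        funext n
        rw [h2 n]; ring
      rw [h7] at h6
      simpa using h6
    have h8 : (fun n => D.E (u n) g) = fun n => D.E g (u n) := by
      funext n
      exact D.symm _ (hu n) _ hg
    rw [h8, D.symm _ (J v).2 _ hg]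
    exact h5
  refine ⟨J v, (J v).2, hvw, ?_, hconv⟩
  have h1 := hconv (J v : C(X, ℝ)) (J v).2
  have hE0 : 0 ≤ D.E (J v : C(X, ℝ)) (J v : C(X, ℝ)) := D.nonneg _ (J v).2
  have h2 : (D.E (J v : C(X, ℝ)) (J v : C(X, ℝ))) ^ 2 ≤ B * D.E (J v : C(X, ℝ)) (J v : C(X, ℝ)) := by
    refine le_of_tendsto (h1.pow 2) (Eventually.of_forall fun n => ?_)
    calc D.E (u n) (J v : C(X, ℝ)) ^ 2 ≤ D.E (u n) (u n) * D.E (J v : C(X, ℝ)) (J v : C(X, ℝ)) :=
          D.cauchy_schwarz (hu n) (J v).2
      _ ≤ _ := mul_le_mul_of_nonneg_right (hB n) hE0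
  rcases hE0.lt_or_eq with h | h
  · by_contra hcon
    push Not at hcon
    nlinarith
  · rw [← h]; exact hB0

end DForm

end CAR
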