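import Pool.Agent.MP_eabe7c_an.Defs

open Set Topology Filter Metric

namespace CAR

/-- planar neighbourhood of a relatively open subset `U` of `K` -/
def nb (K U : Set (ℝ × ℝ)) : Set (ℝ × ℝ) := {z | infEDist z U < infEDist z (K \ U)}

theorem isOpen_nb (K U : Set (ℝ × ℝ)) : IsOpen (nb K U) :=
  isOpen_lt continuous_infEDist continuous_infEDist

theorem mem_nb_of_mem {K U : Set (ℝ × ℝ)} (hc : IsClosed (K \ U)) {z : ℝ × ℝ} (hz : z ∈ U) :
    z ∈ nb K U := by
  show infEDist z U < infEDist z (K \ U)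
  rw [infEDist_zero_of_mem hz, infEDist_pos_iff_notMem_closure, hc.closure_eq]
  exact fun h => h.2 hz

theorem subset_nb {K U : Set (ℝ × ℝ)} (hc : IsClosed (K \ U)) : U ⊆ nb K U :=
  fun _ hz => mem_nb_of_mem hc hz

theorem mem_of_mem_nb {K U : Set (ℝ × ℝ)} {z : ℝ × ℝ} (hz : z ∈ nb K U) (hK : z ∈ K) :
    z ∈ U := by
  by_contra hU
  have h : infEDist z U < infEDist z (K \ U) := hz
  have hm : z ∈ K \ U := ⟨hK, hU⟩
  rw [infEDist_zero_of_mem hm] at h
  exact absurd h not_lt_zero

theorem disjoint_nb {K U U' : Set (ℝ × ℝ)} (hU : U ⊆ K) (hU' : U' ⊆ K) (hd : Disjoint U U') :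
    Disjoint (nb K U) (nb K U') := by
  rw [Set.disjoint_left]
  intro z hz hz'
  have h : infEDist z U < infEDist z (K \ U) := hz
  have h' : infEDist z U' < infEDist z (K \ U') := hz'
  have h1 : infEDist z (K \ U) ≤ infEDist z U' :=
    infEDist_anti fun x hx => ⟨hU' hx, fun hxU => (Set.disjoint_left.1 hd) hxU hx⟩
  have h2 : infEDist z (K \ U') ≤ infEDist z U :=
    infEDist_anti fun x hx => ⟨hU hx, fun hxU => (Set.disjoint_left.1 hd) hx hxU⟩
  exact absurd ((h.trans_le h1).trans (h'.trans_le h2)) (lt_irrefl _)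

theorem disjoint_nb_of_frontier {K U Q : Set (ℝ × ℝ)} (hQ : IsClosed Q)
    (hfr : frontier Q ⊆ K \ U) (hUQ : Disjoint U Q) : Disjoint (nb K U) Q := by
  rw [Set.disjoint_left]
  intro z hz hzQ
  have h : infEDist z U < infEDist z (K \ U) := hz
  have h1 : infEDist z (K \ U) ≤ infEDist z (frontier Q) := infEDist_anti hfr
  obtain ⟨p, hp, hzp⟩ := infEDist_lt_iff.1 (h.trans_le h1)
  have hpQ : p ∉ Q := fun hpQ => (Set.disjoint_left.1 hUQ) hp hpQ
  -- the segment from `z` to `p` meets the frontier of `Q`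
  have hconn : IsPreconnected (segment ℝ z p) := (convex_segment z p).isPreconnected
  have hex : ∃ y ∈ segment ℝ z p, y ∈ frontier Q := by
    by_contra hno
    push Not at hno
    have hcov : segment ℝ z p ⊆ interior Q ∪ Qᶜ := by
      intro y hy
      by_cases hyQ : y ∈ Q
      · left
        by_contra hyi
        exact hno y hy (by rw [hQ.frontier_eq]; exact ⟨hyQ, hyi⟩)
      · right; exact hyQ
    have hz1 : (segment ℝ z p ∩ interior Q).Nonempty := by
      refine ⟨z, left_mem_segment ℝ z p, ?_⟩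
      rcases hcov (left_mem_segment ℝ z p) with h | h
      · exact h
      · exact absurd hzQ h
    have hp1 : (segment ℝ z p ∩ Qᶜ).Nonempty := ⟨p, right_mem_segment ℝ z p, hpQ⟩
    obtain ⟨y, -, hy1, hy2⟩ := hconn _ _ isOpen_interior hQ.isOpen_compl hcov hz1 hp1
    exact hy2 (interior_subset hy1)
  obtain ⟨y, hy, hyf⟩ := hex
  have h2 : edist z y ≤ edist z p := by
    rw [edist_dist, edist_dist]
    apply ENNReal.ofReal_le_ofReal
    obtain ⟨t, ht, rfl⟩ := (segment_eq_image_lineMap ℝ z p ▸ hy :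
      y ∈ (AffineMap.lineMap z p) '' Icc (0 : ℝ) 1)
    rw [dist_comm z, dist_lineMap_left, Real.norm_eq_abs, abs_of_nonneg ht.1]
    exact mul_le_of_le_one_left dist_nonneg ht.2
  have h3 : infEDist z (frontier Q) ≤ edist z y := infEDist_le_edist_of_mem hyf
  exact absurd (hzp.trans_le (h3.trans h2)) (lt_irrefl _)

/-- the complement of a component in an open set is open -/
theorem isOpen_diff_component {G : Set (ℝ × ℝ)} (hG : IsOpen G) (x : ℝ × ℝ) :
    IsOpen (G \ connectedComponentIn G x) := by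
  rw [isOpen_iff_mem_nhds]
  intro z hz
  have h1 : connectedComponentIn G z ∈ 𝓝 z :=
    connectedComponentIn_mem_nhds (hG.mem_nhds hz.1)
  refine Filter.mem_of_superset h1 fun y hy => ⟨connectedComponentIn_subset G z hy, fun hy' => ?_⟩
  have e1 := connectedComponentIn_eq hy
  have e2 := connectedComponentIn_eq hy'
  apply hz.2
  rw [e2, ← e1]
  exact mem_connectedComponentIn hz.1

theorem isPathConnected_component {G : Set (ℝ × ℝ)} (hG : IsOpen G) {x : ℝ × ℝ} (hx : x ∈ G) :
    IsPathConnected (connectedComponentIn G x) := by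
  rw [← (hG.connectedComponentIn).isConnected_iff_isPathConnected]
  exact isConnected_connectedComponentIn_iff.2 hx

end CAR
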