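import Pool.Agent.MP_eabe7c_an.ArcR

open Set Topology Filter

namespace CAR

/-- transport of `HasArcs` by a homeomorphism of the plane preserving the carpet and the open
unit square -/
theorem sym_transport (e : (ℝ × ℝ) ≃ₜ (ℝ × ℝ)) (hc : ∀ p, e p ∈ carpet ↔ p ∈ carpet)
    (hs : ∀ p : ℝ × ℝ, ((e p).1 ∈ Ioo (0 : ℝ) 1 ∧ (e p).2 ∈ Ioo (0 : ℝ) 1) ↔
      (p.1 ∈ Ioo (0 : ℝ) 1 ∧ p.2 ∈ Ioo (0 : ℝ) 1))
    {Z : Set (ℝ × ℝ)} {N : ℕ} (h : HasArcs (e ⁻¹' Z) N) : HasArcs Z N := by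
  obtain ⟨Q, T, s, h1, h2, h3, h4, h5, h6, h7, h8, h9, h10, h11, h12, h13⟩ := h
  have hc' : ∀ p, e.symm p ∈ carpet ↔ p ∈ carpet := fun p => by
    rw [← hc (e.symm p), e.apply_symm_apply]
  have hs' : ∀ p : ℝ × ℝ, ((e.symm p).1 ∈ Ioo (0 : ℝ) 1 ∧ (e.symm p).2 ∈ Ioo (0 : ℝ) 1) ↔
      (p.1 ∈ Ioo (0 : ℝ) 1 ∧ p.2 ∈ Ioo (0 : ℝ) 1) := fun p => by
    rw [← hs (e.symm p), e.apply_symm_apply]
  refine ⟨e.symm ⁻¹' Q, fun k => e.symm ⁻¹' (T k), fun k => e (s k),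
    h1.preimage e.symm.continuous, ?_, ?_, ?_, ?_, ?_, ?_, ?_, ?_, ?_, ?_, ?_, ?_⟩
  · intro p hp
    rw [← e.symm.preimage_frontier] at hp
    exact (hc' p).1 (h2 hp)
  · rintro p ⟨hp, hpc⟩
    have := h3 ⟨hp, (hc' p).2 hpc⟩
    rwa [mem_preimage, e.apply_symm_apply] at this
  · intro p hp
    exact (hs' p).1 (h4 _ hp)
  · intro k p hp
    have := h5 k hp
    rwa [mem_preimage, e.apply_symm_apply] at this
  · intro k p hp
    exact (hs' p).1 (h6 k _ hp)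
  · intro k
    change IsPreconnected (e.symm ⁻¹' (T k))
    rw [← e.image_eq_preimage_symm]
    exact (h7 k).image e e.continuous.continuousOn
  · intro k l hkl
    exact (h8 k l hkl).preimage _
  · intro k
    exact (h9 k).preimage _
  · intro k
    rw [← preimage_union]
    exact (h10 k).preimage e.symm.continuous
  · intro k
    rw [mem_preimage, e.symm_apply_apply]
    exact h11 k
  · intro k
    have h := h12 k
    have himg : e '' (carpet \ e ⁻¹' Z) ⊆ carpet \ Z := by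
      rintro _ ⟨p, ⟨hp, hpZ⟩, rfl⟩
      exact ⟨(hc p).2 hp, hpZ⟩
    have : e (s k) ∈ e '' closure (carpet \ e ⁻¹' Z) := mem_image_of_mem e h
    rw [e.image_closure] at this
    exact closure_mono himg this
  · intro i j k l hij hjk hkl P P' hP hP' hPP hPQ hPQ' hi hk hj hl
    have key : ∀ A B : Set (ℝ × ℝ), Disjoint A (e.symm ⁻¹' B) → Disjoint (e ⁻¹' A) B := by
      intro A B hAB
      rw [Set.disjoint_left] at hAB ⊢
      intro x hx hxB
      exact hAB hx (by rw [mem_preimage, e.symm_apply_apply]; exact hxB)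
    have key2 : ∀ A B : Set (ℝ × ℝ), e.symm ⁻¹' A ⊆ B → A ⊆ e ⁻¹' B := by
      intro A B hAB x hx
      exact hAB (by rw [mem_preimage, e.symm_apply_apply]; exact hx)
    have key3 : ∀ A : Set (ℝ × ℝ), IsPathConnected A → IsPathConnected (e ⁻¹' A) := by
      intro A hA
      have : e ⁻¹' A = e.symm '' A := by
        rw [e.symm.image_eq_preimage_symm]
        rfl
      rw [this]
      exact hA.image e.symm.continuous
    exact h13 i j k l hij hjk hkl (e ⁻¹' P) (e ⁻¹' P') (key3 P hP) (key3 P' hP')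
      (hPP.preimage _) (key _ _ hPQ) (key _ _ hPQ') (key2 _ _ hi) (key2 _ _ hk) (key2 _ _ hj)
      (key2 _ _ hl)

/-- the swap of the coordinates -/
noncomputable def symSwap : (ℝ × ℝ) ≃ₜ (ℝ × ℝ) := Homeomorph.prodComm ℝ ℝ

theorem symSwap_apply (p : ℝ × ℝ) : symSwap p = (p.2, p.1) := rfl

/-- the reflection of the first coordinate -/
noncomputable def symFlip : (ℝ × ℝ) ≃ₜ (ℝ × ℝ) where
  toFun p := (1 - p.1, p.2)
  invFun p := (1 - p.1, p.2)
  left_inv p := by ext <;> simp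
  right_inv p := by ext <;> simp
  continuous_toFun := by fun_prop
  continuous_invFun := by fun_prop

theorem symFlip_apply (p : ℝ × ℝ) : symFlip p = (1 - p.1, p.2) := rfl

/-- [CAR-Y] transport by the symmetries of the square -/
theorem hasArcs_of_swap {Z : Set (ℝ × ℝ)} {N : ℕ} (h : HasArcs {p | (p.2, p.1) ∈ Z} N) :
    HasArcs Z N := by
  refine sym_transport symSwap (fun p => ?_) (fun p => ?_) h
  · rw [symSwap_apply]
    exact swap_mem_carpet
  · rw [symSwap_apply]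
    exact and_comm

theorem hasArcs_of_flip {Z : Set (ℝ × ℝ)} {N : ℕ} (h : HasArcs {p | (1 - p.1, p.2) ∈ Z} N) :
    HasArcs Z N := by
  refine sym_transport symFlip (fun p => ?_) (fun p => ?_) h
  · rw [symFlip_apply]
    exact flip_mem_carpet
  · rw [symFlip_apply]
    simp only [mem_Ioo]
    constructor
    · rintro ⟨⟨h1, h2⟩, h3⟩
      exact ⟨⟨by linarith, by linarith⟩, h3⟩
    · rintro ⟨⟨h1, h2⟩, h3⟩
      exact ⟨⟨by linarith, by linarith⟩, h3⟩

theorem sym_sq_swap (n i j : ℕ) : symSwap ⁻¹' (sq n i j) = sq n j i := by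
  ext p
  rw [mem_preimage, symSwap_apply]
  unfold sq
  simp only [mem_prod]
  exact and_comm

theorem sym_sq_flip {n i : ℕ} (hi : i < 3 ^ n) (j : ℕ) :
    symFlip ⁻¹' (sq n i j) = sq n (3 ^ n - 1 - i) j := by
  ext p
  rw [mem_preimage, symFlip_apply]
  unfold sq
  have h3 : (0 : ℝ) < 3 ^ n := by positivity
  have hcast : ((3 ^ n - 1 - i : ℕ) : ℝ) = 3 ^ n - 1 - i := by
    have h1 : i ≤ 3 ^ n - 1 := by omega
    have h2 : 1 ≤ 3 ^ n := Nat.one_le_pow _ _ (by norm_num)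
    rw [Nat.cast_sub h1, Nat.cast_sub h2]
    push_cast
    ring
  simp only [mem_prod, mem_Icc, hcast]
  have e1 : (3 ^ n - 1 - (i : ℝ)) / 3 ^ n = 1 - (i + 1) / 3 ^ n := by
    field_simp
    ring
  have e2 : (3 ^ n - 1 - (i : ℝ) + 1) / 3 ^ n = 1 - i / 3 ^ n := by
    field_simp
    ring
  rw [e1, e2]
  constructor
  · rintro ⟨⟨h1, h2⟩, h3⟩
    exact ⟨⟨by linarith, by linarith⟩, h3⟩
  · rintro ⟨⟨h1, h2⟩, h3⟩
    exact ⟨⟨by linarith, by linarith⟩, h3⟩

theorem sym_mem_frontier_sq {n i j : ℕ} {p : ℝ × ℝ} (hp : p ∈ frontier (sq n i j)) :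
    (p.1 ∈ Icc ((i : ℝ) / 3 ^ n) ((i + 1 : ℝ) / 3 ^ n) ∧
      p.2 ∈ Icc ((j : ℝ) / 3 ^ n) ((j + 1 : ℝ) / 3 ^ n)) ∧
    (p.1 = (i : ℝ) / 3 ^ n ∨ p.1 = (i + 1 : ℝ) / 3 ^ n ∨ p.2 = (j : ℝ) / 3 ^ n ∨
      p.2 = (j + 1 : ℝ) / 3 ^ n) := by
  have h3 : (0 : ℝ) < 3 ^ n := by positivity
  have hi : (i : ℝ) / 3 ^ n ≤ (i + 1 : ℝ) / 3 ^ n := by gcongr; linarith
  have hj : (j : ℝ) / 3 ^ n ≤ (j + 1 : ℝ) / 3 ^ n := by gcongr; linarith
  have hcl : IsClosed (sq n i j) := isClosed_Icc.prod isClosed_Icc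
  have hmem : p ∈ sq n i j := hcl.frontier_subset hp
  unfold sq at hmem
  rw [mem_prod] at hmem
  refine ⟨hmem, ?_⟩
  unfold sq at hp
  rw [frontier_prod_eq, frontier_Icc hi, frontier_Icc hj] at hp
  rcases hp with hp | hp
  · rcases hp.2 with h | h
    · exact Or.inr (Or.inr (Or.inl h))
    · exact Or.inr (Or.inr (Or.inr h))
  · rcases hp.1 with h | h
    · exact Or.inl h
    · exact Or.inr (Or.inl h)

/-- [CAR-Y] -/
theorem hasArcs_right {n i j : ℕ} (h1 : IsCell n i j) (h2 : IsCell n (i + 1) j)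
    {Z : Set (ℝ × ℝ)} (hZ : IsClosed Z) (hZK : Z ⊆ carpet) (hsub : sq n i j ∩ carpet ⊆ Z)
    {p : ℝ × ℝ} (hp : p ∈ frontier (sq n (i + 1) j)) (hpZ : p ∉ Z) (N : ℕ) : HasArcs Z N := by
  have hpc : p ∈ carpet := h2.frontier_subset hp
  obtain ⟨⟨hp1, hp2⟩, hside⟩ := sym_mem_frontier_sq hp
  push_cast at hp1 hside
  have h3 : (0 : ℝ) < 3 ^ n := by positivity
  have e2 : ((i : ℝ) + 1 + 1) / 3 ^ n = (i + 2 : ℝ) / 3 ^ n := by ring
  rw [e2] at hp1 hside
  -- not on the left side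
  have hleft : p.1 ≠ ((i : ℝ) + 1) / 3 ^ n := by
    intro h
    apply hpZ
    apply hsub
    refine ⟨?_, hpc⟩
    unfold sq
    rw [mem_prod]
    refine ⟨⟨?_, h.le⟩, hp2⟩
    rw [h]
    gcongr
    linarith
  have hx : p.1 ∈ Ioc (((i : ℝ) + 1) / 3 ^ n) ((i + 2 : ℝ) / 3 ^ n) :=
    ⟨lt_of_le_of_ne hp1.1 (Ne.symm hleft), hp1.2⟩
  by_cases hbot : p.2 = (j : ℝ) / 3 ^ n
  · refine hasArcs_bottom h1 h2 hZ hZK hsub hx ?_ N
    rw [← hbot]
    exact hpZ
  by_cases htop : p.2 = ((j : ℝ) + 1) / 3 ^ n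
  · -- reflect
    apply hasArcs_of_swap
    apply hasArcs_of_flip
    apply hasArcs_of_swap
    have hj : j < 3 ^ n := h1.2.1
    have hc1 : IsCell n i (3 ^ n - 1 - j) := h1.swap.flip.swap
    have hc2 : IsCell n (i + 1) (3 ^ n - 1 - j) := h2.swap.flip.swap
    have hcast : ((3 ^ n - 1 - j : ℕ) : ℝ) = 3 ^ n - 1 - j := by
      have h1 : j ≤ 3 ^ n - 1 := by omega
      have h2 : 1 ≤ 3 ^ n := Nat.one_le_pow _ _ (by norm_num)
      rw [Nat.cast_sub h1, Nat.cast_sub h2]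
      push_cast
      ring
    have hcar : ∀ q : ℝ × ℝ, (q.1, 1 - q.2) ∈ carpet ↔ q ∈ carpet := by
      intro q
      have a1 : (q.1, 1 - q.2) ∈ carpet ↔ (1 - q.2, q.1) ∈ carpet :=
        swap_mem_carpet (p := (1 - q.2, q.1))
      have a2 : (1 - q.2, q.1) ∈ carpet ↔ (q.2, q.1) ∈ carpet :=
        flip_mem_carpet (p := (q.2, q.1))
      have a3 : (q.2, q.1) ∈ carpet ↔ q ∈ carpet := swap_mem_carpet
      exact a1.trans (a2.trans a3)
    have hcl : IsClosed {q : ℝ × ℝ | (q.1, 1 - q.2) ∈ Z} :=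
      hZ.preimage (by fun_prop : Continuous fun q : ℝ × ℝ => (q.1, 1 - q.2))
    refine hasArcs_bottom (Z := {q : ℝ × ℝ | (q.1, 1 - q.2) ∈ Z}) hc1 hc2 hcl ?_ ?_ hx ?_ N
    · intro q hq
      exact (hcar q).1 (hZK hq)
    · rintro q ⟨hq, hqc⟩
      apply hsub
      refine ⟨?_, (hcar q).2 hqc⟩
      unfold sq at hq ⊢
      rw [mem_prod] at hq ⊢
      obtain ⟨hq1, hq2⟩ := hq
      refine ⟨hq1, ?_⟩
      rw [hcast, mem_Icc] at hq2
      have e1 : (3 ^ n - 1 - (j : ℝ)) / 3 ^ n = 1 - (j + 1) / 3 ^ n := by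
        field_simp
        ring
      have e2 : (3 ^ n - 1 - (j : ℝ) + 1) / 3 ^ n = 1 - j / 3 ^ n := by
        field_simp
        ring
      rw [e1, e2] at hq2
      exact ⟨by simp only; linarith [hq2.2], by simp only; linarith [hq2.1]⟩
    · intro hmem
      apply hpZ
      have e3 : p = (p.1, 1 - ((3 ^ n - 1 - j : ℕ) : ℝ) / 3 ^ n) := by
        ext
        · rfl
        · rw [htop, hcast]
          field_simp
          ring
      rw [e3]
      exact hmem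
  · -- right side
    have hright : p.1 = (i + 2 : ℝ) / 3 ^ n := by
      rcases hside with h | h | h | h
      · exact absurd h hleft
      · exact h
      · exact absurd h hbot
      · exact absurd h htop
    have hy : p.2 ∈ Ioo ((j : ℝ) / 3 ^ n) ((j + 1 : ℝ) / 3 ^ n) :=
      ⟨lt_of_le_of_ne hp2.1 (Ne.symm hbot), lt_of_le_of_ne hp2.2 htop⟩
    refine hasArcs_rightside h1 h2 hZ hZK hsub hy ?_ N
    rw [← hright]
    exact hpZ

theorem hasArcs_left {n i j : ℕ} (h1 : IsCell n i j) (h2 : IsCell n (i + 1) j)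
    {Z : Set (ℝ × ℝ)} (hZ : IsClosed Z) (hZK : Z ⊆ carpet) (hsub : sq n (i + 1) j ∩ carpet ⊆ Z)
    {p : ℝ × ℝ} (hp : p ∈ frontier (sq n i j)) (hpZ : p ∉ Z) (N : ℕ) : HasArcs Z N := by
  apply hasArcs_of_flip
  change HasArcs (symFlip ⁻¹' Z) N
  have hi : i + 1 < 3 ^ n := h2.1
  have e : 3 ^ n - 1 - i = (3 ^ n - 1 - (i + 1)) + 1 := by omega
  have c2 : IsCell n ((3 ^ n - 1 - (i + 1)) + 1) j := by
    rw [← e]
    exact h1.flip
  have c1 : IsCell n (3 ^ n - 1 - (i + 1)) j := h2.flip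
  refine hasArcs_right c1 c2 (hZ.preimage symFlip.continuous) ?_ ?_ (p := symFlip p) ?_ ?_ N
  · intro q hq
    exact flip_mem_carpet.1 (hZK hq)
  · rintro q ⟨hq, hqc⟩
    rw [← sym_sq_flip hi] at hq
    exact hsub ⟨hq, flip_mem_carpet.2 hqc⟩
  · rw [← e, ← sym_sq_flip (by omega), ← symFlip.preimage_frontier, mem_preimage]
    have : symFlip (symFlip p) = p := symFlip.left_inv p
    rw [this]
    exact hp
  · rw [mem_preimage]
    have : symFlip (symFlip p) = p := symFlip.left_inv p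
    rw [this]
    exact hpZ

theorem sym_swap_aux {n i j i' j' : ℕ}
    {Z : Set (ℝ × ℝ)} (hZ : IsClosed Z) (hZK : Z ⊆ carpet) (hsub : sq n j i ∩ carpet ⊆ Z)
    {p : ℝ × ℝ} (hp : p ∈ frontier (sq n j' i')) (hpZ : p ∉ Z) :
    IsClosed (symSwap ⁻¹' Z) ∧ symSwap ⁻¹' Z ⊆ carpet ∧ sq n i j ∩ carpet ⊆ symSwap ⁻¹' Z ∧
    symSwap p ∈ frontier (sq n i' j') ∧ symSwap p ∉ symSwap ⁻¹' Z := by
  have hpp : symSwap (symSwap p) = p := rfl
  refine ⟨hZ.preimage symSwap.continuous, ?_, ?_, ?_, ?_⟩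
  · intro q hq
    exact swap_mem_carpet.1 (hZK hq)
  · rintro q ⟨hq, hqc⟩
    rw [← sym_sq_swap] at hq
    exact hsub ⟨hq, swap_mem_carpet.2 hqc⟩
  · rw [← sym_sq_swap, ← symSwap.preimage_frontier, mem_preimage, hpp]
    exact hp
  · rw [mem_preimage, hpp]
    exact hpZ

theorem hasArcs_up {n i j : ℕ} (h1 : IsCell n i j) (h2 : IsCell n i (j + 1))
    {Z : Set (ℝ × ℝ)} (hZ : IsClosed Z) (hZK : Z ⊆ carpet) (hsub : sq n i j ∩ carpet ⊆ Z)
    {p : ℝ × ℝ} (hp : p ∈ frontier (sq n i (j + 1))) (hpZ : p ∉ Z) (N : ℕ) : HasArcs Z N := by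
  apply hasArcs_of_swap
  obtain ⟨a, b, c, d, f⟩ := sym_swap_aux hZ hZK hsub hp hpZ
  exact hasArcs_right h1.swap h2.swap a b c d f N

theorem hasArcs_down {n i j : ℕ} (h1 : IsCell n i j) (h2 : IsCell n i (j + 1))
    {Z : Set (ℝ × ℝ)} (hZ : IsClosed Z) (hZK : Z ⊆ carpet) (hsub : sq n i (j + 1) ∩ carpet ⊆ Z)
    {p : ℝ × ℝ} (hp : p ∈ frontier (sq n i j)) (hpZ : p ∉ Z) (N : ℕ) : HasArcs Z N := by
  apply hasArcs_of_swap
  obtain ⟨a, b, c, d, f⟩ := sym_swap_aux hZ hZK hsub hp hpZ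
  exact hasArcs_left h1.swap h2.swap a b c d f N

/-- [CAR-Y] the conclusion of the planar construction -/
theorem hasArcs {Z : Set (ℝ × ℝ)} (hZ : IsClosed Z) (hZK : Z ⊆ carpet)
    (hint : ∃ O : Set (ℝ × ℝ), IsOpen O ∧ (O ∩ carpet).Nonempty ∧ O ∩ carpet ⊆ Z)
    (hne : ∃ p ∈ carpet, p ∉ Z)
    (hMP : ∀ n i j, IsCell n i j → frontier (sq n i j) ⊆ Z → sq n i j ∩ carpet ⊆ Z)
    (N : ℕ) : HasArcs Z N := by
  classical
  by_contra hcon
  -- the four adjacency implications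
  have HR : ∀ {n i j : ℕ}, IsCell n i j → IsCell n (i + 1) j →
      (sq n i j ∩ carpet ⊆ Z ↔ sq n (i + 1) j ∩ carpet ⊆ Z) := by
    intro n i j c1 c2
    constructor
    · intro hs
      by_contra hs'
      have : ¬ frontier (sq n (i + 1) j) ⊆ Z := fun hf => hs' (hMP _ _ _ c2 hf)
      obtain ⟨p, hp, hpZ⟩ := Set.not_subset.1 this
      exact hcon (hasArcs_right c1 c2 hZ hZK hs hp hpZ N)
    · intro hs
      by_contra hs'
      have : ¬ frontier (sq n i j) ⊆ Z := fun hf => hs' (hMP _ _ _ c1 hf)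
      obtain ⟨p, hp, hpZ⟩ := Set.not_subset.1 this
      exact hcon (hasArcs_left c1 c2 hZ hZK hs hp hpZ N)
  have HU : ∀ {n i j : ℕ}, IsCell n i j → IsCell n i (j + 1) →
      (sq n i j ∩ carpet ⊆ Z ↔ sq n i (j + 1) ∩ carpet ⊆ Z) := by
    intro n i j c1 c2
    constructor
    · intro hs
      by_contra hs'
      have : ¬ frontier (sq n i (j + 1)) ⊆ Z := fun hf => hs' (hMP _ _ _ c2 hf)
      obtain ⟨p, hp, hpZ⟩ := Set.not_subset.1 this
      exact hcon (hasArcs_up c1 c2 hZ hZK hs hp hpZ N)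
    · intro hs
      by_contra hs'
      have : ¬ frontier (sq n i j) ⊆ Z := fun hf => hs' (hMP _ _ _ c1 hf)
      obtain ⟨p, hp, hpZ⟩ := Set.not_subset.1 this
      exact hcon (hasArcs_down c1 c2 hZ hZK hs hp hpZ N)
  -- a cell of minimal level
  have hex : ∃ n i j, IsCell n i j ∧ sq n i j ∩ carpet ⊆ Z := by
    obtain ⟨O, hO, hOn, hOZ⟩ := hint
    obtain ⟨n, i, j, hc, hs⟩ := exists_cell_subset hO hOn
    exact ⟨n, i, j, hc, fun p hp => hOZ ⟨hs hp.1, hp.2⟩⟩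
  have hmain : ∀ n i j, IsCell n i j → sq n i j ∩ carpet ⊆ Z → False := by
    intro n
    induction n with
    | zero =>
      intro i j hc hs
      obtain ⟨p, hp, hpZ⟩ := hne
      apply hpZ
      apply hs
      refine ⟨?_, hp⟩
      have hi : i = 0 := by have := hc.1; simpa using this
      have hj : j = 0 := by have := hc.2.1; simpa using this
      subst hi hj
      obtain ⟨⟨h1, h2⟩, _⟩ := hp
      unfold sq
      rw [mem_prod]
      simpa using ⟨h1, h2⟩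
    | succ n ih =>
      intro i j hc hs
      obtain ⟨hpar, hnot⟩ := hc.parent
      refine ih (i / 3) (j / 3) hpar ?_
      rintro p ⟨hp, hpc⟩
      obtain ⟨a, b, ha, hb, hab, hpab⟩ := hpar.cover hp hpc
      have hC := fun (a b : ℕ) (ha : a < 3) (hb : b < 3) (hab : ¬ (a = 1 ∧ b = 1)) =>
        hpar.child ha hb hab
      have c00 := hC 0 0 (by norm_num) (by norm_num) (by norm_num)
      have c10 := hC 1 0 (by norm_num) (by norm_num) (by norm_num)
      have c20 := hC 2 0 (by norm_num) (by norm_num) (by norm_num)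
      have c21 := hC 2 1 (by norm_num) (by norm_num) (by norm_num)
      have c22 := hC 2 2 (by norm_num) (by norm_num) (by norm_num)
      have c12 := hC 1 2 (by norm_num) (by norm_num) (by norm_num)
      have c02 := hC 0 2 (by norm_num) (by norm_num) (by norm_num)
      have c01 := hC 0 1 (by norm_num) (by norm_num) (by norm_num)
      obtain ⟨G, hG⟩ : ∃ G : ℕ → ℕ → Prop, ∀ a b,
          G a b ↔ sq (n + 1) (3 * (i / 3) + a) (3 * (j / 3) + b) ∩ carpet ⊆ Z :=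
        ⟨fun a b => sq (n + 1) (3 * (i / 3) + a) (3 * (j / 3) + b) ∩ carpet ⊆ Z,
          fun a b => Iff.rfl⟩
      have r1 : G 0 0 ↔ G 1 0 := (hG 0 0).trans ((HR c00 c10).trans (hG 1 0).symm)
      have r2 : G 1 0 ↔ G 2 0 := (hG 1 0).trans ((HR c10 c20).trans (hG 2 0).symm)
      have r3 : G 2 0 ↔ G 2 1 := (hG 2 0).trans ((HU c20 c21).trans (hG 2 1).symm)
      have r4 : G 2 1 ↔ G 2 2 := (hG 2 1).trans ((HU c21 c22).trans (hG 2 2).symm)
      have r5 : G 0 2 ↔ G 1 2 := (hG 0 2).trans ((HR c02 c12).trans (hG 1 2).symm)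
      have r6 : G 1 2 ↔ G 2 2 := (hG 1 2).trans ((HR c12 c22).trans (hG 2 2).symm)
      have r7 : G 0 0 ↔ G 0 1 := (hG 0 0).trans ((HU c00 c01).trans (hG 0 1).symm)
      have r8 : G 0 1 ↔ G 0 2 := (hG 0 1).trans ((HU c01 c02).trans (hG 0 2).symm)
      have hs0 : G (i % 3) (j % 3) := by
        rw [hG, Nat.div_add_mod, Nat.div_add_mod]
        exact hs
      have ha0 : i % 3 < 3 := Nat.mod_lt _ (by norm_num)
      have hb0 : j % 3 < 3 := Nat.mod_lt _ (by norm_num)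
      have e10 : G 1 0 ↔ G 0 0 := r1.symm
      have e20 : G 2 0 ↔ G 0 0 := r2.symm.trans e10
      have e21 : G 2 1 ↔ G 0 0 := r3.symm.trans e20
      have e22 : G 2 2 ↔ G 0 0 := r4.symm.trans e21
      have e12 : G 1 2 ↔ G 0 0 := r6.trans e22
      have e02 : G 0 2 ↔ G 0 0 := r5.trans e12
      have e01 : G 0 1 ↔ G 0 0 := r7.symm
      have hG0 : ∀ a b : ℕ, a < 3 → b < 3 → ¬ (a = 1 ∧ b = 1) → (G a b ↔ G 0 0) := by
        intro a b ha hb hab
        interval_cases a <;> interval_cases b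
        · exact Iff.rfl
        · exact e01
        · exact e02
        · exact e10
        · exact absurd ⟨rfl, rfl⟩ hab
        · exact e12
        · exact e20
        · exact e21
        · exact e22
      have hall : G a b := (hG0 a b ha hb hab).2 ((hG0 _ _ ha0 hb0 hnot).1 hs0)
      exact (hG a b).1 hall ⟨hpab, hpc⟩
  obtain ⟨n, i, j, hc, hs⟩ := hex
  exact hmain n i j hc hs

end CAR
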