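import Pool.Agent.MP_eabe7c_an.Core
import Pool.Agent.MP_eabe7c_an.Sym
import Pool.Agent.MP_eabe7c_an.Circ
import Pool.Agent.MP_eabe7c_an.Nb
import Pool.Agent.MP_eabe7c_an.Conn

open MeasureTheory Set Topology Filter

namespace CAR

/-- the zero set as a planar set -/
theorem isClosed_zeroSet (g : C(carpet, ℝ)) :
    IsClosed ((Subtype.val : carpet → ℝ × ℝ) '' {x | g x = 0}) := by
  have h1 : IsClosed {x : carpet | g x = 0} := isClosed_eq g.continuous continuous_const
  exact (h1.isCompact.image continuous_subtype_val).isClosed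

theorem isClosed_diff_image {W : Set carpet} (hW : IsOpen W) :
    IsClosed (carpet \ ((Subtype.val : carpet → ℝ × ℝ) '' W)) := by
  have h1 : carpet \ ((Subtype.val : carpet → ℝ × ℝ) '' W) = Subtype.val '' Wᶜ := by
    ext p
    constructor
    · rintro ⟨hp, hn⟩
      exact ⟨⟨p, hp⟩, fun hw => hn ⟨_, hw, rfl⟩, rfl⟩
    · rintro ⟨x, hx, rfl⟩
      refine ⟨x.2, ?_⟩
      rintro ⟨y, hy, hyx⟩
      exact hx (Subtype.val_injective hyx ▸ hy)
  rw [h1]
  exact (hW.isClosed_compl.isCompact.image continuous_subtype_val).isClosed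

/-- the maximum principle on cells -/
theorem cell_max_principle {μ : Measure carpet} [IsFiniteMeasure μ] [μ.IsOpenPosMeasure]
    (D : DForm carpet μ) {V : Set carpet} (hVn : V.Nonempty) (hV0 : V ⊆ V0)
    {g : C(carpet, ℝ)} (hg : D.HarmonicOff V g) (n i j : ℕ) (hc : IsCell n i j)
    (hfr : frontier (sq n i j) ⊆ (Subtype.val : carpet → ℝ × ℝ) '' {x | g x = 0}) :
    sq n i j ∩ carpet ⊆ (Subtype.val : carpet → ℝ × ℝ) '' {x | g x = 0} := by
  have hsqc : IsClosed (sq n i j) := isClosed_Icc.prod isClosed_Icc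
  set O : Set carpet := Subtype.val ⁻¹' interior (sq n i j) with hO
  have hOo : IsOpen O := isOpen_interior.preimage continuous_subtype_val
  have hint : ∀ p ∈ interior (sq n i j), p.1 ∈ Ioo (0 : ℝ) 1 ∧ p.2 ∈ Ioo (0 : ℝ) 1 := by
    intro p hp
    have h3 : (0 : ℝ) < 3 ^ n := by positivity
    have e : interior (sq n i j) = Ioo ((i : ℝ) / 3 ^ n) ((i + 1 : ℝ) / 3 ^ n) ×ˢ
        Ioo ((j : ℝ) / 3 ^ n) ((j + 1 : ℝ) / 3 ^ n) := by
      unfold sq
      rw [interior_prod_eq, interior_Icc, interior_Icc]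
    rw [e] at hp
    have hi : (i : ℝ) + 1 ≤ 3 ^ n := by exact_mod_cast hc.1
    have hj : (j : ℝ) + 1 ≤ 3 ^ n := by exact_mod_cast hc.2.1
    have hi1 : (i + 1 : ℝ) / 3 ^ n ≤ 1 := (div_le_one h3).2 hi
    have hj1 : (j + 1 : ℝ) / 3 ^ n ≤ 1 := (div_le_one h3).2 hj
    have hi0 : (0 : ℝ) ≤ (i : ℝ) / 3 ^ n := by positivity
    have hj0 : (0 : ℝ) ≤ (j : ℝ) / 3 ^ n := by positivity
    exact ⟨⟨hi0.trans_lt hp.1.1, hp.1.2.trans_le hi1⟩, ⟨hj0.trans_lt hp.2.1, hp.2.2.trans_le hj1⟩⟩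
  have hOV : Disjoint O V := by
    rw [Set.disjoint_left]
    intro x hx hxV
    have h1 := hint _ hx
    rcases hV0 hxV with h | h | h | h
    · exact absurd h (ne_of_gt h1.1.1)
    · exact absurd h (ne_of_lt h1.1.2)
    · exact absurd h (ne_of_gt h1.2.1)
    · exact absurd h (ne_of_lt h1.2.2)
  have hne : O ≠ univ := by
    obtain ⟨x, hx⟩ := hVn
    intro h
    exact (Set.disjoint_left.1 hOV) (h ▸ mem_univ x) hx
  have hz : ∀ x : carpet, x.1 ∈ frontier (sq n i j) → g x = 0 := by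
    intro x hx
    obtain ⟨y, hy, hyx⟩ := hfr hx
    rw [← Subtype.val_injective hyx]
    exact hy
  have hfrO : ∀ x ∈ frontier O, g x = 0 := by
    intro x hx
    apply hz
    rw [frontier, hOo.interior_eq] at hx
    rw [hsqc.frontier_eq]
    refine ⟨?_, hx.2⟩
    have h1 : closure O ⊆ Subtype.val ⁻¹' (sq n i j) :=
      closure_minimal (preimage_mono interior_subset) (hsqc.preimage continuous_subtype_val)
    exact h1 hx.1
  have hmp := D.max_principle hOo hOV hne hg hfrO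
  rintro p ⟨hp, hpc⟩
  refine ⟨⟨p, hpc⟩, ?_, rfl⟩
  by_cases hpi : p ∈ interior (sq n i j)
  · exact hmp _ hpi
  · apply hz
    rw [hsqc.frontier_eq]
    exact ⟨hp, hpi⟩

/-- pigeonhole -/
theorem exists_quadruple' {ι : Type*} [Fintype ι] {n : ℕ} (hn : Fintype.card ι ^ 2 < n)
    (a : Fin (2 * n) → ι) :
    ∃ i j k l : Fin (2 * n), i < j ∧ j < k ∧ k < l ∧
      Even i.1 ∧ ¬ Even j.1 ∧ Even k.1 ∧ ¬ Even l.1 ∧ a i = a k ∧ a j = a l := by
  classical
  let p : Fin n → ι × ι := fun x => (a ⟨2 * x.1, by omega⟩, a ⟨2 * x.1 + 1, by omega⟩)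
  have hcard : Fintype.card (ι × ι) < Fintype.card (Fin n) := by
    rw [Fintype.card_prod, Fintype.card_fin, ← pow_two]
    exact hn
  obtain ⟨x, y, hxy, hp⟩ := Fintype.exists_ne_map_eq_of_card_lt p hcard
  have key : ∀ x y : Fin n, x < y → p x = p y →
      ∃ i j k l : Fin (2 * n), i < j ∧ j < k ∧ k < l ∧
      Even i.1 ∧ ¬ Even j.1 ∧ Even k.1 ∧ ¬ Even l.1 ∧ a i = a k ∧ a j = a l := by
    intro x y hlt hp
    have hlt' : x.1 < y.1 := hlt
    refine ⟨⟨2 * x.1, by omega⟩, ⟨2 * x.1 + 1, by omega⟩, ⟨2 * y.1, by omega⟩,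
      ⟨2 * y.1 + 1, by omega⟩, ?_, ?_, ?_, ?_, ?_, ?_, ?_, ?_, ?_⟩
    · show 2 * x.1 < 2 * x.1 + 1
      omega
    · show 2 * x.1 + 1 < 2 * y.1
      omega
    · show 2 * y.1 < 2 * y.1 + 1
      omega
    · exact even_two_mul _
    · exact Nat.not_even_two_mul_add_one _
    · exact even_two_mul _
    · exact Nat.not_even_two_mul_add_one _
    · exact congrArg Prod.fst hp
    · exact congrArg Prod.snd hp
  rcases lt_or_gt_of_ne hxy with h | h
  · exact key x y h hp
  · exact key y x h hp.symm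

theorem exists_quadruple {ι : Type*} [Fintype ι] (a : Fin (2 * (Fintype.card ι ^ 2 + 1)) → ι) :
    ∃ i j k l : Fin (2 * (Fintype.card ι ^ 2 + 1)), i < j ∧ j < k ∧ k < l ∧
      Even i.1 ∧ ¬ Even j.1 ∧ Even k.1 ∧ ¬ Even l.1 ∧ a i = a k ∧ a j = a l :=
  exists_quadruple' (Nat.lt_succ_self _) a

/-- **Main theorem**: zero sets. -/
theorem interior_eq_empty {μ : Measure carpet} [IsFiniteMeasure μ] [μ.IsOpenPosMeasure]
    (D : DForm carpet μ) {V : Set carpet} (hV : IsClosed V) (hVn : V.Nonempty) (hV0 : V ⊆ V0)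
    {g : C(carpet, ℝ)} (hg : D.HarmonicOff V g) (hne : ∃ x, g x ≠ 0)
    (hc : FinSignChanges V g 0) : interior {x | g x = 0} = ∅ := by
  classical
  by_contra hint
  rw [← ne_eq, ← nonempty_iff_ne_empty] at hint
  set Z : Set (ℝ × ℝ) := (Subtype.val : carpet → ℝ × ℝ) '' {x | g x = 0} with hZdef
  have hZ : IsClosed Z := isClosed_zeroSet g
  have hZK : Z ⊆ carpet := by
    rintro _ ⟨x, -, rfl⟩
    exact x.2
  obtain ⟨𝒜, h𝒜f, h𝒜, hcov⟩ := hc
  let _ : Fintype 𝒜 := h𝒜f.fintype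
  obtain ⟨Q, T, s, hQc, hQfr, hQZ, hQS, hTZ, hTS, hTc, hTd, hTQ, hTcl, hsT, hsc, hcross⟩ :=
    hasArcs (Z := Z) hZ hZK (by
      obtain ⟨x, hx⟩ := hint
      obtain ⟨W, hWo, hW⟩ := isOpen_induced_iff.1 (isOpen_interior (s := {x : carpet | g x = 0}))
      refine ⟨W, hWo, ⟨x.1, ?_, x.2⟩, ?_⟩
      · have : x ∈ Subtype.val ⁻¹' W := hW ▸ hx
        exact this
      · rintro p ⟨hpW, hpc⟩
        refine ⟨⟨p, hpc⟩, ?_, rfl⟩
        have : (⟨p, hpc⟩ : carpet) ∈ interior {x : carpet | g x = 0} := hW ▸ hpW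
        exact interior_subset this) (by
      obtain ⟨x, hx⟩ := hne
      refine ⟨x.1, x.2, ?_⟩
      rintro ⟨y, hy, hyx⟩
      rw [Subtype.val_injective hyx] at hy
      exact hx hy) (fun n i j h1 h2 => cell_max_principle D hVn hV0 hg n i j h1 h2)
      (2 * (Fintype.card 𝒜 ^ 2 + 1))
  -- the sets in the carpet
  set Q' : Set carpet := Subtype.val ⁻¹' Q with hQ'
  set T' : Fin (2 * (Fintype.card 𝒜 ^ 2 + 1)) → Set carpet := fun k => Subtype.val ⁻¹' (T k) with hT'
  have hsK : ∀ k, s k ∈ carpet := fun k => hZK (hTZ k (hsT k))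
  set s' : Fin (2 * (Fintype.card 𝒜 ^ 2 + 1)) → carpet := fun k => ⟨s k, hsK k⟩ with hs'
  set σ : Fin (2 * (Fintype.card 𝒜 ^ 2 + 1)) → ℝ := fun k => if Even k.1 then 1 else -1 with hσ
  have hσ1 : ∀ k, σ k = 1 ∨ σ k = -1 := by
    intro k
    by_cases h : Even k.1
    · left; simp [hσ, h]
    · right; simp [hσ, h]
  have hzero : ∀ x : carpet, x.1 ∈ Z → g x = 0 := by
    rintro x ⟨y, hy, hyx⟩
    rw [← Subtype.val_injective hyx]; exact hy
  have hTimg : ∀ k, (Subtype.val : carpet → ℝ × ℝ) '' T' k = T k := by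
    intro k
    rw [hT']
    simp only [Subtype.image_preimage_coe]
    exact inter_eq_right.2 ((hTZ k).trans hZK)
  have hT'pre : ∀ k, IsPreconnected (T' k) := by
    intro k
    rw [← Topology.IsInducing.subtypeVal.isPreconnected_image, hTimg k]
    exact hTc k
  obtain ⟨u, hu, huV, huQ, huT, huY⟩ := D.core (V := V) (Q := Q') hV hVn
    (hQc.preimage continuous_subtype_val) hg (T := T') (s := s')
    (fun x hx => hzero x (hQZ ⟨hx, x.2⟩)) (fun k x hx => hzero x (hTZ k hx)) hT'pre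
    (fun k l hkl => by
      rw [Set.disjoint_left]
      intro x hx hx'
      exact (Set.disjoint_left.1 (hTd k l hkl)) hx hx')
    (fun k => by
      rw [Set.disjoint_left]
      intro x hx hx'
      exact (Set.disjoint_left.1 (hTQ k)) hx hx')
    (fun k => by
      rw [Set.disjoint_left]
      intro x hx hxV
      have h1 := hTS k x.1 hx
      rcases hV0 hxV with h | h | h | h
      · exact absurd h (ne_of_gt h1.1.1)
      · exact absurd h (ne_of_lt h1.1.2)
      · exact absurd h (ne_of_gt h1.2.1)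
      · exact absurd h (ne_of_lt h1.2.2))
    (fun k => (hTcl k).preimage continuous_subtype_val) (fun k => hsT k)
    (fun k hk => by
      have h1 := hsc k
      obtain ⟨W, hWo, hW⟩ := isOpen_induced_iff.1 (isOpen_interior (s := {x : carpet | g x = 0}))
      have h2 : s k ∈ W := by
        have : s' k ∈ Subtype.val ⁻¹' W := hW ▸ hk
        exact this
      obtain ⟨p, hpW, hpc, hpZ⟩ := mem_closure_iff.1 h1 W hWo h2
      apply hpZ
      refine ⟨⟨p, hpc⟩, ?_, rfl⟩
      have : (⟨p, hpc⟩ : carpet) ∈ interior {x : carpet | g x = 0} := hW ▸ hpW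
      exact interior_subset this) σ hσ1
  -- planar open sets
  set U : Fin (2 * (Fintype.card 𝒜 ^ 2 + 1)) → Set (ℝ × ℝ) :=
    fun k => Subtype.val '' {x : carpet | 0 < σ k * u x} with hU
  have hUo : ∀ k, IsOpen {x : carpet | 0 < σ k * u x} := fun k =>
    isOpen_lt continuous_const (continuous_const.mul u.continuous)
  have hUK : ∀ k, U k ⊆ carpet := by
    rintro k _ ⟨x, -, rfl⟩
    exact x.2
  have hUcl : ∀ k, IsClosed (carpet \ U k) := fun k => isClosed_diff_image (hUo k)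
  have hmemU : ∀ k (x : carpet), x.1 ∈ U k ↔ 0 < σ k * u x := by
    intro k x
    constructor
    · rintro ⟨y, hy, hyx⟩
      rw [← Subtype.val_injective hyx]; exact hy
    · intro h
      exact ⟨x, h, rfl⟩
  set G : Fin (2 * (Fintype.card 𝒜 ^ 2 + 1)) → Set (ℝ × ℝ) := fun k => nb carpet (U k) with hG
  have hGo : ∀ k, IsOpen (G k) := fun k => isOpen_nb _ _
  set W : Fin (2 * (Fintype.card 𝒜 ^ 2 + 1)) → Set (ℝ × ℝ) :=
    fun k => connectedComponentIn (G k) (s k) with hW
  have hsU : ∀ k, s k ∈ U k := fun k => ⟨s' k, huT k (s' k) (hsT k), rfl⟩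
  have hsG : ∀ k, s k ∈ G k := fun k => mem_nb_of_mem (hUcl k) (hsU k)
  have hWpc : ∀ k, IsPathConnected (W k) := fun k => isPathConnected_component (hGo k) (hsG k)
  have hGQ : ∀ k, Disjoint (G k) Q := by
    intro k
    have hUQ : Disjoint (U k) Q := by
      rw [Set.disjoint_left]
      rintro _ ⟨x, hx, rfl⟩ hxQ
      have := huQ x hxQ
      have hx0 : 0 < σ k * u x := hx
      rw [this, mul_zero] at hx0
      exact lt_irrefl _ hx0
    refine disjoint_nb_of_frontier hQc ?_ hUQ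
    intro p hp
    refine ⟨hQfr hp, fun hpU => (Set.disjoint_left.1 hUQ) hpU ?_⟩
    exact hQc.frontier_subset hp
  have hWG : ∀ k, W k ⊆ G k := fun k => connectedComponentIn_subset _ _
  have hTW : ∀ k, T k ⊆ W k := by
    intro k
    refine (hTc k).subset_connectedComponentIn (hsT k) ?_
    intro p hp
    have hpK : p ∈ carpet := hZK (hTZ k hp)
    exact mem_nb_of_mem (hUcl k) ⟨⟨p, hpK⟩, huT k ⟨p, hpK⟩ hp, rfl⟩
  -- the end points
  have hend : ∀ k, ∃ x : carpet, x.1 ∈ W k ∧ x ∈ V ∧ 0 < σ k * g x := by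
    intro k
    obtain ⟨x, hxY, hxV⟩ := huY k (Subtype.val ⁻¹' (W k))
      ((hGo k).connectedComponentIn.preimage continuous_subtype_val) (by
        have : ({x : carpet | 0 < σ k * u x} \ (Subtype.val ⁻¹' (W k))) =
            Subtype.val ⁻¹' (G k \ W k) := by
          ext x
          constructor
          · rintro ⟨h1, h2⟩
            exact ⟨mem_nb_of_mem (hUcl k) ((hmemU k x).2 h1), h2⟩
          · rintro ⟨h1, h2⟩
            exact ⟨(hmemU k x).1 (mem_of_mem_nb h1 x.2), h2⟩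
        rw [this]
        exact (isOpen_diff_component (hGo k) _).preimage continuous_subtype_val)
      (fun x hx => (hmemU k x).1 (mem_of_mem_nb (hWG k hx) x.2))
      (mem_connectedComponentIn (hsG k))
    refine ⟨x, hxY, hxV, ?_⟩
    have h1 := (hmemU k x).1 (mem_of_mem_nb (hWG k hxY) x.2)
    rwa [huV x hxV] at h1
  choose e heW heV heg using hend
  have hgne : ∀ k, g (e k) ≠ 0 := by
    intro k h0
    have := heg k
    rw [h0, mul_zero] at this
    exact lt_irrefl _ this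
  choose A hA using fun k => hcov (e k) (heV k) (hgne k)
  obtain ⟨i, j, k, l, hij, hjk, hkl, ei, ej, ek, el, haik, hajl⟩ :=
    exists_quadruple (fun k => (⟨A k, (hA k).1⟩ : 𝒜))
  have hAik : A i = A k := congrArg Subtype.val haik
  have hAjl : A j = A l := congrArg Subtype.val hajl
  have si : σ i = 1 := by simp [hσ, ei]
  have sk : σ k = 1 := by simp [hσ, ek]
  have sj : σ j = -1 := by simp [hσ, ej]
  have sl : σ l = -1 := by simp [hσ, el]
  have gi : 0 < g (e i) := by have := heg i; rwa [si, one_mul] at this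
  have gk : 0 < g (e k) := by have := heg k; rwa [sk, one_mul] at this
  have gj : g (e j) < 0 := by have := heg j; rw [sj] at this; linarith
  have gl : g (e l) < 0 := by have := heg l; rw [sl] at this; linarith
  -- the boundary pieces
  have hAi : ∀ x ∈ A i, 0 ≤ g x := by
    rcases (h𝒜 _ (hA i).1).2.2 with h | h
    · exact h
    · exact absurd (h _ (hA i).2) (not_le.2 gi)
  have hAj : ∀ x ∈ A j, g x ≤ 0 := by
    rcases (h𝒜 _ (hA j).1).2.2 with h | h
    · exact absurd (h _ (hA j).2) (not_le.2 gj)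
    · exact h
  have hbd : ∀ k, (Subtype.val : carpet → ℝ × ℝ) '' A k ⊆ bd := by
    rintro k _ ⟨x, hx, rfl⟩
    refine ⟨x.2.1, ?_⟩
    exact hV0 ((h𝒜 _ (hA k).1).1 hx)
  have hpre : ∀ k, IsPreconnected ((Subtype.val : carpet → ℝ × ℝ) '' A k) := fun k =>
    (h𝒜 _ (hA k).1).2.1.image _ continuous_subtype_val.continuousOn
  have hmemA : ∀ (B : Set carpet) (x : carpet), x.1 ∈ (Subtype.val : carpet → ℝ × ℝ) '' B ↔ x ∈ B := by
    intro B x
    constructor
    · rintro ⟨y, hy, hyx⟩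
      rw [← Subtype.val_injective hyx]; exact hy
    · intro h
      exact ⟨x, h, rfl⟩
  obtain ⟨A', B', hA'A, hB'B, hA'pc, hB'pc, hi', hk', hj', hl', hA'B'⟩ :=
    circ_join (hbd i) (hbd j) (hpre i) (hpre j) (a1 := (e i).1) (a2 := (e k).1)
      (b1 := (e j).1) (b2 := (e l).1) ((hmemA _ _).2 (hA i).2)
      ((hmemA _ _).2 (hAik ▸ (hA k).2))
      (fun h => absurd (hAj _ ((hmemA _ _).1 h)) (not_le.2 gi))
      (fun h => absurd (hAj _ ((hmemA _ _).1 h)) (not_le.2 gk))
      ((hmemA _ _).2 (hA j).2) ((hmemA _ _).2 (hAjl ▸ (hA l).2))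
      (fun h => absurd (hAi _ ((hmemA _ _).1 h)) (not_le.2 gj))
      (fun h => absurd (hAi _ ((hmemA _ _).1 h)) (not_le.2 gl))
  -- the two path connected sets
  have hGd : ∀ a b, σ a = 1 → σ b = -1 → Disjoint (G a) (G b) := by
    intro a b ha hb
    refine disjoint_nb (hUK a) (hUK b) ?_
    rw [Set.disjoint_left]
    rintro _ ⟨x, hx, rfl⟩ hx'
    have h1 : 0 < σ a * u x := hx
    have h2 := (hmemU b x).1 hx'
    rw [ha] at h1
    rw [hb] at h2
    linarith
  have hAG : ∀ b, σ b = -1 → Disjoint A' (G b) := by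
    intro b hb
    rw [Set.disjoint_left]
    intro p hp hpG
    obtain ⟨x, hx, rfl⟩ := hA'A hp
    have h1 := (hmemU b x).1 (mem_of_mem_nb hpG x.2)
    rw [huV x ((h𝒜 _ (hA i).1).1 hx), hb] at h1
    have := hAi x hx
    linarith
  have hBG : ∀ b, σ b = 1 → Disjoint B' (G b) := by
    intro b hb
    rw [Set.disjoint_left]
    intro p hp hpG
    obtain ⟨x, hx, rfl⟩ := hB'B hp
    have h1 := (hmemU b x).1 (mem_of_mem_nb hpG x.2)
    rw [huV x ((h𝒜 _ (hA j).1).1 hx), hb] at h1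
    have := hAj x hx
    linarith
  have hbdQ : ∀ p ∈ bd, p ∉ Q := by
    rintro p ⟨-, hp⟩ hpQ
    have h1 := hQS p hpQ
    rcases hp with h | h | h | h
    · exact absurd h (ne_of_gt h1.1.1)
    · exact absurd h (ne_of_lt h1.1.2)
    · exact absurd h (ne_of_gt h1.2.1)
    · exact absurd h (ne_of_lt h1.2.2)
  have hP : IsPathConnected ((W i ∪ A') ∪ W k) :=
    ((hWpc i).union hA'pc ⟨_, heW i, hi'⟩).union (hWpc k) ⟨_, Or.inr hk', heW k⟩
  have hP' : IsPathConnected ((W j ∪ B') ∪ W l) :=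
    ((hWpc j).union hB'pc ⟨_, heW j, hj'⟩).union (hWpc l) ⟨_, Or.inr hl', heW l⟩
  refine hcross i j k l hij hjk hkl _ _ hP hP' ?_ ?_ ?_ ?_ ?_ ?_ ?_
  · simp only [Set.disjoint_union_left, Set.disjoint_union_right]
    refine ⟨⟨⟨⟨?_, ?_⟩, ?_⟩, ⟨?_, ?_⟩, ?_⟩, ⟨?_, ?_⟩, ?_⟩
    all_goals first
      | exact (hGd i j si sj).mono (hWG i) (hWG j)
      | exact (hGd i l si sl).mono (hWG i) (hWG l)
      | exact (hGd k j sk sj).mono (hWG k) (hWG j)
      | exact (hGd k l sk sl).mono (hWG k) (hWG l)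
      | exact (hAG j sj).mono_right (hWG j)
      | exact (hAG l sl).mono_right (hWG l)
      | exact ((hBG i si).mono_right (hWG i)).symm
      | exact ((hBG k sk).mono_right (hWG k)).symm
      | exact hA'B'
  · simp only [Set.disjoint_union_left]
    refine ⟨⟨(hGQ i).mono_left (hWG i), ?_⟩, (hGQ k).mono_left (hWG k)⟩
    rw [Set.disjoint_left]
    exact fun p hp => hbdQ p (hbd i (hA'A hp))
  · simp only [Set.disjoint_union_left]
    refine ⟨⟨(hGQ j).mono_left (hWG j), ?_⟩, (hGQ l).mono_left (hWG l)⟩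
    rw [Set.disjoint_left]
    exact fun p hp => hbdQ p (hbd j (hB'B hp))
  · exact (hTW i).trans (subset_union_left.trans subset_union_left)
  · exact (hTW k).trans subset_union_right
  · exact (hTW j).trans (subset_union_left.trans subset_union_left)
  · exact (hTW l).trans subset_union_right

end CAR
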