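import Pool.Agent.MP_eabe7c_an.Irr

open MeasureTheory Set Topology Filter

namespace CAR

variable {X : Type*} [MetricSpace X] [CompactSpace X] [PreconnectedSpace X] [MeasurableSpace X] [BorelSpace X]
  {μ : Measure X}

namespace DForm

namespace MorreyAux

theorem integrable_of [IsFiniteMeasure μ] {f : X → ℝ} (hf : Continuous f) : Integrable f μ :=
  hf.integrable_of_hasCompactSupport (HasCompactSupport.of_compactSpace f)

section

variable {H : Type*} [NormedAddCommGroup H] [InnerProductSpace ℝ H] [CompleteSpace H]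

/-- A Hilbert space with a separable total family is separable. -/
theorem separable_of_total {ι : Type*} [Countable ι] (k : ι → H)
    (hk : ∀ a : H, (∀ i, inner ℝ (k i) a = 0) → a = 0) : TopologicalSpace.SeparableSpace H := by
  set K : Submodule ℝ H := (Submodule.span ℝ (range k)).topologicalClosure with hK
  have hKtop : K = ⊤ := by
    rw [hK, Submodule.topologicalClosure_eq_top_iff, Submodule.eq_bot_iff]
    intro a ha
    refine hk a fun i => ?_
    rw [Submodule.mem_orthogonal] at ha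
    exact ha _ (Submodule.subset_span (mem_range_self i))
  have h1 : TopologicalSpace.IsSeparable (Submodule.span ℝ (range k) : Set H) :=
    (TopologicalSpace.IsSeparable.span (R := ℝ)) (countable_range k).isSeparable
  have h2 : TopologicalSpace.IsSeparable (univ : Set H) := by
    have h3 := h1.closure
    have h4 : closure (Submodule.span ℝ (range k) : Set H) = univ := by
      have : ((Submodule.span ℝ (range k)).topologicalClosure : Set H) = univ := by
        rw [← hK, hKtop]; rfl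
      rwa [Submodule.topologicalClosure_coe] at this
    rwa [h4] at h3
  exact TopologicalSpace.isSeparable_univ_iff.1 h2

/-- Bounded sequences in a separable Hilbert space have weakly convergent subsequences. -/
theorem exists_weak_limit [TopologicalSpace.SeparableSpace H] (b : ℕ → H) (r : ℝ) (hb : ∀ n, ‖b n‖ ≤ r) :
    ∃ (a : H) (φ : ℕ → ℕ), StrictMono φ ∧
      ∀ g : H, Tendsto (fun n => inner ℝ (b (φ n)) g) atTop (𝓝 (inner ℝ a g)) := by
  let f : ℕ → WeakDual ℝ H := fun n => StrongDual.toWeakDual (InnerProductSpace.toDual ℝ H (b n))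
  have hf : ∀ n, f n ∈ WeakDual.toStrongDual ⁻¹' Metric.closedBall (0 : StrongDual ℝ H) r := by
    intro n
    rw [mem_preimage, Metric.mem_closedBall, dist_zero_right]
    show ‖InnerProductSpace.toDual ℝ H (b n)‖ ≤ r
    rw [LinearIsometryEquiv.norm_map]
    exact hb n
  obtain ⟨F, _, φ, hφ, hlim⟩ := WeakDual.isSeqCompact_closedBall ℝ H 0 r hf
  refine ⟨(InnerProductSpace.toDual ℝ H).symm (WeakDual.toStrongDual F), φ, hφ, fun g => ?_⟩
  have h1 := (WeakDual.eval_continuous (𝕜 := ℝ) (E := H) g).tendsto F |>.comp hlim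
  rw [InnerProductSpace.toDual_symm_apply]
  exact h1

end

end MorreyAux

open MorreyAux

/-- [CAR-H2] resistance estimate -/
theorem morrey [IsFiniteMeasure μ] [μ.IsOpenPosMeasure] (D : DForm X μ) :
    ∃ C : ℝ, 0 < C ∧ ∀ u ∈ D.dom, ∀ x y, (u x - u y) ^ 2 ≤ C * D.E u u := by
  classical
  rcases isEmpty_or_nonempty X with hX | ⟨⟨x₀⟩⟩
  · exact ⟨1, one_pos, fun u _ x => (hX.false x).elim⟩
  obtain ⟨H, iN, iI, iC, J, k, hJ, hk⟩ := D.exists_hilbert
  -- uniform bound of the evaluations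
  obtain ⟨B, hB⟩ : ∃ B : ℝ, ∀ x, ‖innerSL ℝ (k x)‖ ≤ B := by
    refine banach_steinhaus fun a => ⟨‖(J a : C(X, ℝ))‖, fun x => ?_⟩
    rw [innerSL_apply_apply, hk]
    exact ContinuousMap.norm_coe_le_norm _ x
  have hB0 : 0 ≤ B := (norm_nonneg _).trans (hB x₀)
  have hev : ∀ (x : X) (a : H), |(J a : C(X, ℝ)) x| ≤ B * ‖a‖ := by
    intro x a
    rw [← hk, ← innerSL_apply_apply ℝ, ← Real.norm_eq_abs]
    exact ((innerSL ℝ (k x)).le_opNorm a).trans
      (mul_le_mul_of_nonneg_right (hB x) (norm_nonneg _))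
  have hnorm : ∀ a : H, ‖a‖ ^ 2 = D.E (J a : C(X, ℝ)) (J a : C(X, ℝ)) +
      ∫ x, ((J a : C(X, ℝ)) x) ^ 2 ∂μ := by
    intro a
    rw [← real_inner_self_eq_norm_sq, hJ]
    refine congrArg (fun t => D.E (J a : C(X, ℝ)) (J a : C(X, ℝ)) + t) ?_
    exact integral_congr_ae (Eventually.of_forall fun x => (pow_two _).symm)
  have hsep : TopologicalSpace.SeparableSpace H := by
    have : Nonempty X := ⟨x₀⟩
    refine separable_of_total (fun i : ℕ => k (TopologicalSpace.denseSeq X i)) fun a ha => ?_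
    have h1 : ∀ i, (J a : C(X, ℝ)) (TopologicalSpace.denseSeq X i) = 0 := by
      intro i; rw [← hk]; exact ha i
    have h2 : (J a : C(X, ℝ)) = 0 := by
      have h3 : (⇑(J a : C(X, ℝ)) : X → ℝ) = fun _ => 0 :=
        (TopologicalSpace.denseRange_denseSeq X).equalizer (map_continuous _) continuous_const
          (funext h1)
      ext x
      rw [h3]; rfl
    have h4 : J a = 0 := Subtype.ext h2
    exact (LinearEquiv.map_eq_zero_iff J).1 h4
  -- coercivity
  obtain ⟨C', hC'0, hC'⟩ : ∃ C' : ℝ, 0 ≤ C' ∧ ∀ u ∈ D.dom, u x₀ = 0 →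
      ∫ x, (u x) ^ 2 ∂μ ≤ C' * D.E u u := by
    by_contra hcon
    push Not at hcon
    have hseq : ∀ n : ℕ, ∃ b : H, ‖b‖ = 1 ∧ (J b : C(X, ℝ)) x₀ = 0 ∧
        D.E (J b : C(X, ℝ)) (J b : C(X, ℝ)) ≤ 1 / (n + 1) := by
      intro n
      obtain ⟨u, hu, hu0, hun⟩ := hcon (n + 1) (by positivity)
      set a : H := J.symm ⟨u, hu⟩ with ha
      have hJa : (J a : C(X, ℝ)) = u := by rw [ha, LinearEquiv.apply_symm_apply]
      have hE := D.nonneg u hu
      have hn0 : (0 : ℝ) < n + 1 := by positivity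
      have hpos : 0 < ∫ x, (u x) ^ 2 ∂μ := lt_of_le_of_lt (by positivity) hun
      have hna := hnorm a
      rw [hJa] at hna
      have hna0 : 0 < ‖a‖ := by
        by_contra h
        have : ‖a‖ = 0 := le_antisymm (not_lt.1 h) (norm_nonneg _)
        rw [this] at hna
        nlinarith
      refine ⟨‖a‖⁻¹ • a, ?_, ?_, ?_⟩
      · rw [norm_smul, norm_inv, norm_norm, inv_mul_cancel₀ hna0.ne']
      · rw [map_smul]
        show (‖a‖⁻¹ • (J a : C(X, ℝ))) x₀ = 0
        rw [hJa, ContinuousMap.smul_apply, hu0, smul_zero]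
      · rw [map_smul]
        show D.E (‖a‖⁻¹ • (J a : C(X, ℝ))) (‖a‖⁻¹ • (J a : C(X, ℝ))) ≤ _
        rw [hJa, D.energy_smul _ hu, inv_pow, hna, ← div_eq_inv_mul, div_le_div_iff₀ (by linarith) hn0]
        nlinarith
    choose b hb1 hb0 hbE using hseq
    obtain ⟨a, φ, hφ, hlim⟩ := exists_weak_limit b 1 fun n => (hb1 n).le
    have hpt : ∀ x, Tendsto (fun n => (J (b (φ n)) : C(X, ℝ)) x) atTop
        (𝓝 ((J a : C(X, ℝ)) x)) := by
      intro x
      have h1 := hlim (k x)
      simp only [real_inner_comm (k x) _, hk] at h1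
      exact h1
    have hbd : ∀ n x, |(J (b (φ n)) : C(X, ℝ)) x| ≤ B := by
      intro n x
      have := hev x (b (φ n))
      rwa [hb1, mul_one] at this
    have hbda : ∀ x, |(J a : C(X, ℝ)) x| ≤ B := by
      intro x
      exact le_of_tendsto ((hpt x).abs) (Eventually.of_forall fun n => hbd n x)
    have hint1 : Tendsto (fun n => ∫ x, (J (b (φ n)) : C(X, ℝ)) x * (J a : C(X, ℝ)) x ∂μ) atTop
        (𝓝 (∫ x, (J a : C(X, ℝ)) x * (J a : C(X, ℝ)) x ∂μ)) := by
      refine tendsto_integral_of_dominated_convergence (fun _ => B * B) ?_ (integrable_const _) ?_ ?_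
      · intro n
        exact ((map_continuous _).mul (map_continuous _)).aestronglyMeasurable
      · intro n
        refine Eventually.of_forall fun x => ?_
        rw [Real.norm_eq_abs, abs_mul]
        exact mul_le_mul (hbd n x) (hbda x) (abs_nonneg _) hB0
      · exact Eventually.of_forall fun x => (hpt x).mul tendsto_const_nhds
    have hint2 : Tendsto (fun n => ∫ x, ((J (b (φ n)) : C(X, ℝ)) x) ^ 2 ∂μ) atTop
        (𝓝 (∫ x, ((J a : C(X, ℝ)) x) ^ 2 ∂μ)) := by
      refine tendsto_integral_of_dominated_convergence (fun _ => B ^ 2) ?_ (integrable_const _) ?_ ?_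
      · intro n
        exact ((map_continuous _).pow 2).aestronglyMeasurable
      · intro n
        refine Eventually.of_forall fun x => ?_
        rw [Real.norm_eq_abs, abs_pow]
        exact pow_le_pow_left₀ (abs_nonneg _) (hbd n x) 2
      · exact Eventually.of_forall fun x => (hpt x).pow 2
    have hEn : Tendsto (fun n => D.E (J (b (φ n)) : C(X, ℝ)) (J (b (φ n)) : C(X, ℝ))) atTop
        (𝓝 0) := by
      refine squeeze_zero (fun n => D.nonneg _ (J _).2) (fun n => hbE (φ n)) ?_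
      exact (tendsto_one_div_add_atTop_nhds_zero_nat (𝕜 := ℝ)).comp hφ.tendsto_atTop
    have hEa : Tendsto (fun n => D.E (J (b (φ n)) : C(X, ℝ)) (J a : C(X, ℝ))) atTop
        (𝓝 (D.E (J a : C(X, ℝ)) (J a : C(X, ℝ)))) := by
      have h1 := (hlim a).sub hint1
      simp only [hJ, add_sub_cancel_right] at h1
      exact h1
    have hEa0 : Tendsto (fun n => D.E (J (b (φ n)) : C(X, ℝ)) (J a : C(X, ℝ)) ^ 2) atTop
        (𝓝 0) := by
      refine squeeze_zero (fun n => sq_nonneg _)
        (fun n => D.cauchy_schwarz (J (b (φ n))).2 (J a).2) ?_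
      have := hEn.mul_const (D.E (J a : C(X, ℝ)) (J a : C(X, ℝ)))
      rwa [zero_mul] at this
    have hE0 : D.E (J a : C(X, ℝ)) (J a : C(X, ℝ)) = 0 := by
      have h1 := tendsto_nhds_unique (hEa.pow 2) hEa0
      exact pow_eq_zero_iff two_ne_zero |>.1 h1
    obtain ⟨c, hc⟩ := D.irreducible _ (J a).2 hE0
    have hx0 : (J a : C(X, ℝ)) x₀ = 0 := by
      have h1 := hpt x₀
      simp only [hb0] at h1
      exact tendsto_nhds_unique h1 tendsto_const_nhds
    have hc0 : c = 0 := by rw [← hc x₀, hx0]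
    have h0 : ∫ x, ((J a : C(X, ℝ)) x) ^ 2 ∂μ = 0 := by
      simp [hc, hc0]
    rw [h0] at hint2
    have h1 := hEn.add hint2
    have h2 : ∀ n, D.E (J (b (φ n)) : C(X, ℝ)) (J (b (φ n)) : C(X, ℝ)) +
        ∫ x, ((J (b (φ n)) : C(X, ℝ)) x) ^ 2 ∂μ = 1 := by
      intro n
      rw [← hnorm, hb1, one_pow]
    simp only [h2, add_zero] at h1
    have h3 := tendsto_nhds_unique h1 tendsto_const_nhds
    norm_num at h3
  -- conclusion
  have hmain : ∀ u ∈ D.dom, ∀ x, (u x - u x₀) ^ 2 ≤ B ^ 2 * (1 + C') * D.E u u := by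
    intro u hu x
    set w : C(X, ℝ) := u - ContinuousMap.const X (u x₀) with hw
    have hwm : w ∈ D.dom := D.dom.sub_mem hu (D.const_mem _)
    have hwE : D.E w w = D.E u u := D.energy_sub_const _ hu
    have hw0 : w x₀ = 0 := by simp [hw]
    have hwx : w x = u x - u x₀ := by simp [hw]
    have h1 := hC' w hwm hw0
    set a : H := J.symm ⟨w, hwm⟩ with ha
    have hJa : (J a : C(X, ℝ)) = w := by rw [ha, LinearEquiv.apply_symm_apply]
    have hna := hnorm a
    rw [hJa] at hna
    have h2 := hev x a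
    rw [hJa] at h2
    have h3 : (w x) ^ 2 ≤ B ^ 2 * ‖a‖ ^ 2 := by
      rw [← sq_abs, ← mul_pow]
      exact pow_le_pow_left₀ (abs_nonneg _) h2 2
    rw [hwx, hna, hwE] at h3
    rw [hwE] at h1
    have h4 : 0 ≤ B ^ 2 := by positivity
    nlinarith [mul_le_mul_of_nonneg_left h1 h4]
  refine ⟨4 * (B ^ 2 * (1 + C')) + 1, by positivity, fun u hu x y => ?_⟩
  have h1 := hmain u hu x
  have h2 := hmain u hu y
  have h3 := D.nonneg u hu
  nlinarith [sq_nonneg ((u x - u x₀) + (u y - u x₀))]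

/-- [CAR-H2] completeness without the measure -/
theorem complete [IsFiniteMeasure μ] [μ.IsOpenPosMeasure] (D : DForm X μ) (x₀ : X)
    (u : ℕ → C(X, ℝ)) (hu : ∀ n, u n ∈ D.dom)
    (hE : ∀ ε > 0, ∃ N, ∀ m ≥ N, ∀ n ≥ N, D.E (u m - u n) (u m - u n) < ε)
    (h0 : CauchySeq fun n => u n x₀) :
    ∃ v ∈ D.dom, Tendsto (fun n => D.E (u n - v) (u n - v)) atTop (𝓝 0) ∧
      Tendsto u atTop (𝓝 v) := by
  obtain ⟨C, hC0, hC⟩ := D.morrey
  have : Nonempty X := ⟨x₀⟩
  have hsub : ∀ m n, u m - u n ∈ D.dom := fun m n => D.dom.sub_mem (hu m) (hu n)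
  -- uniform Cauchy
  have hcau : CauchySeq u := by
    rw [Metric.cauchySeq_iff]
    intro ε hε
    obtain ⟨N1, hN1⟩ := hE ((ε / 4) ^ 2 / C) (by positivity)
    obtain ⟨N2, hN2⟩ := Metric.cauchySeq_iff.1 h0 (ε / 4) (by positivity)
    refine ⟨max N1 N2, fun m hm n hn => ?_⟩
    have h1 := hN1 m (le_of_max_le_left hm) n (le_of_max_le_left hn)
    have h2 := hN2 m (le_of_max_le_right hm) n (le_of_max_le_right hn)
    rw [Real.dist_eq] at h2
    refine lt_of_le_of_lt ((ContinuousMap.dist_le (by positivity : (0 : ℝ) ≤ ε / 2)).2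
      fun x => ?_) (by linarith)
    rw [Real.dist_eq]
    have h3 := hC _ (hsub m n) x x₀
    simp only [ContinuousMap.sub_apply] at h3
    have h4 : (u m x - u n x - (u m x₀ - u n x₀)) ^ 2 < (ε / 4) ^ 2 := by
      refine lt_of_le_of_lt h3 ?_
      rwa [lt_div_iff₀ hC0, mul_comm] at h1
    have h5 : |u m x - u n x - (u m x₀ - u n x₀)| < ε / 4 := by
      have := abs_lt_of_sq_lt_sq h4 (by positivity)
      exact this
    have h6 : |u m x - u n x| ≤ |u m x - u n x - (u m x₀ - u n x₀)| + |u m x₀ - u n x₀| := by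
      have := abs_add_le (u m x - u n x - (u m x₀ - u n x₀)) (u m x₀ - u n x₀)
      simpa using this
    linarith
  obtain ⟨w, hw⟩ := cauchySeq_tendsto_of_complete hcau
  -- Cauchy for the norm of `D.closed`
  have hcl : ∀ ε > 0, ∃ N, ∀ m ≥ N, ∀ n ≥ N,
      D.E (u m - u n) (u m - u n) + ∫ x, (u m x - u n x) ^ 2 ∂μ < ε := by
    intro ε hε
    obtain ⟨N1, hN1⟩ := hE (ε / 2) (by positivity)
    set M : ℝ := μ.real univ + 1 with hM
    have hM0 : 0 < M := by positivity
    obtain ⟨N2, hN2⟩ := Metric.cauchySeq_iff.1 hcau (Real.sqrt (ε / 4 / M)) (by positivity)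
    refine ⟨max N1 N2, fun m hm n hn => ?_⟩
    have h1 := hN1 m (le_of_max_le_left hm) n (le_of_max_le_left hn)
    have h2 := hN2 m (le_of_max_le_right hm) n (le_of_max_le_right hn)
    have h3 : ∀ x, (u m x - u n x) ^ 2 ≤ ε / 4 / M := by
      intro x
      have h4 : |u m x - u n x| ≤ Real.sqrt (ε / 4 / M) := by
        rw [← Real.dist_eq]
        exact (ContinuousMap.dist_apply_le_dist x).trans h2.le
      rw [← sq_abs, ← Real.sq_sqrt (show (0 : ℝ) ≤ ε / 4 / M by positivity)]
      exact pow_le_pow_left₀ (abs_nonneg _) h4 2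
    have h5 : ∫ x, (u m x - u n x) ^ 2 ∂μ ≤ ∫ _x, ε / 4 / M ∂μ := by
      refine integral_mono (integrable_of ?_) (integrable_const _) h3
      fun_prop
    rw [integral_const, smul_eq_mul] at h5
    have h6 : μ.real univ * (ε / 4 / M) ≤ ε / 4 := by
      have : μ.real univ ≤ M := by linarith
      calc μ.real univ * (ε / 4 / M) ≤ M * (ε / 4 / M) :=
            mul_le_mul_of_nonneg_right this (by positivity)
        _ = ε / 4 := by field_simp
    linarith
  obtain ⟨v, hv, hlim⟩ := D.closed u hu hcl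
  have hEv : Tendsto (fun n => D.E (u n - v) (u n - v)) atTop (𝓝 0) := by
    refine squeeze_zero (fun n => D.nonneg _ (D.dom.sub_mem (hu n) hv)) (fun n => ?_) hlim
    have : 0 ≤ ∫ x, (u n x - v x) ^ 2 ∂μ := integral_nonneg fun x => sq_nonneg _
    linarith
  have hIv : Tendsto (fun n => ∫ x, (u n x - v x) ^ 2 ∂μ) atTop (𝓝 0) := by
    refine squeeze_zero (fun n => integral_nonneg fun x => sq_nonneg _) (fun n => ?_) hlim
    have := D.nonneg _ (D.dom.sub_mem (hu n) hv)
    linarith
  have hIw : Tendsto (fun n => ∫ x, (u n x - v x) ^ 2 ∂μ) atTop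
      (𝓝 (∫ x, (w x - v x) ^ 2 ∂μ)) := by
    have hbd : ∃ K : ℝ, ∀ n, ‖u n‖ ≤ K := by
      obtain ⟨K, hK⟩ := (Metric.isBounded_range_of_tendsto u hw).exists_norm_le
      exact ⟨K, fun n => hK _ (mem_range_self n)⟩
    obtain ⟨K, hK⟩ := hbd
    refine tendsto_integral_of_dominated_convergence (fun _ => (K + ‖v‖) ^ 2) ?_
      (integrable_const _) ?_ ?_
    · intro n
      have : Continuous fun x => (u n x - v x) ^ 2 := by fun_prop
      exact this.aestronglyMeasurable
    · intro n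
      refine Eventually.of_forall fun x => ?_
      rw [Real.norm_eq_abs, abs_pow]
      refine pow_le_pow_left₀ (abs_nonneg _) ?_ 2
      have h1 : |u n x| ≤ K := (ContinuousMap.norm_coe_le_norm (u n) x).trans (hK n)
      have h2 : |v x| ≤ ‖v‖ := ContinuousMap.norm_coe_le_norm v x
      exact (abs_sub _ _).trans (add_le_add h1 h2)
    · refine Eventually.of_forall fun x => ?_
      have h1 : Tendsto (fun n => u n x) atTop (𝓝 (w x)) :=
        ((continuous_eval_const (F := C(X, ℝ)) x).tendsto w).comp hw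
      exact (h1.sub tendsto_const_nhds).pow 2
  have hI0 : ∫ x, (w x - v x) ^ 2 ∂μ = 0 := tendsto_nhds_unique hIw hIv
  have hc : Continuous fun x => (w x - v x) ^ 2 := by fun_prop
  have hae : (fun x => (w x - v x) ^ 2) =ᵐ[μ] 0 :=
    (integral_eq_zero_iff_of_nonneg (fun x => sq_nonneg _) (integrable_of hc)).1 hI0
  have heq : (fun x => (w x - v x) ^ 2) = 0 :=
    (hc.ae_eq_iff_eq μ continuous_const).1 hae
  have hwv : w = v := by
    ext x
    have := congrFun heq x
    simp only [Pi.zero_apply] at this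
    exact sub_eq_zero.1 (pow_eq_zero_iff two_ne_zero |>.1 this)
  refine ⟨v, hv, hEv, ?_⟩
  rw [← hwv]; exact hw

end DForm

end CAR
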