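import Pool.Agent.MP_eabe7c_an.Defs
import Pool.Agent.MP_d0c340_co.Brouwer3

open Set Topology Filter

namespace CAR

/-- [CAR-R] two paths in a rectangle, bottom–top and left–right, meet -/
theorem rect_crossing {A B C D : ℝ} {S S' : Set (ℝ × ℝ)} (hS : S ⊆ Icc A B ×ˢ Icc C D)
    (hS' : S' ⊆ Icc A B ×ˢ Icc C D) {x y x' y' : ℝ × ℝ} (hxy : JoinedIn S x y)
    (hx : x.2 = C) (hy : y.2 = D) (hxy' : JoinedIn S' x' y') (hx' : x'.1 = A)
    (hy' : y'.1 = B) : (S ∩ S').Nonempty := by
  classical
  obtain ⟨α, hα⟩ := hxy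
  obtain ⟨β, hβ⟩ := hxy'
  have hαS : ∀ s : ℝ, α.extend s ∈ S := by
    intro s
    have : α.extend s ∈ Set.range α.extend := ⟨s, rfl⟩
    rw [Path.extend_range] at this
    obtain ⟨u, hu⟩ := this
    rw [← hu]
    exact hα u
  have hβS : ∀ s : ℝ, β.extend s ∈ S' := by
    intro s
    have : β.extend s ∈ Set.range β.extend := ⟨s, rfl⟩
    rw [Path.extend_range] at this
    obtain ⟨u, hu⟩ := this
    rw [← hu]
    exact hβ u
  have hαc : Continuous α.extend := α.continuous_extend
  have hβc : Continuous β.extend := β.continuous_extend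
  let K : Set (ℝ × ℝ) := Icc 0 1 ×ˢ Icc 0 1
  let F : ℝ × ℝ → ℝ × ℝ := fun p =>
    (max 0 (min 1 (p.1 - ((α.extend p.1).2 - (β.extend p.2).2))),
      max 0 (min 1 (p.2 + ((α.extend p.1).1 - (β.extend p.2).1))))
  have hFc : Continuous F := by
    have h1 : Continuous fun p : ℝ × ℝ => α.extend p.1 := hαc.comp continuous_fst
    have h2 : Continuous fun p : ℝ × ℝ => β.extend p.2 := hβc.comp continuous_snd
    exact (continuous_const.max (continuous_const.min (continuous_fst.sub
      ((continuous_snd.comp h1).sub (continuous_snd.comp h2))))).prodMk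
      (continuous_const.max (continuous_const.min (continuous_snd.add
      ((continuous_fst.comp h1).sub (continuous_fst.comp h2)))))
  have hcl : ∀ z : ℝ, max 0 (min 1 z) ∈ Icc (0:ℝ) 1 := by
    intro z
    exact ⟨le_max_left _ _, max_le zero_le_one (min_le_left _ _)⟩
  obtain ⟨p, hp, hpF⟩ := MPd0c340.brouwer_convex K (isCompact_Icc.prod isCompact_Icc)
    ((convex_Icc 0 1).prod (convex_Icc 0 1))
    ⟨(0, 0), ⟨⟨le_rfl, zero_le_one⟩, ⟨le_rfl, zero_le_one⟩⟩⟩ F hFc.continuousOn
    (fun q _ => ⟨hcl _, hcl _⟩)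
  obtain ⟨⟨hs0, hs1⟩, ⟨ht0, ht1⟩⟩ := hp
  have e1 : max 0 (min 1 (p.1 - ((α.extend p.1).2 - (β.extend p.2).2))) = p.1 :=
    congrArg Prod.fst hpF
  have e2 : max 0 (min 1 (p.2 + ((α.extend p.1).1 - (β.extend p.2).1))) = p.2 :=
    congrArg Prod.snd hpF
  have hA := hS (hαS p.1)
  have hB := hS' (hβS p.2)
  have g1 : (α.extend p.1).2 = (β.extend p.2).2 := by
    rcases lt_trichotomy ((α.extend p.1).2) ((β.extend p.2).2) with hlt | heq | hgt
    · exfalso
      have h1 : p.1 = 1 := by
        by_contra hne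
        have h2 : p.1 < 1 := lt_of_le_of_ne hs1 hne
        have h3 : p.1 < min 1 (p.1 - ((α.extend p.1).2 - (β.extend p.2).2)) :=
          lt_min h2 (by linarith)
        have h4 := le_max_right (0:ℝ) (min 1 (p.1 - ((α.extend p.1).2 - (β.extend p.2).2)))
        linarith
      have h5 : α.extend p.1 = y := by rw [h1]; exact Path.extend_one α
      rw [h5, hy] at hlt
      exact absurd hB.2.2 (not_le.2 hlt)
    · exact heq
    · exfalso
      have h1 : p.1 = 0 := by
        by_contra hne
        have h2 : 0 < p.1 := lt_of_le_of_ne hs0 (Ne.symm hne)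
        have h3 : max 0 (min 1 (p.1 - ((α.extend p.1).2 - (β.extend p.2).2))) < p.1 :=
          max_lt h2 (lt_of_le_of_lt (min_le_right _ _) (by linarith))
        linarith
      have h5 : α.extend p.1 = x := by rw [h1]; exact Path.extend_zero α
      rw [h5, hx] at hgt
      exact absurd hB.2.1 (not_le.2 hgt)
  have g2 : (α.extend p.1).1 = (β.extend p.2).1 := by
    rcases lt_trichotomy ((α.extend p.1).1) ((β.extend p.2).1) with hlt | heq | hgt
    · exfalso
      have h1 : p.2 = 0 := by
        by_contra hne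
        have h2 : 0 < p.2 := lt_of_le_of_ne ht0 (Ne.symm hne)
        have h3 : max 0 (min 1 (p.2 + ((α.extend p.1).1 - (β.extend p.2).1))) < p.2 :=
          max_lt h2 (lt_of_le_of_lt (min_le_right _ _) (by linarith))
        linarith
      have h5 : β.extend p.2 = x' := by rw [h1]; exact Path.extend_zero β
      rw [h5, hx'] at hlt
      exact absurd hA.1.1 (not_le.2 hlt)
    · exact heq
    · exfalso
      have h1 : p.2 = 1 := by
        by_contra hne
        have h2 : p.2 < 1 := lt_of_le_of_ne ht1 hne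
        have h3 : p.2 < min 1 (p.2 + ((α.extend p.1).1 - (β.extend p.2).1)) :=
          lt_min h2 (by linarith)
        have h4 := le_max_right (0:ℝ) (min 1 (p.2 + ((α.extend p.1).1 - (β.extend p.2).1)))
        linarith
      have h5 : β.extend p.2 = y' := by rw [h1]; exact Path.extend_one β
      rw [h5, hy'] at hgt
      exact absurd hA.1.2 (not_le.2 hgt)
  refine ⟨α.extend p.1, hαS _, ?_⟩
  have : α.extend p.1 = β.extend p.2 := Prod.ext g2 g1
  rw [this]
  exact hβS _

end CAR
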